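import Pool.Agent.H951R3.PB.Defs

/-! A1: well separated unit vectors from roots of unity of prime order (helper49) -/

set_option autoImplicit false

namespace Pool.Agent.H951R3.PB

open Real Filter Topology

universe u

/-- a nonnegative real with `x ^ l = 1`, `l > 0`, is one -/
theorem A1_abs_root {L : Type u} [Field L] (w : AbsoluteValue L ℝ) {ζ : L} {l : ℕ} (hl : l ≠ 0)
    (h : ζ ^ l = 1) : w ζ = 1 := by
  have h1 : w ζ ^ l = 1 := by rw [← w.map_pow, h, w.map_one]
  exact (pow_eq_one_iff_of_nonneg (w.nonneg ζ) hl).1 h1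

/-- gap between the roots of unity of order `l` -/
theorem A1_gap {L : Type u} [Field L] (w : AbsoluteValue L ℝ) {ζ : L} {l : ℕ} (hl : l ≠ 0)
    (hζ : IsPrimitiveRoot ζ l) {c : ℝ} (hc : 1 ≤ c) (hb : ∀ k, w (1 - ζ ^ k) ≤ c) {k : ℕ}
    (hk0 : 0 < k) (hk : k < l) : w (l : L) ≤ w (1 - ζ ^ k) * c ^ l := by
  obtain ⟨n, rfl⟩ : ∃ n, l = n + 1 := ⟨l - 1, by omega⟩
  have h := hζ.prod_one_sub_pow_eq_order
  have hmem : k - 1 ∈ Finset.range n := by
    rw [Finset.mem_range]; omega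
  have h2 : w ((n : L) + 1) = ∏ k ∈ Finset.range n, w (1 - ζ ^ (k + 1)) := by
    rw [← h, map_prod]
  rw [Nat.cast_add, Nat.cast_one, h2, ← Finset.mul_prod_erase _ _ hmem]
  have h3 : k - 1 + 1 = k := by omega
  rw [h3]
  refine mul_le_mul_of_nonneg_left ?_ (w.nonneg _)
  calc ∏ x ∈ (Finset.range n).erase (k - 1), w (1 - ζ ^ (x + 1))
      ≤ ∏ _x ∈ (Finset.range n).erase (k - 1), c :=
        Finset.prod_le_prod (fun _ _ => w.nonneg _) (fun _ _ => hb _)
    _ = c ^ ((Finset.range n).erase (k - 1)).card := by rw [Finset.prod_const]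
    _ ≤ c ^ (n + 1) := by
        apply pow_le_pow_right₀ hc
        calc _ ≤ (Finset.range n).card := Finset.card_le_card (Finset.erase_subset _ _)
          _ ≤ n + 1 := by simp

/-- the grid of roots of unity -/
theorem A1_grid {L : Type u} [Field L] (w : AbsoluteValue L ℝ) {ζ : L} {l M : ℕ}
    (hM : M ≤ l) (hl : l ≠ 0) (hζ : IsPrimitiveRoot ζ l) {c : ℝ} (hc : 1 ≤ c)
    (hb : ∀ k, w (1 - ζ ^ k) ≤ c) :
    ∃ s : Fin M → Fin 2 → L, (∀ i, nrm w (s i) = 1) ∧
      ∀ i j, i ≠ j → w (l : L) ≤ w (wd (s i) (s j)) * c ^ l := by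
  have hζ1 : ∀ i : ℕ, w (ζ ^ i) = 1 := by
    intro i
    rw [w.map_pow, A1_abs_root w hl hζ.pow_eq_one, one_pow]
  have key : ∀ i j : ℕ, i < j → j < l → w (l : L) ≤ w (ζ ^ j - ζ ^ i) * c ^ l := by
    intro i j hij hj
    have h1 := A1_gap w hl hζ hc hb (k := j - i) (by omega) (by omega)
    have h2 : ζ ^ j - ζ ^ i = ζ ^ i * (ζ ^ (j - i) - 1) := by
      rw [mul_sub, ← pow_add, mul_one]
      congr 2
      omega
    rw [h2, w.map_mul, hζ1, one_mul, w.map_sub]
    exact h1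
  refine ⟨fun i => ![1, ζ ^ (i : ℕ)], fun i => ?_, fun i j hij => ?_⟩
  · simp [nrm, A1_abs_root w hl hζ.pow_eq_one]
  · have hij' : (i : ℕ) ≠ j := fun h => hij (Fin.ext h)
    simp only [wd, Matrix.cons_val_zero, Matrix.cons_val_one, one_mul, mul_one]
    rcases lt_or_gt_of_ne hij' with h | h
    · exact key _ _ h (lt_of_lt_of_le j.2 hM)
    · rw [w.map_sub]
      exact key _ _ h (lt_of_lt_of_le i.2 hM)

/-- two distinct primes larger than `M` and a Bezout relation -/
theorem A1_primes (M : ℕ) : ∃ (l l' : ℕ) (a b : ℤ), M ≤ l ∧ M ≤ l' ∧ l ≠ 0 ∧ l' ≠ 0 ∧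
    a * l + b * l' = 1 := by
  obtain ⟨l, hl1, hl2⟩ := Nat.exists_infinite_primes (M + 1)
  obtain ⟨l', hl'1, hl'2⟩ := Nat.exists_infinite_primes (l + 1)
  have hne : l ≠ l' := by omega
  have hco : Nat.Coprime l l' := (Nat.coprime_primes hl2 hl'2).2 hne
  refine ⟨l, l', Nat.gcdA l l', Nat.gcdB l l', by omega, by omega, by omega, by omega, ?_⟩
  have := Nat.gcd_eq_gcd_ab l l'
  rw [hco.gcd_eq_one] at this
  push_cast at this
  linarith [mul_comm (l : ℤ) (Nat.gcdA l l'), mul_comm (l' : ℤ) (Nat.gcdB l l')]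

theorem A1_int_le {L : Type u} [Field L] (w : AbsoluteValue L ℝ) (a : ℤ) :
    w (a : L) ≤ (|a| : ℤ) := by
  rw [← w.apply_natAbs_eq a, Int.abs_eq_natAbs, Int.cast_natCast]
  exact w.apply_nat_le_self _

/-- A1 -/
theorem grid (M : ℕ) : ∃ δ : ℝ, 0 < δ ∧ δ ≤ 1 ∧ ∀ (L : Type u) [Field L] [IsAlgClosed L]
    [CharZero L] (w : AbsoluteValue L ℝ), ∃ s : Fin M → Fin 2 → L, (∀ i, nrm w (s i) = 1) ∧
      ∀ i j, i ≠ j → δ ≤ w (wd (s i) (s j)) := by
  obtain ⟨l, l', a, b, hMl, hMl', hl0, hl'0, hab⟩ := A1_primes M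
  set A : ℝ := (|a| : ℤ) + (|b| : ℤ) with hA
  have hA0 : 0 ≤ A := by
    have h1 : (0 : ℝ) ≤ (|a| : ℤ) := by exact_mod_cast abs_nonneg a
    have h2 : (0 : ℝ) ≤ (|b| : ℤ) := by exact_mod_cast abs_nonneg b
    linarith
  have hδ : 0 < 1 / ((A + 1) * 2 ^ (l + l')) := by positivity
  refine ⟨1 / ((A + 1) * 2 ^ (l + l')), hδ, ?_, ?_⟩
  · rw [div_le_one (by positivity)]
    have : (1 : ℝ) ≤ 2 ^ (l + l') := one_le_pow₀ (by norm_num)
    nlinarith
  · intro L _ _ _ w
    -- one of the two primes is not small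
    have h1 : (1 : ℝ) ≤ A * max (w (l : L)) (w (l' : L)) := by
      have e : (1 : L) = (a : L) * (l : L) + (b : L) * (l' : L) := by
        have := congrArg (Int.cast : ℤ → L) hab
        push_cast at this
        exact this.symm
      calc (1 : ℝ) = w (1 : L) := w.map_one.symm
        _ = w ((a : L) * (l : L) + (b : L) * (l' : L)) := by rw [← e]
        _ ≤ w ((a : L) * (l : L)) + w ((b : L) * (l' : L)) := w.add_le _ _
        _ = w (a : L) * w (l : L) + w (b : L) * w (l' : L) := by rw [w.map_mul, w.map_mul]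
        _ ≤ (|a| : ℤ) * max (w (l : L)) (w (l' : L)) +
              (|b| : ℤ) * max (w (l : L)) (w (l' : L)) := by
            exact add_le_add
              (mul_le_mul (A1_int_le w a) (le_max_left _ _) (w.nonneg _)
                (le_trans (w.nonneg _) (A1_int_le w a)))
              (mul_le_mul (A1_int_le w b) (le_max_right _ _) (w.nonneg _)
                (le_trans (w.nonneg _) (A1_int_le w b)))
        _ = A * max (w (l : L)) (w (l' : L)) := by rw [hA]; ring
    have main : ∀ q : ℕ, M ≤ q → q ≠ 0 → q ≤ l + l' →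
        max (w (l : L)) (w (l' : L)) = w (q : L) →
        ∃ s : Fin M → Fin 2 → L, (∀ i, nrm w (s i) = 1) ∧
          ∀ i j, i ≠ j → 1 / ((A + 1) * 2 ^ (l + l')) ≤ w (wd (s i) (s j)) := by
      intro q hMq hq0 hql hmax
      have : NeZero (q : L) := ⟨by exact_mod_cast hq0⟩
      obtain ⟨ζ, hζ⟩ := HasEnoughRootsOfUnity.exists_primitiveRoot L q
      have hb : ∀ k, w (1 - ζ ^ k) ≤ 2 := by
        intro k
        calc w (1 - ζ ^ k) ≤ w 1 + w (ζ ^ k) := w.sub_le_add _ _
          _ = 2 := by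
            rw [w.map_one, w.map_pow, A1_abs_root w hq0 hζ.pow_eq_one]
            norm_num
      obtain ⟨s, hs1, hs2⟩ := A1_grid w hMq hq0 hζ (c := 2) (by norm_num) hb
      refine ⟨s, hs1, fun i j hij => ?_⟩
      have h3 := hs2 i j hij
      rw [hmax] at h1
      have h4 : (2 : ℝ) ^ q ≤ 2 ^ (l + l') := pow_le_pow_right₀ (by norm_num) hql
      have h5 : w (q : L) ≤ w (wd (s i) (s j)) * 2 ^ (l + l') :=
        h3.trans (mul_le_mul_of_nonneg_left h4 (w.nonneg _))
      rw [div_le_iff₀ (by positivity)]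
      have h6 : (1 : ℝ) ≤ (A + 1) * w (q : L) := by
        nlinarith [w.nonneg (q : L)]
      calc (1 : ℝ) ≤ (A + 1) * w (q : L) := h6
        _ ≤ (A + 1) * (w (wd (s i) (s j)) * 2 ^ (l + l')) := by gcongr
        _ = w (wd (s i) (s j)) * ((A + 1) * 2 ^ (l + l')) := by ring
    rcases le_total (w (l : L)) (w (l' : L)) with h | h
    · exact main l' hMl' hl'0 (by omega) (max_eq_right h)
    · exact main l hMl hl0 (by omega) (max_eq_left h)

/-- A1 -/
theorem grid_na (M : ℕ) {L : Type u} [Field L] [IsAlgClosed L] [CharZero L]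
    (w : AbsoluteValue L ℝ) (hw : IsNonarchimedean w) : ∃ s : Fin M → Fin 2 → L,
      (∀ i, nrm w (s i) = 1) ∧ ∀ i j, i ≠ j → w (wd (s i) (s j)) = 1 := by
  obtain ⟨l, l', a, b, hMl, hMl', hl0, hl'0, hab⟩ := A1_primes M
  have hint : ∀ n : ℤ, w (n : L) ≤ 1 := fun n => hw.apply_intCast_le_one
  have h1 : (1 : ℝ) ≤ max (w (l : L)) (w (l' : L)) := by
    have e : (1 : L) = (a : L) * (l : L) + (b : L) * (l' : L) := by
      have := congrArg (Int.cast : ℤ → L) hab
      push_cast at this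
      exact this.symm
    calc (1 : ℝ) = w (1 : L) := w.map_one.symm
      _ = w ((a : L) * (l : L) + (b : L) * (l' : L)) := by rw [← e]
      _ ≤ max (w ((a : L) * (l : L))) (w ((b : L) * (l' : L))) := hw _ _
      _ = max (w (a : L) * w (l : L)) (w (b : L) * w (l' : L)) := by rw [w.map_mul, w.map_mul]
      _ ≤ max (1 * w (l : L)) (1 * w (l' : L)) := by
          gcongr
          · exact hint a
          · exact hint b
      _ = max (w (l : L)) (w (l' : L)) := by rw [one_mul, one_mul]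
  have main : ∀ q : ℕ, M ≤ q → q ≠ 0 → max (w (l : L)) (w (l' : L)) = w (q : L) →
      ∃ s : Fin M → Fin 2 → L, (∀ i, nrm w (s i) = 1) ∧
        ∀ i j, i ≠ j → w (wd (s i) (s j)) = 1 := by
    intro q hMq hq0 hmax
    have : NeZero (q : L) := ⟨by exact_mod_cast hq0⟩
    obtain ⟨ζ, hζ⟩ := HasEnoughRootsOfUnity.exists_primitiveRoot L q
    have hb : ∀ k, w (1 - ζ ^ k) ≤ 1 := by
      intro k
      calc w (1 - ζ ^ k) = w (1 + -ζ ^ k) := by rw [sub_eq_add_neg]
        _ ≤ max (w 1) (w (-ζ ^ k)) := hw _ _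
        _ = 1 := by
          rw [w.map_one, w.map_neg, w.map_pow, A1_abs_root w hq0 hζ.pow_eq_one]
          norm_num
    obtain ⟨s, hs1, hs2⟩ := A1_grid w hMq hq0 hζ (c := 1) le_rfl hb
    refine ⟨s, hs1, fun i j hij => le_antisymm ?_ ?_⟩
    · have hle : ∀ i k, w (s i k) ≤ 1 := by
        intro i k
        rw [← hs1 i]
        fin_cases k
        · exact le_max_left _ _
        · exact le_max_right _ _
      unfold wd
      calc w (s i 0 * s j 1 - s i 1 * s j 0) = w (s i 0 * s j 1 + -(s i 1 * s j 0)) := by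
            rw [sub_eq_add_neg]
        _ ≤ max (w (s i 0 * s j 1)) (w (-(s i 1 * s j 0))) := hw _ _
        _ ≤ 1 := by
          rw [w.map_neg, w.map_mul, w.map_mul]
          exact max_le (mul_le_one₀ (hle _ _) (w.nonneg _) (hle _ _))
            (mul_le_one₀ (hle _ _) (w.nonneg _) (hle _ _))
    · have h3 := hs2 i j hij
      rw [one_pow, mul_one] at h3
      rw [hmax] at h1
      exact h1.trans h3
  rcases le_total (w (l : L)) (w (l' : L)) with h | h
  · exact main l' hMl' hl'0 (max_eq_right h)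
  · exact main l hMl hl0 (max_eq_left h)

end Pool.Agent.H951R3.PB
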