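import Mathlib

/-!
# Preperiodic points of rational functions: definitions (helper951)

`L` is an algebraically closed field with an absolute value `w`; vectors are `Fin 2 → L`; a
rational function of degree `d` is a map `F` of the plane given by two forms of degree `d`.
-/

set_option autoImplicit false

namespace Pool.Agent.H951R3.PB

open Real Filter Topology

universe u

section defs

variable {L : Type u} [Field L]

/-- the wedge product `x ∧ y` -/
def wd (x y : Fin 2 → L) : L := x 0 * y 1 - x 1 * y 0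

/-- the sup norm -/
noncomputable def nrm (w : AbsoluteValue L ℝ) (x : Fin 2 → L) : ℝ := max (w (x 0)) (w (x 1))

/-- `λ(x,y) = - log (|x ∧ y| / (‖x‖ ‖y‖))` -/
noncomputable def lam (w : AbsoluteValue L ℝ) (x y : Fin 2 → L) : ℝ :=
  log (nrm w x) + log (nrm w y) - log (w (wd x y))

/-- Fibre data of `F` (of degree `D`) over the unit vector `u`:
`u ∧ F(x) = C ∏ (x ∧ z j)`, `z j` unit vectors with `F (z j) = c_j u`, and the logarithm of the
resultant: `D log |C| + ∑ log |c_j| = r`. -/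
structure FibAt (w : AbsoluteValue L ℝ) (F : (Fin 2 → L) → Fin 2 → L) (D : ℕ) (r : ℝ)
    (u : Fin 2 → L) (C : L) (z : Fin D → Fin 2 → L) : Prop where
  C_ne : C ≠ 0
  unit : ∀ j, nrm w (z j) = 1
  fac : ∀ x, wd u (F x) = C * ∏ j, wd x (z j)
  img : ∀ j, ∃ c : L, c ≠ 0 ∧ F (z j) = c • u
  res : D * log (w C) + ∑ j, log (nrm w (F (z j))) = r

/-- `F` has degree `D` and logarithmic resultant `r` -/
def Fib (w : AbsoluteValue L ℝ) (F : (Fin 2 → L) → Fin 2 → L) (D : ℕ) (r : ℝ) : Prop :=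
  ∀ u, nrm w u = 1 → ∃ (C : L) (z : Fin D → Fin 2 → L), FibAt w F D r u C z

/-- `S = sup of log ‖F x‖` over the unit vectors -/
noncomputable def Ssup (w : AbsoluteValue L ℝ) (F : (Fin 2 → L) → Fin 2 → L) : ℝ :=
  ⨆ x : {x : Fin 2 → L // nrm w x = 1}, log (nrm w (F x.1))

/-- the size `t = - r + 2 D S` -/
noncomputable def tt (w : AbsoluteValue L ℝ) (F : (Fin 2 → L) → Fin 2 → L) (D : ℕ) (r : ℝ) : ℝ :=
  -r + 2 * D * Ssup w F

/-- the Green function `G(x) = lim d^{-n} log ‖F^n x‖` -/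
noncomputable def Gr (w : AbsoluteValue L ℝ) (F : (Fin 2 → L) → Fin 2 → L) (d : ℕ)
    (x : Fin 2 → L) : ℝ :=
  limUnder atTop (fun n : ℕ => log (nrm w (F^[n] x)) / (d : ℝ) ^ n)

/-- `τ = - r / (d (d-1))` -/
noncomputable def ta (d : ℕ) (r : ℝ) : ℝ := -r / (d * (d - 1))

/-- the normalised Green pairing -/
noncomputable def gg (w : AbsoluteValue L ℝ) (F : (Fin 2 → L) → Fin 2 → L) (d : ℕ) (r : ℝ)
    (x y : Fin 2 → L) : ℝ :=
  -log (w (wd x y)) + Gr w F d x + Gr w F d y + ta d r

/-- `x ↦ x₀ a + x₁ b` -/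
def emb (a b x : Fin 2 → L) : Fin 2 → L := x 0 • a + x 1 • b

/-- coordinates with respect to `a, b` -/
def coo (a b y : Fin 2 → L) : Fin 2 → L := ![wd y b / wd a b, wd a y / wd a b]

/-- conjugate of `F` by the linear map `emb a b` -/
def cj (a b : Fin 2 → L) (F : (Fin 2 → L) → Fin 2 → L) (x : Fin 2 → L) : Fin 2 → L :=
  coo a b (F (emb a b x))

/-- logarithmic resultant of the conjugate -/
noncomputable def cr (w : AbsoluteValue L ℝ) (d : ℕ) (r : ℝ) (a b : Fin 2 → L) : ℝ :=
  r + ((d : ℝ) ^ 2 - d) * log (w (wd a b))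

/-- minimal size over all coordinates -/
noncomputable def mm (w : AbsoluteValue L ℝ) (F : (Fin 2 → L) → Fin 2 → L) (d : ℕ) (r : ℝ) : ℝ :=
  ⨅ p : {p : (Fin 2 → L) × (Fin 2 → L) // wd p.1 p.2 ≠ 0},
    tt w (cj p.1.1 p.1.2 F) d (cr w d r p.1.1 p.1.2)

/-- exponent of the resultant of an iterate -/
def kap (d : ℕ) : ℕ → ℕ
  | 0 => 0
  | k + 1 => d ^ k + d ^ 2 * kap d k

/-- exponent of the resultant in the loss determinant -/
def ee (d : ℕ) : ℕ → ℕ
  | 0 => 0
  | m + 1 => d * ee d m + d ^ m * (d ^ m - 1) / 2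

noncomputable def sg (w : AbsoluteValue L ℝ) (F : (Fin 2 → L) → Fin 2 → L) (d i : ℕ) : ℝ :=
  Ssup w (F^[i]) / (d : ℝ) ^ i

/-- the energies `E_{ij}` of the pullbacks of the Gauss point -/
noncomputable def EE (w : AbsoluteValue L ℝ) (F : (Fin 2 → L) → Fin 2 → L) (d : ℕ) (r : ℝ)
    (i j : ℕ) : ℝ :=
  ta d r * (1 - 1 / (d : ℝ) ^ (min i j)) + sg w F d i + sg w F d j -
    sg w F d (max i j - min i j) / (d : ℝ) ^ (min i j)

/-- energy of `δ_p + δ_q - δ_r - δ_s` -/
def QQ (E : ℕ → ℕ → ℝ) (p q r s : ℕ) : ℝ :=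
  E p p + E q q + E r r + E s s + 2 * E p q + 2 * E r s - 2 * E p r - 2 * E p s - 2 * E q r -
    2 * E q s

/-- `u, u'` are in general position with respect to the iterates of order `≤ k` -/
def Gen (w : AbsoluteValue L ℝ) (F : (Fin 2 → L) → Fin 2 → L) (k : ℕ) (c : ℝ)
    (u u' : Fin 2 → L) : Prop :=
  ∀ i ≤ k, c * exp (Ssup w (F^[i])) ≤ w (wd u (F^[i] u')) ∧
    c * exp (Ssup w (F^[i])) ≤ w (wd u' (F^[i] u))

/-- evaluation of a pair of forms -/
noncomputable def ev (f : Fin 2 → MvPolynomial (Fin 2) L) (x : Fin 2 → L) : Fin 2 → L :=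
  fun i => MvPolynomial.eval x (f i)

/-- dehomogenisation `p(X, 1)` -/
noncomputable def dh (p : MvPolynomial (Fin 2) L) : Polynomial L :=
  MvPolynomial.aeval ![Polynomial.X, 1] p

/-- resultant of two forms of degree `d` -/
noncomputable def rs (f : Fin 2 → MvPolynomial (Fin 2) L) (d : ℕ) : L :=
  Polynomial.resultant (dh (f 0)) (dh (f 1)) d d

/-- Good reduction at `w` (used for `L` algebraically closed): the coefficients are integral, and
the reduction of `f` has no common zero over the residue field. -/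
def GoodAt (w : AbsoluteValue L ℝ) (f : Fin 2 → MvPolynomial (Fin 2) L) : Prop :=
  (∀ i m, w ((f i).coeff m) ≤ 1) ∧
    ∀ x : Fin 2 → L, (∀ i, w (x i) ≤ 1) → (∃ i, w (x i) = 1) →
      ∃ i, w (MvPolynomial.eval x (f i)) = 1

end defs

section K

variable (K : Type u) [Field K]

/-- the forms over the algebraic closure -/
noncomputable def fL (f : Fin 2 → MvPolynomial (Fin 2) K) :
    Fin 2 → MvPolynomial (Fin 2) (AlgebraicClosure K) :=
  fun i => (f i).map (algebraMap K (AlgebraicClosure K))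

/-- a `K`-rational vector over the algebraic closure -/
noncomputable def vL (x : Fin 2 → K) : Fin 2 → AlgebraicClosure K :=
  fun i => algebraMap K (AlgebraicClosure K) (x i)

variable {K}

/-- `w` extends `v` -/
def Ext (v : AbsoluteValue K ℝ) (w : AbsoluteValue (AlgebraicClosure K) ℝ) : Prop :=
  ∀ x : K, w (algebraMap K (AlgebraicClosure K) x) = v x

/-- Witness for potentially good reduction at the extension `w` of a place of `K`: there are
coordinates `A` over the algebraic closure in which a multiple of `f` has good reduction. -/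
def PotGoodAt (w : AbsoluteValue (AlgebraicClosure K) ℝ) (d : ℕ)
    (f : Fin 2 → MvPolynomial (Fin 2) K) : Prop :=
  ∃ g : Fin 2 → MvPolynomial (Fin 2) (AlgebraicClosure K), (∀ i, (g i).IsHomogeneous d) ∧
    GoodAt w g ∧ ∃ (A : Matrix (Fin 2) (Fin 2) (AlgebraicClosure K)) (c : AlgebraicClosure K),
      A.det ≠ 0 ∧ c ≠ 0 ∧ ∀ x : Fin 2 → AlgebraicClosure K,
        A.mulVec (ev g x) = c • ev (fL K f) (A.mulVec x)

/-- `f` has potentially good reduction at the place `v`: there are an extension of `v` to the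
algebraic closure and coordinates over the algebraic closure in which a multiple of `f` has good
reduction. -/
def PotGood (v : AbsoluteValue K ℝ) (d : ℕ) (f : Fin 2 → MvPolynomial (Fin 2) K) : Prop :=
  ∃ w : AbsoluteValue (AlgebraicClosure K) ℝ, Ext v w ∧ PotGoodAt w d f

/-- canonical height (times the degree of `K`) of a vector of `K²` -/
noncomputable def hcan [NumberField K] (d : ℕ) (f : Fin 2 → MvPolynomial (Fin 2) K)
    (x : Fin 2 → K) : ℝ :=
  limUnder atTop (fun n : ℕ => Height.logHeight ((ev f)^[n] x) / (d : ℝ) ^ n)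

/-- the vector `x` is preperiodic -/
def Pre (f : Fin 2 → MvPolynomial (Fin 2) K) (x : Fin 2 → K) : Prop :=
  ∃ m n : ℕ, m < n ∧ ∃ c : K, c ≠ 0 ∧ (ev f)^[n] x = c • (ev f)^[m] x

end K

end Pool.Agent.H951R3.PB
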