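import Mathlib
import Pool.Agent.H951R3.PB.Defs
import Pool.Agent.H951R3.PB.B1
import Pool.Agent.H951R3.PB.B2

/-! B3: iterates (helper418) -/

set_option autoImplicit false

namespace Pool.Agent.H951R3.PB

open Real Filter Topology

universe u

namespace B3

theorem nrm_smul {L : Type u} [Field L] (w : AbsoluteValue L ℝ) (a : L) (x : Fin 2 → L) :
    nrm w (a • x) = w a * nrm w x := by
  unfold nrm
  simp only [Pi.smul_apply, smul_eq_mul, map_mul]
  rw [mul_max_of_nonneg _ _ (w.nonneg a)]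

theorem nrm_pos {L : Type u} [Field L] (w : AbsoluteValue L ℝ) {x : Fin 2 → L} (hx : x ≠ 0) :
    0 < nrm w x := by
  unfold nrm
  by_contra h
  push Not at h
  apply hx
  have h0 := (le_max_left (w (x 0)) (w (x 1))).trans h
  have h1 := (le_max_right (w (x 0)) (w (x 1))).trans h
  have e0 : x 0 = 0 := w.eq_zero.1 (le_antisymm h0 (w.nonneg _))
  have e1 : x 1 = 0 := w.eq_zero.1 (le_antisymm h1 (w.nonneg _))
  funext i
  fin_cases i
  · exact e0
  · exact e1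

theorem ne_zero_of_unit {L : Type u} [Field L] (w : AbsoluteValue L ℝ) {x : Fin 2 → L}
    (hx : nrm w x = 1) : x ≠ 0 := by
  rintro rfl
  simp [nrm] at hx

theorem unit_e0 {L : Type u} [Field L] (w : AbsoluteValue L ℝ) : nrm w ![(1 : L), 0] = 1 := by
  simp [nrm]

theorem exists_unit {L : Type u} [Field L] (w : AbsoluteValue L ℝ) {x : Fin 2 → L} (hx : x ≠ 0) :
    ∃ (a : L) (y : Fin 2 → L), a ≠ 0 ∧ nrm w y = 1 ∧ x = a • y ∧ w a = nrm w x := by
  have hpos := nrm_pos w hx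
  obtain ⟨i, hi⟩ : ∃ i : Fin 2, w (x i) = nrm w x := by
    unfold nrm
    rcases max_choice (w (x 0)) (w (x 1)) with h | h
    · exact ⟨0, h.symm⟩
    · exact ⟨1, h.symm⟩
  have hne : x i ≠ 0 := by
    intro h
    rw [h, map_zero] at hi
    exact absurd hi hpos.ne
  refine ⟨x i, (x i)⁻¹ • x, hne, ?_, ?_, hi⟩
  · rw [nrm_smul, map_inv₀, hi, inv_mul_cancel₀ hpos.ne']
  · rw [smul_smul, mul_inv_cancel₀ hne, one_smul]

theorem kap_real (d k : ℕ) : (kap d k : ℝ) * (d * (d - 1)) = (d : ℝ) ^ k * ((d : ℝ) ^ k - 1) := by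
  induction k with
  | zero => simp [kap]
  | succ k ih =>
    rw [kap]
    push_cast
    have : (((d : ℝ) ^ k + (d : ℝ) ^ 2 * kap d k) * (d * (d - 1))) =
        (d : ℝ) ^ k * (d * (d - 1)) + (d : ℝ) ^ 2 * ((kap d k : ℝ) * (d * (d - 1))) := by ring
    rw [this, ih]
    ring

end B3

/-- B3 -/
theorem Ssup_iter {L : Type u} [Field L] [IsAlgClosed L] [CharZero L] {w : AbsoluteValue L ℝ}
    {F : (Fin 2 → L) → Fin 2 → L} {d : ℕ} (hd : 2 ≤ d) {r : ℝ} (hF : Fib w F d r) (k : ℕ) :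
    Ssup w (F^[k]) ≤ ((d : ℝ) ^ k - 1) / (d - 1) * Ssup w F := by
  have hd' : (0 : ℝ) < (d : ℝ) - 1 := by
    have : (2 : ℝ) ≤ d := by exact_mod_cast hd
    linarith
  haveI : Nonempty {x : Fin 2 → L // nrm w x = 1} := ⟨⟨_, B3.unit_e0 w⟩⟩
  induction k with
  | zero =>
    simp only [pow_zero, sub_self, zero_div, zero_mul, Function.iterate_zero]
    apply ciSup_le
    rintro ⟨x, hx⟩
    simp [hx]
  | succ k ih =>
    apply ciSup_le
    rintro ⟨x, hx⟩
    simp only [Function.iterate_succ_apply']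
    have hx0 := B3.ne_zero_of_unit w hx
    have hy0 : F^[k] x ≠ 0 := fib_ne_zero (fib_iter hF k) hx0
    obtain ⟨a, y, ha, hy, hxy, hwa⟩ := B3.exists_unit w hy0
    obtain ⟨B, -, hB⟩ := fib_bounds d (by omega)
    obtain ⟨B', -, hB'⟩ := fib_bounds (d ^ k) (Nat.one_le_pow _ _ (by omega))
    have h1 := (hB L w F r hF).1 y hy
    have h2 := (hB' L w (F^[k]) _ (fib_iter hF k)).1 x hx
    have hFy : F y ≠ 0 := fib_ne_zero hF (B3.ne_zero_of_unit w hy)
    have h3 : log (nrm w (F (F^[k] x))) = d * log (nrm w (F^[k] x)) + log (nrm w (F y)) := by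
      conv_lhs => rw [hxy, fib_homog hF, B3.nrm_smul, map_pow]
      rw [log_mul (pow_ne_zero _ (by rw [hwa]; exact (B3.nrm_pos w hy0).ne'))
        (B3.nrm_pos w hFy).ne', log_pow, hwa]
    rw [h3]
    have h4 : ((d : ℝ) ^ (k + 1) - 1) / (d - 1) * Ssup w F =
        d * (((d : ℝ) ^ k - 1) / (d - 1) * Ssup w F) + Ssup w F := by
      field_simp
      ring
    rw [h4]
    have h5 : (d : ℝ) * log (nrm w (F^[k] x)) ≤ d * (((d : ℝ) ^ k - 1) / (d - 1) * Ssup w F) :=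
      mul_le_mul_of_nonneg_left (h2.trans ih) (by positivity)
    linarith

/-- B3 -/
theorem tt_iter {L : Type u} [Field L] [IsAlgClosed L] [CharZero L] {w : AbsoluteValue L ℝ}
    {F : (Fin 2 → L) → Fin 2 → L} {d : ℕ} (hd : 2 ≤ d) {r : ℝ} (hF : Fib w F d r) (k : ℕ) :
    tt w (F^[k]) (d ^ k) (kap d k * r) ≤ kap d k * tt w F d r := by
  have h2 : (2 : ℝ) ≤ d := by exact_mod_cast hd
  have hd' : (0 : ℝ) < (d : ℝ) - 1 := by linarith
  have hS := Ssup_iter hd hF k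
  unfold tt
  push_cast
  have h1 : 2 * (d : ℝ) ^ k * Ssup w (F^[k]) ≤
      2 * (d : ℝ) ^ k * (((d : ℝ) ^ k - 1) / (d - 1) * Ssup w F) :=
    mul_le_mul_of_nonneg_left hS (by positivity)
  have h3 : 2 * (d : ℝ) ^ k * (((d : ℝ) ^ k - 1) / (d - 1) * Ssup w F) =
      kap d k * (2 * d * Ssup w F) := by
    have hk := B3.kap_real d k
    have e : 2 * (d : ℝ) ^ k * (((d : ℝ) ^ k - 1) / (d - 1) * Ssup w F) =
        2 * ((d : ℝ) ^ k * ((d : ℝ) ^ k - 1)) / (d - 1) * Ssup w F := by ring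
    rw [e, ← hk]
    field_simp
  rw [h3] at h1
  linarith [h1]

/-- B3 -/
theorem tt_ge (d : ℕ) (hd : 2 ≤ d) : ∃ B : ℝ, 0 ≤ B ∧ ∀ (L : Type u) [Field L]
    [IsAlgClosed L] [CharZero L] (w : AbsoluteValue L ℝ) (F : (Fin 2 → L) → Fin 2 → L) (r : ℝ),
    Fib w F d r → -B ≤ tt w F d r := by
  obtain ⟨B, hB0, hB⟩ := fib_bounds.{u} d (by omega)
  refine ⟨B, hB0, ?_⟩
  intro L _ _ _ w F r hF
  obtain ⟨h1, -, -, h4⟩ := hB L w F r hF
  have := h1 _ (B3.unit_e0 w)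
  have := h4 _ (B3.unit_e0 w)
  linarith

end Pool.Agent.H951R3.PB
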