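import Mathlib
import Pool.Agent.H951R3.PB.Defs

/-!
# C1: the Cauchy determinant inequality (helper849 for helper951)
-/

set_option autoImplicit false

namespace Pool.Agent.H951R3.PB

open Real Filter Topology

universe u

/-- coefficients of a product of linear forms -/
theorem c1_coeffs {L : Type u} [Field L] {ι : Type*} [DecidableEq ι] (y : ι → Fin 2 → L)
    (s : Finset ι) : ∃ c : ℕ → L, ∀ x : Fin 2 → L,
      ∏ l ∈ s, wd x (y l) =
        ∑ k ∈ Finset.range (s.card + 1), x 0 ^ k * x 1 ^ (s.card - k) * c k := by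
  induction s using Finset.induction_on with
  | empty => exact ⟨fun _ => 1, fun x => by simp⟩
  | insert i s hi ih =>
    obtain ⟨c, hc⟩ := ih
    refine ⟨fun k => (if k = 0 then 0 else y i 1 * c (k - 1)) -
      (if k = s.card + 1 then 0 else y i 0 * c k), fun x => ?_⟩
    rw [Finset.prod_insert hi, hc, Finset.card_insert_of_notMem hi]
    simp only [mul_sub, Finset.sum_sub_distrib, wd, sub_mul]
    congr 1
    · rw [Finset.sum_range_succ' _ (s.card + 1), Finset.mul_sum]
      simp only [if_true, mul_zero, add_zero]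
      apply Finset.sum_congr rfl
      intro k hk
      have h1 : s.card + 1 - (k + 1) = s.card - k := by omega
      simp only [Nat.add_eq_zero_iff, one_ne_zero, and_false, if_false, h1,
        Nat.add_sub_cancel, pow_succ]
      ring
    · rw [Finset.sum_range_succ _ (s.card + 1), Finset.mul_sum]
      simp only [if_true, mul_zero, add_zero]
      apply Finset.sum_congr rfl
      intro k hk
      have hk' : k < s.card + 1 := Finset.mem_range.1 hk
      have h1 : s.card + 1 - k = (s.card - k) + 1 := by omega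
      rw [if_neg (by omega), h1, pow_succ]
      ring

theorem c1_wd_swap {L : Type u} [Field L] (w : AbsoluteValue L ℝ) (x y : Fin 2 → L) :
    w (wd x y) = w (wd y x) := by
  rw [← w.map_neg (wd y x)]
  congr 1
  simp only [wd]; ring

theorem c1_prod_ne {L : Type u} [Field L] (w : AbsoluteValue L ℝ) {n : ℕ}
    (y : Fin n → Fin 2 → L) :
    ∏ j, ∏ l ∈ Finset.univ.erase j, w (wd (y j) (y l)) =
      (∏ i, ∏ j ∈ Finset.Ioi i, w (wd (y i) (y j))) ^ 2 := by
  have h1 : ∀ j : Fin n, Finset.univ.erase j = Finset.Ioi j ∪ Finset.Iio j := by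
    intro j; ext l; simp only [Finset.mem_erase, Finset.mem_univ, and_true, Finset.mem_union,
      Finset.mem_Ioi, Finset.mem_Iio]
    constructor
    · intro h; rcases lt_or_gt_of_ne h with h | h
      · right; exact h
      · left; exact h
    · rintro (h | h)
      · exact ne_of_gt h
      · exact ne_of_lt h
  have h2 : ∀ j : Fin n, Disjoint (Finset.Ioi j) (Finset.Iio j) := by
    intro j; rw [Finset.disjoint_left]; intro a ha hb
    exact absurd (Finset.mem_Ioi.1 ha) (not_lt.2 (le_of_lt (Finset.mem_Iio.1 hb)))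
  simp only [h1]
  simp_rw [Finset.prod_union (h2 _)]
  rw [Finset.prod_mul_distrib, sq]
  congr 1
  rw [Finset.prod_sigma', Finset.prod_sigma']
  apply Finset.prod_nbij' (fun p => ⟨p.2, p.1⟩) (fun p => ⟨p.2, p.1⟩)
  · rintro ⟨a, b⟩ h; simp at h ⊢; exact h
  · rintro ⟨a, b⟩ h; simp at h ⊢; exact h
  · rintro ⟨a, b⟩ h; rfl
  · rintro ⟨a, b⟩ h; rfl
  · rintro ⟨a, b⟩ h; exact c1_wd_swap w _ _

theorem c1_det {L : Type u} [Field L] (w : AbsoluteValue L ℝ) {n : ℕ}
    (x y : Fin n → Fin 2 → L) (hyy : ∀ i j, i ≠ j → wd (y i) (y j) ≠ 0) :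
    w (Matrix.det (Matrix.of fun i j => ∏ l ∈ Finset.univ.erase j, wd (x i) (y l))) =
      (∏ i, ∏ j ∈ Finset.Ioi i, w (wd (x i) (x j))) *
        ∏ i, ∏ j ∈ Finset.Ioi i, w (wd (y i) (y j)) := by
  choose c hc using fun j : Fin n => c1_coeffs y (Finset.univ.erase j)
  set A : Matrix (Fin n) (Fin n) L := Matrix.of fun k j => c j k with hA
  have hcard : ∀ j : Fin n, (Finset.univ.erase j).card + 1 = n := by
    intro j
    rw [Finset.card_erase_of_mem (Finset.mem_univ _), Finset.card_univ, Fintype.card_fin]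
    have := j.pos
    omega
  have key : ∀ z : Fin n → Fin 2 → L,
      (Matrix.of fun i j => ∏ l ∈ Finset.univ.erase j, wd (z i) (y l)) =
        Matrix.projVandermonde (fun i => z i 0) (fun i => z i 1) * A := by
    intro z
    ext i j
    rw [Matrix.mul_apply, Matrix.of_apply, hc]
    have hn := hcard j
    rw [hn, Finset.sum_range]
    apply Finset.sum_congr rfl
    intro k _
    rw [Matrix.projVandermonde_apply, hA, Matrix.of_apply]
    congr 2
    have h1 : (Finset.univ.erase j).card - (k : ℕ) = (k.rev : ℕ) := by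
      rw [Fin.val_rev]; omega
    rw [h1]
  have hV : ∀ z : Fin n → Fin 2 → L,
      w (Matrix.det (Matrix.projVandermonde (fun i => z i 0) (fun i => z i 1))) =
        ∏ i, ∏ j ∈ Finset.Ioi i, w (wd (z i) (z j)) := by
    intro z
    rw [Matrix.det_projVandermonde, map_prod]
    apply Finset.prod_congr rfl
    intro i _
    rw [map_prod]
    apply Finset.prod_congr rfl
    intro j _
    rw [c1_wd_swap]
    congr 1
    simp only [wd]
    ring
  have hy := key y
  have hdiag : (Matrix.of fun i j => ∏ l ∈ Finset.univ.erase j, wd (y i) (y l)) =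
      Matrix.diagonal (fun j => ∏ l ∈ Finset.univ.erase j, wd (y j) (y l)) := by
    ext i j
    rw [Matrix.of_apply, Matrix.diagonal_apply]
    split_ifs with h
    · rw [h]
    · apply Finset.prod_eq_zero (i := i)
      · simp [h]
      · simp [wd, mul_comm]
  rw [hdiag] at hy
  have hy2 := congrArg (fun M => w (Matrix.det M)) hy
  simp only [Matrix.det_diagonal, Matrix.det_mul, map_mul, map_prod, hV] at hy2
  rw [c1_prod_ne] at hy2
  have hpos : ∏ i, ∏ j ∈ Finset.Ioi i, w (wd (y i) (y j)) ≠ 0 := by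
    rw [Finset.prod_ne_zero_iff]; intro i _
    rw [Finset.prod_ne_zero_iff]; intro j hj
    exact w.ne_zero_iff.2 (hyy i j (ne_of_lt (Finset.mem_Ioi.1 hj)))
  have hdA : w A.det = ∏ i, ∏ j ∈ Finset.Ioi i, w (wd (y i) (y j)) := by
    rw [sq] at hy2
    exact (mul_left_cancel₀ hpos hy2).symm
  rw [key x, Matrix.det_mul, map_mul, hV, hdA]

/-- C1: Cauchy determinant -/
theorem cauchy_ineq {L : Type u} [Field L] (w : AbsoluteValue L ℝ) {n : ℕ}
    (x y : Fin n → Fin 2 → L) (hx : ∀ i, nrm w (x i) = 1) (hy : ∀ i, nrm w (y i) = 1)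
    (hxx : ∀ i j, i ≠ j → wd (x i) (x j) ≠ 0) (hyy : ∀ i j, i ≠ j → wd (y i) (y j) ≠ 0)
    (hxy : ∀ i j, wd (x i) (y j) ≠ 0) (T : ℝ) (hT : ∀ i j, lam w (x i) (y j) ≤ T) :
    -log (n.factorial) - n * T ≤
      ∑ i, ∑ j ∈ Finset.Ioi i, (lam w (x i) (x j) + lam w (y i) (y j)) -
        ∑ i, ∑ j, lam w (x i) (y j) := by
  have hlam : ∀ a b : Fin 2 → L, nrm w a = 1 → nrm w b = 1 →
      lam w a b = - log (w (wd a b)) := by
    intro a b ha hb
    simp [lam, ha, hb]
  have hdet := c1_det w x y hyy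
  set M : Matrix (Fin n) (Fin n) L :=
    Matrix.of fun i j => ∏ l ∈ Finset.univ.erase j, wd (x i) (y l) with hM
  have hPpos : ∀ i, 0 < ∏ l, w (wd (x i) (y l)) := by
    intro i
    exact Finset.prod_pos fun l _ => w.pos (hxy i l)
  have hMij : ∀ i j, w (M i j) ≤ (∏ l, w (wd (x i) (y l))) * exp T := by
    intro i j
    have h1 : w (M i j) * w (wd (x i) (y j)) = ∏ l, w (wd (x i) (y l)) := by
      rw [hM, Matrix.of_apply, map_prod, Finset.prod_erase_mul _ _ (Finset.mem_univ _)]
    have h2 : 0 < w (wd (x i) (y j)) := w.pos (hxy i j)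
    have h3 : exp (-T) ≤ w (wd (x i) (y j)) := by
      have := hT i j
      rw [hlam _ _ (hx i) (hy j)] at this
      rw [← Real.le_log_iff_exp_le h2]
      linarith
    have h4 : 0 ≤ w (M i j) := w.nonneg _
    rw [← h1]
    calc w (M i j) = w (M i j) * (exp (-T) * exp T) := by
          rw [← exp_add]; simp
      _ ≤ w (M i j) * (w (wd (x i) (y j)) * exp T) := by gcongr
      _ = _ := by ring
  have hdetle : w M.det ≤ n.factorial * ((∏ i, ∏ l, w (wd (x i) (y l))) * exp T ^ n) := by
    have h0 : (n.factorial : ℝ) * ((∏ i, ∏ l, w (wd (x i) (y l))) * exp T ^ n) =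
        ∑ σ : Equiv.Perm (Fin n), ((∏ i, ∏ l, w (wd (x i) (y l))) * exp T ^ n) := by
      rw [Finset.sum_const, Finset.card_univ, Fintype.card_perm, Fintype.card_fin, nsmul_eq_mul]
    rw [h0, Matrix.det_apply]
    refine (w.sum_le _ _).trans (Finset.sum_le_sum fun σ _ => ?_)
    have h1 : w (Equiv.Perm.sign σ • ∏ i, M (σ i) i) = ∏ i, w (M (σ i) i) := by
      rcases Int.units_eq_one_or (Equiv.Perm.sign σ) with h | h <;> simp [h, map_prod]
    rw [h1]
    calc ∏ i, w (M (σ i) i) ≤ ∏ i, ((∏ l, w (wd (x (σ i)) (y l))) * exp T) :=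
          Finset.prod_le_prod (fun i _ => w.nonneg _) (fun i _ => hMij _ _)
      _ = _ := by
          rw [Finset.prod_mul_distrib, Equiv.prod_comp σ (fun i => ∏ l, w (wd (x i) (y l)))]
          simp
  rw [hdet] at hdetle
  have hpx : 0 < ∏ i, ∏ j ∈ Finset.Ioi i, w (wd (x i) (x j)) :=
    Finset.prod_pos fun i _ => Finset.prod_pos fun j hj =>
      w.pos (hxx i j (ne_of_lt (Finset.mem_Ioi.1 hj)))
  have hpy : 0 < ∏ i, ∏ j ∈ Finset.Ioi i, w (wd (y i) (y j)) :=
    Finset.prod_pos fun i _ => Finset.prod_pos fun j hj =>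
      w.pos (hyy i j (ne_of_lt (Finset.mem_Ioi.1 hj)))
  have hpxy : 0 < ∏ i, ∏ l, w (wd (x i) (y l)) := Finset.prod_pos fun i _ => hPpos i
  have hlog := Real.log_le_log (mul_pos hpx hpy) hdetle
  have hf : (0 : ℝ) < n.factorial := by exact_mod_cast n.factorial_pos
  rw [Real.log_mul hpx.ne' hpy.ne', Real.log_mul hf.ne' (by positivity),
    Real.log_mul hpxy.ne' (by positivity), ← exp_nat_mul, Real.log_exp,
    Real.log_prod (fun i _ => (hPpos i).ne')] at hlog
  have hlx : ∀ z : Fin n → Fin 2 → L, (∀ i, nrm w (z i) = 1) →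
      (∀ i j, i ≠ j → wd (z i) (z j) ≠ 0) →
      log (∏ i, ∏ j ∈ Finset.Ioi i, w (wd (z i) (z j))) =
        - ∑ i, ∑ j ∈ Finset.Ioi i, lam w (z i) (z j) := by
    intro z hz hzz
    rw [Real.log_prod (fun i _ => ?_), ← Finset.sum_neg_distrib]
    · apply Finset.sum_congr rfl
      intro i _
      rw [Real.log_prod (fun j hj => ?_), ← Finset.sum_neg_distrib]
      · apply Finset.sum_congr rfl
        intro j _
        rw [hlam _ _ (hz i) (hz j)]; ring
      · exact (w.pos (hzz i j (ne_of_lt (Finset.mem_Ioi.1 hj)))).ne'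
    · exact (Finset.prod_pos fun j hj => w.pos (hzz i j (ne_of_lt (Finset.mem_Ioi.1 hj)))).ne'
  have hlxy : ∑ i, log (∏ l, w (wd (x i) (y l))) = - ∑ i, ∑ j, lam w (x i) (y j) := by
    rw [← Finset.sum_neg_distrib]
    apply Finset.sum_congr rfl
    intro i _
    rw [Real.log_prod (fun j _ => (w.pos (hxy i j)).ne'), ← Finset.sum_neg_distrib]
    apply Finset.sum_congr rfl
    intro j _
    rw [hlam _ _ (hx i) (hy j)]; ring
  rw [hlx x hx hxx, hlx y hy hyy, hlxy] at hlog
  simp only [Finset.sum_add_distrib]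
  linarith

end Pool.Agent.H951R3.PB
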