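import Pool.Agent.H951R3.PB.Defs
import Pool.Agent.H951R3.PB.B1
import Pool.Agent.H951R3.PB.B2
import Pool.Agent.H951R3.PB.B3

/-!
# Task C2: energies of the fibre measures (helper93)
-/

set_option autoImplicit false

namespace Pool.Agent.H951R3.PB

open Real Filter Topology

universe u

section C2

variable {L : Type u} [Field L] {w : AbsoluteValue L ℝ}

theorem C2_nrm_nonneg (x : Fin 2 → L) : 0 ≤ nrm w x := le_max_of_le_left (w.nonneg _)

theorem C2_nrm_smul (a : L) (x : Fin 2 → L) : nrm w (a • x) = w a * nrm w x := by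
  unfold nrm
  simp only [Pi.smul_apply, smul_eq_mul, map_mul]
  rw [mul_max_of_nonneg _ _ (w.nonneg a)]

theorem C2_w_wd_comm (x y : Fin 2 → L) : w (wd x y) = w (wd y x) := by
  have h : wd x y = - wd y x := by unfold wd; ring
  rw [h, w.map_neg]

theorem C2_w_wd_le (x y : Fin 2 → L) : w (wd x y) ≤ 2 * (nrm w x * nrm w y) := by
  have h1 : w (wd x y) ≤ w (x 0 * y 1) + w (x 1 * y 0) := by
    have h : wd x y = x 0 * y 1 + -(x 1 * y 0) := by unfold wd; ring
    rw [h]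
    refine le_trans (w.add_le _ _) ?_
    rw [w.map_neg]
  have hx0 : w (x 0) ≤ nrm w x := le_max_left _ _
  have hx1 : w (x 1) ≤ nrm w x := le_max_right _ _
  have hy0 : w (y 0) ≤ nrm w y := le_max_left _ _
  have hy1 : w (y 1) ≤ nrm w y := le_max_right _ _
  have h2 : w (x 0 * y 1) ≤ nrm w x * nrm w y := by
    rw [w.map_mul]
    exact mul_le_mul hx0 hy1 (w.nonneg _) (C2_nrm_nonneg x)
  have h3 : w (x 1 * y 0) ≤ nrm w x * nrm w y := by
    rw [w.map_mul]
    exact mul_le_mul hx1 hy0 (w.nonneg _) (C2_nrm_nonneg x)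
  linarith

theorem C2_w_wd_le_two {x y : Fin 2 → L} (hx : nrm w x = 1) (hy : nrm w y = 1) :
    w (wd x y) ≤ 2 := by
  have h := C2_w_wd_le (w := w) x y
  rw [hx, hy] at h
  linarith

theorem C2_lam_unit {x y : Fin 2 → L} (hx : nrm w x = 1) (hy : nrm w y = 1) :
    lam w x y = -log (w (wd y x)) := by
  unfold lam
  rw [hx, hy, C2_w_wd_comm x y]
  simp

theorem C2_lam_comm (x y : Fin 2 → L) : lam w x y = lam w y x := by
  unfold lam
  rw [C2_w_wd_comm x y]
  ring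

theorem C2_EE_comm (F : (Fin 2 → L) → Fin 2 → L) (d : ℕ) (r : ℝ) (i j : ℕ) :
    EE w F d r i j = EE w F d r j i := by
  unfold EE
  rw [min_comm, max_comm]
  ring

theorem C2_Gen_comm {F : (Fin 2 → L) → Fin 2 → L} {k : ℕ} {c : ℝ} {u u' : Fin 2 → L}
    (h : Gen w F k c u u') : Gen w F k c u' u := fun i hi => ⟨(h i hi).2, (h i hi).1⟩

theorem C2_kap_mono (d : ℕ) (hd : 2 ≤ d) : Monotone (kap d) := by
  refine monotone_nat_of_le_succ ?_
  intro n
  show kap d n ≤ d ^ n + d ^ 2 * kap d n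
  have h : 1 ≤ d ^ 2 := Nat.one_le_pow _ _ (by omega)
  nlinarith [Nat.zero_le (kap d n), Nat.zero_le (d ^ n)]

theorem C2_kap_eq (d : ℕ) (j : ℕ) :
    (kap d j : ℝ) * (d * (d - 1)) = (d : ℝ) ^ j * ((d : ℝ) ^ j - 1) := by
  induction j with
  | zero => simp [kap]
  | succ n ih =>
    have h : kap d (n + 1) = d ^ n + d ^ 2 * kap d n := rfl
    rw [h]
    push_cast
    have : ((d : ℝ) ^ n + (d : ℝ) ^ 2 * (kap d n : ℝ)) * (d * (d - 1)) =
        (d : ℝ) ^ n * (d * (d - 1)) + (d : ℝ) ^ 2 * ((kap d n : ℝ) * (d * (d - 1))) := by ring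
    rw [this, ih]
    ring

/-- the sum over one fibre -/
theorem C2_sum {F : (Fin 2 → L) → Fin 2 → L} {d : ℕ} {r : ℝ}
    (hF : Fib w F d r) {k : ℕ} {c : ℝ} (hc : 0 < c)
    {u u' : Fin 2 → L} (hu : nrm w u = 1) (hG : Gen w F k c u u')
    {i j : ℕ} (hik : i ≤ k) (hji : j ≤ i)
    {C : L} {z : Fin (d ^ i) → Fin 2 → L}
    (h : FibAt w (F^[i]) (d ^ i) (kap d i * r) u C z) {x : Fin 2 → L} (hx : nrm w x = 1)
    {a : L} (ha : a ≠ 0) (hxa : F^[j] x = a • u') :
    (∀ p, wd x (z p) ≠ 0) ∧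
    (∑ p, lam w (z p) x = log (w C) - (d : ℝ) ^ (i - j) * log (w a) -
      log (w (wd u (F^[i - j] u')))) ∧
    log (nrm w (F^[i] x)) = (d : ℝ) ^ (i - j) * log (w a) + log (nrm w (F^[i - j] u')) := by
  have hFm := fib_iter hF (i - j)
  have e1 : F^[i] x = a ^ (d ^ (i - j)) • F^[i - j] u' := by
    have : F^[i] x = F^[i - j] (F^[j] x) := by
      rw [← Function.iterate_add_apply, Nat.sub_add_cancel hji]
    rw [this, hxa, fib_homog hFm]
  have hwa : w a ≠ 0 := w.ne_zero ha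
  have hG1 := (hG (i - j) (le_trans (Nat.sub_le i j) hik)).1
  have hWpos : 0 < w (wd u (F^[i - j] u')) := lt_of_lt_of_le (mul_pos hc (exp_pos _)) hG1
  have e2 : wd u (F^[i] x) = a ^ (d ^ (i - j)) * wd u (F^[i - j] u') := by
    rw [e1]
    unfold wd
    simp only [Pi.smul_apply, smul_eq_mul]
    ring
  have e3 : C * ∏ p, wd x (z p) = a ^ (d ^ (i - j)) * wd u (F^[i - j] u') := by
    rw [← h.fac x, e2]
  have hne : C * ∏ p, wd x (z p) ≠ 0 := by
    rw [e3]
    exact mul_ne_zero (pow_ne_zero _ ha) ((w.ne_zero_iff).mp hWpos.ne')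
  have hprod : ∏ p, wd x (z p) ≠ 0 := right_ne_zero_of_mul hne
  have hp : ∀ p, wd x (z p) ≠ 0 := fun p => (Finset.prod_ne_zero_iff.mp hprod) p (Finset.mem_univ p)
  refine ⟨hp, ?_, ?_⟩
  · have e4 : ∑ p, lam w (z p) x = - ∑ p, log (w (wd x (z p))) := by
      rw [← Finset.sum_neg_distrib]
      exact Finset.sum_congr rfl (fun p _ => C2_lam_unit (h.unit p) hx)
    have e5 : ∑ p, log (w (wd x (z p))) = log (w (∏ p, wd x (z p))) := by
      rw [map_prod, Real.log_prod]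
      intro p _
      exact w.ne_zero (hp p)
    have e6 : log (w C) + log (w (∏ p, wd x (z p))) =
        (d : ℝ) ^ (i - j) * log (w a) + log (w (wd u (F^[i - j] u'))) := by
      rw [← Real.log_mul (w.ne_zero h.C_ne) (w.ne_zero hprod), ← w.map_mul, e3, w.map_mul,
        Real.log_mul (w.ne_zero (pow_ne_zero _ ha)) hWpos.ne', w.map_pow, Real.log_pow]
      push_cast
      ring
    rw [e4, e5]
    linarith
  · have hnpos : nrm w (F^[i - j] u') ≠ 0 := by
      intro h0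
      have h1 := C2_w_wd_le (w := w) u (F^[i - j] u')
      rw [h0] at h1
      linarith
    rw [e1, C2_nrm_smul, Real.log_mul (w.ne_zero (pow_ne_zero _ ha)) hnpos, w.map_pow,
      Real.log_pow]
    push_cast
    ring

/-- lower bound of the leading constant -/
theorem C2_C_ge {F : (Fin 2 → L) → Fin 2 → L} {D : ℕ} {r c s : ℝ} (hc : 0 < c)
    {u v : Fin 2 → L} (hv : nrm w v = 1) {C : L} {z : Fin D → Fin 2 → L}
    (h : FibAt w F D r u C z) (hG : c * exp s ≤ w (wd u (F v))) :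
    s + log c - D * log 2 ≤ log (w C) := by
  have e1 : w (wd u (F v)) = w C * ∏ p, w (wd v (z p)) := by
    rw [h.fac v, w.map_mul, map_prod]
  have h1 : ∏ p, w (wd v (z p)) ≤ 2 ^ D := by
    calc ∏ p, w (wd v (z p)) ≤ ∏ _p : Fin D, (2 : ℝ) :=
          Finset.prod_le_prod (fun p _ => w.nonneg _) (fun p _ => C2_w_wd_le_two hv (h.unit p))
      _ = 2 ^ D := by simp
  have hC : 0 < w C := w.pos h.C_ne
  have h2 : c * exp s ≤ w C * 2 ^ D := by
    rw [e1] at hG
    exact le_trans hG (mul_le_mul_of_nonneg_left h1 hC.le)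
  have h3 := Real.log_le_log (mul_pos hc (exp_pos s)) h2
  rw [Real.log_mul hc.ne' (exp_pos s).ne', Real.log_exp,
    Real.log_mul hC.ne' (by positivity), Real.log_pow] at h3
  linarith

/-- the core estimate for `j ≤ i` -/
theorem C2_core {F : (Fin 2 → L) → Fin 2 → L} {d : ℕ} (hd : 2 ≤ d) {r : ℝ}
    (hF : Fib w F d r) {k : ℕ} {c B0 : ℝ} (hc : 0 < c) (hB0 : 0 ≤ B0)
    (hS : ∀ i ≤ k, ∀ x, nrm w x = 1 → log (nrm w (F^[i] x)) ≤ Ssup w (F^[i]))
    (hCu : ∀ i ≤ k, ∀ u C z, nrm w u = 1 → FibAt w (F^[i]) (d ^ i) (kap d i * r) u C z →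
      log (w C) ≤ Ssup w (F^[i]) + B0)
    (hlow : ∀ i ≤ k, ∀ x, nrm w x = 1 →
      Ssup w (F^[i]) - kap d i * tt w F d r - B0 ≤ log (nrm w (F^[i] x)))
    {u u' : Fin 2 → L} (hu : nrm w u = 1) (hu' : nrm w u' = 1) (hG : Gen w F k c u u')
    {i j : ℕ} (hik : i ≤ k) (hji : j ≤ i)
    {C : L} {z : Fin (d ^ i) → Fin 2 → L} {C' : L} {z' : Fin (d ^ j) → Fin 2 → L}
    (h : FibAt w (F^[i]) (d ^ i) (kap d i * r) u C z)
    (h' : FibAt w (F^[j]) (d ^ j) (kap d j * r) u' C' z') :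
    (∀ p q, wd (z p) (z' q) ≠ 0) ∧
    (∀ p q, lam w (z p) (z' q) ≤ kap d k * max (tt w F d r) 0 +
      (2 * (B0 + |log c| + (d : ℝ) ^ k * log 2) + |log c| + log 2)) ∧
    |(∑ p, ∑ q, lam w (z p) (z' q)) / ((d : ℝ) ^ i * (d : ℝ) ^ j) - EE w F d r i j| ≤
      2 * (B0 + |log c| + (d : ℝ) ^ k * log 2) + |log c| + log 2 := by
  have hjk : j ≤ k := le_trans hji hik
  have hmk : i - j ≤ k := le_trans (Nat.sub_le i j) hik
  have hd1 : (1 : ℝ) ≤ d := by exact_mod_cast (by omega : 1 ≤ d)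
  have hd0 : (0 : ℝ) < d := by linarith
  have hl2 : 0 ≤ log 2 := Real.log_nonneg (by norm_num)
  have hcabs := abs_nonneg (log c)
  have hc1 : -|log c| ≤ log c := neg_abs_le _
  have hc2 : log c ≤ |log c| := le_abs_self _
  set W : ℝ := log (w (wd u (F^[i - j] u'))) with hW
  set m : ℕ := i - j with hm
  -- bounds for `W`
  have hG1 := (hG m hmk).1
  have hWpos : 0 < w (wd u (F^[m] u')) := lt_of_lt_of_le (mul_pos hc (exp_pos _)) hG1
  have hnle := hS m hmk u' hu'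
  have hW1 : Ssup w (F^[m]) + log c ≤ W := by
    have h3 := Real.log_le_log (mul_pos hc (exp_pos _)) hG1
    rw [Real.log_mul hc.ne' (exp_pos _).ne', Real.log_exp] at h3
    linarith
  have hnpos : 0 < nrm w (F^[m] u') := by
    rcases (C2_nrm_nonneg (w := w) (F^[m] u')).lt_or_eq with h0 | h0
    · exact h0
    · exfalso
      have h1 := C2_w_wd_le (w := w) u (F^[m] u')
      rw [← h0] at h1
      linarith
  have hW2 : W ≤ Ssup w (F^[m]) + log 2 := by
    have h1 := C2_w_wd_le (w := w) u (F^[m] u')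
    rw [hu, one_mul] at h1
    have h3 := Real.log_le_log hWpos h1
    rw [Real.log_mul (by norm_num) hnpos.ne'] at h3
    linarith
  -- bounds for `C`, `C'`
  have hC2 := hCu i hik u C z hu h
  have hC1 := C2_C_ge hc hu' h (hG i hik).1
  have hC'2 := hCu j hjk u' C' z' hu' h'
  have hC'1 := C2_C_ge hc hu h' (hG j hjk).2
  push_cast at hC1 hC'1
  have hdi : (d : ℝ) ^ i ≤ (d : ℝ) ^ k := pow_le_pow_right₀ hd1 hik
  have hdj : (d : ℝ) ^ j ≤ (d : ℝ) ^ k := pow_le_pow_right₀ hd1 hjk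
  have hdi2 : (d : ℝ) ^ i * log 2 ≤ (d : ℝ) ^ k * log 2 := mul_le_mul_of_nonneg_right hdi hl2
  have hdj2 : (d : ℝ) ^ j * log 2 ≤ (d : ℝ) ^ k * log 2 := mul_le_mul_of_nonneg_right hdj hl2
  have hdk2 : 0 ≤ (d : ℝ) ^ k * log 2 := by positivity
  -- the fibre points
  have hfib : ∀ q, (∀ p, wd (z' q) (z p) ≠ 0) ∧
      (∑ p, lam w (z p) (z' q) = log (w C) - (d : ℝ) ^ m * log (nrm w (F^[j] (z' q))) - W) ∧
      log (nrm w (F^[i] (z' q))) = (d : ℝ) ^ m * log (nrm w (F^[j] (z' q))) +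
        log (nrm w (F^[m] u')) := by
    intro q
    obtain ⟨a, ha, hxa⟩ := h'.img q
    have hna : nrm w (F^[j] (z' q)) = w a := by rw [hxa, C2_nrm_smul, hu', mul_one]
    have := C2_sum hF hc hu hG hik hji h (h'.unit q) ha hxa
    rw [hna]
    exact this
  have hne : ∀ p q, wd (z p) (z' q) ≠ 0 := by
    intro p q h0
    refine (hfib q).1 p ?_
    have e : wd (z' q) (z p) = - wd (z p) (z' q) := by unfold wd; ring
    rw [e, h0, neg_zero]
  have hlam : ∀ p q, -log 2 ≤ lam w (z p) (z' q) := by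
    intro p q
    rw [C2_lam_unit (h.unit p) (h'.unit q)]
    have h1 : 0 < w (wd (z' q) (z p)) := w.pos ((hfib q).1 p)
    have h2 := Real.log_le_log h1 (C2_w_wd_le_two (w := w) (h'.unit q) (h.unit p))
    linarith
  refine ⟨hne, ?_, ?_⟩
  · intro p q
    have h1 : lam w (z p) (z' q) + log 2 ≤ ∑ p', (lam w (z p') (z' q) + log 2) :=
      Finset.single_le_sum (f := fun p' => lam w (z p') (z' q) + log 2)
        (fun p' _ => by linarith [hlam p' q]) (Finset.mem_univ p)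
    rw [Finset.sum_add_distrib, (hfib q).2.1] at h1
    simp only [Finset.sum_const, Finset.card_univ, Fintype.card_fin, nsmul_eq_mul,
      Nat.cast_pow] at h1
    have h2 := (hfib q).2.2
    have h3 := hlow i hik (z' q) (h'.unit q)
    have h4 : (kap d i : ℝ) * tt w F d r ≤ kap d k * max (tt w F d r) 0 := by
      have h5 : (kap d i : ℝ) ≤ kap d k := by exact_mod_cast C2_kap_mono d hd hik
      have h6 : tt w F d r ≤ max (tt w F d r) 0 := le_max_left _ _
      have h7 : 0 ≤ max (tt w F d r) 0 := le_max_right _ _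
      have h8 : (0 : ℝ) ≤ kap d i := Nat.cast_nonneg _
      calc (kap d i : ℝ) * tt w F d r ≤ kap d i * max (tt w F d r) 0 :=
            mul_le_mul_of_nonneg_left h6 h8
        _ ≤ _ := mul_le_mul_of_nonneg_right h5 h7
    linarith
  · have hsum : ∑ p, ∑ q, lam w (z p) (z' q) =
        (d : ℝ) ^ j * log (w C) - (d : ℝ) ^ m * (kap d j * r - (d : ℝ) ^ j * log (w C')) -
          (d : ℝ) ^ j * W := by
      rw [Finset.sum_comm]
      have e1 : ∑ q, ∑ p, lam w (z p) (z' q) =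
          ∑ q, (log (w C) - (d : ℝ) ^ m * log (nrm w (F^[j] (z' q))) - W) :=
        Finset.sum_congr rfl (fun q _ => (hfib q).2.1)
      rw [e1, Finset.sum_sub_distrib, Finset.sum_sub_distrib, ← Finset.mul_sum]
      have e2 := h'.res
      push_cast at e2
      have e3 : ∑ q, log (nrm w (F^[j] (z' q))) = kap d j * r - (d : ℝ) ^ j * log (w C') := by
        linarith
      rw [e3]
      simp only [Finset.sum_const, Finset.card_univ, Fintype.card_fin, nsmul_eq_mul,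
        Nat.cast_pow]
    have hEE : EE w F d r i j = ta d r * (1 - 1 / (d : ℝ) ^ j) + Ssup w (F^[i]) / (d : ℝ) ^ i +
        Ssup w (F^[j]) / (d : ℝ) ^ j - Ssup w (F^[m]) / (d : ℝ) ^ i := by
      unfold EE sg
      rw [min_eq_right hji, max_eq_left hji, ← hm]
      have e : (d : ℝ) ^ i = (d : ℝ) ^ m * (d : ℝ) ^ j := by
        rw [← pow_add, hm, Nat.sub_add_cancel hji]
      have e' : Ssup w (F^[m]) / (d : ℝ) ^ m / (d : ℝ) ^ j = Ssup w (F^[m]) / (d : ℝ) ^ i := by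
        rw [div_div, ← e]
      rw [e']
    have hdi0 : (0 : ℝ) < (d : ℝ) ^ i := by positivity
    have hdj0 : (0 : ℝ) < (d : ℝ) ^ j := by positivity
    have hdm0 : (0 : ℝ) < (d : ℝ) ^ m := by positivity
    have hei : (d : ℝ) ^ i = (d : ℝ) ^ m * (d : ℝ) ^ j := by
      rw [← pow_add, hm, Nat.sub_add_cancel hji]
    have hdd : (d : ℝ) * (d - 1) ≠ 0 := by
      have : (0 : ℝ) < d - 1 := by
        have : (2 : ℝ) ≤ d := by exact_mod_cast hd
        linarith
      positivity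
    have hkap := C2_kap_eq d j
    have hkap' : (kap d j : ℝ) = (d : ℝ) ^ j * ((d : ℝ) ^ j - 1) / (d * (d - 1)) := by
      rw [eq_div_iff hdd, hkap]
    have hdiff : (∑ p, ∑ q, lam w (z p) (z' q)) / ((d : ℝ) ^ i * (d : ℝ) ^ j) -
        EE w F d r i j = (log (w C) - Ssup w (F^[i])) / (d : ℝ) ^ i -
          (W - Ssup w (F^[m])) / (d : ℝ) ^ i +
          (log (w C') - Ssup w (F^[j])) / (d : ℝ) ^ j := by
      rw [hsum, hEE, hkap']
      unfold ta
      rw [hei]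
      field_simp
      ring
    rw [hdiff]
    have hdi1 : 1 ≤ (d : ℝ) ^ i := one_le_pow₀ hd1
    have hdj1 : 1 ≤ (d : ℝ) ^ j := one_le_pow₀ hd1
    have key : ∀ (y b D : ℝ), |y| ≤ b → 1 ≤ D → |y / D| ≤ b := by
      intro y b D hy hD
      rw [abs_div, abs_of_pos (by linarith : (0 : ℝ) < D)]
      exact le_trans (div_le_self (abs_nonneg y) hD) hy
    have k1 : |(log (w C) - Ssup w (F^[i])) / (d : ℝ) ^ i| ≤
        B0 + |log c| + (d : ℝ) ^ k * log 2 := by
      refine key _ _ _ ?_ hdi1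
      rw [abs_le]
      constructor <;> linarith
    have k2 : |(W - Ssup w (F^[m])) / (d : ℝ) ^ i| ≤ |log c| + log 2 := by
      refine key _ _ _ ?_ hdi1
      rw [abs_le]
      constructor <;> linarith
    have k3 : |(log (w C') - Ssup w (F^[j])) / (d : ℝ) ^ j| ≤
        B0 + |log c| + (d : ℝ) ^ k * log 2 := by
      refine key _ _ _ ?_ hdj1
      rw [abs_le]
      constructor <;> linarith
    have t1 := abs_add_le ((log (w C) - Ssup w (F^[i])) / (d : ℝ) ^ i -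
          (W - Ssup w (F^[m])) / (d : ℝ) ^ i) ((log (w C') - Ssup w (F^[j])) / (d : ℝ) ^ j)
    have t2 := abs_sub ((log (w C) - Ssup w (F^[i])) / (d : ℝ) ^ i)
          ((W - Ssup w (F^[m])) / (d : ℝ) ^ i)
    linarith

end C2

/-- C2 -/
theorem E_est (d : ℕ) (hd : 2 ≤ d) (k : ℕ) (c : ℝ) (hc : 0 < c) : ∃ B : ℝ, 0 ≤ B ∧
    ∀ (L : Type u) [Field L] [IsAlgClosed L] [CharZero L] (w : AbsoluteValue L ℝ)
      (F : (Fin 2 → L) → Fin 2 → L) (r : ℝ), Fib w F d r →
    ∀ u u', nrm w u = 1 → nrm w u' = 1 → Gen w F k c u u' → ∀ i ≤ k, ∀ j ≤ k,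
    ∀ (C : L) (z : Fin (d ^ i) → Fin 2 → L) (C' : L) (z' : Fin (d ^ j) → Fin 2 → L),
      FibAt w (F^[i]) (d ^ i) (kap d i * r) u C z →
      FibAt w (F^[j]) (d ^ j) (kap d j * r) u' C' z' →
      (∀ p q, wd (z p) (z' q) ≠ 0) ∧
      (∀ p q, lam w (z p) (z' q) ≤ kap d k * max (tt w F d r) 0 + B) ∧
      |(∑ p, ∑ q, lam w (z p) (z' q)) / ((d : ℝ) ^ i * (d : ℝ) ^ j) - EE w F d r i j| ≤ B := by
  have hone : ∀ i, 1 ≤ d ^ i := fun i => Nat.one_le_pow _ _ (by omega)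
  choose Bi hBi0 hBi using fun i => fib_bounds.{u} (d ^ i) (hone i)
  set B0 : ℝ := ∑ i ∈ Finset.range (k + 1), Bi i with hB0def
  have hB0 : 0 ≤ B0 := Finset.sum_nonneg (fun i _ => hBi0 i)
  have hBiB0 : ∀ i ≤ k, Bi i ≤ B0 := fun i hi =>
    Finset.single_le_sum (f := Bi) (fun i _ => hBi0 i) (Finset.mem_range.mpr (by omega))
  have hl2 : 0 ≤ log 2 := Real.log_nonneg (by norm_num)
  refine ⟨2 * (B0 + |log c| + (d : ℝ) ^ k * log 2) + |log c| + log 2, by positivity, ?_⟩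
  intro L _ _ _ w F r hF u u' hu hu' hG i hi j hj C z C' z' h h'
  have hS : ∀ i ≤ k, ∀ x, nrm w x = 1 → log (nrm w (F^[i] x)) ≤ Ssup w (F^[i]) :=
    fun i _ => (hBi i L w (F^[i]) _ (fib_iter hF i)).1
  have hCu : ∀ i ≤ k, ∀ u C z, nrm w u = 1 → FibAt w (F^[i]) (d ^ i) (kap d i * r) u C z →
      log (w C) ≤ Ssup w (F^[i]) + B0 := by
    intro i hi u C z hu hh
    have := (hBi i L w (F^[i]) _ (fib_iter hF i)).2.2.1 u C z hu hh
    linarith [hBiB0 i hi]
  have hlow : ∀ i ≤ k, ∀ x, nrm w x = 1 →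
      Ssup w (F^[i]) - kap d i * tt w F d r - B0 ≤ log (nrm w (F^[i] x)) := by
    intro i hi x hx
    have h1 := (hBi i L w (F^[i]) _ (fib_iter hF i)).2.2.2 x hx
    have h2 := tt_iter hd hF i
    linarith [hBiB0 i hi]
  rcases le_total j i with hji | hij
  · exact C2_core hd hF hc hB0 hS hCu hlow hu hu' hG hi hji h h'
  · obtain ⟨g1, g2, g3⟩ := C2_core hd hF hc hB0 hS hCu hlow hu' hu (C2_Gen_comm hG) hj hij h' h
    refine ⟨?_, ?_, ?_⟩
    · intro p q h0
      refine g1 q p ?_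
      have e : wd (z' q) (z p) = - wd (z p) (z' q) := by unfold wd; ring
      rw [e, h0, neg_zero]
    · intro p q
      rw [C2_lam_comm]
      exact g2 q p
    · have e : ∑ p, ∑ q, lam w (z p) (z' q) = ∑ q, ∑ p, lam w (z' q) (z p) := by
        rw [Finset.sum_comm]
        exact Finset.sum_congr rfl (fun q _ => Finset.sum_congr rfl (fun p _ => C2_lam_comm _ _))
      rw [e, C2_EE_comm, mul_comm ((d : ℝ) ^ i)]
      exact g3

end Pool.Agent.H951R3.PB
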