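import Pool.Agent.H951R3.PB.Defs
import Pool.Agent.H951R3.PB.B1
import Pool.Agent.H951R3.PB.B2
import Pool.Agent.H951R3.PB.B3
import Pool.Agent.H951R3.PB.D1

set_option autoImplicit false

namespace Pool.Agent.H951R3.PB

open Real Filter Topology

universe u

namespace D4

section basic

variable {L : Type u} [Field L]

theorem nrm_nonneg (w : AbsoluteValue L ℝ) (x : Fin 2 → L) : 0 ≤ nrm w x :=
  le_max_of_le_left (w.nonneg _)

theorem nrm_pos (w : AbsoluteValue L ℝ) {x : Fin 2 → L} (hx : x ≠ 0) : 0 < nrm w x := by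
  by_contra h
  push Not at h
  have h0 : w (x 0) ≤ 0 := (le_max_left _ _).trans h
  have h1 : w (x 1) ≤ 0 := (le_max_right _ _).trans h
  apply hx
  funext i
  fin_cases i
  · exact w.eq_zero.mp (le_antisymm h0 (w.nonneg _))
  · exact w.eq_zero.mp (le_antisymm h1 (w.nonneg _))

theorem ne_zero_of_nrm (w : AbsoluteValue L ℝ) {x : Fin 2 → L} (hx : nrm w x = 1) : x ≠ 0 := by
  rintro rfl
  simp [nrm] at hx

theorem wd_lin (α β : L) (x y z : Fin 2 → L) :
    wd (α • x + β • y) z = α * wd x z + β * wd y z := by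
  simp [wd]; ring

theorem w_wd_le (w : AbsoluteValue L ℝ) {x z : Fin 2 → L} (hx : nrm w x = 1) (hz : nrm w z = 1) :
    w (wd x z) ≤ 2 := by
  have x0 : w (x 0) ≤ 1 := hx ▸ le_max_left _ _
  have x1 : w (x 1) ≤ 1 := hx ▸ le_max_right _ _
  have z0 : w (z 0) ≤ 1 := hz ▸ le_max_left _ _
  have z1 : w (z 1) ≤ 1 := hz ▸ le_max_right _ _
  have h : w (wd x z) ≤ w (x 0 * z 1) + w (-(x 1 * z 0)) := by
    rw [wd, sub_eq_add_neg]; exact w.add_le _ _
  rw [w.map_neg, w.map_mul, w.map_mul] at h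
  have h1 : w (x 0) * w (z 1) ≤ 1 * 1 := mul_le_mul x0 z1 (w.nonneg _) zero_le_one
  have h2 : w (x 1) * w (z 0) ≤ 1 * 1 := mul_le_mul x1 z0 (w.nonneg _) zero_le_one
  linarith

/-- clamped distance -/
noncomputable def aa (w : AbsoluteValue L ℝ) (T : ℝ) (x z : Fin 2 → L) : ℝ :=
  max (w (wd x z)) (exp (-T))

theorem aa_pos (w : AbsoluteValue L ℝ) (T : ℝ) (x z : Fin 2 → L) : 0 < aa w T x z :=
  lt_max_of_lt_right (exp_pos _)

theorem aa_le (w : AbsoluteValue L ℝ) {T : ℝ} (hT : 0 ≤ T) {x z : Fin 2 → L} (hx : nrm w x = 1)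
    (hz : nrm w z = 1) : aa w T x z ≤ 2 := by
  apply max_le (w_wd_le w hx hz)
  have : exp (-T) ≤ 1 := exp_le_one_iff.mpr (by linarith)
  linarith

theorem step (w : AbsoluteValue L ℝ) {H : (Fin 2 → L) → Fin 2 → L} {D : ℕ} {R : ℝ}
    {e : Fin 2 → L} {C : L} {z : Fin D → Fin 2 → L} (hf : FibAt w H D R e C z) {T Θ : ℝ}
    (hT : 0 ≤ T) (hΘ : 0 ≤ Θ) {x y : Fin 2 → L} (hx : nrm w x = 1)
    (hcl : ∀ j, log (aa w T y (z j)) ≤ log (aa w T x (z j)) + Θ)
    {α β : L} (hα : w α ≤ 1) (hβ : w β ≤ 1) {N0 : ℝ} (h1 : w (wd e (H x)) ≤ N0)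
    (h2 : w C * exp (-T) ≤ N0) :
    w (wd e (H (α • x + β • y))) ≤ (4 * exp Θ) ^ D * N0 := by
  have hN0 : 0 ≤ N0 := (w.nonneg _).trans h1
  have hΘ1 : 1 ≤ exp Θ := one_le_exp hΘ
  have hy : ∀ j, aa w T y (z j) ≤ exp Θ * aa w T x (z j) := by
    intro j
    have := hcl j
    rw [← log_exp Θ, add_comm, ← log_mul (exp_pos Θ).ne' (aa_pos w T x (z j)).ne'] at this
    exact (log_le_log_iff (aa_pos _ _ _ _) (mul_pos (exp_pos _) (aa_pos _ _ _ _))).mp this
  have hj : ∀ j, w (wd (α • x + β • y) (z j)) ≤ (2 * exp Θ) * aa w T x (z j) := by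
    intro j
    rw [wd_lin]
    have ha := aa_pos w T x (z j)
    calc w (α * wd x (z j) + β * wd y (z j)) ≤ w (α * wd x (z j)) + w (β * wd y (z j)) :=
          w.add_le _ _
      _ = w α * w (wd x (z j)) + w β * w (wd y (z j)) := by rw [w.map_mul, w.map_mul]
      _ ≤ 1 * aa w T x (z j) + 1 * aa w T y (z j) := by
          apply add_le_add
          · exact mul_le_mul hα (le_max_left _ _) (w.nonneg _) zero_le_one
          · exact mul_le_mul hβ (le_max_left _ _) (w.nonneg _) zero_le_one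
      _ ≤ exp Θ * aa w T x (z j) + exp Θ * aa w T x (z j) := by
          have := hy j
          nlinarith
      _ = (2 * exp Θ) * aa w T x (z j) := by ring
  have hprod : w C * ∏ j, aa w T x (z j) ≤ 2 ^ D * N0 := by
    by_cases hall : ∀ j, aa w T x (z j) = w (wd x (z j))
    · have e1 : w C * ∏ j, aa w T x (z j) = w (wd e (H x)) := by
        rw [hf.fac, w.map_mul, map_prod, Finset.prod_congr rfl fun j _ => hall j]
      rw [e1]
      refine h1.trans ?_
      have : (1:ℝ) ≤ 2 ^ D := one_le_pow₀ (by norm_num)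
      nlinarith
    · push Not at hall
      obtain ⟨j0, hj0⟩ := hall
      have h3 : aa w T x (z j0) = exp (-T) := by
        rcases max_choice (w (wd x (z j0))) (exp (-T)) with h | h
        · exact absurd h hj0
        · exact h
      rw [← Finset.mul_prod_erase _ _ (Finset.mem_univ j0), h3]
      have h4 : ∏ j ∈ Finset.univ.erase j0, aa w T x (z j) ≤ 2 ^ D := by
        calc ∏ j ∈ Finset.univ.erase j0, aa w T x (z j) ≤ ∏ _j ∈ Finset.univ.erase j0, (2:ℝ) :=
              Finset.prod_le_prod (fun j _ => (aa_pos _ _ _ _).le)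
                (fun j _ => aa_le w hT hx (hf.unit j))
          _ = 2 ^ (D - 1) := by
              rw [Finset.prod_const, Finset.card_erase_of_mem (Finset.mem_univ j0),
                Finset.card_univ, Fintype.card_fin]
          _ ≤ 2 ^ D := pow_le_pow_right₀ (by norm_num) (by omega)
      calc w C * (exp (-T) * ∏ j ∈ Finset.univ.erase j0, aa w T x (z j))
          = (w C * exp (-T)) * ∏ j ∈ Finset.univ.erase j0, aa w T x (z j) := by ring
        _ ≤ N0 * 2 ^ D := mul_le_mul h2 h4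
            (Finset.prod_nonneg fun j _ => (aa_pos _ _ _ _).le) hN0
        _ = 2 ^ D * N0 := by ring
  calc w (wd e (H (α • x + β • y))) = w C * ∏ j, w (wd (α • x + β • y) (z j)) := by
        rw [hf.fac, w.map_mul, map_prod]
    _ ≤ w C * ∏ j, ((2 * exp Θ) * aa w T x (z j)) := by
        apply mul_le_mul_of_nonneg_left _ (w.nonneg _)
        exact Finset.prod_le_prod (fun j _ => w.nonneg _) (fun j _ => hj j)
    _ = (2 * exp Θ) ^ D * (w C * ∏ j, aa w T x (z j)) := by
        rw [Finset.prod_mul_distrib, Finset.prod_const, Finset.card_univ, Fintype.card_fin]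
        ring
    _ ≤ (2 * exp Θ) ^ D * (2 ^ D * N0) := mul_le_mul_of_nonneg_left hprod (by positivity)
    _ = (4 * exp Θ) ^ D * N0 := by
        rw [show (4:ℝ) * exp Θ = (2 * exp Θ) * 2 by ring, mul_pow (2 * exp Θ) 2 D]
        ring

end basic

/-- the two base points -/
def ebase (L : Type u) [Field L] (i : Fin 2) : Fin 2 → L := fun j => if j = i then 1 else 0

theorem nrm_ebase {L : Type u} [Field L] (w : AbsoluteValue L ℝ) (i : Fin 2) :
    nrm w (ebase L i) = 1 := by
  fin_cases i <;> simp [nrm, ebase]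

theorem nrm_eq {L : Type u} [Field L] (w : AbsoluteValue L ℝ) (v : Fin 2 → L) :
    nrm w v = max (w (wd (ebase L 1) v)) (w (wd (ebase L 0) v)) := by
  simp [nrm, ebase, wd]

end D4

open D4

/-- D4 -/
theorem cells (d : ℕ) (hd : 2 ≤ d) (η : ℝ) (hη : 0 < η) : ∃ (M : ℕ) (B : ℝ), 0 ≤ B ∧
    ∀ (L : Type u) [Field L] [IsAlgClosed L] [CharZero L] (w : AbsoluteValue L ℝ)
      (F : (Fin 2 → L) → Fin 2 → L) (r : ℝ), Fib w F d r →
    ∃ cell : (Fin 2 → L) → Fin M, ∀ x y, nrm w x = 1 → nrm w y = 1 → cell x = cell y →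
      ∀ α β : L, w α ≤ 1 → w β ≤ 1 → α • x + β • y ≠ 0 →
        Gr w F d (α • x + β • y) ≤ Gr w F d x + η * max (tt w F d r) 0 + B := by
  obtain ⟨k, hk⟩ := pow_unbounded_of_one_lt (2 / η) (one_lt_two (α := ℝ))
  have hd0 : (2:ℝ) ≤ d := by exact_mod_cast hd
  have hdk : (2:ℝ) ^ k ≤ (d:ℝ) ^ k := pow_le_pow_left₀ (by norm_num) hd0 k
  have hdk0 : (0:ℝ) < (d:ℝ) ^ k := by positivity
  have hq : 1 / ((d:ℝ) ^ k * (d - 1)) ≤ η / 2 := by
    have h1 : 2 / η ≤ (d:ℝ) ^ k * (d - 1) := by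
      have h2 : (d:ℝ) ^ k * 1 ≤ (d:ℝ) ^ k * (d - 1) :=
        mul_le_mul_of_nonneg_left (by linarith) hdk0.le
      linarith
    calc 1 / ((d:ℝ) ^ k * (d - 1)) ≤ 1 / (2 / η) :=
          one_div_le_one_div_of_le (by positivity) h1
      _ = η / 2 := by rw [one_div_div]
  obtain ⟨BD, hBD0, hBD⟩ := fib_bounds.{u} (d ^ k) (Nat.one_le_pow _ _ (by omega))
  obtain ⟨Bg, hBg0, hBg⟩ := gr_lower.{u} d hd
  set κ : ℝ := (kap d k : ℝ) with hκ
  have hκ0 : 0 ≤ κ := Nat.cast_nonneg _
  set N : ℕ := ⌈4 * (κ + 2 * BD + 1) / η⌉₊ with hN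
  have hN' : 4 * (κ + 2 * BD + 1) / η ≤ N := Nat.le_ceil _
  refine ⟨Fintype.card (Fin 2 → Fin (d ^ k) → Fin (2 * N + 1)),
    η / 4 + log 4 + η / 2 * Bg, by positivity, ?_⟩
  intro L _ _ _ w F r hF
  set t : ℝ := max (tt w F d r) 0 with ht
  have ht0 : 0 ≤ t := le_max_right _ _
  set H : (Fin 2 → L) → Fin 2 → L := F^[k] with hH
  have hFH : Fib w H (d ^ k) (kap d k * r) := fib_iter hF k
  obtain ⟨hb1, hb2, hb3, hb4⟩ := hBD L w H (kap d k * r) hFH
  have htH : tt w H (d ^ k) (kap d k * r) ≤ κ * t := by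
    have h1 := tt_iter hd hF k
    exact h1.trans (mul_le_mul_of_nonneg_left (le_max_left _ _) hκ0)
  choose C z hz using fun i : Fin 2 => hFH (ebase L i) (nrm_ebase w i)
  set T : ℝ := κ * t + 2 * BD with hT
  have hT0 : 0 ≤ T := by positivity
  set Θ : ℝ := η / 4 * (t + 1) with hΘ
  have hΘ0 : 0 < Θ := by positivity
  set fl : (Fin 2 → L) → Fin 2 → Fin (d ^ k) → ℤ := fun x i j =>
    ⌊-log (aa w T x (z i j)) / Θ⌋ with hfl
  refine ⟨fun x => Fintype.equivFin (Fin 2 → Fin (d ^ k) → Fin (2 * N + 1))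
    (fun i j => Fin.ofNat (2 * N + 1) ((fl x i j + N).toNat)), ?_⟩
  intro x y hx hy hxy α β hα hβ hne
  -- range of the floors
  have hrange : ∀ x, nrm w x = 1 → ∀ i j, 0 ≤ fl x i j + N ∧ fl x i j + N < 2 * N + 1 := by
    intro x hx i j
    have ha := aa_pos w T x (z i j)
    have h1 : log (aa w T x (z i j)) ≤ 1 := by
      have h3 := aa_le w hT0 hx ((hz i).unit j)
      have h4 : log (aa w T x (z i j)) ≤ aa w T x (z i j) - 1 := log_le_sub_one_of_pos ha
      linarith
    have h2 : -T ≤ log (aa w T x (z i j)) := by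
      rw [← log_exp (-T)]
      exact log_le_log (exp_pos _) (le_max_right _ _)
    have h5 : 1 / Θ ≤ N := by
      have : (4:ℝ) * (κ + 2 * BD + 1) / η ≥ 4 * 1 / η := by
        apply div_le_div_of_nonneg_right _ hη.le
        nlinarith
      have h6 : 1 / Θ ≤ 4 * 1 / η := by
        rw [div_le_div_iff₀ hΘ0 hη, hΘ]
        nlinarith
      linarith
    have h7 : T / Θ ≤ N := by
      have h8 : T / Θ ≤ 4 * (κ + 2 * BD + 1) / η := by
        rw [div_le_div_iff₀ hΘ0 hη, hΘ, hT]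
        have : (0:ℝ) ≤ κ * η := by positivity
        have : (0:ℝ) ≤ BD * t * η := by positivity
        nlinarith
      linarith
    constructor
    · have : (-(N:ℤ)) ≤ fl x i j := by
        rw [hfl]
        simp only
        rw [Int.le_floor]
        push_cast
        have : -(1 / Θ) ≤ -log (aa w T x (z i j)) / Θ := by
          rw [← neg_div]
          apply div_le_div_of_nonneg_right _ hΘ0.le
          linarith
        linarith
      omega
    · have h9 : fl x i j ≤ N := by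
        have h10 : (fl x i j : ℝ) ≤ -log (aa w T x (z i j)) / Θ := Int.floor_le _
        have h11 : -log (aa w T x (z i j)) / Θ ≤ T / Θ :=
          div_le_div_of_nonneg_right (by linarith) hΘ0.le
        have h12 : (fl x i j : ℝ) ≤ (N : ℝ) := by linarith
        exact_mod_cast h12
      omega
  have hfloor : ∀ i j, fl x i j = fl y i j := by
    intro i j
    have h1 := (Fintype.equivFin _).injective hxy
    have h2 := congrFun (congrFun h1 i) j
    have h3 := congrArg Fin.val h2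
    simp only [Fin.ofNat, ] at h3
    obtain ⟨hx1, hx2⟩ := hrange x hx i j
    obtain ⟨hy1, hy2⟩ := hrange y hy i j
    rw [Nat.mod_eq_of_lt (by omega), Nat.mod_eq_of_lt (by omega)] at h3
    omega
  have hcl : ∀ i j, log (aa w T y (z i j)) ≤ log (aa w T x (z i j)) + Θ := by
    intro i j
    have h1 := hfloor i j
    have h2 : (fl x i j : ℝ) ≤ -log (aa w T x (z i j)) / Θ := Int.floor_le _
    have h3 : -log (aa w T x (z i j)) / Θ < fl x i j + 1 := Int.lt_floor_add_one _
    have h4 : (fl y i j : ℝ) ≤ -log (aa w T y (z i j)) / Θ := Int.floor_le _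
    rw [← h1] at h4
    have h5 : -log (aa w T x (z i j)) / Θ < -log (aa w T y (z i j)) / Θ + 1 := by linarith
    have h6 : -log (aa w T x (z i j)) / Θ * Θ < (-log (aa w T y (z i j)) / Θ + 1) * Θ :=
      mul_lt_mul_of_pos_right h5 hΘ0
    rw [add_mul, div_mul_cancel₀ _ hΘ0.ne', div_mul_cancel₀ _ hΘ0.ne', one_mul] at h6
    linarith
  -- the comparison
  have hxne := ne_zero_of_nrm w hx
  have hHx : 0 < nrm w (H x) := nrm_pos w (fib_ne_zero hFH hxne)
  have hHw : 0 < nrm w (H (α • x + β • y)) := nrm_pos w (fib_ne_zero hFH hne)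
  have hC : ∀ i, w (C i) * exp (-T) ≤ nrm w (H x) := by
    intro i
    have hCpos : 0 < w (C i) := w.pos (hz i).C_ne
    have h1 := hb3 (ebase L i) (C i) (z i) (nrm_ebase w i) (hz i)
    have h2 := hb4 x hx
    rw [← log_le_log_iff (mul_pos hCpos (exp_pos _)) hHx, log_mul hCpos.ne' (exp_pos _).ne',
      log_exp]
    rw [hT]
    linarith
  have hcmp : nrm w (H (α • x + β • y)) ≤ (4 * exp Θ) ^ (d ^ k) * nrm w (H x) := by
    rw [nrm_eq w (H (α • x + β • y))]
    apply max_le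
    · exact step w (hz 1) hT0 hΘ0.le hx (hcl 1) hα hβ
        (by rw [nrm_eq w (H x)]; exact le_max_left _ _) (hC 1)
    · exact step w (hz 0) hT0 hΘ0.le hx (hcl 0) hα hβ
        (by rw [nrm_eq w (H x)]; exact le_max_right _ _) (hC 0)
  have hlog : log (nrm w (H (α • x + β • y))) ≤
      (d:ℝ) ^ k * (log 4 + Θ) + log (nrm w (H x)) := by
    have h1 := log_le_log hHw hcmp
    rw [log_mul (by positivity) hHx.ne', log_pow, log_mul (by norm_num) (exp_pos _).ne',
      log_exp] at h1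
    push_cast at h1
    exact h1
  have hup := gr_upper hd hF hne k
  have hlo := hBg L w F r hF x hxne k
  rw [← hH] at hup hlo
  have h1 : log (nrm w (H (α • x + β • y))) / (d:ℝ) ^ k ≤
      (log 4 + Θ) + log (nrm w (H x)) / (d:ℝ) ^ k := by
    rw [div_le_iff₀ hdk0, add_mul, div_mul_cancel₀ _ hdk0.ne']
    linarith
  have htt : tt w F d r ≤ t := le_max_left _ _
  have h2 : (tt w F d r - Ssup w F + Bg) / ((d:ℝ) ^ k * (d - 1)) +
      Ssup w F / ((d:ℝ) ^ k * (d - 1)) ≤ η / 2 * (t + Bg) := by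
    rw [← add_div]
    calc (tt w F d r - Ssup w F + Bg + Ssup w F) / ((d:ℝ) ^ k * (d - 1))
        = (tt w F d r + Bg) * (1 / ((d:ℝ) ^ k * (d - 1))) := by ring
      _ ≤ (t + Bg) * (1 / ((d:ℝ) ^ k * (d - 1))) := by
          apply mul_le_mul_of_nonneg_right (by linarith)
          have : (0:ℝ) ≤ d - 1 := by linarith
          positivity
      _ ≤ (t + Bg) * (η / 2) := mul_le_mul_of_nonneg_left hq (by linarith)
      _ = η / 2 * (t + Bg) := by ring
  have h3 : Gr w F d (α • x + β • y) ≤ Gr w F d x + (log 4 + Θ) + η / 2 * (t + Bg) := by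
    linarith
  refine h3.trans ?_
  rw [hΘ]
  nlinarith

end Pool.Agent.H951R3.PB
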