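import Pool.Agent.H951R3.PB.D1
import Pool.Agent.H951R3.PB.D2
import Pool.Agent.H951R3.PB.D3

/-!
# The Green pairing is not much below `λ` in good coordinates (D6)
-/

set_option autoImplicit false

namespace Pool.Agent.H951R3.PB

open Real Filter Topology

universe u

/-- D6: the Green pairing is not much below `λ` in good coordinates -/
theorem gg_ge_lam (d : ℕ) (hd : 2 ≤ d) : ∃ B : ℝ, 0 ≤ B ∧
    ∀ (L : Type u) [Field L] [IsAlgClosed L] [CharZero L] (w : AbsoluteValue L ℝ)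
      (F : (Fin 2 → L) → Fin 2 → L) (r : ℝ), Fib w F d r →
    ∃ a b : Fin 2 → L, wd a b ≠ 0 ∧ ∀ x y, wd x y ≠ 0 →
      lam w (coo a b x) (coo a b y) - B * (max (mm w F d r) 0 + 1) ≤ gg w F d r x y := by
  obtain ⟨B1, hB1, H1⟩ := gr_lower.{u} d hd
  refine ⟨2 * (1 + B1) + 2, by linarith, ?_⟩
  intro L _ _ _ w F r h
  obtain ⟨a, b, hab, ht⟩ := exists_mm hd h
  refine ⟨a, b, hab, fun x y hxy => ?_⟩
  obtain ⟨hx, hy⟩ := D2.wd_swap0 x y hxy
  set x' := coo a b x with hx'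
  set y' := coo a b y with hy'
  have hx0 : x' ≠ 0 := D2.coo_ne hab hx
  have hy0 : y' ≠ 0 := D2.coo_ne hab hy
  have hex : emb a b x' = x := D2.emb_coo hab x
  have hey : emb a b y' = y := D2.emb_coo hab y
  have hw' : wd x' y' ≠ 0 := by
    intro h0
    have := D2.wd_emb a b x' y'
    rw [hex, hey, h0, mul_zero] at this
    exact hxy this
  have hgg := gg_cj hd h hab hw'
  rw [hex, hey] at hgg
  have hF := fib_cj h hab
  have g1 := H1 L w _ _ hF x' hx0 0
  have g2 := H1 L w _ _ hF y' hy0 0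
  set t := tt w (cj a b F) d (cr w d r a b) with htdef
  set S := Ssup w (cj a b F) with hS
  set r' := cr w d r a b with hr'
  simp only [Function.iterate_zero, id, pow_zero, div_one, one_mul] at g1 g2
  rw [← hgg, gg, lam, ta]
  have hd2 : (2 : ℝ) ≤ d := by exact_mod_cast hd
  have hd0 : (0 : ℝ) < d := by linarith
  have hd1 : (0 : ℝ) < d - 1 := by linarith
  have hd1' : (d : ℝ) - 1 ≠ 0 := hd1.ne'
  have htt : t = -r' + 2 * d * S := rfl
  have e1 : -r' / (d * (d - 1)) = t / (d * (d - 1)) - 2 * S / (d - 1) := by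
    rw [htt]; field_simp; ring
  have e2 : (t - S + B1) / ((d : ℝ) - 1) = (t + B1) / (d - 1) - S / (d - 1) := by
    field_simp; ring
  rw [e1]
  rw [e2] at g1 g2
  have e3 : (2 * S) / ((d : ℝ) - 1) = 2 * (S / (d - 1)) := by ring
  rw [e3]
  have hm0 : 0 ≤ max (mm w F d r) 0 := le_max_right _ _
  have htm : t ≤ max (mm w F d r) 0 + 1 := ht.trans (by gcongr; exact le_max_left _ _)
  -- t / (d(d-1)) - 2 (t + B1)/(d-1) ≥ - (2 (1+B1)+2) (M+1)
  have e4 : -((2 * (1 + B1) + 2) * (max (mm w F d r) 0 + 1)) ≤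
      t / (d * (d - 1)) - 2 * ((t + B1) / (d - 1)) := by
    set M := max (mm w F d r) 0 with hM
    have e5 : t / ((d : ℝ) * (d - 1)) - 2 * ((t + B1) / (d - 1)) =
        -((2 - 1 / d) * (t / (d - 1))) - 2 * (B1 / (d - 1)) := by
      field_simp; ring
    rw [e5]
    have h1 : B1 / ((d : ℝ) - 1) ≤ B1 := div_le_self hB1 (by linarith)
    have h2 : t / ((d : ℝ) - 1) ≤ M + 1 := by
      rw [div_le_iff₀ hd1]
      nlinarith
    have h3 : (1 : ℝ) / d ≤ 1 := by rw [div_le_one hd0]; linarith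
    have h4 : (0 : ℝ) ≤ 1 / d := by positivity
    have h5 : (2 - 1 / (d : ℝ)) * (t / (d - 1)) ≤ (2 - 1 / (d : ℝ)) * (M + 1) :=
      mul_le_mul_of_nonneg_left h2 (by linarith)
    have h6 : (2 - 1 / (d : ℝ)) * (M + 1) ≤ 2 * (M + 1) :=
      mul_le_mul_of_nonneg_right (by linarith) (by linarith)
    nlinarith
  linarith

end Pool.Agent.H951R3.PB
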