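import Mathlib
import Pool.Agent.H951R3.PB.Defs

/-!
# Resultant of two forms (task E1, helper124)
-/

set_option autoImplicit false

namespace Pool.Agent.H951R3.PB

open Polynomial

universe u

namespace E1

theorem map_dh {K L : Type u} [Field K] [Field L] (σ : K →+* L) (p : MvPolynomial (Fin 2) K) :
    dh (p.map σ) = (dh p).map σ := by
  induction p using MvPolynomial.induction_on with
  | C a => simp [dh, Polynomial.algebraMap_eq]
  | add p q hp hq =>
    simp only [dh, map_add, Polynomial.map_add] at hp hq ⊢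
    rw [hp, hq]
  | mul_X p i hp =>
    simp only [dh, map_mul, MvPolynomial.map_X, MvPolynomial.aeval_X, Polynomial.map_mul] at hp ⊢
    rw [hp]
    congr 1
    fin_cases i <;> simp

theorem natDegree_dh_le {K : Type u} [Field K] {p : MvPolynomial (Fin 2) K} {d : ℕ}
    (hp : p.IsHomogeneous d) : (dh p).natDegree ≤ d := by
  rw [dh, p.as_sum, map_sum]
  refine Polynomial.natDegree_sum_le_of_forall_le _ _ ?_
  intro m hm
  have h1 : m.weight 1 = d := hp (by simpa using hm)
  have h2 : m 0 ≤ d := by
    rw [← h1]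
    simp [Finsupp.weight_apply, Finsupp.sum_fintype, Fin.sum_univ_two]
  rw [MvPolynomial.aeval_monomial, Finsupp.prod_fintype _ _ (by simp)]
  simp only [Fin.prod_univ_two, Matrix.cons_val_zero, Matrix.cons_val_one, one_pow, mul_one]
  rw [Polynomial.algebraMap_eq]
  exact (Polynomial.natDegree_C_mul_X_pow_le _ _).trans h2

theorem homog_dh {K : Type u} [Field K] {p : MvPolynomial (Fin 2) K} {d : ℕ}
    (hp : p.IsHomogeneous d) : (dh p).homogenize d = p :=
  Polynomial.homogenize_eq_of_isHomogeneous hp rfl

theorem eval_of_ne {K : Type u} [Field K] {p : MvPolynomial (Fin 2) K} {d : ℕ}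
    (hp : p.IsHomogeneous d) (x : Fin 2 → K) (hx : x 1 ≠ 0) :
    MvPolynomial.eval x p = (dh p).eval (x 0 / x 1) * x 1 ^ d := by
  conv_lhs => rw [← homog_dh hp]
  exact Polynomial.eval_homogenize (natDegree_dh_le hp) x hx

theorem eval_of_eq {K : Type u} [Field K] {p : MvPolynomial (Fin 2) K} {d : ℕ}
    (hp : p.IsHomogeneous d) (x : Fin 2 → K) (hx : x 1 = 0) :
    MvPolynomial.eval x p = (dh p).coeff d * x 0 ^ d := by
  conv_lhs => rw [← homog_dh hp]
  simp only [homogenize, Finset.Nat.sum_antidiagonal_eq_sum_range_succ_mk, MvPolynomial.eval_sum]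
  rw [Finset.sum_range_succ, Finset.sum_eq_zero]
  · rw [MvPolynomial.eval_monomial, Finsupp.update_eq_add_single (by simp),
      Finsupp.prod_add_index' (by simp) (by simp [pow_add]),
      Finsupp.prod_single_index (by simp), Finsupp.prod_single_index (by simp)]
    simp
  · intro k hk
    rw [Finset.mem_range] at hk
    rw [MvPolynomial.eval_monomial, Finsupp.update_eq_add_single (by simp),
      Finsupp.prod_add_index' (by simp) (by simp [pow_add]),
      Finsupp.prod_single_index (by simp), Finsupp.prod_single_index (by simp), hx,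
      zero_pow (by omega)]
    simp

theorem res_ne {L : Type u} [Field L] [IsAlgClosed L] {d : ℕ} (hd : 1 ≤ d) {p q : L[X]}
    (hp : p.natDegree = d) (hq : q.natDegree ≤ d) :
    resultant p q d d ≠ 0 ↔ ∀ a, p.eval a = 0 → q.eval a ≠ 0 := by
  have hp0 : p ≠ 0 := by
    rintro rfl
    simp at hp
    omega
  have h := resultant_eq_prod_eval p q d hq (IsAlgClosed.splits p)
  rw [hp] at h
  rw [h]
  constructor
  · intro h1 a ha hqa
    refine h1 ?_
    refine mul_eq_zero_of_right _ ?_
    refine Multiset.prod_eq_zero ?_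
    rw [Multiset.mem_map]
    exact ⟨a, by rw [Polynomial.mem_roots hp0]; exact ha, hqa⟩
  · intro h1
    refine mul_ne_zero (pow_ne_zero _ (Polynomial.leadingCoeff_ne_zero.2 hp0)) ?_
    refine Multiset.prod_ne_zero ?_
    intro h2
    rw [Multiset.mem_map] at h2
    obtain ⟨a, ha, hqa⟩ := h2
    rw [Polynomial.mem_roots hp0] at ha
    exact h1 a ha hqa

theorem common {L : Type u} [Field L] {d : ℕ} {p q : MvPolynomial (Fin 2) L}
    (hp : p.IsHomogeneous d) (hq : q.IsHomogeneous d) (hd : 1 ≤ d)
    (hpd : (dh p).natDegree = d) :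
    (∀ a, (dh p).eval a = 0 → (dh q).eval a ≠ 0) ↔
      ∀ x : Fin 2 → L, MvPolynomial.eval x p = 0 → MvPolynomial.eval x q = 0 → x = 0 := by
  have hp0 : dh p ≠ 0 := by
    intro h
    rw [h] at hpd
    simp at hpd
    omega
  have hlc : (dh p).coeff d ≠ 0 := by
    rw [← hpd]
    exact Polynomial.leadingCoeff_ne_zero.2 hp0
  constructor
  · intro h x h1 h2
    by_cases hx : x 1 = 0
    · rw [eval_of_eq hp x hx] at h1
      rcases mul_eq_zero.1 h1 with h3 | h3
      · exact absurd h3 hlc
      · have h4 : x 0 = 0 := by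
          exact pow_eq_zero_iff (by omega) |>.1 h3
        ext i
        fin_cases i
        · exact h4
        · exact hx
    · exfalso
      rw [eval_of_ne hp x hx] at h1
      rw [eval_of_ne hq x hx] at h2
      have h3 : x 1 ^ d ≠ 0 := pow_ne_zero _ hx
      exact h _ ((mul_eq_zero.1 h1).resolve_right h3) ((mul_eq_zero.1 h2).resolve_right h3)
  · intro h a h1 h2
    have h3 := h ![a, 1] (by rw [eval_of_ne hp _ (by simp)]; simp [h1])
      (by rw [eval_of_ne hq _ (by simp)]; simp [h2])
    have h4 := congrFun h3 1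
    simp at h4

end E1

/-- E1 -/
theorem rs_map {K L : Type u} [Field K] [Field L] (σ : K →+* L)
    (f : Fin 2 → MvPolynomial (Fin 2) K) (d : ℕ) :
    rs (fun i => (f i).map σ) d = σ (rs f d) := by
  unfold rs
  rw [E1.map_dh, E1.map_dh, Polynomial.resultant_map_map]

/-- E1 -/
theorem rs_ne_zero_iff {L : Type u} [Field L] [IsAlgClosed L] {d : ℕ} (hd : 1 ≤ d)
    {f : Fin 2 → MvPolynomial (Fin 2) L} (hf : ∀ i, (f i).IsHomogeneous d) :
    rs f d ≠ 0 ↔ ∀ x : Fin 2 → L, ev f x = 0 → x = 0 := by
  have hev : ∀ x : Fin 2 → L, ev f x = 0 ↔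
      MvPolynomial.eval x (f 0) = 0 ∧ MvPolynomial.eval x (f 1) = 0 := by
    intro x
    constructor
    · intro h
      exact ⟨congrFun h 0, congrFun h 1⟩
    · rintro ⟨h1, h2⟩
      ext i
      fin_cases i
      · exact h1
      · exact h2
  unfold rs
  have hl0 := E1.natDegree_dh_le (hf 0)
  have hl1 := E1.natDegree_dh_le (hf 1)
  by_cases h0 : (dh (f 0)).natDegree = d
  · rw [E1.res_ne hd h0 hl1, E1.common (hf 0) (hf 1) hd h0]
    constructor
    · intro h x hx
      rw [hev] at hx
      exact h x hx.1 hx.2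
    · intro h x h1 h2
      exact h x ((hev x).2 ⟨h1, h2⟩)
  · by_cases h1 : (dh (f 1)).natDegree = d
    · rw [Polynomial.resultant_comm]
      have h3 : ((-1 : L) ^ (d * d) * resultant (dh (f 1)) (dh (f 0)) d d ≠ 0) ↔
          resultant (dh (f 1)) (dh (f 0)) d d ≠ 0 := by
        constructor
        · intro h
          exact right_ne_zero_of_mul h
        · intro h
          exact mul_ne_zero (pow_ne_zero _ (by simp)) h
      rw [h3, E1.res_ne hd h1 hl0, E1.common (hf 1) (hf 0) hd h1]
      constructor
      · intro h x hx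
        rw [hev] at hx
        exact h x hx.2 hx.1
      · intro h x h1 h2
        exact h x ((hev x).2 ⟨h2, h1⟩)
    · have hr : resultant (dh (f 0)) (dh (f 1)) d d = 0 :=
        Polynomial.resultant_eq_zero_of_lt_lt _ _ _ _ (by omega) (by omega)
      constructor
      · intro h
        exact absurd hr h
      · intro h
        exfalso
        have h3 := h ![1, 0] (by
          rw [hev]
          constructor
          · rw [E1.eval_of_eq (hf 0) _ (by simp),
              Polynomial.coeff_eq_zero_of_natDegree_lt (by omega)]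
            simp
          · rw [E1.eval_of_eq (hf 1) _ (by simp),
              Polynomial.coeff_eq_zero_of_natDegree_lt (by omega)]
            simp)
        have h4 := congrFun h3 0
        simp at h4

end Pool.Agent.H951R3.PB
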