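import Pool.Agent.H951R3.PB.Defs
import Pool.Agent.H951R3.PB.E1

/-!
# E3: the conjugate of a pair of forms is a pair of forms (helper7)
-/

set_option autoImplicit false

namespace Pool.Agent.H951R3.PB

open Real Filter Topology

universe u

open MvPolynomial in
/-- E3 -/
theorem poly_cj {L : Type u} [Field L] [IsAlgClosed L] {d : ℕ}
    (hd : 1 ≤ d) {f : Fin 2 → MvPolynomial (Fin 2) L} (hf : ∀ i, (f i).IsHomogeneous d)
    (h0 : rs f d ≠ 0) {a b : Fin 2 → L} (hab : wd a b ≠ 0) :
    ∃ g : Fin 2 → MvPolynomial (Fin 2) L, (∀ i, (g i).IsHomogeneous d) ∧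
      ev g = cj a b (ev f) ∧ rs g d ≠ 0 := by
  classical
  -- the linear forms
  set l : Fin 2 → MvPolynomial (Fin 2) L := fun j => X 0 * C (a j) + X 1 * C (b j) with hl
  set F : Fin 2 → MvPolynomial (Fin 2) L := fun i => aeval l (f i) with hF
  have hlhom : ∀ j, (l j).IsHomogeneous 1 := by
    intro j
    refine IsHomogeneous.add ?_ ?_
    · simpa using (isHomogeneous_X L (0 : Fin 2)).mul (isHomogeneous_C (Fin 2) (a j))
    · simpa using (isHomogeneous_X L (1 : Fin 2)).mul (isHomogeneous_C (Fin 2) (b j))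
  have hFhom : ∀ i, (F i).IsHomogeneous d := by
    intro i
    have := (hf i).aeval l hlhom
    rw [one_mul] at this
    exact this
  have hFev : ∀ i x, eval x (F i) = ev f (emb a b x) i := by
    intro i x
    have h1 : eval x (aeval l (f i)) = eval (fun j => eval x (l j)) (f i) := by
      have h := congrArg (fun φ : MvPolynomial (Fin 2) L →ₐ[L] L => φ (f i))
        (comp_aeval l (aeval x : MvPolynomial (Fin 2) L →ₐ[L] L))
      simpa [coe_aeval_eq_eval] using h
    have h2 : (fun j => eval x (l j)) = emb a b x := by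
      funext j
      simp [hl, emb]
    rw [hF]
    simp only
    rw [h1, h2]
    rfl
  set g : Fin 2 → MvPolynomial (Fin 2) L :=
    ![C ((wd a b)⁻¹) * (F 0 * C (b 1) - F 1 * C (b 0)),
      C ((wd a b)⁻¹) * (C (a 0) * F 1 - C (a 1) * F 0)] with hg
  have hghom : ∀ i, (g i).IsHomogeneous d := by
    intro i
    have hs : ∀ (c : L) (p q : MvPolynomial (Fin 2) L), p.IsHomogeneous d → q.IsHomogeneous d →
        (C c * (p - q)).IsHomogeneous d := by
      intro c p q hp hq
      have := (isHomogeneous_C (Fin 2) c).mul (hp.sub hq)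
      simpa using this
    fin_cases i
    · refine hs _ _ _ ?_ ?_
      · simpa using (hFhom 0).mul (isHomogeneous_C (Fin 2) (b 1))
      · simpa using (hFhom 1).mul (isHomogeneous_C (Fin 2) (b 0))
    · refine hs _ _ _ ?_ ?_
      · simpa using (isHomogeneous_C (Fin 2) (a 0)).mul (hFhom 1)
      · simpa using (isHomogeneous_C (Fin 2) (a 1)).mul (hFhom 0)
  have hgev : ev g = cj a b (ev f) := by
    funext x i
    fin_cases i
    · simp [ev, hg, cj, coo, wd, hFev, div_eq_inv_mul]
    · simp [ev, hg, cj, coo, wd, hFev, div_eq_inv_mul]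
  refine ⟨g, hghom, hgev, ?_⟩
  rw [rs_ne_zero_iff hd hghom]
  intro x hx
  have hfx := (rs_ne_zero_iff hd hf).1 h0
  rw [hgev] at hx
  -- coo a b y = 0 → y = 0
  set y := ev f (emb a b x) with hy
  have hc0 : wd y b = 0 := by
    have := congrFun hx 0
    simp only [cj, coo] at this
    simpa [hab] using this
  have hc1 : wd a y = 0 := by
    have := congrFun hx 1
    simp only [cj, coo] at this
    simpa [hab] using this
  have hy0 : y = 0 := by
    funext i
    simp only [wd] at hc0 hc1 hab
    fin_cases i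
    · have : y 0 * (a 0 * b 1 - a 1 * b 0) = 0 := by linear_combination a 0 * hc0 + b 0 * hc1
      simpa [hab] using this
    · have : y 1 * (a 0 * b 1 - a 1 * b 0) = 0 := by linear_combination a 1 * hc0 + b 1 * hc1
      simpa [hab] using this
  have hemb : emb a b x = 0 := hfx _ hy0
  funext i
  have e0 := congrFun hemb 0
  have e1 := congrFun hemb 1
  simp only [emb, Pi.add_apply, Pi.smul_apply, smul_eq_mul, Pi.zero_apply] at e0 e1
  simp only [wd] at hab
  fin_cases i
  · have : x 0 * (a 0 * b 1 - a 1 * b 0) = 0 := by linear_combination b 1 * e0 - b 0 * e1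
    simpa [hab] using this
  · have : x 1 * (a 0 * b 1 - a 1 * b 0) = 0 := by linear_combination a 0 * e1 - a 1 * e0
    simpa [hab] using this

end Pool.Agent.H951R3.PB
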