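import Pool.Agent.H951R3.PB.Defs

/-!
# The determinant formula (helper806)
-/

set_option autoImplicit false

namespace Pool.Agent.H951R3.PB

open Real Filter Topology

universe u

namespace E4x

open Polynomial Matrix

section res

variable {R : Type*} [CommRing R]

/-- the resultant with degree bounds is multiplicative -/
lemma res_mul (f g₁ g₂ : R[X]) (m n₁ n₂ : ℕ) (hm : f.natDegree ≤ m) (h₁ : g₁.natDegree ≤ n₁)
    (h₂ : g₂.natDegree ≤ n₂) :
    resultant f (g₁ * g₂) m (n₁ + n₂) = resultant f g₁ m n₁ * resultant f g₂ m n₂ := by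
  obtain ⟨k₁, rfl⟩ := Nat.exists_eq_add_of_le h₁
  obtain ⟨k₂, rfl⟩ := Nat.exists_eq_add_of_le h₂
  have e : g₁.natDegree + k₁ + (g₂.natDegree + k₂) =
    (g₁.natDegree + g₂.natDegree) + (k₁ + k₂) := by ring
  rw [e, resultant_add_right_deg f (g₁ * g₂) m _ (k₁ + k₂) natDegree_mul_le,
    resultant_mul_right f g₁ g₂ m hm, resultant_add_right_deg f g₁ m _ k₁ le_rfl,
    resultant_add_right_deg f g₂ m _ k₂ le_rfl]
  ring

lemma res_pow (f g : R[X]) (m n : ℕ) (hm : f.natDegree ≤ m) (hg : g.natDegree ≤ n) (M : ℕ) :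
    resultant f (g ^ M) m (n * M) = resultant f g m n ^ M := by
  induction M with
  | zero => simp
  | succ M ih =>
    rw [pow_succ, Nat.mul_succ, res_mul f (g ^ M) g m (n * M) n hm ?_ hg, ih, pow_succ]
    exact natDegree_pow_le.trans (by rw [mul_comm]; exact Nat.mul_le_mul_right _ hg)

end res

variable {K : Type u} [Field K]

/-- absolute values of determinants do not depend on the numbering -/
lemma w_det {I J : Type*} [Fintype I] [Fintype J] [DecidableEq I] [DecidableEq J]
    (w : AbsoluteValue K ℝ) (A : Matrix J J K) (f g : I ≃ J) :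
    w (det (A.submatrix f g)) = w (det A) := by
  have h1 : A.submatrix f g = (A.submatrix id (f.symm.trans g)).submatrix f f := by
    ext i j
    simp
  rw [h1, det_submatrix_equiv_self, det_permute']
  rcases Int.units_eq_one_or (Equiv.Perm.sign (f.symm.trans g)) with h | h <;> rw [h] <;> simp

/-- changing the numbering of one side -/
lemma w_det' {I J : Type*} [Fintype I] [Fintype J] [DecidableEq I] [DecidableEq J]
    (w : AbsoluteValue K ℝ) (A : Matrix I J K) (f g : I ≃ J) :
    w (det (A.submatrix id f)) = w (det (A.submatrix id g)) := by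
  have h1 : A.submatrix id f = (A.submatrix id g).submatrix (Equiv.refl I) (f.trans g.symm) := by
    ext i j
    simp
  rw [h1, w_det]

/-- the basis polynomials -/
noncomputable def psi (p q : K[X]) (M α β : ℕ) : K[X] := X ^ α * (p ^ β * q ^ (M - 1 - β))

lemma psi_deg {p q : K[X]} {d M α β : ℕ} (hp : p.natDegree ≤ d) (hq : q.natDegree ≤ d)
    (hα : α < d) (hβ : β < M) : (psi p q M α β).natDegree < d * M := by
  have h1 : (psi p q M α β).natDegree ≤ α + (d * β + d * (M - 1 - β)) := by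
    unfold psi
    refine natDegree_mul_le.trans (Nat.add_le_add (natDegree_X_pow_le _) ?_)
    refine natDegree_mul_le.trans (Nat.add_le_add ?_ ?_)
    · exact natDegree_pow_le.trans (by rw [mul_comm]; exact Nat.mul_le_mul_right _ hp)
    · exact natDegree_pow_le.trans (by rw [mul_comm]; exact Nat.mul_le_mul_right _ hq)
  have h2 : d * β + d * (M - 1 - β) = d * (M - 1) := by
    rw [← mul_add]
    congr 1
    omega
  have h3 : d * M = d * (M - 1) + d := by
    obtain ⟨M', rfl⟩ : ∃ M', M = M' + 1 := ⟨M - 1, by omega⟩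
    simp [Nat.mul_succ]
  omega

/-- the coefficients of the basis polynomials -/
noncomputable def PT (p q : K[X]) (d M : ℕ) : Matrix (Fin d × Fin M) (Fin (d * M)) K :=
  of fun ab k => (psi p q M ab.1 ab.2).coeff k

/-- splitting off the first exponent -/
def Esplit (d M : ℕ) : Fin d × Fin (M + 1) ≃ Fin d ⊕ (Fin d × Fin M) where
  toFun ab := Fin.cases (Sum.inl ab.1) (fun β => Sum.inr (ab.1, β)) ab.2
  invFun := Sum.elim (fun α => (α, 0)) (fun ab => (ab.1, ab.2.succ))
  left_inv := by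
    rintro ⟨α, β⟩
    refine Fin.cases ?_ (fun β => ?_) β <;> simp
  right_inv := by
    rintro (α | ⟨α, β⟩) <;> simp

lemma sum_coeff {P : K[X]} {N : ℕ} (hP : P.natDegree < N) (Q : K[X]) (k : ℕ) :
    ∑ j : Fin N, P.coeff j * (X ^ (j : ℕ) * Q).coeff k = (P * Q).coeff k := by
  conv_rhs => rw [P.as_sum_range' N hP]
  rw [Finset.sum_mul, finsetSum_coeff, Finset.sum_range]
  refine Finset.sum_congr rfl fun j _ => ?_
  rw [← C_mul_X_pow_eq_monomial, mul_assoc, coeff_C_mul]

lemma syl_left (f g : K[X]) (m n : ℕ) (hg : g.natDegree ≤ n) (k : Fin (m + n)) (j : Fin m) :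
    sylvester f g m n k (finSumFinEquiv (Sum.inl j)) = (X ^ (j : ℕ) * g).coeff k := by
  rw [finSumFinEquiv_apply_left, sylvester, of_apply, Fin.addCases_left, coeff_X_pow_mul']
  by_cases h1 : (j : ℕ) ≤ k
  · by_cases h2 : (k : ℕ) ≤ j + n
    · rw [if_pos ⟨h1, h2⟩, if_pos h1]
    · rw [if_neg (fun h => h2 h.2), if_pos h1, coeff_eq_zero_of_natDegree_lt (by omega)]
  · rw [if_neg (fun h => h1 h.1), if_neg h1]

lemma syl_right (f g : K[X]) (m n : ℕ) (hf : f.natDegree ≤ m) (k : Fin (m + n)) (j : Fin n) :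
    sylvester f g m n k (finSumFinEquiv (Sum.inr j)) = (X ^ (j : ℕ) * f).coeff k := by
  rw [finSumFinEquiv_apply_right, sylvester, of_apply, Fin.addCases_right, coeff_X_pow_mul']
  by_cases h1 : (j : ℕ) ≤ k
  · by_cases h2 : (k : ℕ) ≤ j + m
    · rw [if_pos ⟨h1, h2⟩, if_pos h1]
    · rw [if_neg (fun h => h2 h.2), if_pos h1, coeff_eq_zero_of_natDegree_lt (by omega)]
  · rw [if_neg (fun h => h1 h.1), if_neg h1]

/-- the determinant of the coefficients of the basis polynomials -/
theorem PT_det (w : AbsoluteValue K ℝ) {p q : K[X]} {d : ℕ} (hp : p.natDegree ≤ d)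
    (hq : q.natDegree ≤ d) : ∀ (M : ℕ) (e : Fin d × Fin M ≃ Fin (d * M)),
    w (det ((PT p q d M).submatrix id e)) = w (resultant p q d d) ^ (M * (M - 1) / 2) := by
  intro M
  induction M with
  | zero =>
    intro e
    have : IsEmpty (Fin d × Fin 0) := inferInstance
    rw [det_isEmpty]
    simp
  | succ M ih =>
    intro e
    let e0 : Fin d × Fin M ≃ Fin (d * M) := finProdFinEquiv
    have hc : d * (M + 1) = d + d * M := by ring
    -- the two factors
    let A : Matrix (Fin d ⊕ (Fin d × Fin M)) (Fin d ⊕ (Fin d × Fin M)) K :=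
      fromBlocks 1 0 0 ((PT p q d M).submatrix id e0)
    let s : Fin d ⊕ (Fin d × Fin M) ≃ Fin (d + d * M) :=
      (Equiv.sumCongr (Equiv.refl _) e0).trans finSumFinEquiv
    let B : Matrix (Fin d ⊕ (Fin d × Fin M)) (Fin d ⊕ (Fin d × Fin M)) K :=
      (sylvester p (q ^ M) d (d * M))ᵀ.submatrix s s
    let e1 : Fin d × Fin (M + 1) ≃ Fin (d * (M + 1)) :=
      (Esplit d M).trans (s.trans (finCongr hc.symm))
    have hqM : (q ^ M).natDegree ≤ d * M :=
      natDegree_pow_le.trans (by rw [mul_comm]; exact Nat.mul_le_mul_right _ hq)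
    have key : (PT p q d (M + 1)).submatrix id e1 = (A * B).submatrix (Esplit d M) (Esplit d M) := by
      ext ab k
      obtain ⟨r, rfl⟩ := (Esplit d M).symm.surjective ab
      obtain ⟨c, rfl⟩ := (Esplit d M).symm.surjective k
      simp only [submatrix_apply, id_eq, Equiv.apply_symm_apply, e1, Equiv.trans_apply]
      rw [mul_apply, Fintype.sum_sum_type]
      have hB : ∀ t c, B t c = sylvester p (q ^ M) d (d * M) (s c) (s t) := fun t c => rfl
      have hs1 : ∀ α : Fin d, s (Sum.inl α) = finSumFinEquiv (Sum.inl α) := fun α => rfl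
      have hs2 : ∀ ab, s (Sum.inr ab) = finSumFinEquiv (Sum.inr (e0 ab)) := fun α => rfl
      rcases r with α | ⟨α, β⟩
      · have hA1 : ∀ x, A (Sum.inl α) (Sum.inl x) = (1 : Matrix (Fin d) (Fin d) K) α x :=
          fun x => rfl
        have hA2 : ∀ x, A (Sum.inl α) (Sum.inr x) = 0 := fun x => rfl
        simp only [hA1, hA2, zero_mul, Finset.sum_const_zero, add_zero, one_apply, ite_mul, one_mul,
          Finset.sum_ite_eq, Finset.mem_univ, if_true]
        rw [hB, hs1, syl_left _ _ _ _ hqM]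
        show (psi p q (M + 1) α (0 : ℕ)).coeff _ = _
        unfold psi
        simp
      · have hA1 : ∀ x, A (Sum.inr (α, β)) (Sum.inl x) = 0 := fun x => rfl
        have hA2 : ∀ x, A (Sum.inr (α, β)) (Sum.inr x) = (psi p q M α β).coeff (e0 x) :=
          fun x => rfl
        simp only [hA1, hA2, zero_mul, Finset.sum_const_zero, zero_add]
        have h2 : ∀ x, B (Sum.inr x) c = (X ^ ((e0 x : Fin (d * M)) : ℕ) * p).coeff (s c) := by
          intro x
          rw [hB, hs2, syl_right _ _ _ _ hp]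
        simp only [h2]
        refine Eq.trans ?_ (Equiv.sum_comp e0 (fun j : Fin (d * M) =>
          (psi p q M α β).coeff (j : ℕ) * (X ^ (j : ℕ) * p).coeff ((s c : Fin _) : ℕ))).symm
        rw [sum_coeff (psi_deg hp hq α.2 β.2)]
        show (psi p q (M + 1) α ((β.succ : Fin (M + 1)) : ℕ)).coeff _ = _
        unfold psi
        have h3 : M + 1 - 1 - (β.succ : Fin (M + 1)).val = M - 1 - β := by
          rw [Fin.val_succ]; omega
        rw [h3, Fin.val_succ, pow_succ]
        congr 1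
        ring
    rw [w_det' w _ e e1, key, det_submatrix_equiv_self, det_mul, map_mul]
    have hA : w (det A) = w (resultant p q d d) ^ (M * (M - 1) / 2) := by
      rw [← ih e0]
      show w (det (fromBlocks 1 0 0 _)) = _
      rw [det_fromBlocks_zero₂₁, det_one, one_mul]
    have hB : w (det B) = w (resultant p q d d) ^ M := by
      show w (det ((sylvester p (q ^ M) d (d * M))ᵀ.submatrix s s)) = _
      rw [w_det, det_transpose, ← map_pow, ← res_pow p q d d hp hq M]
      rfl
    rw [hA, hB, ← pow_add]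
    congr 1
    have h4 : (M + 1) * (M + 1 - 1) = M * (M - 1) + M * 2 := by
      rcases M with _ | M
      · simp
      · simp only [Nat.add_sub_cancel]; ring
    rw [h4, Nat.add_mul_div_right _ _ (by norm_num)]

/-! ### the forms -/

/-- the value of the homogenisation -/
lemma eval_hom (P : K[X]) (n : ℕ) (x : Fin 2 → K) :
    MvPolynomial.eval x (P.homogenize n) =
      ∑ k : Fin (n + 1), P.coeff k * (x 0 ^ (k : ℕ) * x 1 ^ (k.rev : ℕ)) := by
  rw [homogenize, map_sum, Finset.Nat.sum_antidiagonal_eq_sum_range_succ_mk, Finset.sum_range]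
  refine Finset.sum_congr rfl fun k _ => ?_
  have h1 : (k.rev : ℕ) = n - k := by rw [Fin.val_rev]; omega
  rw [h1, Finsupp.update_eq_add_single (by simp), MvPolynomial.monomial_single_add,
    ← MvPolynomial.C_mul_X_pow_eq_monomial]
  simp only [map_mul, map_pow, MvPolynomial.eval_X, MvPolynomial.eval_C]
  ring

lemma dh_deg {d : ℕ} {g : MvPolynomial (Fin 2) K} (hg : g.IsHomogeneous d) :
    (dh g).natDegree ≤ d := by
  have h := MvPolynomial.aeval_natDegree_le g hg.totalDegree_le ![Polynomial.X, 1] (n := 1)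
    (by intro i; fin_cases i <;> simp)
  rw [mul_one] at h
  exact h

lemma hom_dh {d : ℕ} {g : MvPolynomial (Fin 2) K} (hg : g.IsHomogeneous d) :
    (dh g).homogenize d = g := homogenize_eq_of_isHomogeneous hg rfl

lemma hom_pow {P : K[X]} {n : ℕ} (hP : P.natDegree ≤ n) (k : ℕ) :
    (P ^ k).homogenize (n * k) = P.homogenize n ^ k := by
  induction k with
  | zero => simp
  | succ k ih =>
    rw [pow_succ, Nat.mul_succ, homogenize_mul _ _ ?_ hP, ih, pow_succ]
    exact natDegree_pow_le.trans (by rw [mul_comm]; exact Nat.mul_le_mul_right _ hP)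

lemma hom_psi {f : Fin 2 → MvPolynomial (Fin 2) K} {d : ℕ} (hf : ∀ i, (f i).IsHomogeneous d)
    {N α γ : ℕ} (hα : α < d) (hγ : γ < N) (x : Fin 2 → K) :
    MvPolynomial.eval x ((psi (dh (f 0)) (dh (f 1)) N α γ).homogenize (d * N - 1)) =
      x 0 ^ α * x 1 ^ (d - 1 - α) * (ev f x 0 ^ γ * ev f x 1 ^ (N - 1 - γ)) := by
  have hp := dh_deg (hf 0)
  have hq := dh_deg (hf 1)
  have e : d * N - 1 = (d - 1) + (d * γ + d * (N - 1 - γ)) := by
    have h2 : d * γ + d * (N - 1 - γ) = d * (N - 1) := by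
      rw [← mul_add]
      congr 1
      omega
    have h3 : d * N = d * (N - 1) + d := by
      obtain ⟨N', rfl⟩ : ∃ N', N = N' + 1 := ⟨N - 1, by omega⟩
      simp [Nat.mul_succ]
    omega
  have d1 : ((dh (f 0)) ^ γ).natDegree ≤ d * γ :=
    natDegree_pow_le.trans (by rw [mul_comm]; exact Nat.mul_le_mul_right _ hp)
  have d2 : ((dh (f 1)) ^ (N - 1 - γ)).natDegree ≤ d * (N - 1 - γ) :=
    natDegree_pow_le.trans (by rw [mul_comm]; exact Nat.mul_le_mul_right _ hq)
  rw [e, psi, homogenize_mul _ _ ((natDegree_X_pow_le _).trans (by omega))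
    (natDegree_mul_le.trans (Nat.add_le_add d1 d2)), homogenize_mul _ _ d1 d2,
    hom_pow hp, hom_pow hq, hom_dh (hf 0), hom_dh (hf 1), homogenize_X_pow (by omega)]
  simp only [map_mul, map_pow, MvPolynomial.eval_X, ev]

/-- a system of forms of degree `N - 1` -/
def Good (f : Fin 2 → MvPolynomial (Fin 2) K) (d N E m : ℕ) : Prop :=
  ∃ (b : Matrix (Fin N) (Fin N) K) (B : Fin N → (Fin 2 → K) → K),
    (∀ α y, B α y = ∑ γ : Fin N, b α γ * (y 0 ^ (γ : ℕ) * y 1 ^ (γ.rev : ℕ))) ∧
    ∀ w : AbsoluteValue K ℝ, w (det b) = w (rs f d) ^ E ∧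
      ∀ α x, w (B α x) ≤ ∏ j ∈ Finset.range m, nrm w ((ev f)^[j] x) ^ (d - 1)

lemma good_zero (f : Fin 2 → MvPolynomial (Fin 2) K) (d : ℕ) : Good f d 1 0 0 := by
  refine ⟨1, fun _ _ => 1, fun α y => ?_, fun w => ⟨by simp, fun α x => by simp⟩⟩
  rw [Fintype.sum_eq_single α (fun γ hγ => absurd (Subsingleton.elim _ _) hγ)]
  simp

lemma good_succ {f : Fin 2 → MvPolynomial (Fin 2) K} {d : ℕ} (hd : 1 ≤ d)
    (hf : ∀ i, (f i).IsHomogeneous d) {N E m : ℕ} (hN : 1 ≤ N) (h : Good f d N E m) :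
    Good f d (d * N) (d * E + N * (N - 1) / 2) (m + 1) := by
  obtain ⟨b, B, hB, hw⟩ := h
  let p := dh (f 0)
  let q := dh (f 1)
  have hp : p.natDegree ≤ d := dh_deg (hf 0)
  have hq : q.natDegree ≤ d := dh_deg (hf 1)
  let e : Fin d × Fin N ≃ Fin (d * N) := finProdFinEquiv
  let b' : Matrix (Fin (d * N)) (Fin (d * N)) K :=
    ((kroneckerMap (· * ·) (1 : Matrix (Fin d) (Fin d) K) b) *
      (PT p q d N).submatrix id e).submatrix e.symm e.symm
  let B' : Fin (d * N) → (Fin 2 → K) → K := fun a x =>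
    x 0 ^ ((e.symm a).1 : ℕ) * x 1 ^ (d - 1 - ((e.symm a).1 : ℕ)) * B (e.symm a).2 (ev f x)
  refine ⟨b', B', fun a x => ?_, fun w => ⟨?_, fun a x => ?_⟩⟩
  · obtain ⟨⟨α, β⟩, rfl⟩ := e.surjective a
    have hb : ∀ k, b' (e (α, β)) k = ∑ γ, b β γ * (psi p q N α γ).coeff k := by
      intro k
      show ((kroneckerMap (· * ·) (1 : Matrix (Fin d) (Fin d) K) b) *
        (PT p q d N).submatrix id e) (e.symm (e (α, β))) (e.symm k) = _
      rw [e.symm_apply_apply, mul_apply, Fintype.sum_prod_type]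
      rw [Finset.sum_eq_single α]
      · refine Finset.sum_congr rfl fun γ _ => ?_
        simp only [kroneckerMap_apply, one_apply_eq, one_mul, submatrix_apply, id_eq,
          e.apply_symm_apply]
        rfl
      · intro α' _ hα'
        refine Finset.sum_eq_zero fun γ _ => ?_
        simp only [kroneckerMap_apply, one_apply_ne hα'.symm, zero_mul]
      · intro h
        exact absurd (Finset.mem_univ _) h
    have hBe : B' (e (α, β)) x =
        x 0 ^ (α : ℕ) * x 1 ^ (d - 1 - (α : ℕ)) * B β (ev f x) := by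
      show x 0 ^ ((e.symm (e (α, β))).1 : ℕ) * x 1 ^ (d - 1 - ((e.symm (e (α, β))).1 : ℕ)) *
        B (e.symm (e (α, β))).2 (ev f x) = _
      rw [e.symm_apply_apply]
    rw [hBe, hB]
    simp only [hb, Finset.sum_mul]
    rw [Finset.sum_comm, Finset.mul_sum]
    refine Finset.sum_congr rfl fun γ _ => ?_
    have h1 := hom_psi hf α.2 γ.2 x
    have h2 : d * N - 1 + 1 = d * N := Nat.sub_add_cancel (Nat.mul_pos hd hN)
    have h3 : ∑ k : Fin (d * N), (psi p q N α γ).coeff k * (x 0 ^ (k : ℕ) * x 1 ^ (k.rev : ℕ)) =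
        MvPolynomial.eval x ((psi p q N α γ).homogenize (d * N - 1)) := by
      rw [eval_hom]
      refine (Fintype.sum_equiv (finCongr h2) _ _ (fun k => ?_)).symm
      have h5 : ((finCongr h2 k : Fin (d * N)) : ℕ) = (k : ℕ) := rfl
      have h6 : ((finCongr h2 k : Fin (d * N)).rev : ℕ) = (k.rev : ℕ) := by
        rw [Fin.val_rev, Fin.val_rev, h5]
        exact congrArg (fun t => t - ((k : ℕ) + 1)) h2.symm
      rw [h5, h6]
    have h4 : (γ.rev : ℕ) = N - 1 - γ := by rw [Fin.val_rev]; omega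
    calc x 0 ^ (α : ℕ) * x 1 ^ (d - 1 - (α : ℕ)) * (b β γ * (ev f x 0 ^ (γ : ℕ) *
          ev f x 1 ^ (γ.rev : ℕ)))
        = b β γ * (x 0 ^ (α : ℕ) * x 1 ^ (d - 1 - (α : ℕ)) * (ev f x 0 ^ (γ : ℕ) *
          ev f x 1 ^ (N - 1 - (γ : ℕ)))) := by rw [h4]; ring
      _ = b β γ * ∑ k : Fin (d * N), (psi p q N α γ).coeff k *
          (x 0 ^ (k : ℕ) * x 1 ^ (k.rev : ℕ)) := by rw [h3, ← h1]
      _ = _ := by
        rw [Finset.mul_sum]
        exact Finset.sum_congr rfl fun k _ => by ring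
  · show w (det ((_ * (PT p q d N).submatrix id e).submatrix e.symm e.symm)) = _
    rw [det_submatrix_equiv_self, det_mul, det_kronecker, map_mul, PT_det w hp hq N e, det_one,
      one_pow, one_mul, map_pow, (hw w).1, Fintype.card_fin, ← pow_mul, mul_comm E d, pow_add]
    rfl
  · have hx : ∀ i, w (x i) ≤ nrm w x := by
      intro i
      fin_cases i
      · exact le_max_left _ _
      · exact le_max_right _ _
    have h0 : 0 ≤ nrm w x := (w.nonneg _).trans (hx 0)
    rw [Finset.prod_range_succ']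
    simp only [Function.iterate_succ_apply, Function.iterate_zero, id_eq]
    have hα : ((e.symm a).1 : ℕ) < d := (e.symm a).1.2
    have h1 : w (x 0 ^ ((e.symm a).1 : ℕ) * x 1 ^ (d - 1 - ((e.symm a).1 : ℕ))) ≤
        nrm w x ^ (d - 1) := by
      rw [map_mul, map_pow, map_pow]
      calc w (x 0) ^ ((e.symm a).1 : ℕ) * w (x 1) ^ (d - 1 - ((e.symm a).1 : ℕ))
          ≤ nrm w x ^ ((e.symm a).1 : ℕ) * nrm w x ^ (d - 1 - ((e.symm a).1 : ℕ)) :=
            mul_le_mul (pow_le_pow_left₀ (w.nonneg _) (hx 0) _)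
              (pow_le_pow_left₀ (w.nonneg _) (hx 1) _) (pow_nonneg (w.nonneg _) _)
              (pow_nonneg h0 _)
        _ = nrm w x ^ (d - 1) := by
            rw [← pow_add]
            congr 1
            omega
    show w (x 0 ^ ((e.symm a).1 : ℕ) * x 1 ^ (d - 1 - ((e.symm a).1 : ℕ)) *
      B (e.symm a).2 (ev f x)) ≤ _
    rw [map_mul, mul_comm]
    have h7 := (hw w).2 (e.symm a).2 (ev f x)
    exact mul_le_mul h7 h1 (w.nonneg _) ((w.nonneg _).trans h7)

lemma good_all {f : Fin 2 → MvPolynomial (Fin 2) K} {d : ℕ} (hd : 1 ≤ d)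
    (hf : ∀ i, (f i).IsHomogeneous d) (m : ℕ) : Good f d (d ^ m) (ee d m) m := by
  induction m with
  | zero => exact good_zero f d
  | succ m ih =>
    rw [pow_succ']
    exact good_succ hd hf (Nat.pow_pos (n := m) (by omega)) ih

end E4x

open E4x in
/-- E4: the determinant formula -/
theorem det_formula {K : Type u} [Field K] {d : ℕ} (hd : 1 ≤ d)
    {f : Fin 2 → MvPolynomial (Fin 2) K} (hf : ∀ i, (f i).IsHomogeneous d) (m : ℕ) :
    ∃ B : Fin (d ^ m) → (Fin 2 → K) → K, ∀ (w : AbsoluteValue K ℝ),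
      (∀ α x, w (B α x) ≤ ∏ j ∈ Finset.range m, nrm w ((ev f)^[j] x) ^ (d - 1)) ∧
      ∀ x : Fin (d ^ m) → Fin 2 → K,
        w (Matrix.det (Matrix.of fun i α => B α (x i))) =
          w (rs f d) ^ (ee d m) * ∏ i, ∏ j ∈ Finset.Ioi i, w (wd (x i) (x j)) := by
  obtain ⟨b, B, hB, hw⟩ := good_all hd hf m
  refine ⟨B, fun w => ⟨(hw w).2, fun x => ?_⟩⟩
  have h1 : (Matrix.of fun i α => B α (x i)) =
      Matrix.projVandermonde (fun i => x i 0) (fun i => x i 1) * b.transpose := by
    ext i α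
    rw [Matrix.mul_apply, Matrix.of_apply, hB]
    refine Finset.sum_congr rfl fun γ _ => ?_
    rw [Matrix.projVandermonde_apply, Matrix.transpose_apply]
    ring
  rw [h1, Matrix.det_mul, Matrix.det_transpose, map_mul, (hw w).1, Matrix.det_projVandermonde,
    map_prod, mul_comm]
  congr 1
  refine Finset.prod_congr rfl fun i _ => ?_
  rw [map_prod]
  refine Finset.prod_congr rfl fun j _ => ?_
  rw [← w.map_neg]
  congr 1
  unfold wd
  ring

end Pool.Agent.H951R3.PB
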