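import Pool.Agent.H951R3.PB.Defs
import Pool.Agent.H951R3.PB.B1
import Pool.Agent.H951R3.PB.B3
import Pool.Agent.H951R3.PB.D1
import Pool.Agent.H951R3.PB.E2
import Pool.Agent.H951R3.PB.E4

/-! Task E5 of `h951_tasks` (helper843): the loss inequality. -/

set_option autoImplicit false

namespace Pool.Agent.H951R3.PB

open Real Filter Topology

universe u

namespace E5

theorem sum_pairs {n : ℕ} (G : Fin n → ℝ) :
    ∑ i, ∑ j ∈ Finset.Ioi i, (G i + G j) = ((n : ℝ) - 1) * ∑ i, G i := by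
  have h2 : ∑ i : Fin n, ∑ j ∈ Finset.Ioi i, G j = ∑ j : Fin n, ((j : ℕ) : ℝ) * G j := by
    rw [Finset.sum_comm' (t' := Finset.univ) (s' := fun j => Finset.Iio j)]
    · refine Finset.sum_congr rfl fun j _ => ?_
      rw [Finset.sum_const, Fin.card_Iio, nsmul_eq_mul]
    · intro x y
      simp
  have h1 : ∑ i : Fin n, ∑ j ∈ Finset.Ioi i, G i = ∑ i : Fin n, ((n : ℝ) - 1 - (i : ℕ)) * G i := by
    refine Finset.sum_congr rfl fun i _ => ?_
    rw [Finset.sum_const, Fin.card_Ioi, nsmul_eq_mul]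
    have hi := i.isLt
    rw [Nat.sub_sub, Nat.cast_sub (by omega)]
    push_cast
    ring
  simp only [Finset.sum_add_distrib]
  rw [h1, h2, ← Finset.sum_add_distrib, Finset.mul_sum]
  refine Finset.sum_congr rfl fun i _ => ?_
  ring

theorem sum_const_pairs (n : ℕ) (c : ℝ) :
    ∑ i : Fin n, ∑ _j ∈ Finset.Ioi i, c = ((n : ℝ) - 1) * n * c / 2 := by
  have h := sum_pairs (fun _ : Fin n => c / 2)
  simp only [add_halves] at h
  rw [h]
  simp
  ring

theorem ee_eq (d : ℕ) (hd : 1 ≤ d) (m : ℕ) :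
    2 * (d : ℝ) * (d - 1) * (ee d m : ℝ) =
      (d : ℝ) ^ m * ((d : ℝ) ^ m - 1) - (d - 1) * (d : ℝ) ^ m * m := by
  induction m with
  | zero => simp [ee]
  | succ m ih =>
    have hev : 2 * (d ^ m * (d ^ m - 1) / 2) = d ^ m * (d ^ m - 1) :=
      Nat.mul_div_cancel' (even_iff_two_dvd.1 (Nat.even_mul_pred_self _))
    have hev' : 2 * ((d ^ m * (d ^ m - 1) / 2 : ℕ) : ℝ) = (d : ℝ) ^ m * ((d : ℝ) ^ m - 1) := by
      have h1 : 1 ≤ d ^ m := Nat.one_le_pow _ _ hd
      have := congrArg (Nat.cast : ℕ → ℝ) hev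
      rw [Nat.cast_mul, Nat.cast_mul, Nat.cast_sub h1] at this
      push_cast at this ⊢
      exact this
    have e : ee d (m + 1) = d * ee d m + d ^ m * (d ^ m - 1) / 2 := rfl
    rw [e, Nat.cast_add, Nat.cast_mul, mul_add]
    have : 2 * (d : ℝ) * (d - 1) * (d * (ee d m : ℝ)) = d * (2 * (d : ℝ) * (d - 1) * (ee d m : ℝ)) := by
      ring
    rw [this, ih]
    have h3 : 2 * (d : ℝ) * (d - 1) * ((d ^ m * (d ^ m - 1) / 2 : ℕ) : ℝ) =
        (d : ℝ) * (d - 1) * (2 * ((d ^ m * (d ^ m - 1) / 2 : ℕ) : ℝ)) := by ring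
    rw [h3, hev']
    push_cast
    ring

theorem det_le {L : Type u} [Field L] (w : AbsoluteValue L ℝ) {n : ℕ}
    (A : Matrix (Fin n) (Fin n) L) (E : Fin n → ℝ) (hE : ∀ i α, w (A i α) ≤ E i) :
    w A.det ≤ n.factorial * ∏ i, E i := by
  classical
  rw [← Matrix.det_transpose, Matrix.det_apply']
  refine (w.sum_le _ _).trans ?_
  have : ∀ σ ∈ (Finset.univ : Finset (Equiv.Perm (Fin n))),
      w (((Equiv.Perm.sign σ : ℤ) : L) * ∏ i, A.transpose (σ i) i) ≤ ∏ i, E i := by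
    intro σ _
    have hs : w ((Equiv.Perm.sign σ : ℤ) : L) = 1 := by
      rcases Int.units_eq_one_or (Equiv.Perm.sign σ) with h | h <;> simp [h]
    rw [map_mul, hs, one_mul, map_prod]
    exact Finset.prod_le_prod (fun i _ => apply_nonneg w _) fun i _ => hE i _
  refine (Finset.sum_le_card_nsmul _ _ _ this).trans ?_
  rw [nsmul_eq_mul, Finset.card_univ, Fintype.card_perm, Fintype.card_fin]

end E5

/-- E5 -/
theorem loss0 (d : ℕ) (hd : 2 ≤ d) : ∃ B : ℝ, 0 ≤ B ∧
    ∀ (L : Type u) [Field L] [IsAlgClosed L] [CharZero L] (w : AbsoluteValue L ℝ)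
      (f : Fin 2 → MvPolynomial (Fin 2) L), (∀ i, (f i).IsHomogeneous d) → rs f d ≠ 0 →
    ∀ (m : ℕ) (x : Fin (d ^ m) → Fin 2 → L), (∀ i, x i ≠ 0) →
      (∀ i j, i ≠ j → wd (x i) (x j) ≠ 0) →
      -((d : ℝ) ^ m * (m * (tt w (ev f) d (log (w (rs f d))) + B))) -
          (d : ℝ) ^ m * (m * log d) ≤
        ∑ i, ∑ j ∈ Finset.Ioi i, gg w (ev f) d (log (w (rs f d))) (x i) (x j) := by
  obtain ⟨B0, hB0, hlow⟩ := gr_lower.{u} d hd
  obtain ⟨B1, hB1, htt⟩ := tt_ge.{u} d hd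
  refine ⟨B0 + B1, by positivity, ?_⟩
  intro L _ _ _ w f hf h0 m x hx hxx
  set r := log (w (rs f d)) with hr
  set F := ev f with hF
  have hfib : Fib w F d r := fib_base w (by omega) hf h0
  have ht := htt L w F r hfib
  have hlow' := hlow L w F r hfib
  set t := tt w F d r with htdef
  set S := Ssup w F with hS
  have htS : t = -r + 2 * d * S := rfl
  have hd2 : (2 : ℝ) ≤ d := by exact_mod_cast hd
  have hd0 : (0 : ℝ) < d := by linarith
  have hd1 : (0 : ℝ) < (d : ℝ) - 1 := by linarith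
  obtain ⟨Bf, hBf⟩ := det_formula (by omega : 1 ≤ d) hf m
  obtain ⟨hBle, hdet⟩ := hBf w
  -- iterates do not vanish
  have hiter : ∀ (j : ℕ) (y : Fin 2 → L), y ≠ 0 → F^[j] y ≠ 0 := by
    intro j
    induction j with
    | zero => intro y hy; exact hy
    | succ j ih =>
      intro y hy
      rw [Function.iterate_succ', Function.comp]
      exact fib_ne_zero hfib (ih y hy)
  have hnrm : ∀ y : Fin 2 → L, y ≠ 0 → 0 < nrm w y := by
    intro y hy
    by_contra hcon
    push Not at hcon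
    apply hy
    have h1 : w (y 0) ≤ 0 := (le_max_left _ _).trans hcon
    have h2 : w (y 1) ≤ 0 := (le_max_right _ _).trans hcon
    ext i
    fin_cases i
    · exact (w.eq_zero).1 (le_antisymm h1 (apply_nonneg w _))
    · exact (w.eq_zero).1 (le_antisymm h2 (apply_nonneg w _))
  have hlogF : ∀ (y : Fin 2 → L), y ≠ 0 → ∀ j : ℕ,
      log (nrm w (F^[j] y)) ≤ (d : ℝ) ^ j * Gr w F d y + (t - S + B0) / (d - 1) := by
    intro y hy j
    have h := hlow' y hy j
    have hp : (0 : ℝ) < (d : ℝ) ^ j := by positivity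
    have h1 : log (nrm w (F^[j] y)) / (d : ℝ) ^ j ≤
        Gr w F d y + (t - S + B0) / ((d : ℝ) ^ j * (d - 1)) := by linarith
    rw [div_le_iff₀ hp] at h1
    refine h1.trans (le_of_eq ?_)
    field_simp
  set E : Fin (d ^ m) → ℝ := fun i =>
    exp (((d : ℝ) ^ m - 1) * Gr w F d (x i) + m * (t - S + B0)) with hE
  have hBE : ∀ i α, w (Bf α (x i)) ≤ E i := by
    intro i α
    refine (hBle α (x i)).trans ?_
    have h1 : ∏ j ∈ Finset.range m, nrm w (F^[j] (x i)) ^ (d - 1) =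
        exp (∑ j ∈ Finset.range m, ((d : ℝ) - 1) * log (nrm w (F^[j] (x i)))) := by
      rw [Real.exp_sum]
      refine Finset.prod_congr rfl fun j _ => ?_
      have hpos := hnrm _ (hiter j _ (hx i))
      have hcast : ((d - 1 : ℕ) : ℝ) = (d : ℝ) - 1 := by
        rw [Nat.cast_sub (by omega)]; simp
      rw [← hcast, mul_comm, Real.exp_mul, Real.exp_log hpos, Real.rpow_natCast]
    rw [h1]
    apply Real.exp_le_exp.2
    have h2 : ∀ j ∈ Finset.range m, ((d : ℝ) - 1) * log (nrm w (F^[j] (x i))) ≤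
        ((d : ℝ) - 1) * (d : ℝ) ^ j * Gr w F d (x i) + (t - S + B0) := by
      intro j _
      have := mul_le_mul_of_nonneg_left (hlogF _ (hx i) j) hd1.le
      refine this.trans (le_of_eq ?_)
      field_simp
    refine (Finset.sum_le_sum h2).trans (le_of_eq ?_)
    rw [Finset.sum_add_distrib, ← Finset.sum_mul, ← Finset.mul_sum,
      mul_comm ((d : ℝ) - 1) _, geom_sum_mul, Finset.sum_const, Finset.card_range,
      nsmul_eq_mul]
  have hdetle := E5.det_le w (Matrix.of fun i α => Bf α (x i)) E hBE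
  rw [hdet] at hdetle
  have hrs : 0 < w (rs f d) := w.pos h0
  have hwd : ∀ i, ∀ j ∈ Finset.Ioi i, 0 < w (wd (x i) (x j)) := by
    intro i j hj
    exact w.pos (hxx i j (ne_of_lt (Finset.mem_Ioi.1 hj)))
  have hprodpos : 0 < ∏ i, ∏ j ∈ Finset.Ioi i, w (wd (x i) (x j)) :=
    Finset.prod_pos fun i _ => Finset.prod_pos (hwd i)
  have hlog := Real.log_le_log (by positivity) hdetle
  rw [Real.log_mul (by positivity) hprodpos.ne', Real.log_pow,
    Real.log_mul (by positivity) (Finset.prod_ne_zero_iff.2 fun i _ => (Real.exp_pos _).ne'),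
    Real.log_prod (fun i _ => (Finset.prod_pos (hwd i)).ne'),
    Real.log_prod (fun i _ => (Real.exp_pos _).ne')] at hlog
  have hlog1 : ∀ i, log (∏ j ∈ Finset.Ioi i, w (wd (x i) (x j))) =
      ∑ j ∈ Finset.Ioi i, log (w (wd (x i) (x j))) := fun i =>
    Real.log_prod (fun j hj => (hwd i j hj).ne')
  have hEsum : ∑ i, log (E i) = ((d : ℝ) ^ m - 1) * ∑ i, Gr w F d (x i) +
      ((d ^ m : ℕ) : ℝ) * (m * (t - S + B0)) := by
    simp only [hE, Real.log_exp]
    rw [Finset.sum_add_distrib, ← Finset.mul_sum, Finset.sum_const, Finset.card_univ,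
      Fintype.card_fin, nsmul_eq_mul]
  rw [hEsum] at hlog
  simp only [hlog1] at hlog
  -- log n!
  have hfact : log ((d ^ m).factorial : ℝ) ≤ (d : ℝ) ^ m * (m * log d) := by
    have h1 : ((d ^ m).factorial : ℝ) ≤ ((d ^ m : ℕ) : ℝ) ^ (d ^ m) := by
      exact_mod_cast Nat.factorial_le_pow (d ^ m)
    have h2 : (0 : ℝ) < (d ^ m).factorial := by exact_mod_cast Nat.factorial_pos _
    calc log ((d ^ m).factorial : ℝ) ≤ log (((d ^ m : ℕ) : ℝ) ^ (d ^ m)) := Real.log_le_log h2 h1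
      _ = (d : ℝ) ^ m * (m * log d) := by
        rw [Real.log_pow]; push_cast; rw [Real.log_pow]
  -- the sum of gg
  have hsum : ∑ i, ∑ j ∈ Finset.Ioi i, gg w F d r (x i) (x j) =
      -(∑ i, ∑ j ∈ Finset.Ioi i, log (w (wd (x i) (x j)))) +
        ((d : ℝ) ^ m - 1) * ∑ i, Gr w F d (x i) +
        ((d : ℝ) ^ m - 1) * (d : ℝ) ^ m * ta d r / 2 := by
    have e1 := E5.sum_pairs (fun i => Gr w F d (x i))
    have e2 := E5.sum_const_pairs (d ^ m) (ta d r)
    push_cast at e1 e2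
    rw [← e1, ← e2, ← Finset.sum_neg_distrib, ← Finset.sum_add_distrib, ← Finset.sum_add_distrib]
    refine Finset.sum_congr rfl fun i _ => ?_
    rw [← Finset.sum_neg_distrib, ← Finset.sum_add_distrib, ← Finset.sum_add_distrib]
    refine Finset.sum_congr rfl fun j _ => ?_
    unfold gg
    ring
  rw [hsum]
  have hee := E5.ee_eq d (by omega) m
  -- ee * r + n(n-1)/2 * ta = - n m r / (2d)
  have hkey : (ee d m : ℝ) * r + ((d : ℝ) ^ m - 1) * (d : ℝ) ^ m * ta d r / 2 =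
      -((d : ℝ) ^ m * m * r / (2 * d)) := by
    have h1 : (ee d m : ℝ) = ((d : ℝ) ^ m * ((d : ℝ) ^ m - 1) - (d - 1) * (d : ℝ) ^ m * m) /
        (2 * d * (d - 1)) := by
      rw [eq_div_iff (by positivity), ← hee]; ring
    rw [h1]
    unfold ta
    field_simp
    ring
  have hcast : ((d ^ m : ℕ) : ℝ) = (d : ℝ) ^ m := by push_cast; rfl
  rw [hcast] at hlog
  have hr2 : -((d : ℝ) ^ m * m * r / (2 * d)) = (d : ℝ) ^ m * (m * (t / (2 * d) - S)) := by
    rw [htS]
    field_simp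
    ring
  have ht2 : -B1 ≤ t / (2 * d) := by
    rw [le_div_iff₀ (by positivity)]
    nlinarith
  have hfin : (d : ℝ) ^ m * (m * (t - S + B0)) - (d : ℝ) ^ m * (m * (t / (2 * d) - S)) ≤
      (d : ℝ) ^ m * (m * (t + (B0 + B1))) := by
    have hp : (0 : ℝ) ≤ (d : ℝ) ^ m * m := by positivity
    have : (d : ℝ) ^ m * m * (-(t / (2 * d))) ≤ (d : ℝ) ^ m * m * B1 :=
      mul_le_mul_of_nonneg_left (by linarith) hp
    nlinarith
  linarith

end Pool.Agent.H951R3.PB
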