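import Pool.Agent.H951R3.PB.Defs

/-!
# Extension of places to the algebraic closure
-/

set_option autoImplicit false

namespace Pool.Agent.H951R3.PB

open Real Filter Topology NumberField WithZero

universe u

theorem F1_ext {K : Type u} [Field K] (v : AbsoluteValue K ℝ) {E : Type u}
    [NontriviallyNormedField E] [IsUltrametricDist E] [CompleteSpace E] (ι : K →+* E)
    (hι : ∀ x, ‖ι x‖ = v x) : ∃ w : AbsoluteValue (AlgebraicClosure K) ℝ, Ext v w := by
  let _ : Algebra K (AlgebraicClosure E) := ((algebraMap E (AlgebraicClosure E)).comp ι).toAlgebra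
  let ψ : AlgebraicClosure K →ₐ[K] AlgebraicClosure E := IsAlgClosed.lift
  refine ⟨{ toFun := fun x => spectralNorm E (AlgebraicClosure E) (ψ x), map_mul' := ?_,
            nonneg' := ?_, eq_zero' := ?_, add_le' := ?_ }, ?_⟩
  · intro x y
    change spectralNorm E (AlgebraicClosure E) (ψ (x * y)) =
      spectralNorm E (AlgebraicClosure E) (ψ x) * spectralNorm E (AlgebraicClosure E) (ψ y)
    rw [map_mul]
    exact map_mul (spectralMulAlgNorm E (AlgebraicClosure E)) (ψ x) (ψ y)
  · intro x
    exact spectralNorm_nonneg _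
  · intro x
    constructor
    · intro h
      have := eq_zero_of_map_spectralNorm_eq_zero h (Algebra.IsAlgebraic.isAlgebraic (ψ x))
      exact (map_eq_zero ψ).mp this
    · rintro rfl
      change spectralNorm E (AlgebraicClosure E) (ψ 0) = 0
      rw [map_zero]
      exact spectralNorm_zero
  · intro x y
    change spectralNorm E (AlgebraicClosure E) (ψ (x + y)) ≤
      spectralNorm E (AlgebraicClosure E) (ψ x) + spectralNorm E (AlgebraicClosure E) (ψ y)
    rw [map_add]
    exact map_add_le_add (spectralMulAlgNorm E (AlgebraicClosure E)) (ψ x) (ψ y)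
  · intro x
    change spectralNorm E (AlgebraicClosure E) (ψ (algebraMap K (AlgebraicClosure K) x)) = v x
    rw [AlgHom.commutes]
    change spectralNorm E (AlgebraicClosure E) (algebraMap E (AlgebraicClosure E) (ι x)) = v x
    rw [spectralNorm_extends, hι]

/-- F1 -/
theorem exists_ext_inf {K : Type u} [Field K] [NumberField K] (v : InfinitePlace K) :
    ∃ w : AbsoluteValue (AlgebraicClosure K) ℝ, Ext v.val w := by
  let _ : Algebra K ℂ := v.embedding.toAlgebra
  let ψ : AlgebraicClosure K →ₐ[K] ℂ := IsAlgClosed.lift
  refine ⟨place ψ.toRingHom, ?_⟩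
  intro x
  change ‖ψ (algebraMap K (AlgebraicClosure K) x)‖ = v.val x
  rw [AlgHom.commutes]
  change ‖v.embedding x‖ = v x
  exact InfinitePlace.norm_embedding_eq v x

theorem F1_nat {K : Type u} [Field K] [NumberField K] (v : FinitePlace K) (n : ℕ) :
    v.val n ≤ 1 := by
  have h := FinitePlace.norm_embedding_eq v (n : K)
  rw [FinitePlace.norm_embedding] at h
  change v (n : K) ≤ 1
  rw [← h]
  exact_mod_cast HeightOneSpectrum.adicAbv_natCast_le_one K v.maximalIdeal n

/-- F1 -/
theorem ext_na {K : Type u} [Field K] [NumberField K] (v : FinitePlace K)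
    (w : AbsoluteValue (AlgebraicClosure K) ℝ) (h : Ext v.val w) : IsNonarchimedean w := by
  have hn : ∀ n : ℕ, w n ≤ 1 := by
    intro n
    have := h (n : K)
    rw [map_natCast] at this
    rw [this]
    exact F1_nat v n
  let _ : NormedField (AlgebraicClosure K) := w.toNormedField
  have : IsUltrametricDist (AlgebraicClosure K) :=
    IsUltrametricDist.isUltrametricDist_of_forall_norm_natCast_le_one hn
  intro x y
  exact IsUltrametricDist.norm_add_le_max x y

/-- F1 -/
theorem exists_ext_fin {K : Type u} [Field K] [NumberField K] (v : FinitePlace K) :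
    ∃ w : AbsoluteValue (AlgebraicClosure K) ℝ, Ext v.val w := by
  let iN : NontriviallyNormedField (v.maximalIdeal.adicCompletion K) :=
    Valued.toNontriviallyNormedField (L := v.maximalIdeal.adicCompletion K) (Γ₀ := ℤᵐ⁰)
  have iC : CompleteSpace (v.maximalIdeal.adicCompletion K) := inferInstance
  have iU : IsUltrametricDist (v.maximalIdeal.adicCompletion K) := by
    refine ⟨fun x y z => ?_⟩
    have h := Valued.isNonarchimedean_norm (L := v.maximalIdeal.adicCompletion K) (Γ₀ := ℤᵐ⁰)
      (x - y) (y - z)
    rw [sub_add_sub_cancel] at h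
    rw [dist_eq_norm, dist_eq_norm, dist_eq_norm]
    exact h
  exact F1_ext v.val (E := v.maximalIdeal.adicCompletion K) (FinitePlace.embedding v.maximalIdeal)
    (fun x => FinitePlace.norm_embedding_eq v x)

end Pool.Agent.H951R3.PB
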