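import Pool.Agent.H951R3.PB.F2
import Pool.Agent.H951R3.PB.D3

/-!
# The size at a place of potentially good reduction
-/

set_option autoImplicit false

namespace Pool.Agent.H951R3.PB

open Real Filter Topology NumberField

universe u

theorem good_res {L : Type u} [Field L] {w : AbsoluteValue L ℝ} (hw : IsNonarchimedean w)
    {d : ℕ} (hd : 1 ≤ d) {g : Fin 2 → MvPolynomial (Fin 2) L} (hg : GoodAt w g) {r : ℝ}
    (hfib : Fib w (ev g) d r) : 0 ≤ r := by
  obtain ⟨C, z, hz⟩ := hfib ![1, 0] (by simp [nrm])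
  obtain ⟨C', z', hz'⟩ := hfib ![0, 1] (by simp [nrm])
  have h7 : ∀ j, log (nrm w (ev g (z j))) = 0 := by
    intro j
    rw [F2.unit_ev w hw hg (hz.unit j), log_one]
  have h6 := hz.res
  simp only [h7, Finset.sum_const_zero, add_zero] at h6
  rw [← h6]
  have j : Fin d := ⟨0, hd⟩
  obtain ⟨c', -, hc'⟩ := hz'.img j
  have h1 : w c' = 1 := by
    have h2 := F2.unit_ev w hw hg (hz'.unit j)
    rw [hc'] at h2
    simp only [nrm, Pi.smul_apply, smul_eq_mul, Matrix.cons_val_zero, Matrix.cons_val_one,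
      mul_zero, mul_one, map_zero] at h2
    rw [max_eq_right (w.nonneg _)] at h2
    exact h2
  have h3 := hz.fac (z' j)
  rw [hc'] at h3
  have h4 : wd ![(1 : L), 0] (c' • ![(0 : L), 1]) = c' := by
    simp [wd]
  rw [h4] at h3
  have h5 : 1 ≤ w C := by
    rw [← h1, h3, map_mul, map_prod]
    have h8 : ∏ i, w (wd (z' j) (z i)) ≤ 1 := by
      refine Finset.prod_le_one (fun i _ => w.nonneg _) fun i _ => ?_
      have := F2.wd_le w hw (z' j) (z i)
      rw [hz'.unit j, hz.unit i, mul_one] at this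
      exact this
    calc w C * ∏ i, w (wd (z' j) (z i)) ≤ w C * 1 :=
          mul_le_mul_of_nonneg_left h8 (w.nonneg _)
      _ = w C := mul_one _
  have := log_nonneg h5
  positivity

theorem mm_le_of_potGoodAt {K : Type u} [Field K] [NumberField K] {d : ℕ} (hd : 2 ≤ d)
    {f : Fin 2 → MvPolynomial (Fin 2) K} (hf : ∀ i, (f i).IsHomogeneous d)
    (h0 : rs (fL K f) d ≠ 0) (w : AbsoluteValue (AlgebraicClosure K) ℝ)
    (hw : IsNonarchimedean w) (h : PotGoodAt w d f) :
    mm w (ev (fL K f)) d (log (w (rs (fL K f) d))) ≤ 0 := by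
  obtain ⟨g, hgh, hgood, A, c, hA, hc, hconj⟩ := h
  have hfL : ∀ i, (fL K f i).IsHomogeneous d := fun i => (hf i).map _
  have hFib := fib_base w (by omega : 1 ≤ d) hfL h0
  set F := ev (fL K f) with hF
  set r := log (w (rs (fL K f) d)) with hr
  set a : Fin 2 → AlgebraicClosure K := fun i => A i 0 with ha
  set b : Fin 2 → AlgebraicClosure K := fun i => A i 1 with hb
  have hemb : ∀ z, emb a b z = A.mulVec z := by
    intro z
    funext i
    simp only [emb, ha, hb, Matrix.mulVec, dotProduct, Fin.sum_univ_two, Pi.add_apply,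
      Pi.smul_apply, smul_eq_mul]
    ring
  have hab : wd a b ≠ 0 := by
    have : wd a b = A.det := by
      rw [Matrix.det_fin_two]; simp only [wd, ha, hb]; ring
    rw [this]; exact hA
  have hev : ev g = fun z => c • cj a b F z := by
    funext z
    have h1 := hconj z
    rw [← hemb, ← hemb] at h1
    rw [cj, ← D2.coo_smul, ← h1, D2.coo_emb hab]
  have hxy' : wd (![1, 0] : Fin 2 → AlgebraicClosure K) ![0, 1] ≠ 0 := by
    simp [wd]
  obtain ⟨hfib, -⟩ := gg_scale hd (fib_cj hFib hab) hc hxy'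
  rw [← hev] at hfib
  have hρ := good_res hw (by omega) hgood hfib
  refine (mm_le hd hFib hab).trans ?_
  have hS : Ssup w (cj a b F) = -log (w c) := by
    have h1 : ∀ v : {v : Fin 2 → AlgebraicClosure K // nrm w v = 1},
        log (nrm w (cj a b F v.1)) = -log (w c) := by
      intro v
      have h2 := F2.unit_ev w hw hgood v.2
      rw [hev] at h2
      simp only at h2
      rw [B1_nrm_smul] at h2
      have hc' : 0 < w c := w.pos hc
      have h3 : nrm w (cj a b F v.1) = (w c)⁻¹ := by
        field_simp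
        linarith
      rw [h3, log_inv]
    have hne : Nonempty {v : Fin 2 → AlgebraicClosure K // nrm w v = 1} :=
      ⟨⟨![1, 0], by simp [nrm]⟩⟩
    rw [Ssup, iSup_congr h1, ciSup_const]
  rw [tt, hS]
  linarith

end Pool.Agent.H951R3.PB
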