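import Pool.Agent.H951R3.PB.Defs
import Pool.Agent.H951R3.PB.B1
import Pool.Agent.H951R3.PB.B2
import Pool.Agent.H951R3.PB.E1
import Pool.Agent.H951R3.PB.E2
import Pool.Agent.H951R3.PB.F1

set_option autoImplicit false

namespace Pool.Agent.H951R3.PB

open Real Filter Topology NumberField

universe u

theorem F3_sum_le {L : Type u} [Field L] (w : AbsoluteValue L ℝ) (hw : IsNonarchimedean w)
    {ι : Type*} (s : Finset ι) (f : ι → L) (h : ∀ i ∈ s, w (f i) ≤ 1) :
    w (∑ i ∈ s, f i) ≤ 1 := by
  classical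
  induction s using Finset.induction_on with
  | empty => simp
  | insert i s hi ih =>
      rw [Finset.sum_insert hi]
      exact (hw _ _).trans (max_le (h i (Finset.mem_insert_self _ _))
        (ih fun j hj => h j (Finset.mem_insert_of_mem hj)))

theorem F3_eval_le {L : Type u} [Field L] (w : AbsoluteValue L ℝ) (hw : IsNonarchimedean w)
    (p : MvPolynomial (Fin 2) L) (hp : ∀ m, w (p.coeff m) ≤ 1) (x : Fin 2 → L)
    (hx : ∀ i, w (x i) ≤ 1) : w (MvPolynomial.eval x p) ≤ 1 := by
  rw [MvPolynomial.eval_eq']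
  apply F3_sum_le w hw
  intro m _
  rw [map_mul, map_prod]
  apply mul_le_one₀ (hp m) (Finset.prod_nonneg fun i _ => w.nonneg _)
  apply Finset.prod_le_one (fun i _ => w.nonneg _)
  intro i _
  rw [map_pow]
  exact pow_le_one₀ (w.nonneg _) (hx i)

/-- F3 -/
theorem bad_finite {K : Type u} [Field K] [NumberField K] {d : ℕ} (hd : 1 ≤ d)
    {f : Fin 2 → MvPolynomial (Fin 2) K} (hf : ∀ i, (f i).IsHomogeneous d)
    (h0 : rs f d ≠ 0) : {v : FinitePlace K | ¬ PotGood v.val d f}.Finite := by
  classical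
  have hfin : ({v : FinitePlace K | v (rs f d) ≠ 1} ∪
      ⋃ i : Fin 2, ⋃ m ∈ (f i).support, {v : FinitePlace K | v ((f i).coeff m) ≠ 1}).Finite := by
    apply Set.Finite.union
    · exact FinitePlace.hasFiniteMulSupport h0
    · apply Set.finite_iUnion
      intro i
      apply Set.Finite.biUnion (Finset.finite_toSet _)
      intro m hm
      exact FinitePlace.hasFiniteMulSupport (MvPolynomial.mem_support_iff.1 hm)
  refine hfin.subset ?_
  intro v hv
  by_contra hcon
  simp only [Set.mem_union, Set.mem_ofPred_eq, Set.mem_iUnion, not_or, not_exists, not_not] at hcon hv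
  obtain ⟨h1, h2⟩ := hcon
  apply hv
  obtain ⟨w, hwe⟩ := exists_ext_fin v
  have hw := ext_na v w hwe
  have hrs : rs (fL K f) d = algebraMap K (AlgebraicClosure K) (rs f d) :=
    rs_map (algebraMap K (AlgebraicClosure K)) f d
  have hwrs : w (rs (fL K f) d) = 1 := by
    rw [hrs, hwe]; exact h1
  have hrs0 : rs (fL K f) d ≠ 0 := by
    intro h
    rw [h, map_zero] at hwrs
    exact zero_ne_one hwrs
  have hhom : ∀ i, (fL K f i).IsHomogeneous d := fun i => (hf i).map _
  have hcoef : ∀ i m, w ((fL K f i).coeff m) ≤ 1 := by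
    intro i m
    rw [fL, MvPolynomial.coeff_map, hwe]
    by_cases hm : m ∈ (f i).support
    · exact (h2 i m hm).le
    · rw [MvPolynomial.notMem_support_iff.1 hm, map_zero]
      exact zero_le_one
  refine ⟨w, hwe, fL K f, hhom, ⟨hcoef, ?_⟩, 1, 1, by simp, one_ne_zero, by
    intro x; simp⟩
  intro x hx ⟨i0, hi0⟩
  have hunit : nrm w x = 1 := by
    unfold nrm
    apply le_antisymm (max_le (hx 0) (hx 1))
    rcases (show i0 = 0 ∨ i0 = 1 by omega) with h | h
    · subst h; exact hi0 ▸ le_max_left _ _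
    · subst h; exact hi0 ▸ le_max_right _ _
  have hFib := fib_base w hd hhom hrs0
  rw [hwrs, Real.log_one] at hFib
  obtain ⟨_, hlow⟩ := fib_bounds_na w hw hd hFib
  have hle : ∀ y : Fin 2 → AlgebraicClosure K, nrm w y = 1 → nrm w (ev (fL K f) y) ≤ 1 := by
    intro y hy
    have hy' : ∀ i, w (y i) ≤ 1 := by
      intro i
      rw [← hy]
      unfold nrm
      rcases (show i = 0 ∨ i = 1 by omega) with h | h
      · subst h; exact le_max_left _ _
      · subst h; exact le_max_right _ _
    exact max_le (F3_eval_le w hw _ (hcoef 0) y hy') (F3_eval_le w hw _ (hcoef 1) y hy')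
  have hnn : ∀ y : Fin 2 → AlgebraicClosure K, 0 ≤ nrm w y := fun y =>
    (w.nonneg _).trans (le_max_left _ _)
  have hS : Ssup w (ev (fL K f)) ≤ 0 := by
    unfold Ssup
    have : Nonempty {x : Fin 2 → AlgebraicClosure K // nrm w x = 1} := ⟨⟨x, hunit⟩⟩
    apply ciSup_le
    rintro ⟨y, hy⟩
    exact Real.log_nonpos (hnn _) (hle y hy)
  have h3 := hlow x hunit
  have h4 : 0 ≤ log (nrm w (ev (fL K f) x)) := by
    refine le_trans ?_ h3
    unfold tt
    have : (1 : ℝ) ≤ d := by exact_mod_cast hd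
    nlinarith
  have hx0 : x ≠ 0 := by
    rintro rfl
    simp [nrm] at hunit
  have h5 : ev (fL K f) x ≠ 0 := fib_ne_zero hFib hx0
  have h6 : 0 < nrm w (ev (fL K f) x) := by
    by_contra hneg
    apply h5
    have h7 : nrm w (ev (fL K f) x) ≤ 0 := not_lt.1 hneg
    funext i
    have : w (ev (fL K f) x i) ≤ 0 := by
      refine le_trans ?_ h7
      unfold nrm
      rcases (show i = 0 ∨ i = 1 by omega) with h | h
      · subst h; exact le_max_left _ _
      · subst h; exact le_max_right _ _
    exact w.eq_zero.1 (le_antisymm this (w.nonneg _))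
  have h8 : 1 ≤ nrm w (ev (fL K f) x) := by
    by_contra hneg
    have := Real.log_neg h6 (not_le.1 hneg)
    linarith
  have h9 := le_antisymm (hle x hunit) h8
  unfold nrm at h9
  rcases max_choice (w (ev (fL K f) x 0)) (w (ev (fL K f) x 1)) with h | h
  · exact ⟨0, by rw [h] at h9; exact h9⟩
  · exact ⟨1, by rw [h] at h9; exact h9⟩

end Pool.Agent.H951R3.PB
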