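import Pool.Agent.H951R3.PB.Defs
import Pool.Agent.H951R3.PB.B1
import Pool.Agent.H951R3.PB.B2
import Pool.Agent.H951R3.PB.D1
import Pool.Agent.H951R3.PB.E1
import Pool.Agent.H951R3.PB.E2
import Pool.Agent.H951R3.PB.F1

/-!
# F4: the global inequality (product formula)  (helper971)
-/

set_option autoImplicit false

namespace Pool.Agent.H951R3.PB

open Real Filter Topology NumberField

universe u

/-! ### local preparations -/

theorem F4_nrm_pos {L : Type u} [Field L] (w : AbsoluteValue L ℝ) {x : Fin 2 → L} (hx : x ≠ 0) :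
    0 < nrm w x := by
  by_contra h
  have h' : nrm w x ≤ 0 := not_lt.1 h
  apply hx
  funext i
  fin_cases i
  · exact w.eq_zero.1 (le_antisymm ((le_max_left _ _).trans h') (w.nonneg _))
  · exact w.eq_zero.1 (le_antisymm ((le_max_right _ _).trans h') (w.nonneg _))

theorem F4_ext_nrm {K : Type u} [Field K] {v : AbsoluteValue K ℝ}
    {w : AbsoluteValue (AlgebraicClosure K) ℝ} (h : Ext v w) (x : Fin 2 → K) :
    nrm w (vL K x) = nrm v x := by
  simp only [nrm, vL, h _]

theorem F4_wd {K : Type u} [Field K] (x y : Fin 2 → K) :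
    wd (vL K x) (vL K y) = algebraMap K (AlgebraicClosure K) (wd x y) := by
  simp [wd, vL]

theorem F4_ev {K : Type u} [Field K] (f : Fin 2 → MvPolynomial (Fin 2) K) (x : Fin 2 → K) :
    ev (fL K f) (vL K x) = vL K (ev f x) := by
  funext i
  simp only [ev, fL]
  rw [MvPolynomial.eval_map]
  exact (MvPolynomial.eval₂_comp (algebraMap K (AlgebraicClosure K)) x (f i)).symm

theorem F4_iter {K : Type u} [Field K] (f : Fin 2 → MvPolynomial (Fin 2) K) (x : Fin 2 → K)
    (n : ℕ) : (ev (fL K f))^[n] (vL K x) = vL K ((ev f)^[n] x) := by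
  induction n with
  | zero => rfl
  | succ n ih => rw [Function.iterate_succ_apply', Function.iterate_succ_apply', ih, F4_ev]

theorem F4_vL_ne {K : Type u} [Field K] {x : Fin 2 → K} (hx : x ≠ 0) : vL K x ≠ 0 := by
  intro h
  apply hx
  funext i
  have := congrFun h i
  simpa [vL] using this

theorem F4_rs {K : Type u} [Field K] (f : Fin 2 → MvPolynomial (Fin 2) K) (d : ℕ) :
    rs (fL K f) d = algebraMap K (AlgebraicClosure K) (rs f d) :=
  rs_map (algebraMap K (AlgebraicClosure K)) f d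

theorem F4_rs_ne {K : Type u} [Field K] {f : Fin 2 → MvPolynomial (Fin 2) K} {d : ℕ}
    (h0 : rs f d ≠ 0) : rs (fL K f) d ≠ 0 := by
  rw [F4_rs]
  simpa using h0

theorem F4_fib {K : Type u} [Field K] {d : ℕ} (hd : 1 ≤ d)
    {f : Fin 2 → MvPolynomial (Fin 2) K} (hf : ∀ i, (f i).IsHomogeneous d)
    (h0 : rs f d ≠ 0) (w : AbsoluteValue (AlgebraicClosure K) ℝ) :
    Fib w (ev (fL K f)) d (log (w (rs (fL K f) d))) :=
  fib_base w hd (fun i => (hf i).map _) (F4_rs_ne h0)

theorem F4_iter_ne {K : Type u} [Field K] {d : ℕ} (hd : 1 ≤ d)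
    {f : Fin 2 → MvPolynomial (Fin 2) K} (hf : ∀ i, (f i).IsHomogeneous d)
    (h0 : rs f d ≠ 0) (w : AbsoluteValue (AlgebraicClosure K) ℝ) {x : Fin 2 → K} (hx : x ≠ 0)
    (n : ℕ) : (ev f)^[n] x ≠ 0 := by
  induction n with
  | zero => exact hx
  | succ n ih =>
    rw [Function.iterate_succ_apply']
    intro h
    have h1 := fib_ne_zero (F4_fib hd hf h0 w) (F4_vL_ne ih)
    apply h1
    rw [F4_ev, h]
    funext i
    simp [vL]

/-- good places: unit vectors are mapped to unit vectors -/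
theorem F4_good {K : Type u} [Field K] [NumberField K] {d : ℕ} (hd : 1 ≤ d)
    {f : Fin 2 → MvPolynomial (Fin 2) K} (hf : ∀ i, (f i).IsHomogeneous d)
    (h0 : rs f d ≠ 0) (v : FinitePlace K) (w : AbsoluteValue (AlgebraicClosure K) ℝ)
    (hvw : Ext v.val w) (hc : ∀ i m, v.val ((f i).coeff m) ≤ 1) (hr : v.val (rs f d) = 1)
    {x : Fin 2 → K} (hx : nrm v.val x = 1) : nrm v.val (ev f x) = 1 := by
  have hna : IsNonarchimedean w := ext_na v w hvw
  -- upper bound over the closure
  have hup : ∀ z : Fin 2 → AlgebraicClosure K, nrm w z = 1 → nrm w (ev (fL K f) z) ≤ 1 := by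
    intro z hz
    have hz1 : ∀ i, w (z i) ≤ 1 := by
      intro i
      fin_cases i
      · exact (le_max_left _ _).trans hz.le
      · exact (le_max_right _ _).trans hz.le
    have key : ∀ i, w (ev (fL K f) z i) ≤ 1 := by
      intro i
      simp only [ev]
      rw [MvPolynomial.eval_eq]
      rcases Finset.eq_empty_or_nonempty ((fL K f) i).support with he | hne
      · rw [he]; simp
      obtain ⟨s, hs₁, hs₂⟩ :=
        hna.finset_image_add_of_nonempty
          (fun m => MvPolynomial.coeff m ((fL K f) i) * ∏ j ∈ m.support, z j ^ m j) hne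
      refine hs₂.trans ?_
      rw [map_mul, map_prod]
      refine mul_le_one₀ ?_ (Finset.prod_nonneg fun j _ => w.nonneg _)
        (Finset.prod_le_one (fun j _ => w.nonneg _) fun j _ => ?_)
      · simp only [fL, MvPolynomial.coeff_map]
        rw [hvw]
        exact hc i s
      · rw [map_pow]
        exact pow_le_one₀ (w.nonneg _) (hz1 j)
    exact max_le (key 0) (key 1)
  have hF := F4_fib hd hf h0 w
  have hr0 : log (w (rs (fL K f) d)) = 0 := by
    rw [F4_rs, hvw, hr, log_one]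
  have hS : Ssup w (ev (fL K f)) ≤ 0 := by
    refine Real.iSup_le (fun z => ?_) le_rfl
    exact Real.log_nonpos (le_max_of_le_left (w.nonneg _)) (hup z.1 z.2)
  have hlow := (fib_bounds_na w hna hd hF).2 (vL K x) (by rw [F4_ext_nrm hvw, hx])
  rw [F4_ev, F4_ext_nrm hvw] at hlow
  have h1 : nrm v.val (ev f x) ≤ 1 := by
    have := hup (vL K x) (by rw [F4_ext_nrm hvw, hx])
    rwa [F4_ev, F4_ext_nrm hvw] at this
  have hx0 : x ≠ 0 := by
    rintro rfl
    simp [nrm] at hx
  have h2 : ev f x ≠ 0 := F4_iter_ne hd hf h0 w hx0 1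
  have h3 : 0 < nrm v.val (ev f x) := F4_nrm_pos _ h2
  have h4 : 0 ≤ log (nrm v.val (ev f x)) := by
    refine le_trans ?_ hlow
    rw [tt, hr0]
    have hd' : (1 : ℝ) ≤ d := by exact_mod_cast hd
    nlinarith
  have h5 : 1 ≤ nrm v.val (ev f x) := by
    by_contra h
    have := Real.log_neg h3 (not_le.1 h)
    linarith
  exact le_antisymm h1 h5

/-- the height of a vector as a finite sum of local terms -/
theorem F4_logHeight {K : Type u} [Field K] [NumberField K] {x : Fin 2 → K} (hx : x ≠ 0)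
    (F : Finset (FinitePlace K)) (hF : ∀ v : FinitePlace K, v ∉ F → nrm v.val x = 1) :
    Height.logHeight x = ∑ v : InfinitePlace K, (v.mult : ℝ) * log (nrm v.val x) +
      ∑ v ∈ F, log (nrm v.val x) := by
  have hsup : ∀ v : AbsoluteValue K ℝ, (⨆ i, v (x i)) = nrm v x := by
    intro v
    rw [nrm, ← Finset.sup'_univ_eq_ciSup]
    apply le_antisymm
    · refine Finset.sup'_le _ _ fun i _ => ?_
      fin_cases i
      · exact le_max_left _ _
      · exact le_max_right _ _
    · exact max_le (Finset.le_sup' (fun i => v (x i)) (Finset.mem_univ 0))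
        (Finset.le_sup' (fun i => v (x i)) (Finset.mem_univ 1))
  rw [Height.logHeight_eq_log_mulHeight, NumberField.mulHeight_eq hx]
  have e1 : (∏ v : InfinitePlace K, (⨆ i, v (x i)) ^ v.mult) =
      ∏ v : InfinitePlace K, (nrm v.val x) ^ v.mult := by
    refine Finset.prod_congr rfl fun v _ => ?_
    rw [← hsup v.val]
    rfl
  have e2 : (∏ᶠ v : FinitePlace K, ⨆ i, v (x i)) = ∏ v ∈ F, nrm v.val x := by
    rw [finprod_eq_prod_of_mulSupport_subset (s := F)]
    · refine Finset.prod_congr rfl fun v _ => ?_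
      rw [← hsup v.val]
      rfl
    · intro v hv
      by_contra hvF
      apply hv
      have := hF v hvF
      rw [← hsup v.val] at this
      exact this
  rw [e1, e2, log_mul (Finset.prod_ne_zero_iff.2 fun v _ => pow_ne_zero _ (F4_nrm_pos _ hx).ne')
    (Finset.prod_ne_zero_iff.2 fun v _ => (F4_nrm_pos _ hx).ne'),
    log_prod (fun v _ => pow_ne_zero _ (F4_nrm_pos _ hx).ne'),
    log_prod (fun v _ => (F4_nrm_pos _ hx).ne')]
  simp [log_pow]

/-- the product formula -/
theorem F4_product {K : Type u} [Field K] [NumberField K] {x : K} (hx : x ≠ 0)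
    (F : Finset (FinitePlace K)) (hF : ∀ v : FinitePlace K, v ∉ F → v.val x = 1) :
    ∑ v : InfinitePlace K, (v.mult : ℝ) * log (v.val x) + ∑ v ∈ F, log (v.val x) = 0 := by
  have h := prod_abs_eq_one hx
  rw [finprod_eq_prod_of_mulSupport_subset (s := F) _ (by
    intro v hv
    by_contra hvF
    exact hv (hF v hvF))] at h
  have hI : ∀ v : InfinitePlace K, v x ≠ 0 := fun v => (InfinitePlace.pos_iff.2 hx).ne'
  have hF' : ∀ v : FinitePlace K, v x ≠ 0 := fun v => (FinitePlace.pos_iff.2 hx).ne'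
  have h2 := congrArg log h
  rw [log_mul (Finset.prod_ne_zero_iff.2 fun v _ => pow_ne_zero _ (hI v))
    (Finset.prod_ne_zero_iff.2 fun v _ => hF' v),
    log_prod (fun v _ => pow_ne_zero _ (hI v)), log_prod (fun v _ => hF' v), log_one] at h2
  have h3 : ∀ v : InfinitePlace K, v.val x = v x := fun v => rfl
  have h4 : ∀ v : FinitePlace K, v.val x = v x := fun v => rfl
  simp only [h3, h4]
  simpa [log_pow] using h2

theorem F4_finite_ne {K : Type u} [Field K] [NumberField K] {c : K} (hc : c ≠ 0) :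
    {v : FinitePlace K | v.val c ≠ 1}.Finite :=
  (FinitePlace.hasFiniteMulSupport hc).subset fun _ hv => hv

theorem F4_finite_nrm {K : Type u} [Field K] [NumberField K] {x : Fin 2 → K} (hx : x ≠ 0) :
    {v : FinitePlace K | nrm v.val x ≠ 1}.Finite := by
  have h : ∀ i, {v : FinitePlace K | x i ≠ 0 ∧ v.val (x i) ≠ 1}.Finite := by
    intro i
    by_cases hi : x i = 0
    · refine Set.finite_empty.subset fun v hv => (hv.1 hi).elim
    · exact (F4_finite_ne hi).subset fun v hv => hv.2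
  refine ((h 0).union (h 1)).subset fun v hv => ?_
  by_contra hn
  apply hv
  simp only [Set.mem_union, Set.mem_ofPred_eq, not_or, not_and, not_not] at hn
  rcases eq_or_ne (x 0) 0 with h0 | h0
  · rcases eq_or_ne (x 1) 0 with h1 | h1
    · exfalso
      apply hx
      funext i
      fin_cases i
      · exact h0
      · exact h1
    · rw [nrm, h0, map_zero, hn.2 h1]
      norm_num
  · rcases eq_or_ne (x 1) 0 with h1 | h1
    · rw [nrm, h1, map_zero, hn.1 h0]
      norm_num
    · rw [nrm, hn.1 h0, hn.2 h1, max_self]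

theorem F4_finite_coeff {K : Type u} [Field K] [NumberField K]
    (f : Fin 2 → MvPolynomial (Fin 2) K) :
    {v : FinitePlace K | ¬ ∀ i m, v.val ((f i).coeff m) ≤ 1}.Finite := by
  have h : ∀ i, (⋃ m ∈ (f i).support, {v : FinitePlace K | v.val ((f i).coeff m) ≠ 1}).Finite := by
    intro i
    refine Set.Finite.biUnion (Finset.finite_toSet _) fun m hm => F4_finite_ne ?_
    exact MvPolynomial.mem_support_iff.1 hm
  refine ((h 0).union (h 1)).subset fun v hv => ?_
  simp only [Set.mem_ofPred_eq, not_forall, not_le] at hv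
  obtain ⟨i, m, hm⟩ := hv
  have hm0 : m ∈ (f i).support := by
    rw [MvPolynomial.mem_support_iff]
    intro h0
    rw [h0, map_zero] at hm
    linarith
  have hmem : v ∈ ⋃ m ∈ (f i).support, {v : FinitePlace K | v.val ((f i).coeff m) ≠ 1} :=
    Set.mem_biUnion hm0 (by exact hm.ne')
  fin_cases i
  · exact Or.inl hmem
  · exact Or.inr hmem

/-- F4: global inequality (product formula) -/
theorem global_le {K : Type u} [Field K] [NumberField K] {d : ℕ} (hd : 2 ≤ d)
    {f : Fin 2 → MvPolynomial (Fin 2) K} (hf : ∀ i, (f i).IsHomogeneous d)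
    (h0 : rs f d ≠ 0) (wi : InfinitePlace K → AbsoluteValue (AlgebraicClosure K) ℝ)
    (hwi : ∀ v, Ext v.val (wi v)) (wf : FinitePlace K → AbsoluteValue (AlgebraicClosure K) ℝ)
    (hwf : ∀ v, Ext v.val (wf v)) {x y : Fin 2 → K} (hxy : wd x y ≠ 0)
    (S : Finset (FinitePlace K))
    (hS : ∀ v, v ∉ S →
      0 ≤ gg (wf v) (ev (fL K f)) d (log (wf v (rs (fL K f) d))) (vL K x) (vL K y)) :
    ∑ v : InfinitePlace K, (v.mult : ℝ) *
        gg (wi v) (ev (fL K f)) d (log (wi v (rs (fL K f) d))) (vL K x) (vL K y) +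
      ∑ v ∈ S, gg (wf v) (ev (fL K f)) d (log (wf v (rs (fL K f) d))) (vL K x) (vL K y) ≤
      hcan d f x + hcan d f y := by
  classical
  have hd1 : 1 ≤ d := by omega
  have hx : x ≠ 0 := by
    rintro rfl
    simp [wd] at hxy
  have hy : y ≠ 0 := by
    rintro rfl
    simp [wd] at hxy
  -- a large finite set of places
  obtain ⟨S1, hSS, hc, hr, hnx, hny, hxy1⟩ : ∃ S1 : Finset (FinitePlace K), S ⊆ S1 ∧
      (∀ v, v ∉ S1 → ∀ i m, v.val ((f i).coeff m) ≤ 1) ∧
      (∀ v, v ∉ S1 → v.val (rs f d) = 1) ∧ (∀ v, v ∉ S1 → nrm v.val x = 1) ∧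
      (∀ v, v ∉ S1 → nrm v.val y = 1) ∧ (∀ v, v ∉ S1 → v.val (wd x y) = 1) := by
    refine ⟨S ∪ (F4_finite_coeff f).toFinset ∪ (F4_finite_ne h0).toFinset ∪
      (F4_finite_nrm hx).toFinset ∪ (F4_finite_nrm hy).toFinset ∪
      (F4_finite_ne hxy).toFinset, ?_, ?_, ?_, ?_, ?_, ?_⟩
    · intro v hv
      simp [hv]
    all_goals
      intro v hv
      simp only [Finset.mem_union, Set.Finite.mem_toFinset, Set.mem_ofPred_eq, not_or,
        not_not] at hv
      tauto
  -- iterates are nonzero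
  have w0 : AbsoluteValue (AlgebraicClosure K) ℝ := AbsoluteValue.trivial
  have hit : ∀ {z : Fin 2 → K}, z ≠ 0 → ∀ n : ℕ, (ev f)^[n] z ≠ 0 := fun hz n =>
    F4_iter_ne hd1 hf h0 w0 hz n
  -- norms of the iterates outside of S1
  have hone : ∀ {z : Fin 2 → K}, (∀ v, v ∉ S1 → nrm v.val z = 1) → ∀ (n : ℕ) (v : FinitePlace K),
      v ∉ S1 → nrm v.val ((ev f)^[n] z) = 1 := by
    intro z hz n v hv
    induction n with
    | zero => exact hz v hv
    | succ n ih =>
      rw [Function.iterate_succ_apply']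
      exact F4_good hd1 hf h0 v (wf v) (hwf v) (hc v hv) (hr v hv) ih
  -- the heights
  have hH : ∀ {z : Fin 2 → K}, z ≠ 0 → (∀ v, v ∉ S1 → nrm v.val z = 1) → ∀ n : ℕ,
      Height.logHeight ((ev f)^[n] z) / (d : ℝ) ^ n =
        ∑ v : InfinitePlace K, (v.mult : ℝ) *
          (log (nrm (wi v) ((ev (fL K f))^[n] (vL K z))) / (d : ℝ) ^ n) +
        ∑ v ∈ S1, log (nrm (wf v) ((ev (fL K f))^[n] (vL K z))) / (d : ℝ) ^ n := by
    intro z hz hz1 n
    rw [F4_logHeight (hit hz n) S1 (hone hz1 n), add_div, Finset.sum_div, Finset.sum_div]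
    congr 1
    · refine Finset.sum_congr rfl fun v _ => ?_
      rw [F4_iter, F4_ext_nrm (hwi v), mul_div_assoc]
    · refine Finset.sum_congr rfl fun v _ => ?_
      rw [F4_iter, F4_ext_nrm (hwf v)]
  -- the limits
  have hlim : ∀ {z : Fin 2 → K}, z ≠ 0 → (∀ v, v ∉ S1 → nrm v.val z = 1) →
      hcan d f z = ∑ v : InfinitePlace K, (v.mult : ℝ) * Gr (wi v) (ev (fL K f)) d (vL K z) +
        ∑ v ∈ S1, Gr (wf v) (ev (fL K f)) d (vL K z) := by
    intro z hz hz1
    rw [hcan]
    apply Tendsto.limUnder_eq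
    have h1 : (fun n : ℕ => Height.logHeight ((ev f)^[n] z) / (d : ℝ) ^ n) = fun n : ℕ =>
        ∑ v : InfinitePlace K, (v.mult : ℝ) *
          (log (nrm (wi v) ((ev (fL K f))^[n] (vL K z))) / (d : ℝ) ^ n) +
        ∑ v ∈ S1, log (nrm (wf v) ((ev (fL K f))^[n] (vL K z))) / (d : ℝ) ^ n :=
      funext fun n => hH hz hz1 n
    rw [h1]
    refine Tendsto.add (tendsto_finsetSum _ fun v _ => ?_) (tendsto_finsetSum _ fun v _ => ?_)
    · exact (gr_tendsto hd (F4_fib hd1 hf h0 (wi v)) (F4_vL_ne hz)).const_mul _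
    · exact gr_tendsto hd (F4_fib hd1 hf h0 (wf v)) (F4_vL_ne hz)
  have hpx := F4_product hxy S1 hxy1
  have hpr := F4_product h0 S1 hr
  rw [hlim hx hnx, hlim hy hny]
  -- the sum over S1
  have hsum : ∑ v : InfinitePlace K, (v.mult : ℝ) *
        gg (wi v) (ev (fL K f)) d (log (wi v (rs (fL K f) d))) (vL K x) (vL K y) +
      ∑ v ∈ S1, gg (wf v) (ev (fL K f)) d (log (wf v (rs (fL K f) d))) (vL K x) (vL K y) =
      ∑ v : InfinitePlace K, (v.mult : ℝ) * Gr (wi v) (ev (fL K f)) d (vL K x) +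
        ∑ v ∈ S1, Gr (wf v) (ev (fL K f)) d (vL K x) +
      (∑ v : InfinitePlace K, (v.mult : ℝ) * Gr (wi v) (ev (fL K f)) d (vL K y) +
        ∑ v ∈ S1, Gr (wf v) (ev (fL K f)) d (vL K y)) := by
    have e1 : ∀ v : InfinitePlace K, (v.mult : ℝ) *
        gg (wi v) (ev (fL K f)) d (log (wi v (rs (fL K f) d))) (vL K x) (vL K y) =
        -((v.mult : ℝ) * log (v.val (wd x y))) +
        (v.mult : ℝ) * Gr (wi v) (ev (fL K f)) d (vL K x) +
        (v.mult : ℝ) * Gr (wi v) (ev (fL K f)) d (vL K y) +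
        (-1 / (d * (d - 1))) * ((v.mult : ℝ) * log (v.val (rs f d))) := by
      intro v
      rw [gg, ta, F4_wd, hwi v, F4_rs, hwi v]
      ring
    have e2 : ∀ v : FinitePlace K,
        gg (wf v) (ev (fL K f)) d (log (wf v (rs (fL K f) d))) (vL K x) (vL K y) =
        -(log (v.val (wd x y))) + Gr (wf v) (ev (fL K f)) d (vL K x) +
        Gr (wf v) (ev (fL K f)) d (vL K y) + (-1 / (d * (d - 1))) * (log (v.val (rs f d))) := by
      intro v
      rw [gg, ta, F4_wd, hwf v, F4_rs, hwf v]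
      ring
    simp only [e1, e2, Finset.sum_add_distrib, Finset.sum_neg_distrib, ← Finset.mul_sum]
    linear_combination (-1 : ℝ) * hpx + (-1 / ((d : ℝ) * (d - 1))) * hpr
  rw [← hsum]
  have hle : ∑ v ∈ S, gg (wf v) (ev (fL K f)) d (log (wf v (rs (fL K f) d))) (vL K x) (vL K y) ≤
      ∑ v ∈ S1, gg (wf v) (ev (fL K f)) d (log (wf v (rs (fL K f) d))) (vL K x) (vL K y) :=
    Finset.sum_le_sum_of_subset_of_nonneg hSS fun v _ hv => hS v hv
  linarith

end Pool.Agent.H951R3.PB
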