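import Pool.Agent.H951R3.PB.Defs

set_option autoImplicit false

namespace Pool.Agent.H951R3.PB

open Real Filter Topology NumberField

universe u

theorem ev_smul {K : Type u} [Field K] {d : ℕ} {f : Fin 2 → MvPolynomial (Fin 2) K}
    (hf : ∀ i, (f i).IsHomogeneous d) (c : K) (x : Fin 2 → K) :
    ev f (c • x) = c ^ d • ev f x := by
  funext i
  simp only [ev, Pi.smul_apply, smul_eq_mul]
  rw [MvPolynomial.eval_eq', MvPolynomial.eval_eq', Finset.mul_sum]
  refine Finset.sum_congr rfl fun m hm => ?_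
  have hdeg : ∑ j, m j = d := by
    have h1 := (hf i) (MvPolynomial.mem_support_iff.mp hm)
    rw [Finsupp.weight_apply, Finsupp.sum_fintype _ _ (by simp)] at h1
    simpa using h1
  simp only [Pi.smul_apply, smul_eq_mul, mul_pow, Finset.prod_mul_distrib]
  rw [Finset.prod_pow_eq_pow_sum, hdeg]
  ring

/-- F5 -/
theorem hcan_pre {K : Type u} [Field K] [NumberField K] {d : ℕ} (hd : 2 ≤ d)
    {f : Fin 2 → MvPolynomial (Fin 2) K} (hf : ∀ i, (f i).IsHomogeneous d)
    (h0 : rs f d ≠ 0) {x : Fin 2 → K} (hx : x ≠ 0) (h : Pre f x) : hcan d f x = 0 := by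
  obtain ⟨m, n, hmn, c, hc, hcx⟩ := h
  have key : ∀ N : ℕ, ∃ j < n, ∃ a : K, a ≠ 0 ∧ (ev f)^[N] x = a • (ev f)^[j] x := by
    intro N
    induction N with
    | zero => exact ⟨0, by omega, 1, one_ne_zero, by simp⟩
    | succ N ih =>
      obtain ⟨j, hj, a, ha, hN⟩ := ih
      have h1 : (ev f)^[N + 1] x = a ^ d • (ev f)^[j + 1] x := by
        rw [Function.iterate_succ_apply', hN, ev_smul hf, Function.iterate_succ_apply']
      by_cases hjn : j + 1 < n
      · exact ⟨j + 1, hjn, a ^ d, pow_ne_zero _ ha, h1⟩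
      · have hj' : j + 1 = n := by omega
        refine ⟨m, hmn, a ^ d * c, mul_ne_zero (pow_ne_zero _ ha) hc, ?_⟩
        rw [h1, hj', hcx, mul_smul]
  set B : ℝ := ∑ j ∈ Finset.range n, |Height.logHeight ((ev f)^[j] x)| with hB
  have hbd : ∀ N : ℕ, |Height.logHeight ((ev f)^[N] x)| ≤ B := by
    intro N
    obtain ⟨j, hj, a, ha, hN⟩ := key N
    rw [hN, Height.logHeight_smul_eq_logHeight _ ha]
    exact Finset.single_le_sum (f := fun j => |Height.logHeight ((ev f)^[j] x)|)
      (fun i _ => abs_nonneg _) (Finset.mem_range.mpr hj)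
  have hd1 : (1 : ℝ) < d := by exact_mod_cast (by omega : 1 < d)
  have hlim : Tendsto (fun N : ℕ => Height.logHeight ((ev f)^[N] x) / (d : ℝ) ^ N) atTop
      (𝓝 0) := by
    have h1 : Tendsto (fun N : ℕ => B / (d : ℝ) ^ N) atTop (𝓝 0) :=
      tendsto_const_nhds.div_atTop (tendsto_pow_atTop_atTop_of_one_lt hd1)
    refine squeeze_zero_norm (fun N => ?_) h1
    rw [norm_div, Real.norm_eq_abs, Real.norm_eq_abs, abs_of_pos (by positivity : (0:ℝ) < (d:ℝ)^N)]
    gcongr
    exact hbd N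
  exact hlim.limUnder_eq

end Pool.Agent.H951R3.PB
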