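import Pool.Agent.H951R2.MSFinite
import Pool.Agent.H951R3.PB.Defs

/-!
# F6: local nets in a number field at a finite place
-/

set_option autoImplicit false

namespace Pool.Agent.H951R3.PB

open Real Filter Topology NumberField
open Pool.Agent.H951R2.MS

universe u

/-- one step: `q` classes in a ball of radius `R` -/
theorem f6_step {K : Type u} [Field K] [NumberField K] (v : FinitePlace K) (R : ℝ) :
    ∃ cell : K → Fin (Ideal.absNorm v.maximalIdeal.asIdeal), ∀ x y, v x ≤ R → v y ≤ R →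
      cell x = cell y → v (x - y) ≤ R / Ideal.absNorm v.maximalIdeal.asIdeal := by
  classical
  obtain ⟨q, hqdef⟩ : ∃ q : ℕ, q = Ideal.absNorm v.maximalIdeal.asIdeal := ⟨_, rfl⟩
  have hq1 : 1 < q := by rw [hqdef]; exact fp_one_lt v
  have hq : (1 : ℝ) < q := by exact_mod_cast hq1
  have hq0 : (0 : ℝ) < q := by linarith
  by_cases hz : ∃ z : K, z ≠ 0 ∧ v z ≤ R
  · -- the largest value
    obtain ⟨z0, hz0, hz0R⟩ := hz
    obtain ⟨k0, hk0⟩ := fp_eq_zpow v hz0
    rw [← hqdef] at hk0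
    have hRpos : 0 < R := lt_of_lt_of_le (by rw [hk0]; positivity) hz0R
    obtain ⟨N, hN⟩ : ∃ N : ℕ, R < (q : ℝ) ^ N := pow_unbounded_of_one_lt R hq
    obtain ⟨k, ⟨c, hc0, hck, hcR⟩, hkmax⟩ := Int.exists_greatest_of_bdd
      (P := fun k : ℤ => ∃ c : K, c ≠ 0 ∧ v c = (q : ℝ) ^ k ∧ v c ≤ R)
      ⟨N, fun k hk => by
        obtain ⟨c, _, h1, h2⟩ := hk
        by_contra hcon
        push Not at hcon
        have h3 : (q : ℝ) ^ (N : ℤ) ≤ (q : ℝ) ^ k := zpow_le_zpow_right₀ hq.le hcon.le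
        rw [zpow_natCast] at h3
        linarith⟩
      ⟨k0, z0, hz0, hk0, hz0R⟩
    have hvc : 0 < v c := by rw [hck]; positivity
    have hint : ∀ x : K, v x ≤ R → v (x / c) ≤ 1 := by
      intro x hx
      rcases eq_or_ne x 0 with rfl | hx0
      · simp
      · rw [map_div₀, div_le_one hvc]
        obtain ⟨l, hl⟩ := fp_eq_zpow v hx0
        rw [← hqdef] at hl
        have := hkmax l ⟨x, hx0, hl, hx⟩
        rw [hl, hck]
        exact zpow_le_zpow_right₀ hq.le this
    have hfin : Finite (𝓞 K ⧸ v.maximalIdeal.asIdeal) :=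
      Ideal.finiteQuotientOfFreeOfNeBot _ v.maximalIdeal.ne_bot
    have hcard : Nat.card (𝓞 K ⧸ v.maximalIdeal.asIdeal) =
        Ideal.absNorm v.maximalIdeal.asIdeal := by
      rw [Ideal.absNorm_apply, Submodule.cardQuot_apply]
    obtain ⟨e⟩ : Nonempty ((𝓞 K ⧸ v.maximalIdeal.asIdeal) ≃
        Fin (Ideal.absNorm v.maximalIdeal.asIdeal)) := ⟨Finite.equivFinOfCardEq hcard⟩
    have happ : ∀ x : K, ∃ a : 𝓞 K, v x ≤ R → v (x / c - (a : K)) < 1 := by
      intro x
      by_cases hx : v x ≤ R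
      · obtain ⟨a, ha⟩ := fp_exists_int v (hint x hx)
        exact ⟨a, fun _ => ha⟩
      · exact ⟨0, fun h => absurd h hx⟩
    choose a ha using happ
    refine ⟨fun x => e (Ideal.Quotient.mk _ (a x)), fun x y hx hy hxy => ?_⟩
    have h1 : Ideal.Quotient.mk v.maximalIdeal.asIdeal (a x) =
        Ideal.Quotient.mk v.maximalIdeal.asIdeal (a y) := e.injective hxy
    have h2 : a x - a y ∈ v.maximalIdeal.asIdeal := Ideal.Quotient.eq.mp h1
    have h3 : v ((a x - a y : 𝓞 K) : K) < 1 := (fp_int_lt_one_iff v _).2 h2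
    have h4 : v (x / c - y / c) < 1 := by
      have e1 : x / c - y / c = ((x / c - (a x : K)) + ((a x - a y : 𝓞 K) : K)) +
          -(y / c - (a y : K)) := by
        push_cast
        ring
      have n1 : v ((x / c - (a x : K)) + ((a x - a y : 𝓞 K) : K)) < 1 :=
        lt_of_le_of_lt (fp_isNonarch v _ _) (max_lt (ha x hx) h3)
      have n2 : v (-(y / c - (a y : K))) < 1 := by
        have : v (-(y / c - (a y : K))) = v (y / c - (a y : K)) :=
          AbsoluteValue.map_neg v.val _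
        rw [this]; exact ha y hy
      rw [e1]
      exact lt_of_le_of_lt (fp_isNonarch v _ _) (max_lt n1 n2)
    have h5 := fp_le_inv v h4
    rw [← hqdef] at h5 ⊢
    have e2 : x - y = (x / c - y / c) * c := by
      rw [sub_mul, div_mul_cancel₀ _ hc0, div_mul_cancel₀ _ hc0]
    rw [e2, map_mul]
    calc v (x / c - y / c) * v c ≤ (q : ℝ)⁻¹ * R :=
          mul_le_mul h5 hcR hvc.le (by positivity)
      _ = R / q := by rw [div_eq_inv_mul]
  · -- only zero
    push Not at hz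
    rw [← hqdef]
    refine ⟨fun _ => ⟨0, by omega⟩, fun x y hx hy _ => ?_⟩
    have hx0 : x = 0 := by
      by_contra h
      exact absurd hx (not_le.mpr (hz x h))
    have hy0 : y = 0 := by
      by_contra h
      exact absurd hy (not_le.mpr (hz y h))
    subst hx0
    subst hy0
    rw [sub_zero, map_zero] at *
    positivity

theorem f6_iter {K : Type u} [Field K] [NumberField K] (v : FinitePlace K) (m : ℕ) :
    ∀ R : ℝ, 0 < R → ∃ cell : K → Fin (Ideal.absNorm v.maximalIdeal.asIdeal ^ m),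
      ∀ x y, v x ≤ R → v y ≤ R →
      cell x = cell y → v (x - y) ≤ R / (Ideal.absNorm v.maximalIdeal.asIdeal : ℝ) ^ m := by
  classical
  have hq1 : 1 < Ideal.absNorm v.maximalIdeal.asIdeal := fp_one_lt v
  have hq : (1 : ℝ) < Ideal.absNorm v.maximalIdeal.asIdeal := by exact_mod_cast hq1
  induction m with
  | zero =>
    intro R hR
    refine ⟨fun _ => ⟨0, by simp⟩, fun x y hx hy _ => ?_⟩
    rw [pow_zero, div_one, sub_eq_add_neg]
    refine (fp_isNonarch v _ _).trans (max_le hx ?_)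
    have : v (-y) = v y := AbsoluteValue.map_neg v.val _
    exact this.le.trans hy
  | succ m ih =>
    intro R hR
    obtain ⟨c1, h1⟩ := f6_step v R
    obtain ⟨c2, h2⟩ := ih (R / Ideal.absNorm v.maximalIdeal.asIdeal) (by positivity)
    have hrep : ∀ i : Fin (Ideal.absNorm v.maximalIdeal.asIdeal), ∃ z : K,
        (∃ x, v x ≤ R ∧ c1 x = i) → v z ≤ R ∧ c1 z = i := by
      intro i
      by_cases h : ∃ x, v x ≤ R ∧ c1 x = i
      · obtain ⟨z, hz⟩ := h
        exact ⟨z, fun _ => hz⟩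
      · exact ⟨0, fun h' => absurd h' h⟩
    choose z hz using hrep
    have e : Fin (Ideal.absNorm v.maximalIdeal.asIdeal ^ m) ×
        Fin (Ideal.absNorm v.maximalIdeal.asIdeal) ≃
        Fin (Ideal.absNorm v.maximalIdeal.asIdeal ^ (m + 1)) :=
      finProdFinEquiv.trans (finCongr (pow_succ _ _).symm)
    refine ⟨fun x => e (c2 (x - z (c1 x)), c1 x), fun x y hx hy hxy => ?_⟩
    have h3 := e.injective hxy
    rw [Prod.mk.injEq] at h3
    obtain ⟨h4, h5⟩ := h3
    obtain ⟨hz1, hz2⟩ := hz (c1 x) ⟨x, hx, rfl⟩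
    rw [← h5] at h4
    have hx' := h1 x (z (c1 x)) hx hz1 hz2.symm
    have hy' := h1 y (z (c1 x)) hy hz1 (h5.symm.trans hz2.symm)
    have h6 := h2 (x - z (c1 x)) (y - z (c1 x)) hx' hy' h4
    rw [sub_sub_sub_cancel_right, div_div, ← pow_succ'] at h6
    exact h6

/-- F6: local nets -/
theorem fin_net (Q : ℕ) (A : ℝ) : ∃ M : ℕ, ∀ (K : Type u) [Field K] [NumberField K]
    (v : FinitePlace K), Ideal.absNorm v.maximalIdeal.asIdeal ≤ Q → ∀ R : ℝ, 0 < R →
    ∃ cell : K → Fin M, ∀ x y, v x ≤ R → v y ≤ R → cell x = cell y →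
      v (x - y) ≤ exp (-A) * R := by
  obtain ⟨m, hm⟩ : ∃ m : ℕ, exp A < (2 : ℝ) ^ m := pow_unbounded_of_one_lt _ (by norm_num)
  refine ⟨Q ^ m, fun K _ _ v hv R hR => ?_⟩
  obtain ⟨cell, hcell⟩ := f6_iter v m R hR
  have hq1 : 1 < Ideal.absNorm v.maximalIdeal.asIdeal := fp_one_lt v
  have hq2 : (2 : ℝ) ≤ Ideal.absNorm v.maximalIdeal.asIdeal := by exact_mod_cast hq1
  refine ⟨fun x => Fin.castLE (Nat.pow_le_pow_left hv m) (cell x), fun x y hx hy hxy => ?_⟩
  have h1 := hcell x y hx hy (Fin.castLE_injective _ hxy)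
  have h2 : exp A ≤ (Ideal.absNorm v.maximalIdeal.asIdeal : ℝ) ^ m :=
    hm.le.trans (pow_le_pow_left₀ (by norm_num) hq2 m)
  calc v (x - y) ≤ R / (Ideal.absNorm v.maximalIdeal.asIdeal : ℝ) ^ m := h1
    _ ≤ R / exp A := div_le_div_of_nonneg_left hR.le (exp_pos _) h2
    _ = exp (-A) * R := by rw [exp_neg, div_eq_inv_mul]

end Pool.Agent.H951R3.PB
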