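import Pool.Agent.H951R3.PB.Defs
import Pool.Agent.H951R3.PB.F6

set_option autoImplicit false

namespace Pool.Agent.H951R3.PB

open Real Filter Topology NumberField

universe u

namespace F7

theorem wd_cramer {L : Type*} [Field L] (x y e f : Fin 2 → L) :
    wd x y * wd e f = wd x f * wd e y - wd e x * wd y f := by
  simp only [wd]; ring

theorem cramer_vec {L : Type*} [Field L] (x a b : Fin 2 → L) :
    wd a b • x = wd x b • a + wd a x • b := by
  ext i
  fin_cases i <;> simp [wd] <;> ring

theorem classes {K : Type*} [Field K] (V : AbsoluteValue K ℝ) (N : (Fin 2 → K) → ℝ)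
    (hN : ∀ x, x ≠ 0 → 0 < N x) (D : ℝ) (hD : 0 < D)
    (hl : ∀ x y, wd x y ≠ 0 → V (wd x y) ≤ N x * N y * D) (M1 : ℕ) (A : ℝ)
    (net : ∀ R : ℝ, 0 < R → ∃ cell : K → Fin M1, ∀ x y, V x ≤ R → V y ≤ R → cell x = cell y →
      V (x - y) ≤ exp (-(A + log 4)) * R) :
    ∃ cell : (Fin 2 → K) → Fin (2 * M1), ∀ x y, wd x y ≠ 0 → cell x = cell y →
      V (wd x y) * exp A ≤ N x * N y * D := by
  classical
  -- near minimal pair
  have hne0 : ∀ {x y : Fin 2 → K}, wd x y ≠ 0 → x ≠ 0 ∧ y ≠ 0 := by
    intro x y h
    constructor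
    · rintro rfl; apply h; simp [wd]
    · rintro rfl; apply h; simp [wd]
  obtain ⟨e, f, hef, hmin⟩ : ∃ e f : Fin 2 → K, wd e f ≠ 0 ∧ ∀ x y, wd x y ≠ 0 →
      N e * N f * V (wd x y) ≤ 2 * (N x * N y * V (wd e f)) := by
    let S : Set ℝ := {ρ | ∃ x y : Fin 2 → K, wd x y ≠ 0 ∧ ρ = N x * N y / V (wd x y)}
    have hS0 : S.Nonempty := ⟨_, ![1, 0], ![0, 1], by simp [wd], rfl⟩
    have hSb : ∀ ρ ∈ S, D⁻¹ ≤ ρ := by
      rintro ρ ⟨x, y, hxy, rfl⟩
      have h1 := hl x y hxy
      have h2 : 0 < V (wd x y) := V.pos hxy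
      rw [inv_eq_one_div, div_le_div_iff₀ hD h2]
      linarith
    have hinf : D⁻¹ ≤ sInf S := le_csInf hS0 hSb
    have hpos : 0 < sInf S := (inv_pos.2 hD).trans_le hinf
    obtain ⟨ρ, ⟨e, f, hef, rfl⟩, hlt⟩ := exists_lt_of_csInf_lt hS0
      (show sInf S < 2 * sInf S by linarith)
    refine ⟨e, f, hef, fun x y hxy => ?_⟩
    have h1 : sInf S ≤ N x * N y / V (wd x y) :=
      csInf_le ⟨D⁻¹, hSb⟩ ⟨x, y, hxy, rfl⟩
    have h2 : N e * N f / V (wd e f) ≤ 2 * (N x * N y / V (wd x y)) := by linarith
    have h3 : 0 < V (wd e f) := V.pos hef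
    have h4 : 0 < V (wd x y) := V.pos hxy
    rw [← mul_div_assoc, div_le_div_iff₀ h3 h4] at h2
    linarith
  obtain ⟨he0, hf0⟩ := hne0 hef
  have hNe := hN e he0
  have hNf := hN f hf0
  have hW : 0 < V (wd e f) := V.pos hef
  obtain ⟨c1, hc1⟩ := net (N e / N f) (div_pos hNe hNf)
  obtain ⟨c2, hc2⟩ := net (N f / N e) (div_pos hNf hNe)
  set al : (Fin 2 → K) → K := fun x => wd x f / wd e f with hal
  set be : (Fin 2 → K) → K := fun x => wd e x / wd e f with hbe
  have hval : ∀ x, V (al x) = V (wd x f) / V (wd e f) := fun x => by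
    simp only [hal]; rw [map_div₀]
  have hvbe : ∀ x, V (be x) = V (wd e x) / V (wd e f) := fun x => by
    simp only [hbe]; rw [map_div₀]
  have hwd : ∀ x y, wd x y = (al x * be y - be x * al y) * wd e f := by
    intro x y
    have h := wd_cramer x y e f
    simp only [hal, hbe]
    field_simp
    linear_combination h
  have ha : ∀ x, x ≠ 0 → V (al x) * N e ≤ 2 * N x := by
    intro x hx
    have hNx := hN x hx
    by_cases h0 : wd x f = 0
    · rw [hval, h0, map_zero, zero_div, zero_mul]; positivity
    · have h1 := hmin x f h0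
      rw [hval, div_mul_eq_mul_div, div_le_iff₀ hW]
      have h2 : N f * (V (wd x f) * N e) ≤ N f * (2 * N x * V (wd e f)) := by linarith
      exact le_of_mul_le_mul_left h2 hNf
  have hb : ∀ x, x ≠ 0 → V (be x) * N f ≤ 2 * N x := by
    intro x hx
    have hNx := hN x hx
    by_cases h0 : wd e x = 0
    · rw [hvbe, h0, map_zero, zero_div, zero_mul]; positivity
    · have h1 := hmin e x h0
      rw [hvbe, div_mul_eq_mul_div, div_le_iff₀ hW]
      have h2 : N e * (V (wd e x) * N f) ≤ N e * (2 * N x * V (wd e f)) := by linarith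
      exact le_of_mul_le_mul_left h2 hNe
  have hexp : exp (-(A + log 4)) * exp A * 4 = 1 := by
    rw [neg_add, Real.exp_add, Real.exp_neg (log 4), Real.exp_log (by norm_num : (0 : ℝ) < 4)]
    rw [show exp (-A) * (4 : ℝ)⁻¹ * exp A * 4 = exp (-A) * exp A by ring]
    rw [← Real.exp_add]; simp
  have hE : 0 < exp (-(A + log 4)) := Real.exp_pos _
  let cell : (Fin 2 → K) → Fin 2 × Fin M1 := fun x =>
    if V (be x) * N f ≤ V (al x) * N e then (0, c1 (be x / al x)) else (1, c2 (al x / be x))
  refine ⟨fun x => finProdFinEquiv (cell x), fun x y hxy hcell => ?_⟩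
  have hcell' : cell x = cell y := finProdFinEquiv.injective hcell
  obtain ⟨hx, hy⟩ := hne0 hxy
  have hNx := hN x hx
  have hNy := hN y hy
  -- the vector is zero if both coordinates vanish
  have hzero : ∀ z : Fin 2 → K, z ≠ 0 → ¬ (al z = 0 ∧ be z = 0) := by
    rintro z hz ⟨h1, h2⟩
    apply hz
    have h3 : wd z f = 0 := by
      have : al z = 0 := h1
      simp only [hal, div_eq_zero_iff] at this
      tauto
    have h4 : wd e z = 0 := by
      have : be z = 0 := h2
      simp only [hbe, div_eq_zero_iff] at this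
      tauto
    have h5 := cramer_vec z e f
    rw [h3, h4, zero_smul, zero_smul, add_zero] at h5
    exact (smul_eq_zero.1 h5).resolve_left hef
  have hlef := hl e f hef
  by_cases tx : V (be x) * N f ≤ V (al x) * N e
  · by_cases ty : V (be y) * N f ≤ V (al y) * N e
    · -- both of type 1
      simp only [cell, if_pos tx, if_pos ty, Prod.mk.injEq, true_and] at hcell'
      have hax : al x ≠ 0 := by
        intro h0
        rw [h0, map_zero, zero_mul] at tx
        have h1 : V (be x) = 0 := by
          have := V.nonneg (be x)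
          nlinarith
        exact hzero x hx ⟨h0, (AbsoluteValue.eq_zero V).1 h1⟩
      have hay : al y ≠ 0 := by
        intro h0
        rw [h0, map_zero, zero_mul] at ty
        have h1 : V (be y) = 0 := by
          have := V.nonneg (be y)
          nlinarith
        exact hzero y hy ⟨h0, (AbsoluteValue.eq_zero V).1 h1⟩
      have hVx : 0 < V (al x) := V.pos hax
      have hVy : 0 < V (al y) := V.pos hay
      have hqx : V (be x / al x) ≤ N e / N f := by
        rw [map_div₀, div_le_div_iff₀ hVx hNf]; linarith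
      have hqy : V (be y / al y) ≤ N e / N f := by
        rw [map_div₀, div_le_div_iff₀ hVy hNf]; linarith
      have h1 := hc1 _ _ hqx hqy hcell'
      have h2 : wd x y = -(al x * al y * (be x / al x - be y / al y) * wd e f) := by
        rw [hwd x y]
        field_simp
        ring
      rw [h2, AbsoluteValue.map_neg, map_mul, map_mul, map_mul]
      have h3 := ha x hx
      have h4 := ha y hy
      have h5 : V (be x / al x - be y / al y) * V (wd e f) ≤
          exp (-(A + log 4)) * (N e * N e * D) := by
        calc V (be x / al x - be y / al y) * V (wd e f)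
            ≤ (exp (-(A + log 4)) * (N e / N f)) * (N e * N f * D) :=
              mul_le_mul h1 hlef hW.le (by positivity)
          _ = _ := by field_simp
      have h6 : (V (al x) * N e) * (V (al y) * N e) ≤ (2 * N x) * (2 * N y) :=
        mul_le_mul h3 h4 (by positivity) (by positivity)
      have hexpA : 0 < exp A := Real.exp_pos A
      calc V (al x) * V (al y) * V (be x / al x - be y / al y) * V (wd e f) * exp A
          = (V (al x) * V (al y) * exp A) * (V (be x / al x - be y / al y) * V (wd e f)) := by ring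
        _ ≤ (V (al x) * V (al y) * exp A) * (exp (-(A + log 4)) * (N e * N e * D)) :=
              mul_le_mul_of_nonneg_left h5 (by positivity)
        _ = (exp (-(A + log 4)) * exp A * D) * ((V (al x) * N e) * (V (al y) * N e)) := by ring
        _ ≤ (exp (-(A + log 4)) * exp A * D) * ((2 * N x) * (2 * N y)) :=
              mul_le_mul_of_nonneg_left h6 (by positivity)
        _ = (exp (-(A + log 4)) * exp A * 4) * (N x * N y * D) := by ring
        _ = N x * N y * D := by rw [hexp, one_mul]
    · simp only [cell, if_pos tx, if_neg ty, Prod.mk.injEq] at hcell'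
      exact absurd hcell'.1 (by decide)
  · by_cases ty : V (be y) * N f ≤ V (al y) * N e
    · simp only [cell, if_neg tx, if_pos ty, Prod.mk.injEq] at hcell'
      exact absurd hcell'.1 (by decide)
    · simp only [cell, if_neg tx, if_neg ty, Prod.mk.injEq, true_and] at hcell'
      push Not at tx ty
      have hbx : be x ≠ 0 := by
        intro h0
        rw [h0, map_zero, zero_mul] at tx
        have := V.nonneg (al x)
        have : 0 ≤ V (al x) * N e := by positivity
        linarith
      have hby : be y ≠ 0 := by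
        intro h0
        rw [h0, map_zero, zero_mul] at ty
        have := V.nonneg (al y)
        have : 0 ≤ V (al y) * N e := by positivity
        linarith
      have hVx : 0 < V (be x) := V.pos hbx
      have hVy : 0 < V (be y) := V.pos hby
      have hqx : V (al x / be x) ≤ N f / N e := by
        rw [map_div₀, div_le_div_iff₀ hVx hNe]; linarith
      have hqy : V (al y / be y) ≤ N f / N e := by
        rw [map_div₀, div_le_div_iff₀ hVy hNe]; linarith
      have h1 := hc2 _ _ hqx hqy hcell'
      have h2 : wd x y = be x * be y * (al x / be x - al y / be y) * wd e f := by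
        rw [hwd x y]
        field_simp
      rw [h2, map_mul, map_mul, map_mul]
      have h3 := hb x hx
      have h4 := hb y hy
      have h5 : V (al x / be x - al y / be y) * V (wd e f) ≤
          exp (-(A + log 4)) * (N f * N f * D) := by
        calc V (al x / be x - al y / be y) * V (wd e f)
            ≤ (exp (-(A + log 4)) * (N f / N e)) * (N e * N f * D) :=
              mul_le_mul h1 hlef hW.le (by positivity)
          _ = _ := by field_simp
      have h6 : (V (be x) * N f) * (V (be y) * N f) ≤ (2 * N x) * (2 * N y) :=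
        mul_le_mul h3 h4 (by positivity) (by positivity)
      have hexpA : 0 < exp A := Real.exp_pos A
      calc V (be x) * V (be y) * V (al x / be x - al y / be y) * V (wd e f) * exp A
          = (V (be x) * V (be y) * exp A) * (V (al x / be x - al y / be y) * V (wd e f)) := by ring
        _ ≤ (V (be x) * V (be y) * exp A) * (exp (-(A + log 4)) * (N f * N f * D)) :=
              mul_le_mul_of_nonneg_left h5 (by positivity)
        _ = (exp (-(A + log 4)) * exp A * D) * ((V (be x) * N f) * (V (be y) * N f)) := by ring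
        _ ≤ (exp (-(A + log 4)) * exp A * D) * ((2 * N x) * (2 * N y)) :=
              mul_le_mul_of_nonneg_left h6 (by positivity)
        _ = (exp (-(A + log 4)) * exp A * 4) * (N x * N y * D) := by ring
        _ = N x * N y * D := by rw [hexp, one_mul]

theorem nrm_pos {L : Type*} [Field L] (w : AbsoluteValue L ℝ) {x : Fin 2 → L} (hx : x ≠ 0) :
    0 < nrm w x := by
  by_contra h
  push Not at h
  apply hx
  have h0 : w (x 0) ≤ 0 := (le_max_left _ _).trans h
  have h1 : w (x 1) ≤ 0 := (le_max_right _ _).trans h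
  ext i
  fin_cases i
  · exact (AbsoluteValue.eq_zero w).1 (le_antisymm h0 (w.nonneg _))
  · exact (AbsoluteValue.eq_zero w).1 (le_antisymm h1 (w.nonneg _))

theorem wd_coo {L : Type*} [Field L] (a b x y : Fin 2 → L) (h : wd a b ≠ 0) :
    wd (coo a b x) (coo a b y) = wd x y / wd a b := by
  have h1 : wd (coo a b x) (coo a b y) =
      (wd x b * wd a y - wd a x * wd y b) / (wd a b * wd a b) := by
    simp only [coo, wd, Matrix.cons_val_zero, Matrix.cons_val_one]
    have h' : a 0 * b 1 - a 1 * b 0 ≠ 0 := h
    field_simp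
  rw [h1, ← wd_cramer]
  field_simp

theorem wd_le {L : Type*} [Field L] (w : AbsoluteValue L ℝ) (hw : IsNonarchimedean w)
    (x y : Fin 2 → L) : w (wd x y) ≤ nrm w x * nrm w y := by
  have h1 : w (wd x y) ≤ max (w (x 0 * y 1)) (w (x 1 * y 0)) := by
    have := hw (x 0 * y 1) (-(x 1 * y 0))
    rw [AbsoluteValue.map_neg, ← sub_eq_add_neg] at this
    exact this
  refine h1.trans (max_le ?_ ?_)
  · rw [map_mul]
    exact mul_le_mul (le_max_left _ _) (le_max_right _ _) (w.nonneg _)
      ((w.nonneg _).trans (le_max_left _ _))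
  · rw [map_mul]
    exact mul_le_mul (le_max_right _ _) (le_max_left _ _) (w.nonneg _)
      ((w.nonneg _).trans (le_max_left _ _))

theorem wd_vL {K : Type u} [Field K] (x y : Fin 2 → K) :
    wd (vL K x) (vL K y) = algebraMap K (AlgebraicClosure K) (wd x y) := by
  simp [wd, vL, map_sub, map_mul]

theorem coo_ne_zero {L : Type*} [Field L] {a b x : Fin 2 → L} (h : wd a b ≠ 0) (hx : x ≠ 0) :
    coo a b x ≠ 0 := by
  intro h0
  apply hx
  have h1 : wd x b = 0 := by
    have := congrFun h0 0
    simp only [coo, Matrix.cons_val_zero, Pi.zero_apply, div_eq_zero_iff] at this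
    tauto
  have h2 : wd a x = 0 := by
    have := congrFun h0 1
    simp [coo] at this
    tauto
  have h3 := cramer_vec x a b
  rw [h1, h2, zero_smul, zero_smul, add_zero] at h3
  exact (smul_eq_zero.1 h3).resolve_left h

end F7

open F7 in
/-- F7: classes of `K`-rational points at a small place -/
theorem aux_classes (Q : ℕ) (A : ℝ) : ∃ M : ℕ, ∀ (K : Type u) [Field K] [NumberField K]
    (v : FinitePlace K), Ideal.absNorm v.maximalIdeal.asIdeal ≤ Q →
    ∀ (w : AbsoluteValue (AlgebraicClosure K) ℝ), Ext v.val w → IsNonarchimedean w →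
    ∀ (a b : Fin 2 → AlgebraicClosure K), wd a b ≠ 0 →
    ∃ cell : (Fin 2 → K) → Fin M, ∀ x y, wd x y ≠ 0 → cell x = cell y →
      A ≤ lam w (coo a b (vL K x)) (coo a b (vL K y)) := by
  obtain ⟨M1, hM1⟩ := fin_net.{u} Q (A + log 4)
  refine ⟨2 * M1, fun K _ _ v hv w hext hw a b hab => ?_⟩
  have hinj : Function.Injective (algebraMap K (AlgebraicClosure K)) :=
    (algebraMap K (AlgebraicClosure K)).injective
  have hvL : ∀ x : Fin 2 → K, x ≠ 0 → vL K x ≠ 0 := by
    intro x hx h0
    apply hx
    ext i
    apply hinj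
    rw [Pi.zero_apply, map_zero]
    exact congrFun h0 i
  have hD : 0 < w (wd a b) := w.pos hab
  have hNpos : ∀ x : Fin 2 → K, x ≠ 0 → 0 < nrm w (coo a b (vL K x)) := fun x hx =>
    nrm_pos w (coo_ne_zero hab (hvL x hx))
  have hcoo : ∀ x y : Fin 2 → K, w (wd (coo a b (vL K x)) (coo a b (vL K y))) =
      v.val (wd x y) / w (wd a b) := by
    intro x y
    rw [wd_coo _ _ _ _ hab, map_div₀, wd_vL, hext]
  obtain ⟨cell, hcell⟩ := classes v.val (fun x => nrm w (coo a b (vL K x))) hNpos
    (w (wd a b)) hD (by
      intro x y _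
      have h1 := wd_le w hw (coo a b (vL K x)) (coo a b (vL K y))
      rw [hcoo, div_le_iff₀ hD] at h1
      exact h1) M1 A (fun R hR => hM1 K v hv R hR)
  refine ⟨cell, fun x y hxy hc => ?_⟩
  have h1 := hcell x y hxy hc
  have hx : x ≠ 0 := by rintro rfl; apply hxy; simp [wd]
  have hy : y ≠ 0 := by rintro rfl; apply hxy; simp [wd]
  have hNx := hNpos x hx
  have hNy := hNpos y hy
  have hV : 0 < v.val (wd x y) := v.val.pos hxy
  rw [lam, hcoo]
  have h2 : log (v.val (wd x y) * exp A) ≤
      log (nrm w (coo a b (vL K x)) * nrm w (coo a b (vL K y)) * w (wd a b)) :=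
    Real.log_le_log (by positivity) h1
  rw [Real.log_mul hV.ne' (Real.exp_pos A).ne', Real.log_exp,
    Real.log_mul (mul_pos hNx hNy).ne' hD.ne', Real.log_mul hNx.ne' hNy.ne'] at h2
  rw [Real.log_div hV.ne' hD.ne']
  linarith

end Pool.Agent.H951R3.PB
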