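import Pool.Agent.H951R3.PB.Defs
import Pool.Agent.H951R3.PB.D5
import Pool.Agent.H951R3.PB.D6
import Pool.Agent.H951R3.PB.F7

/-!
# F8: classes of `K`-rational points with large Green pairing at a small place
-/

set_option autoImplicit false

namespace Pool.Agent.H951R3.PB

open Real Filter Topology NumberField

universe u

/-- F8 -/
theorem aux_gain (d : ℕ) (hd : 2 ≤ d) (Q : ℕ) (A : ℝ) : ∃ M : ℕ, ∀ (K : Type u) [Field K]
    [NumberField K] (v : FinitePlace K), Ideal.absNorm v.maximalIdeal.asIdeal ≤ Q →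
    ∀ (w : AbsoluteValue (AlgebraicClosure K) ℝ), Ext v.val w → IsNonarchimedean w →
    ∀ (F : (Fin 2 → AlgebraicClosure K) → Fin 2 → AlgebraicClosure K) (r : ℝ), Fib w F d r →
    ∃ cell : (Fin 2 → K) → Fin M, ∀ x y, wd x y ≠ 0 → cell x = cell y →
      A ≤ gg w F d r (vL K x) (vL K y) := by
  obtain ⟨M1, c, B, hc, _hB, hgain⟩ := gain.{u} d hd
  obtain ⟨B2, hB2, hlam⟩ := gg_ge_lam.{u} d hd
  obtain ⟨M2, haux⟩ := aux_classes.{u} Q (A + B2 * (max ((A + B) / c) 0 + 1))
  refine ⟨M1 + M2, fun K _ _ v hv w hext hna F r hF => ?_⟩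
  have hwd : ∀ x y : Fin 2 → K, wd x y ≠ 0 → wd (vL K x) (vL K y) ≠ 0 := by
    intro x y hxy h
    apply hxy
    have h1 : wd (vL K x) (vL K y) = algebraMap K (AlgebraicClosure K) (wd x y) := by
      simp [wd, vL]
    rw [h1] at h
    exact (map_eq_zero_iff _ (algebraMap K (AlgebraicClosure K)).injective).1 h
  by_cases hmm : max ((A + B) / c) 0 < mm w F d r
  · obtain ⟨cell, hcell⟩ := hgain (AlgebraicClosure K) w F r hF
    refine ⟨fun x => Fin.castAdd M2 (cell (vL K x)), fun x y hxy hxy' => ?_⟩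
    have h1 := hcell _ _ (hwd x y hxy) (Fin.castAdd_injective M1 M2 hxy')
    have h2 : (A + B) / c < mm w F d r := lt_of_le_of_lt (le_max_left _ _) hmm
    rw [div_lt_iff₀ hc] at h2
    linarith
  · obtain ⟨a, b, hab, h⟩ := hlam (AlgebraicClosure K) w F r hF
    obtain ⟨cell, hcell⟩ := haux K v hv w hext hna a b hab
    refine ⟨fun x => Fin.natAdd M1 (cell x), fun x y hxy hxy' => ?_⟩
    have h1 := hcell x y hxy ((Fin.natAdd_injective M2 M1) hxy')
    have h2 := h _ _ (hwd x y hxy)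
    have h3 : max (mm w F d r) 0 ≤ max ((A + B) / c) 0 :=
      max_le (not_lt.1 hmm) (le_max_right _ _)
    have h4 : B2 * (max (mm w F d r) 0 + 1) ≤ B2 * (max ((A + B) / c) 0 + 1) := by gcongr
    linarith

end Pool.Agent.H951R3.PB
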