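import Mathlib

/-!
# Abstract counting argument
-/

set_option autoImplicit false

namespace Pool.Agent.H951R3.PB

open Real Finset

theorem sum_Ioi_const (n : ℕ) (c : ℝ) :
    ∑ a : Fin n, ∑ _b ∈ Ioi a, c = (n : ℝ) * ((n : ℝ) - 1) / 2 * c := by
  have h1 : ∀ a : Fin n, ∑ _b ∈ Ioi a, c = ((n : ℝ) - 1 - (a : ℕ)) * c := by
    intro a
    rw [Finset.sum_const, Fin.card_Ioi, nsmul_eq_mul]
    congr 1
    have := a.2
    rw [Nat.cast_sub (by omega), Nat.cast_sub (by omega)]
    push_cast
    ring
  simp_rw [h1]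
  rw [← Finset.sum_mul, Finset.sum_sub_distrib]
  congr 1
  have h2 : ∑ a : Fin n, ((a : ℕ) : ℝ) = (n : ℝ) * ((n : ℝ) - 1) / 2 := by
    rw [Fin.sum_univ_eq_sum_range (fun i => (i : ℝ)) n]
    induction n with
    | zero => simp
    | succ n ih =>
      rw [Finset.sum_range_succ, ih (by
        intro a
        rw [Finset.sum_const, Fin.card_Ioi, nsmul_eq_mul]
        congr 1
        have := a.2
        rw [Nat.cast_sub (by omega), Nat.cast_sub (by omega)]
        push_cast
        ring)]
      push_cast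
      ring
  rw [h2]
  simp
  ring

theorem count_abs {V : Type*} [DecidableEq V] {d : ℕ} (hd : 2 ≤ d) {I : Type*} [Fintype I]
    [DecidableEq I] (n : I → ℝ) (hn1 : ∀ i, 1 ≤ n i) (hn2 : ∀ i, n i ≤ 2) (m : I → ℝ)
    (g : I → V → V → ℝ) {B c A : ℝ} (hB : 0 ≤ B) (hc : 0 < c) (hA : 4 * (c + 1) * B + 2 ≤ A)
    (hm : ∀ i, -B ≤ m i) (X : Finset V)
    (loss : ∀ i, ∀ (k : ℕ) (x : Fin (d ^ k) → V), Function.Injective x → (∀ j, x j ∈ X) →
      -((d : ℝ) ^ k * (k * (m i + B))) ≤ ∑ a, ∑ b ∈ Ioi a, g i (x a) (x b))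
    {M : ℕ} (gain : ∀ i, ∃ cell : V → Fin M, ∀ x ∈ X, ∀ y ∈ X, x ≠ y → cell x = cell y →
      c * m i - B ≤ g i x y)
    (i₀ : I) {M' : ℕ} (aux : ∃ cell' : V → Fin M', ∀ x ∈ X, ∀ y ∈ X, x ≠ y →
      cell' x = cell' y → A ≤ g i₀ x y)
    {μ : ℝ} (hμ : μ ≤ 0 ∨ ∃ i, μ ≤ m i) {R : ℝ} (j : I)
    (hR : ∑ i, (1 + max (m i) 0) ≤ R * (1 + max (m j) 0))
    (glob : ∀ x ∈ X, ∀ y ∈ X, x ≠ y →
      ∑ i, n i * g i x y ≤ 2 * (min (c / 16) (1 / 16)) * (1 + max μ 0)) :
    (X.card : ℝ) ≤ M * M' * d * (1 + 11 * (1 + B) * (1 + 1 / c) * R * Nat.log d X.card) := by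
  have hR0 : 0 ≤ R := by
    have h1 : 0 ≤ ∑ i, (1 + max (m i) 0) := Finset.sum_nonneg fun i _ => by positivity
    have h2 : 0 < 1 + max (m j) 0 := by positivity
    by_contra hcon
    push Not at hcon
    have := mul_neg_of_neg_of_pos hcon h2
    linarith
  obtain ⟨cell', hcell'⟩ := aux
  -- the place with the largest size
  obtain ⟨i₁, -, hi₁⟩ := Finset.exists_max_image (Finset.univ : Finset I) m ⟨i₀, Finset.mem_univ _⟩
  obtain ⟨cell, hcell⟩ := gain i₁
  rcases X.eq_empty_or_nonempty with rfl | hX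
  · simp
    positivity
  -- pigeonhole
  obtain ⟨p, hp⟩ : ∃ p : Fin M × Fin M',
      X.card ≤ (M * M') * (X.filter fun x => (cell x, cell' x) = p).card := by
    by_contra hcon
    push Not at hcon
    have h1 : X.card = ∑ p : Fin M × Fin M', (X.filter fun x => (cell x, cell' x) = p).card :=
      Finset.card_eq_sum_card_fiberwise (fun x _ => Finset.mem_univ _)
    obtain ⟨x₀, hx₀⟩ := hX
    have hne : (Finset.univ : Finset (Fin M × Fin M')).Nonempty :=
      ⟨(cell x₀, cell' x₀), Finset.mem_univ _⟩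
    have h2 : ∑ p : Fin M × Fin M', (M * M') * (X.filter fun x => (cell x, cell' x) = p).card <
        ∑ _p : Fin M × Fin M', X.card := Finset.sum_lt_sum_of_nonempty hne fun p _ => hcon p
    rw [← Finset.mul_sum, ← h1, Finset.sum_const, Finset.card_univ, Fintype.card_prod,
      Fintype.card_fin, Fintype.card_fin, smul_eq_mul] at h2
    exact absurd h2 (lt_irrefl _)
  set Y := X.filter fun x => (cell x, cell' x) = p with hY
  have hYpos : Y.card ≠ 0 := by
    intro h0
    rw [h0, mul_zero] at hp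
    exact hX.card_pos.ne' (Nat.le_zero.1 hp)
  set k := Nat.log d Y.card with hk
  have hk1 : d ^ k ≤ Y.card := Nat.pow_log_le_self d hYpos
  have hk2 : Y.card < d ^ (k + 1) := Nat.lt_pow_succ_log_self (by omega) _
  obtain ⟨Z, hZY, hZ⟩ := Finset.exists_subset_card_eq hk1
  let e : Fin (d ^ k) ≃ Z := (Finset.equivFinOfCardEq hZ).symm
  let x : Fin (d ^ k) → V := fun j => (e j : V)
  have hxinj : Function.Injective x := fun a b h => e.injective (Subtype.ext h)
  have hxY : ∀ j, x j ∈ Y := fun j => hZY (e j).2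
  have hxX : ∀ j, x j ∈ X := fun j => (Finset.mem_filter.1 (hxY j)).1
  have hxp : ∀ j, (cell (x j), cell' (x j)) = p := fun j => (Finset.mem_filter.1 (hxY j)).2
  have hxne : ∀ a b : Fin (d ^ k), b ∈ Ioi a → x a ≠ x b := by
    intro a b hab h
    exact (Finset.mem_Ioi.1 hab).ne (hxinj h)
  -- notation
  set N : ℝ := ((d ^ k : ℕ) : ℝ) with hN
  have hN1 : 1 ≤ N := by
    rw [hN]
    exact_mod_cast Nat.one_le_pow _ _ (by omega)
  set h : ℝ := m i₁ + B with hh
  have hh0 : 0 ≤ h := by
    have := hm i₁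
    rw [hh]
    linarith
  have hmi : ∀ i, m i + B ≤ h := fun i => by
    have := hi₁ i (Finset.mem_univ _)
    rw [hh]
    linarith
  have hμh : max μ 0 ≤ h := by
    rcases hμ with h1 | ⟨i, h1⟩
    · rw [max_eq_right h1]
      exact hh0
    · refine max_le ?_ hh0
      have := hmi i
      linarith
  -- pair sums
  let s : I → ℝ := fun i => ∑ a, ∑ b ∈ Ioi a, g i (x a) (x b)
  have hloss : ∀ i, -(2 * (N * (k * (m i + B)))) ≤ n i * s i := by
    intro i
    have h1 := loss i k x hxinj hxX
    have h3 : 0 ≤ N * (k * (m i + B)) := by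
      have : 0 ≤ m i + B := by
        have := hm i
        linarith
      positivity
    have h4 : -(N * (k * (m i + B))) ≤ s i := by
      rw [hN]
      push_cast
      exact h1
    have h5 := hn1 i
    have h6 := hn2 i
    rcases le_or_gt 0 (s i) with h7 | h7
    · have : 0 ≤ n i * s i := by positivity
      linarith
    · nlinarith
  have hglob : ∑ i, n i * s i ≤ N * (N - 1) / 2 * (2 * (min (c / 16) (1 / 16)) * (1 + h)) := by
    have h1 : ∑ i, n i * s i = ∑ a, ∑ b ∈ Ioi a, ∑ i, n i * g i (x a) (x b) := by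
      simp only [s, Finset.mul_sum]
      rw [Finset.sum_comm]
      refine Finset.sum_congr rfl fun a _ => ?_
      rw [Finset.sum_comm]
    rw [h1, ← sum_Ioi_const]
    refine Finset.sum_le_sum fun a _ => Finset.sum_le_sum fun b hb => ?_
    refine (glob _ (hxX a) _ (hxX b) (hxne a b hb)).trans ?_
    refine mul_le_mul_of_nonneg_left (by linarith) ?_
    have : 0 ≤ min (c / 16) (1 / 16) := le_min (by positivity) (by norm_num)
    positivity
  have hA0 : 0 ≤ A := by
    have : 0 ≤ 4 * (c + 1) * B := by positivity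
    linarith
  have hgain1 : N * (N - 1) / 2 * (c * m i₁ - B) ≤ s i₁ := by
    rw [← sum_Ioi_const]
    refine Finset.sum_le_sum fun a _ => Finset.sum_le_sum fun b hb => ?_
    refine hcell _ (hxX a) _ (hxX b) (hxne a b hb) ?_
    have h1 := (hxp a).trans (hxp b).symm
    exact (Prod.ext_iff.1 h1).1
  have hgain0 : N * (N - 1) / 2 * A ≤ s i₀ := by
    rw [← sum_Ioi_const]
    refine Finset.sum_le_sum fun a _ => Finset.sum_le_sum fun b hb => ?_
    refine hcell' _ (hxX a) _ (hxX b) (hxne a b hb) ?_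
    have h1 := (hxp a).trans (hxp b).symm
    exact (Prod.ext_iff.1 h1).2
  have hNN : 0 ≤ N * (N - 1) / 2 := by
    have : 0 ≤ N - 1 := by linarith
    positivity
  set q := N * (N - 1) / 2 with hq
  have hcm : c * m i₁ - B = c * h - (c + 1) * B := by
    rw [hh]
    ring
  rw [hcm] at hgain1
  -- the total loss
  set T : ℝ := ∑ i, 2 * (N * (k * (m i + B))) with hT
  have hTi : ∀ i, 0 ≤ 2 * (N * (k * (m i + B))) := fun i => by
    have : 0 ≤ m i + B := by
      have := hm i
      linarith
    positivity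
  have hTR : T ≤ 2 * (N * k) * ((1 + B) * (R * (1 + h))) := by
    have h1 : ∀ i, m i + B ≤ (1 + B) * (1 + max (m i) 0) := by
      intro i
      have h2 : m i ≤ max (m i) 0 := le_max_left _ _
      have h3 : 0 ≤ max (m i) 0 := le_max_right _ _
      have h4 : 0 ≤ B * max (m i) 0 := by positivity
      nlinarith
    have h2 : ∑ i, (m i + B) ≤ (1 + B) * (R * (1 + h)) := by
      calc ∑ i, (m i + B) ≤ ∑ i, (1 + B) * (1 + max (m i) 0) :=
            Finset.sum_le_sum fun i _ => h1 i
        _ = (1 + B) * ∑ i, (1 + max (m i) 0) := by rw [Finset.mul_sum]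
        _ ≤ (1 + B) * (R * (1 + max (m j) 0)) :=
            mul_le_mul_of_nonneg_left hR (by linarith)
        _ ≤ (1 + B) * (R * (1 + h)) := by
            have h5 : max (m j) 0 ≤ h := by
              refine max_le ?_ hh0
              have := hmi j
              linarith
            refine mul_le_mul_of_nonneg_left (mul_le_mul_of_nonneg_left (by linarith) hR0)
              (by linarith)
    calc T = 2 * (N * k) * ∑ i, (m i + B) := by
          rw [hT, Finset.mul_sum]
          exact Finset.sum_congr rfl fun i _ => by ring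
      _ ≤ _ := mul_le_mul_of_nonneg_left h2 (by positivity)
  -- the two special places
  have hspecial : q * (1 / 2 * (c * h + A / 2)) - T ≤
      ∑ i, n i * s i := by
    have hcB : 0 ≤ (c + 1) * B := by positivity
    by_cases h01 : i₁ = i₀
    · have h1 : q * (1 / 2 * (c * h + A / 2)) ≤ n i₀ * s i₀ := by
        rw [h01] at hgain1
        have h2 : 0 ≤ s i₀ := le_trans (by positivity) hgain0
        have h3 : s i₀ ≤ n i₀ * s i₀ := by
          have := hn1 i₀
          nlinarith
        have h4 : q * (1 / 2 * (c * h + A / 2)) ≤ s i₀ := by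
          have h5 : q * (4 * ((c + 1) * B) + 2) ≤ q * A := by
            refine mul_le_mul_of_nonneg_left ?_ hNN
            linarith
          nlinarith
        linarith
      rw [← Finset.add_sum_erase _ _ (Finset.mem_univ i₀)]
      have h2 : -T ≤ ∑ i ∈ Finset.univ.erase i₀, n i * s i := by
        calc -T ≤ ∑ i ∈ Finset.univ.erase i₀, -(2 * (N * (k * (m i + B)))) := by
              rw [Finset.sum_neg_distrib, neg_le_neg_iff]
              exact Finset.sum_le_sum_of_subset_of_nonneg (Finset.subset_univ _)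
                fun i _ _ => hTi i
          _ ≤ _ := Finset.sum_le_sum fun i _ => hloss i
      linarith
    · have h1 : q * (c * h - 2 * ((c + 1) * B)) ≤ n i₁ * s i₁ := by
        have h5 := hn1 i₁
        have h6 := hn2 i₁
        have h7 : n i₁ * (q * (c * h - (c + 1) * B)) ≤ n i₁ * s i₁ :=
          mul_le_mul_of_nonneg_left hgain1 (by linarith)
        refine le_trans ?_ h7
        have h8 : 0 ≤ q * (c * h) := by positivity
        have h9 : 0 ≤ q * ((c + 1) * B) := by positivity
        nlinarith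
      have h2 : q * A ≤ n i₀ * s i₀ := by
        have h2 : 0 ≤ s i₀ := le_trans (by positivity) hgain0
        have := hn1 i₀
        nlinarith
      rw [← Finset.add_sum_erase _ _ (Finset.mem_univ i₀),
        ← Finset.add_sum_erase _ _ (Finset.mem_erase.2 ⟨h01, Finset.mem_univ i₁⟩)]
      have h3 : -T ≤ ∑ i ∈ (Finset.univ.erase i₀).erase i₁, n i * s i := by
        calc -T ≤ ∑ i ∈ (Finset.univ.erase i₀).erase i₁, -(2 * (N * (k * (m i + B)))) := by
              rw [Finset.sum_neg_distrib, neg_le_neg_iff]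
              exact Finset.sum_le_sum_of_subset_of_nonneg (Finset.subset_univ _)
                fun i _ _ => hTi i
          _ ≤ _ := Finset.sum_le_sum fun i _ => hloss i
      have h5 : q * (4 * ((c + 1) * B) + 2) ≤ q * A := by
        refine mul_le_mul_of_nonneg_left ?_ hNN
        linarith
      have h8 : 0 ≤ q * (c * h) := by positivity
      have h9 : 0 ≤ q * A := by positivity
      nlinarith
  -- conclusion for N
  have hmain : q * (3 / 8 * (c * h + 1)) ≤ T := by
    have h1 := hspecial.trans hglob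
    have h2 : 2 * (min (c / 16) (1 / 16)) * (1 + h) ≤ 1 / 8 + c * h / 8 := by
      have h3 : min (c / 16) (1 / 16) ≤ 1 / 16 := min_le_right _ _
      have h4 : min (c / 16) (1 / 16) ≤ c / 16 := min_le_left _ _
      nlinarith
    have h3 : q * (2 * (min (c / 16) (1 / 16)) * (1 + h)) ≤ q * (1 / 8 + c * h / 8) :=
      mul_le_mul_of_nonneg_left h2 hNN
    have hA2 : 2 ≤ A := by
      have : 0 ≤ 4 * (c + 1) * B := by positivity
      linarith
    have h4 : q * 2 ≤ q * A := mul_le_mul_of_nonneg_left hA2 hNN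
    nlinarith
  have hN2 : N ≤ 1 + 11 * (1 + B) * (1 + 1 / c) * R * k := by
    have hN0 : 0 < N := by linarith
    have hch : 0 < c * h + 1 := by positivity
    have hB1 : 0 ≤ (1 + B) * R * k := by positivity
    have h1 : (N - 1) / 2 * (3 / 8 * (c * h + 1)) ≤ 2 * k * ((1 + B) * (R * (1 + h))) := by
      have : N * ((N - 1) / 2 * (3 / 8 * (c * h + 1))) ≤
          N * (2 * k * ((1 + B) * (R * (1 + h)))) := by
        calc N * ((N - 1) / 2 * (3 / 8 * (c * h + 1))) = q * (3 / 8 * (c * h + 1)) := by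
              rw [hq]
              ring
          _ ≤ 2 * (N * k) * ((1 + B) * (R * (1 + h))) := hmain.trans hTR
          _ = _ := by ring
      exact le_of_mul_le_mul_left this hN0
    have h2 : 1 + h ≤ (1 + 1 / c) * (c * h + 1) := by
      have h3 : (1 + 1 / c) * (c * h + 1) = c * h + 1 + h + 1 / c := by
        field_simp
        ring
      rw [h3]
      have h4 : 0 ≤ 1 / c := by positivity
      have h5 : 0 ≤ c * h := by positivity
      linarith
    have h3 : 2 * k * ((1 + B) * (R * (1 + h))) ≤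
        2 * ((1 + B) * R * k) * ((1 + 1 / c) * (c * h + 1)) := by
      calc 2 * k * ((1 + B) * (R * (1 + h))) = 2 * ((1 + B) * R * k) * (1 + h) := by ring
        _ ≤ _ := mul_le_mul_of_nonneg_left h2 (by positivity)
    have h4 : (N - 1) * (c * h + 1) ≤
        (11 * (1 + B) * (1 + 1 / c) * R * k) * (c * h + 1) := by
      have h5 : 0 ≤ ((1 + B) * R * k) * ((1 + 1 / c) * (c * h + 1)) := by positivity
      nlinarith
    have h5 := le_of_mul_le_mul_right h4 hch
    linarith
  -- conclusion
  have hkX : (k : ℝ) ≤ Nat.log d X.card := by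
    have : k ≤ Nat.log d X.card := Nat.log_mono_right (Finset.card_filter_le _ _)
    exact_mod_cast this
  have hXN : (X.card : ℝ) ≤ M * M' * (d * N) := by
    have h1 : X.card ≤ (M * M') * (d * d ^ k) := by
      refine hp.trans (Nat.mul_le_mul_left _ ?_)
      rw [← pow_succ']
      exact hk2.le
    have h2 : ((X.card : ℕ) : ℝ) ≤ (((M * M') * (d * d ^ k) : ℕ) : ℝ) := by exact_mod_cast h1
    rw [hN]
    push_cast at h2 ⊢
    exact h2
  calc (X.card : ℝ) ≤ M * M' * (d * N) := hXN
    _ = M * M' * d * N := by ring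
    _ ≤ M * M' * d * (1 + 11 * (1 + B) * (1 + 1 / c) * R * k) :=
        mul_le_mul_of_nonneg_left hN2 (by positivity)
    _ ≤ _ := by
        refine mul_le_mul_of_nonneg_left ?_ (by positivity)
        have : 11 * (1 + B) * (1 + 1 / c) * R * (k : ℝ) ≤
            11 * (1 + B) * (1 + 1 / c) * R * Nat.log d X.card :=
          mul_le_mul_of_nonneg_left hkX (by positivity)
        linarith

end Pool.Agent.H951R3.PB
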