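import Pool.Agent.H951R3.PB.Defs
import Pool.Agent.H951R3.PB.D3
import Pool.Agent.H951R3.PB.D5
import Pool.Agent.H951R3.PB.E1
import Pool.Agent.H951R3.PB.E2
import Pool.Agent.H951R3.PB.E6
import Pool.Agent.H951R3.PB.F1
import Pool.Agent.H951R3.PB.F2
import Pool.Agent.H951R3.PB.F3
import Pool.Agent.H951R3.PB.F4
import Pool.Agent.H951R3.PB.F8
import Pool.Agent.H951R3.PB.F10
import Pool.Agent.H951R3.PB.F9a
import Pool.Agent.H951R2.MSFinal
import Pool.Agent.H951R2.MSPlaces

/-!
# The number of points of small canonical height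
-/

set_option autoImplicit false

namespace Pool.Agent.H951R3.PB

open Real Filter Topology NumberField Finset

universe u

section core

variable {K : Type u} [Field K]

theorem wd_vL (x y : Fin 2 → K) :
    wd (vL K x) (vL K y) = algebraMap K (AlgebraicClosure K) (wd x y) := by
  simp [wd, vL]

theorem wd_vL_ne {x y : Fin 2 → K} (h : wd x y ≠ 0) : wd (vL K x) (vL K y) ≠ 0 := by
  rw [wd_vL]
  exact (map_ne_zero_iff _ (algebraMap K (AlgebraicClosure K)).injective).2 h

theorem wd_self (x : Fin 2 → K) : wd x x = 0 := by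
  simp [wd]
  ring

theorem vL_ne {x : Fin 2 → K} (h : x ≠ 0) : vL K x ≠ 0 := by
  intro h0
  apply h
  funext i
  have := congrFun h0 i
  simpa [vL] using this

/-- size of `f` at the absolute value `w` of the algebraic closure -/
noncomputable def msz (d : ℕ) (f : Fin 2 → MvPolynomial (Fin 2) K)
    (w : AbsoluteValue (AlgebraicClosure K) ℝ) : ℝ :=
  mm w (ev (fL K f)) d (log (w (rs (fL K f) d)))

end core

theorem core_bound (d : ℕ) (hd : 2 ≤ d) (D : ℕ) : ∃ C ε : ℝ, 0 < C ∧ 0 < ε ∧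
    ∀ (K : Type u) [Field K] [NumberField K],
    ∀ f : Fin 2 → MvPolynomial (Fin 2) K, (∀ i, (f i).IsHomogeneous d) → rs f d ≠ 0 →
    ∀ (wi : InfinitePlace K → AbsoluteValue (AlgebraicClosure K) ℝ) (_ : ∀ v, Ext v.val (wi v))
      (wf : FinitePlace K → AbsoluteValue (AlgebraicClosure K) ℝ) (_ : ∀ v, Ext v.val (wf v))
      (S : Finset (FinitePlace K)) (v₁ : FinitePlace K), v₁ ∈ S →
      Ideal.absNorm v₁.maximalIdeal.asIdeal ≤ 2 ^ D → (∀ v, v ∉ S → PotGoodAt (wf v) d f) →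
    ∀ (μ : ℝ), (μ ≤ 0 ∨ ∃ i : InfinitePlace K ⊕ S,
        μ ≤ msz d f (Sum.elim wi (fun v : S => wf v.1) i)) →
    ∀ (R : ℝ) (j : InfinitePlace K ⊕ S),
      ∑ i : InfinitePlace K ⊕ S, (1 + max (msz d f (Sum.elim wi (fun v : S => wf v.1) i)) 0) ≤
        R * (1 + max (msz d f (Sum.elim wi (fun v : S => wf v.1) j)) 0) →
    ∀ X : Finset (Fin 2 → K), (∀ x ∈ X, x ≠ 0) → (∀ x ∈ X, ∀ y ∈ X, x ≠ y → wd x y ≠ 0) →
      (∀ x ∈ X, hcan d f x ≤ ε * (1 + max μ 0)) →
      (X.card : ℝ) ≤ C * (1 + C * R * Nat.log d X.card) := by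
  obtain ⟨B1, hB1, hmmge⟩ := mm_ge.{u} d hd
  obtain ⟨M, c, B2, hc, hB2, hgain⟩ := gain.{u} d hd
  obtain ⟨B3, hB3, hloss⟩ := loss.{u} d hd
  set B := max B1 (max B2 B3) with hBdef
  have hB0 : 0 ≤ B := hB1.trans (le_max_left _ _)
  have hB1' : B1 ≤ B := le_max_left _ _
  have hB2' : B2 ≤ B := (le_max_left _ _).trans (le_max_right _ _)
  have hB3' : B3 ≤ B := (le_max_right _ _).trans (le_max_right _ _)
  obtain ⟨M', haux⟩ := aux_gain.{u} d hd (2 ^ D) (4 * (c + 1) * B + 2)
  have hε : 0 < min (c / 16) (1 / 16) := lt_min (by positivity) (by norm_num)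
  refine ⟨max (M * M' * d) (max (11 * (1 + B) * (1 + 1 / c)) 1), min (c / 16) (1 / 16),
    lt_of_lt_of_le one_pos ((le_max_right _ _).trans (le_max_right _ _)), hε, ?_⟩
  intro K _ _ f hf h0 wi hwi wf hwf S v₁ hv₁S hv₁ hS μ hμ R j hR X hX0 hX hcanX
  classical
  set F := ev (fL K f) with hF
  have hrs : rs (fL K f) d = algebraMap K (AlgebraicClosure K) (rs f d) := rs_map _ f d
  have hrs0 : rs (fL K f) d ≠ 0 := by
    rw [hrs]
    exact (map_ne_zero_iff _ (algebraMap K (AlgebraicClosure K)).injective).2 h0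
  have hfL : ∀ i, (fL K f i).IsHomogeneous d := fun i => (hf i).map _
  have hfib : ∀ w : AbsoluteValue (AlgebraicClosure K) ℝ,
      Fib w F d (log (w (rs (fL K f) d))) := fun w => fib_base w (by omega) hfL hrs0
  let W : InfinitePlace K ⊕ S → AbsoluteValue (AlgebraicClosure K) ℝ :=
    Sum.elim wi (fun v => wf v.1)
  let n : InfinitePlace K ⊕ S → ℝ := Sum.elim (fun v => (v.mult : ℝ)) (fun _ => 1)
  let G : InfinitePlace K ⊕ S → (Fin 2 → K) → (Fin 2 → K) → ℝ := fun i x y =>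
    gg (W i) F d (log (W i (rs (fL K f) d))) (vL K x) (vL K y)
  have hmult : ∀ v : InfinitePlace K, 1 ≤ (v.mult : ℝ) ∧ (v.mult : ℝ) ≤ 2 := by
    intro v
    have h1 : v.mult = 1 ∨ v.mult = 2 := by
      unfold InfinitePlace.mult
      split_ifs
      · exact Or.inl rfl
      · exact Or.inr rfl
    rcases h1 with h1 | h1 <;> rw [h1] <;> norm_num
  have hR0 : 0 ≤ R := by
    have h1 : 0 ≤ ∑ i : InfinitePlace K ⊕ S,
        (1 + max (msz d f (Sum.elim wi (fun v : S => wf v.1) i)) 0) :=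
      Finset.sum_nonneg fun i _ => by positivity
    have h2 : 0 < 1 + max (msz d f (Sum.elim wi (fun v : S => wf v.1) j)) 0 := by positivity
    by_contra hcon
    push Not at hcon
    have := mul_neg_of_neg_of_pos hcon h2
    linarith
  have key := count_abs (V := Fin 2 → K) hd n
    (by rintro (v | v)
        · exact (hmult v).1
        · exact le_rfl)
    (by rintro (v | v)
        · exact (hmult v).2
        · show (1 : ℝ) ≤ 2
          norm_num)
    (fun i => mm (W i) F d (log (W i (rs (fL K f) d)))) G hB0 hc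
    (A := 4 * (c + 1) * B + 2) le_rfl
    (fun i => le_trans (by linarith) (hmmge _ (W i) F _ (hfib (W i)))) X
    (by
      intro i k x hinj hxX
      have hne : ∀ a b, a ≠ b → wd (x a) (x b) ≠ 0 := fun a b hab =>
        hX _ (hxX a) _ (hxX b) (fun h => hab (hinj h))
      have h1 := hloss _ (W i) (fL K f) hfL hrs0 k (fun j => vL K (x j))
        (fun j => vL_ne (hX0 _ (hxX j))) (fun a b hab => wd_vL_ne (hne a b hab))
      refine le_trans ?_ h1
      have h2 : (d : ℝ) ^ k * (k * (mm (W i) F d (log (W i (rs (fL K f) d))) + B3)) ≤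
          (d : ℝ) ^ k * (k * (mm (W i) F d (log (W i (rs (fL K f) d))) + B)) := by
        gcongr
      linarith)
    (M := M)
    (by
      intro i
      obtain ⟨cell, hcell⟩ := hgain _ (W i) F _ (hfib (W i))
      refine ⟨fun x => cell (vL K x), fun x hx y hy hxy hc' => ?_⟩
      have := hcell _ _ (wd_vL_ne (hX x hx y hy hxy)) hc'
      exact le_trans (by linarith) this)
    (Sum.inr ⟨v₁, hv₁S⟩) (M' := M')
    (by
      obtain ⟨cell, hcell⟩ := haux K v₁ hv₁ (wf v₁) (hwf v₁) (ext_na v₁ _ (hwf v₁)) F _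
        (hfib (wf v₁))
      exact ⟨cell, fun x hx y hy hxy hc' => hcell x y (hX x hx y hy hxy) hc'⟩)
    (μ := μ) hμ j hR
    (by
      intro x hx y hy hxy
      have hw := hX x hx y hy hxy
      have h1 := global_le hd hf h0 wi hwi wf hwf hw S (fun v hv =>
        potgood_gg hd hf hrs0 (wf v) (ext_na v _ (hwf v)) (hS v hv) (wd_vL_ne hw))
      have h2 : ∑ i, n i * G i x y = ∑ v : InfinitePlace K, (v.mult : ℝ) *
          gg (wi v) (ev (fL K f)) d (log (wi v (rs (fL K f) d))) (vL K x) (vL K y) +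
        ∑ v ∈ S, gg (wf v) (ev (fL K f)) d (log (wf v (rs (fL K f) d))) (vL K x) (vL K y) := by
        rw [Fintype.sum_sum_type]
        congr 1
        rw [← Finset.sum_coe_sort S]
        exact Finset.sum_congr rfl fun v _ => one_mul _
      rw [h2]
      have h3 := hcanX x hx
      have h4 := hcanX y hy
      linarith)
  refine key.trans ?_
  have e1 : (M : ℝ) * M' * d ≤ max ((M : ℝ) * M' * d) (max (11 * (1 + B) * (1 + 1 / c)) 1) :=
    le_max_left _ _
  have e2 : 11 * (1 + B) * (1 + 1 / c) ≤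
      max ((M : ℝ) * M' * d) (max (11 * (1 + B) * (1 + 1 / c)) 1) :=
    (le_max_left _ _).trans (le_max_right _ _)
  gcongr

theorem nat_log_le {d : ℕ} (hd : 2 ≤ d) {n : ℕ} (hn : n ≠ 0) :
    (Nat.log d n : ℝ) ≤ 2 * log n := by
  have h1 : ((d ^ Nat.log d n : ℕ) : ℝ) ≤ n := by exact_mod_cast Nat.pow_log_le_self d hn
  have hd0 : (2 : ℝ) ≤ d := by exact_mod_cast hd
  have h2 : (Nat.log d n : ℝ) * log d ≤ log n := by
    have h3 := log_le_log (by positivity) h1
    rw [Nat.cast_pow, log_pow] at h3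
    exact h3
  have h3 : (1 / 2 : ℝ) ≤ log d := by
    have h4 : log 2 ≤ log (d : ℝ) := log_le_log (by norm_num) hd0
    have := Real.log_two_gt_d9
    linarith
  have h5 : (0 : ℝ) ≤ Nat.log d n := by positivity
  nlinarith

/-- solving for the number of points -/
theorem solve_bound {C : ℝ} (hC : 0 < C) (E : ℝ) (hE : 1 ≤ E) : ∃ C' : ℝ, 0 < C' ∧
    ∀ (d n : ℕ) (r R : ℝ), 2 ≤ d → 1 ≤ r → R ≤ E * r → 0 ≤ R →
      (n : ℝ) ≤ C * (1 + C * R * Nat.log d n) → (n : ℝ) ≤ C' * r * log (1 + r) := by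
  set C₁ : ℝ := C * (1 + C * E) + 1 with hC₁
  have hC₁1 : 1 ≤ C₁ := by
    rw [hC₁]
    have : 0 < C * (1 + C * E) := by positivity
    linarith
  have hl2 : 0 < log (2 : ℝ) := log_pos (by norm_num)
  refine ⟨4 * C₁ * (log (4 * C₁) / log 2 + 1), ?_, ?_⟩
  · have : 0 ≤ log (4 * C₁) := log_nonneg (by linarith)
    positivity
  intro d n r R hd hr hRr hR0 hn
  rcases Nat.eq_zero_or_pos n with h0 | hpos
  · rw [h0]
    have h1 : 0 ≤ log (1 + r) := log_nonneg (by linarith)
    have : 0 ≤ log (4 * C₁) := log_nonneg (by linarith)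
    push_cast
    positivity
  have hpos' : (0 : ℝ) < n := by exact_mod_cast hpos
  have hn1 : (1 : ℝ) ≤ n := by exact_mod_cast hpos
  have hlogn : 0 ≤ log (n : ℝ) := log_nonneg hn1
  refine Pool.Agent.H951R2.MS.real_end hC₁1 hr hpos' ?_
  have h1 := nat_log_le hd hpos.ne'
  calc (n : ℝ) ≤ C * (1 + C * R * Nat.log d n) := hn
    _ ≤ C * (1 + C * (E * r) * (2 * log n)) := by gcongr
    _ ≤ C₁ * r * (1 + 2 * log n) := by
        rw [hC₁]
        have h2 : 0 ≤ 2 * log (n : ℝ) := by positivity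
        have h3 : C ≤ C * r := by nlinarith
        have h4 : 0 ≤ C * C * E * r := by positivity
        have h5 : 0 ≤ C * r := by positivity
        nlinarith [mul_nonneg h4 h2, mul_nonneg h5 h2,
          mul_nonneg (by linarith : (0 : ℝ) ≤ r) h2]

theorem card_inf_le {K : Type u} [Field K] [NumberField K] {D : ℕ}
    (hfin : Module.finrank ℚ K ≤ D) : (Fintype.card (InfinitePlace K) : ℝ) ≤ D := by
  have h1 : Fintype.card (InfinitePlace K) ≤ Module.finrank ℚ K := by
    rw [← InfinitePlace.sum_mult_eq]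
    calc Fintype.card (InfinitePlace K) = ∑ _v : InfinitePlace K, 1 := by simp
      _ ≤ _ := Finset.sum_le_sum fun v _ => InfinitePlace.mult_pos
  exact_mod_cast h1.trans hfin

/-- the version with the number of places -/
theorem core_card (d : ℕ) (hd : 2 ≤ d) (D : ℕ) : ∃ C ε : ℝ, 0 < C ∧ 0 < ε ∧
    ∀ (K : Type u) [Field K] [NumberField K], Module.finrank ℚ K ≤ D →
    ∀ f : Fin 2 → MvPolynomial (Fin 2) K, (∀ i, (f i).IsHomogeneous d) → rs f d ≠ 0 →
    ∀ (wi : InfinitePlace K → AbsoluteValue (AlgebraicClosure K) ℝ) (_ : ∀ v, Ext v.val (wi v))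
      (wf : FinitePlace K → AbsoluteValue (AlgebraicClosure K) ℝ) (_ : ∀ v, Ext v.val (wf v))
      (S : Finset (FinitePlace K)) (v₁ : FinitePlace K), v₁ ∈ S →
      Ideal.absNorm v₁.maximalIdeal.asIdeal ≤ 2 ^ D → (∀ v, v ∉ S → PotGoodAt (wf v) d f) →
    ∀ (μ : ℝ), (μ ≤ 0 ∨ ∃ i : InfinitePlace K ⊕ S,
        μ ≤ msz d f (Sum.elim wi (fun v : S => wf v.1) i)) →
    ∀ (s : ℕ), S.card ≤ s + 2 →
    ∀ X : Finset (Fin 2 → K), (∀ x ∈ X, x ≠ 0) → (∀ x ∈ X, ∀ y ∈ X, x ≠ y → wd x y ≠ 0) →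
      (∀ x ∈ X, hcan d f x ≤ ε * (1 + max μ 0)) →
      (X.card : ℝ) ≤ C * (s + 1) * log (s + 2) := by
  obtain ⟨C, ε, hC, hε, hcore⟩ := core_bound.{u} d hd D
  obtain ⟨C', hC', hsolve⟩ := solve_bound hC (D + 2) (by
    have : (0 : ℝ) ≤ D := Nat.cast_nonneg _
    linarith)
  refine ⟨C', ε, hC', hε, ?_⟩
  intro K _ _ hfin f hf h0 wi hwi wf hwf S v₁ hv₁S hv₁ hS μ hμ s hs X hX0 hX hcanX
  classical
  obtain ⟨j, -, hj⟩ := Finset.exists_max_image (Finset.univ : Finset (InfinitePlace K ⊕ S))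
    (fun i => msz d f (Sum.elim wi (fun v : S => wf v.1) i)) ⟨Sum.inr ⟨v₁, hv₁S⟩,
      Finset.mem_univ _⟩
  have hR : ∑ i : InfinitePlace K ⊕ S,
      (1 + max (msz d f (Sum.elim wi (fun v : S => wf v.1) i)) 0) ≤
        (Fintype.card (InfinitePlace K ⊕ S) : ℝ) *
        (1 + max (msz d f (Sum.elim wi (fun v : S => wf v.1) j)) 0) := by
    rw [← nsmul_eq_mul, ← Finset.card_univ]
    refine Finset.sum_le_card_nsmul _ _ _ fun i _ => ?_
    have := hj i (Finset.mem_univ _)
    have h2 := max_le_max this (le_refl (0 : ℝ))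
    linarith
  have h1 := hcore K f hf h0 wi hwi wf hwf S v₁ hv₁S hv₁ hS μ hμ _ j hR X hX0 hX hcanX
  have hs0 : (0 : ℝ) ≤ s := Nat.cast_nonneg _
  have hD0 : (0 : ℝ) ≤ D := Nat.cast_nonneg _
  have h2 := hsolve d X.card ((s : ℝ) + 1) _ hd (by linarith) ?_ (Nat.cast_nonneg _) h1
  · rw [show (s : ℝ) + 2 = 1 + (s + 1) by ring]
    exact h2
  · rw [Fintype.card_sum, Fintype.card_coe]
    push_cast
    have h3 := card_inf_le hfin
    have h4 : (S.card : ℝ) ≤ s + 2 := by exact_mod_cast hs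
    nlinarith

/-- the number of points of small canonical height -/
theorem small_points (d : ℕ) (hd : 2 ≤ d) (D : ℕ) : ∃ C c : ℝ, 0 < C ∧ 0 < c ∧
    ∀ (K : Type u) [Field K] [NumberField K], Module.finrank ℚ K ≤ D →
    ∀ f : Fin 2 → MvPolynomial (Fin 2) K, (∀ i, (f i).IsHomogeneous d) → rs f d ≠ 0 →
    ∀ (μ : ℝ), (μ ≤ 0 ∨ ∃ (v : AbsoluteValue K ℝ) (w : AbsoluteValue (AlgebraicClosure K) ℝ),
      (IsInfinitePlace v ∨ IsFinitePlace v) ∧ Ext v w ∧
        μ ≤ mm w (ev (fL K f)) d (log (w (rs (fL K f) d)))) →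
    ∀ X : Finset (Fin 2 → K), (∀ x ∈ X, x ≠ 0) → (∀ x ∈ X, ∀ y ∈ X, x ≠ y → wd x y ≠ 0) →
      (∀ x ∈ X, hcan d f x ≤ c * (1 + max μ 0)) →
      (X.card : ℝ) ≤ C * ({v : FinitePlace K | ¬ PotGood v.val d f}.ncard + 1) *
        log ({v : FinitePlace K | ¬ PotGood v.val d f}.ncard + 2) := by
  obtain ⟨C, ε, hC, hε, hcore⟩ := core_card.{u} d hd D
  refine ⟨C, ε, hC, hε, ?_⟩
  intro K _ _ hfin f hf h0 μ hμ X hX0 hX hcanX
  classical
  have hbad := bad_finite (by omega : 1 ≤ d) hf h0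
  set bad := {v : FinitePlace K | ¬ PotGood v.val d f} with hbaddef
  set s := bad.ncard with hs
  have hscard : hbad.toFinset.card = s := (Set.ncard_eq_toFinset_card _ hbad).symm
  -- extensions
  choose wi0 hwi0 using fun v : InfinitePlace K => exists_ext_inf v
  have hex : ∀ v : FinitePlace K, ∃ w : AbsoluteValue (AlgebraicClosure K) ℝ, Ext v.val w ∧
      (PotGood v.val d f → PotGoodAt w d f) := by
    intro v
    by_cases h : PotGood v.val d f
    · obtain ⟨w, h1, h2⟩ := h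
      exact ⟨w, h1, fun _ => h2⟩
    · obtain ⟨w, h1⟩ := exists_ext_fin v
      exact ⟨w, h1, fun h' => absurd h' h⟩
  choose wf0 hwf0 hgood0 using hex
  obtain ⟨v₁, e, -, heD, hnorm⟩ := Pool.Agent.H951R2.MS.exists_place_above hfin Nat.prime_two
  have hv₁ : Ideal.absNorm v₁.maximalIdeal.asIdeal ≤ 2 ^ D := by
    rw [hnorm]
    exact Nat.pow_le_pow_right (by norm_num) heD
  rcases hμ with h1 | ⟨v, w, hv, hw, h1⟩
  · refine hcore K hfin f hf h0 wi0 hwi0 wf0 hwf0 (insert v₁ hbad.toFinset) v₁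
      (Finset.mem_insert_self _ _) hv₁ ?_ μ (Or.inl h1) s ?_ X hX0 hX hcanX
    · intro v hv
      rw [Finset.mem_insert, not_or, Set.Finite.mem_toFinset] at hv
      exact hgood0 v (not_not.1 hv.2)
    · have := Finset.card_insert_le v₁ hbad.toFinset
      omega
  · rcases hv with hv | hv
    · obtain ⟨v', rfl⟩ : ∃ v' : InfinitePlace K, v'.val = v := ⟨⟨v, hv⟩, rfl⟩
      refine hcore K hfin f hf h0 (Function.update wi0 v' w) ?_ wf0 hwf0
        (insert v₁ hbad.toFinset) v₁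
        (Finset.mem_insert_self _ _) hv₁ ?_ μ (Or.inr ⟨Sum.inl v', ?_⟩) s ?_ X hX0 hX hcanX
      · intro v''
        by_cases h : v'' = v'
        · subst h
          rw [Function.update_self]
          exact hw
        · rw [Function.update_of_ne h]
          exact hwi0 v''
      · intro v hv
        rw [Finset.mem_insert, not_or, Set.Finite.mem_toFinset] at hv
        exact hgood0 v (not_not.1 hv.2)
      · simp only [Sum.elim_inl, Function.update_self]
        exact h1
      · have := Finset.card_insert_le v₁ hbad.toFinset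
        omega
    · obtain ⟨v', rfl⟩ : ∃ v' : FinitePlace K, v'.val = v := ⟨⟨v, hv⟩, rfl⟩
      refine hcore K hfin f hf h0 wi0 hwi0 (Function.update wf0 v' w) ?_
        (insert v' (insert v₁ hbad.toFinset)) v₁
        (Finset.mem_insert_of_mem (Finset.mem_insert_self _ _)) hv₁ ?_ μ
        (Or.inr ⟨Sum.inr ⟨v', Finset.mem_insert_self _ _⟩, ?_⟩) s ?_ X hX0 hX hcanX
      · intro v''
        by_cases h : v'' = v'
        · subst h
          rw [Function.update_self]
          exact hw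
        · rw [Function.update_of_ne h]
          exact hwf0 v''
      · intro v hv
        rw [Finset.mem_insert, Finset.mem_insert, not_or, not_or,
          Set.Finite.mem_toFinset] at hv
        rw [Function.update_of_ne hv.1]
        exact hgood0 v (not_not.1 hv.2.2)
      · simp only [Sum.elim_inr, Function.update_self]
        exact h1
      · have e1 := Finset.card_insert_le v' (insert v₁ hbad.toFinset)
        have e2 := Finset.card_insert_le v₁ hbad.toFinset
        omega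

/-- size at a place of potentially good reduction -/
theorem msz_le_of_potGoodAt {K : Type u} [Field K] [NumberField K] {d : ℕ} (hd : 2 ≤ d)
    {f : Fin 2 → MvPolynomial (Fin 2) K} (hf : ∀ i, (f i).IsHomogeneous d)
    (h0 : rs (fL K f) d ≠ 0) (w : AbsoluteValue (AlgebraicClosure K) ℝ)
    (hw : IsNonarchimedean w) (h : PotGoodAt w d f) : msz d f w ≤ 0 :=
  mm_le_of_potGoodAt hd hf h0 w hw h

/-- the version in terms of the concentration of the sizes -/
theorem small_points_conc (d : ℕ) (hd : 2 ≤ d) (D : ℕ) : ∃ C c : ℝ, 0 < C ∧ 0 < c ∧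
    ∀ (K : Type u) [Field K] [NumberField K], Module.finrank ℚ K ≤ D →
    ∀ f : Fin 2 → MvPolynomial (Fin 2) K, (∀ i, (f i).IsHomogeneous d) → rs f d ≠ 0 →
    ∀ (wi : InfinitePlace K → AbsoluteValue (AlgebraicClosure K) ℝ) (_ : ∀ v, Ext v.val (wi v))
      (wf : FinitePlace K → AbsoluteValue (AlgebraicClosure K) ℝ) (_ : ∀ v, Ext v.val (wf v))
      (T : Finset (FinitePlace K)), (∀ v, v ∉ T → PotGood v.val d f) →
    ∀ (R : ℝ) (j : InfinitePlace K ⊕ T), 1 ≤ R →
      ∑ v : InfinitePlace K, (1 + max (msz d f (wi v)) 0) +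
        ∑ v ∈ T, (1 + max (msz d f (wf v)) 0) ≤
        R * (1 + max (msz d f (Sum.elim wi (fun v : T => wf v.1) j)) 0) →
    ∀ X : Finset (Fin 2 → K), (∀ x ∈ X, x ≠ 0) → (∀ x ∈ X, ∀ y ∈ X, x ≠ y → wd x y ≠ 0) →
      (∀ x ∈ X, hcan d f x ≤
        c * (1 + max (msz d f (Sum.elim wi (fun v : T => wf v.1) j)) 0)) →
      (X.card : ℝ) ≤ C * R * log (1 + R) := by
  obtain ⟨C, ε, hC, hε, hcore⟩ := core_bound.{u} d hd D
  obtain ⟨C', hC', hsolve⟩ := solve_bound hC 2 (by norm_num)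
  refine ⟨C', ε, hC', hε, ?_⟩
  intro K _ _ hfin f hf h0 wi hwi wf hwf T hT R j hR1 hR X hX0 hX hcanX
  classical
  have hrs : rs (fL K f) d = algebraMap K (AlgebraicClosure K) (rs f d) := rs_map _ f d
  have hrs0 : rs (fL K f) d ≠ 0 := by
    rw [hrs]
    exact (map_ne_zero_iff _ (algebraMap K (AlgebraicClosure K)).injective).2 h0
  obtain ⟨v₁, e, -, heD, hnorm⟩ := Pool.Agent.H951R2.MS.exists_place_above hfin Nat.prime_two
  have hv₁ : Ideal.absNorm v₁.maximalIdeal.asIdeal ≤ 2 ^ D := by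
    rw [hnorm]
    exact Nat.pow_le_pow_right (by norm_num) heD
  -- modify the extensions outside `T`
  have hex : ∀ v : FinitePlace K, ∃ w : AbsoluteValue (AlgebraicClosure K) ℝ, Ext v.val w ∧
      (v ∈ T → w = wf v) ∧ (v ∉ T → PotGoodAt w d f) := by
    intro v
    by_cases h : v ∈ T
    · exact ⟨wf v, hwf v, fun _ => rfl, fun h' => absurd h h'⟩
    · obtain ⟨w, h1, h2⟩ := hT v h
      exact ⟨w, h1, fun h' => absurd h' h, fun _ => h2⟩
  choose wf' hwf' hT' hgood' using hex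
  have hsub : T ⊆ insert v₁ T := Finset.subset_insert _ _
  let ι : InfinitePlace K ⊕ T → InfinitePlace K ⊕ (insert v₁ T : Finset (FinitePlace K)) :=
    Sum.map id (fun v => ⟨v.1, hsub v.2⟩)
  have hι : ∀ i, msz d f (Sum.elim wi (fun v : (insert v₁ T : Finset (FinitePlace K)) =>
      wf' v.1) (ι i)) = msz d f (Sum.elim wi (fun v : T => wf v.1) i) := by
    rintro (v | v)
    · rfl
    · show msz d f (wf' v.1) = msz d f (wf v.1)
      rw [hT' v.1 v.2]
  have hsum : ∑ i : InfinitePlace K ⊕ (insert v₁ T : Finset (FinitePlace K)),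
      (1 + max (msz d f (Sum.elim wi (fun v : (insert v₁ T : Finset (FinitePlace K)) =>
        wf' v.1) i)) 0) ≤ 2 * R * (1 + max (msz d f (Sum.elim wi
          (fun v : (insert v₁ T : Finset (FinitePlace K)) => wf' v.1) (ι j))) 0) := by
    rw [Fintype.sum_sum_type, hι]
    have h1 : ∑ v : (insert v₁ T : Finset (FinitePlace K)),
        (1 + max (msz d f (wf' v.1)) 0) ≤ ∑ v ∈ T, (1 + max (msz d f (wf v)) 0) + 1 := by
      rw [Finset.sum_coe_sort (insert v₁ T) (fun v => 1 + max (msz d f (wf' v)) 0)]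
      by_cases hv : v₁ ∈ T
      · rw [Finset.insert_eq_of_mem hv]
        have h2 : ∑ v ∈ T, (1 + max (msz d f (wf' v)) 0) =
            ∑ v ∈ T, (1 + max (msz d f (wf v)) 0) :=
          Finset.sum_congr rfl fun v hv => by rw [hT' v hv]
        rw [h2]
        linarith
      · rw [Finset.sum_insert hv]
        have h2 : ∑ v ∈ T, (1 + max (msz d f (wf' v)) 0) =
            ∑ v ∈ T, (1 + max (msz d f (wf v)) 0) :=
          Finset.sum_congr rfl fun v hv => by rw [hT' v hv]
        have h3 : max (msz d f (wf' v₁)) 0 = 0 :=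
          max_eq_right (msz_le_of_potGoodAt hd hf hrs0 _ (ext_na v₁ _ (hwf' v₁))
            (hgood' v₁ hv))
        rw [h2, h3]
        linarith
    have h2 : (1 : ℝ) ≤ R * (1 + max (msz d f (Sum.elim wi (fun v : T => wf v.1) j)) 0) := by
      have h3 : 0 ≤ max (msz d f (Sum.elim wi (fun v : T => wf v.1) j)) 0 := le_max_right _ _
      nlinarith
    have h3 : ∑ v : InfinitePlace K, (1 + max (msz d f (Sum.elim wi
        (fun v : (insert v₁ T : Finset (FinitePlace K)) => wf' v.1) (Sum.inl v))) 0) =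
        ∑ v : InfinitePlace K, (1 + max (msz d f (wi v)) 0) := rfl
    have h4 : ∑ v : (insert v₁ T : Finset (FinitePlace K)), (1 + max (msz d f (Sum.elim wi
        (fun v : (insert v₁ T : Finset (FinitePlace K)) => wf' v.1) (Sum.inr v))) 0) =
        ∑ v : (insert v₁ T : Finset (FinitePlace K)), (1 + max (msz d f (wf' v.1)) 0) := rfl
    rw [h3, h4]
    linarith
  have h1 := hcore K f hf h0 wi hwi wf' hwf' (insert v₁ T) v₁ (Finset.mem_insert_self _ _) hv₁
    (fun v hv => hgood' v (fun h => hv (hsub h))) (msz d f (Sum.elim wi (fun v : T => wf v.1) j))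
    (Or.inr ⟨ι j, (hι j).ge⟩) (2 * R) (ι j) hsum X hX0 hX hcanX
  exact hsolve d X.card R (2 * R) hd hR1 le_rfl (by linarith) h1

end Pool.Agent.H951R3.PB
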