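import Pool.Agent.H951R3.PB.GDefs
import Pool.Agent.H951R3.PB.B2
import Pool.Agent.H951R3.PB.E2

/-! G1: the coefficients of the forms are bounded by `exp S` (helper99) -/

set_option autoImplicit false

namespace Pool.Agent.H951R3.PB

open Real Filter Topology NumberField

universe u

theorem G1_coeff_step {L : Type u} [Field L] (p : MvPolynomial (Fin 2) L) (a b : L)
    (e : Fin 2 →₀ ℕ) : ∃ x y : L, (x = 0 ∨ ∃ e', x = p.coeff e') ∧ (y = 0 ∨ ∃ e', y = p.coeff e') ∧
      (p * (MvPolynomial.C b * MvPolynomial.X 0 - MvPolynomial.C a * MvPolynomial.X 1)).coeff e =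
        b * x - a * y := by
  refine ⟨if (0 : Fin 2) ∈ e.support then p.coeff (e - Finsupp.single 0 1) else 0,
    if (1 : Fin 2) ∈ e.support then p.coeff (e - Finsupp.single 1 1) else 0, ?_, ?_, ?_⟩
  · split_ifs
    · exact Or.inr ⟨_, rfl⟩
    · exact Or.inl rfl
  · split_ifs
    · exact Or.inr ⟨_, rfl⟩
    · exact Or.inl rfl
  · have h1 : p * (MvPolynomial.C b * MvPolynomial.X 0 - MvPolynomial.C a * MvPolynomial.X 1) =
        MvPolynomial.C b * (p * MvPolynomial.X 0) - MvPolynomial.C a * (p * MvPolynomial.X 1) := by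
      ring
    rw [h1, MvPolynomial.coeff_sub, MvPolynomial.coeff_C_mul, MvPolynomial.coeff_C_mul,
      MvPolynomial.coeff_mul_X', MvPolynomial.coeff_mul_X']

theorem G1_prod {L : Type u} [Field L] (w : AbsoluteValue L ℝ) {ι : Type} (s : Finset ι)
    (a b : ι → L) (ha : ∀ j, w (a j) ≤ 1) (hb : ∀ j, w (b j) ≤ 1) (e : Fin 2 →₀ ℕ) :
    w ((∏ j ∈ s, (MvPolynomial.C (b j) * MvPolynomial.X 0 -
      MvPolynomial.C (a j) * MvPolynomial.X 1 : MvPolynomial (Fin 2) L)).coeff e) ≤
      2 ^ s.card := by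
  classical
  induction s using Finset.induction_on generalizing e with
  | empty =>
    rw [Finset.prod_empty, Finset.card_empty, pow_zero, MvPolynomial.coeff_one]
    split_ifs
    · rw [w.map_one]
    · rw [w.map_zero]
      norm_num
  | insert i s hi ih =>
    rw [Finset.prod_insert hi, mul_comm, Finset.card_insert_of_notMem hi]
    obtain ⟨x, y, hx, hy, hxy⟩ := G1_coeff_step
      (∏ j ∈ s, (MvPolynomial.C (b j) * MvPolynomial.X 0 -
        MvPolynomial.C (a j) * MvPolynomial.X 1 : MvPolynomial (Fin 2) L)) (a i) (b i) e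
    rw [hxy]
    have h0 : (0 : ℝ) ≤ 2 ^ s.card := by positivity
    have hx' : w x ≤ 2 ^ s.card := by
      rcases hx with rfl | ⟨e', rfl⟩
      · rw [w.map_zero]; exact h0
      · exact ih e'
    have hy' : w y ≤ 2 ^ s.card := by
      rcases hy with rfl | ⟨e', rfl⟩
      · rw [w.map_zero]; exact h0
      · exact ih e'
    calc w (b i * x - a i * y) ≤ w (b i * x) + w (a i * y) := w.sub_le_add _ _
      _ = w (b i) * w x + w (a i) * w y := by rw [w.map_mul, w.map_mul]
      _ ≤ 1 * 2 ^ s.card + 1 * 2 ^ s.card :=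
        add_le_add (mul_le_mul (hb i) hx' (w.nonneg _) zero_le_one)
          (mul_le_mul (ha i) hy' (w.nonneg _) zero_le_one)
      _ = 2 ^ (s.card + 1) := by ring

theorem G1_prod_na {L : Type u} [Field L] (w : AbsoluteValue L ℝ) (hw : IsNonarchimedean w)
    {ι : Type} (s : Finset ι)
    (a b : ι → L) (ha : ∀ j, w (a j) ≤ 1) (hb : ∀ j, w (b j) ≤ 1) (e : Fin 2 →₀ ℕ) :
    w ((∏ j ∈ s, (MvPolynomial.C (b j) * MvPolynomial.X 0 -
      MvPolynomial.C (a j) * MvPolynomial.X 1 : MvPolynomial (Fin 2) L)).coeff e) ≤ 1 := by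
  classical
  induction s using Finset.induction_on generalizing e with
  | empty =>
    rw [Finset.prod_empty, MvPolynomial.coeff_one]
    split_ifs
    · rw [w.map_one]
    · rw [w.map_zero]
      norm_num
  | insert i s hi ih =>
    rw [Finset.prod_insert hi, mul_comm]
    obtain ⟨x, y, hx, hy, hxy⟩ := G1_coeff_step
      (∏ j ∈ s, (MvPolynomial.C (b j) * MvPolynomial.X 0 -
        MvPolynomial.C (a j) * MvPolynomial.X 1 : MvPolynomial (Fin 2) L)) (a i) (b i) e
    rw [hxy]
    have hx' : w x ≤ 1 := by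
      rcases hx with rfl | ⟨e', rfl⟩
      · rw [w.map_zero]; norm_num
      · exact ih e'
    have hy' : w y ≤ 1 := by
      rcases hy with rfl | ⟨e', rfl⟩
      · rw [w.map_zero]; norm_num
      · exact ih e'
    rw [sub_eq_add_neg]
    refine (hw _ _).trans (max_le ?_ ?_)
    · rw [w.map_mul]
      exact mul_le_one₀ (hb i) (w.nonneg _) hx'
    · rw [w.map_neg, w.map_mul]
      exact mul_le_one₀ (ha i) (w.nonneg _) hy'

theorem G1_eq {L : Type u} [Field L] [Infinite L] {d : ℕ} (p : MvPolynomial (Fin 2) L) (C : L)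
    (z : Fin d → Fin 2 → L)
    (h : ∀ x : Fin 2 → L, MvPolynomial.eval x p = C * ∏ j, wd x (z j)) :
    p = MvPolynomial.C C * ∏ j, (MvPolynomial.C (z j 1) * MvPolynomial.X 0 -
      MvPolynomial.C (z j 0) * MvPolynomial.X 1 : MvPolynomial (Fin 2) L) := by
  apply MvPolynomial.funext
  intro x
  rw [h, map_mul, MvPolynomial.eval_C, map_prod]
  congr 1
  apply Finset.prod_congr rfl
  intro j _
  simp only [map_sub, map_mul, MvPolynomial.eval_C, MvPolynomial.eval_X, wd]
  ring

theorem G1_le_nrm {L : Type u} [Field L] (w : AbsoluteValue L ℝ) {x : Fin 2 → L}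
    (hx : nrm w x = 1) (i : Fin 2) : w (x i) ≤ 1 := by
  rw [← hx]
  exact A2_le_nrm w x i

/-- G1 -/
theorem coef_le (d : ℕ) (hd : 1 ≤ d) : ∃ B : ℝ, 0 ≤ B ∧ ∀ (L : Type u) [Field L]
    [IsAlgClosed L] [CharZero L] (w : AbsoluteValue L ℝ) (f : Fin 2 → MvPolynomial (Fin 2) L),
    (∀ i, (f i).IsHomogeneous d) → rs f d ≠ 0 →
      (∀ p, w (cf d f p) ≤ exp (Ssup w (ev f) + B)) ∧
      (IsNonarchimedean w → ∀ p, w (cf d f p) ≤ exp (Ssup w (ev f))) := by
  obtain ⟨B, hB0, hB⟩ := fib_bounds.{u} d hd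
  refine ⟨B + d * log 2, by positivity, ?_⟩
  intro L _ _ _ w f hf h0
  have hfib := fib_base w hd hf h0
  have : Infinite L := IsAlgClosed.instInfinite
  -- the factorisations
  have hex : ∀ i : Fin 2, ∃ (u : Fin 2 → L) (C : L) (z : Fin d → Fin 2 → L),
      nrm w u = 1 ∧ FibAt w (ev f) d (log (w (rs f d))) u C z ∧
      ∀ e, w ((f i).coeff e) = w C * w ((∏ j, (MvPolynomial.C (z j 1) * MvPolynomial.X 0 -
        MvPolynomial.C (z j 0) * MvPolynomial.X 1 : MvPolynomial (Fin 2) L)).coeff e) := by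
    intro i
    fin_cases i
    · obtain ⟨C, z, hz⟩ := hfib _ (B2_nrm_e1 w)
      refine ⟨_, C, z, B2_nrm_e1 w, hz, fun e => ?_⟩
      have h1 := G1_eq (f 0) (-C) z (fun x => by
        have h2 := hz.fac x
        have h3 : wd ![0, 1] (ev f x) = -(MvPolynomial.eval x (f 0)) := by simp [wd, ev]
        rw [h3] at h2
        linear_combination -h2)
      show w ((f 0).coeff e) = _
      conv_lhs => rw [h1]
      rw [MvPolynomial.coeff_C_mul, w.map_mul, w.map_neg]
    · obtain ⟨C, z, hz⟩ := hfib _ (B2_nrm_e0 w)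
      refine ⟨_, C, z, B2_nrm_e0 w, hz, fun e => ?_⟩
      have h1 := G1_eq (f 1) C z (fun x => by
        have h2 := hz.fac x
        have h3 : wd ![1, 0] (ev f x) = MvPolynomial.eval x (f 1) := by simp [wd, ev]
        rw [h3] at h2
        exact h2)
      show w ((f 1).coeff e) = _
      conv_lhs => rw [h1]
      rw [MvPolynomial.coeff_C_mul, w.map_mul]
  constructor
  · intro p
    obtain ⟨u, C, z, hu, hz, hc⟩ := hex p.1
    have h1 := (hB L w (ev f) _ hfib).2.2.1 u C z hu hz
    have hC : 0 < w C := w.pos hz.C_ne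
    have h2 : w C ≤ exp (Ssup w (ev f) + B) := by
      rw [← Real.log_le_iff_le_exp hC]
      exact h1
    show w ((f p.1).coeff _) ≤ _
    rw [hc]
    have h3 := G1_prod w (Finset.univ : Finset (Fin d)) (fun j => z j 0) (fun j => z j 1)
      (fun j => G1_le_nrm w (hz.unit j) 0) (fun j => G1_le_nrm w (hz.unit j) 1)
      (Finsupp.single 0 (p.2 : ℕ) + Finsupp.single 1 (d - p.2))
    rw [Finset.card_univ, Fintype.card_fin] at h3
    have h4 : exp (Ssup w (ev f) + (B + d * log 2)) = exp (Ssup w (ev f) + B) * 2 ^ d := by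
      rw [← add_assoc, Real.exp_add, ← Real.rpow_natCast, Real.rpow_def_of_pos (by norm_num),
        mul_comm (log 2)]
    rw [h4]
    exact mul_le_mul h2 h3 (w.nonneg _) (Real.exp_pos _).le
  · intro hw p
    obtain ⟨u, C, z, hu, hz, hc⟩ := hex p.1
    have h1 := (fib_bounds_na w hw hd hfib).1 u C z hu hz
    have hC : 0 < w C := w.pos hz.C_ne
    have h2 : w C ≤ exp (Ssup w (ev f)) := by
      rw [← Real.log_le_iff_le_exp hC]
      exact h1
    show w ((f p.1).coeff _) ≤ _
    rw [hc]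
    have h3 := G1_prod_na w hw (Finset.univ : Finset (Fin d)) (fun j => z j 0) (fun j => z j 1)
      (fun j => G1_le_nrm w (hz.unit j) 0) (fun j => G1_le_nrm w (hz.unit j) 1)
      (Finsupp.single 0 (p.2 : ℕ) + Finsupp.single 1 (d - p.2))
    calc w C * w _ ≤ exp (Ssup w (ev f)) * 1 := mul_le_mul h2 h3 (w.nonneg _) (Real.exp_pos _).le
      _ = exp (Ssup w (ev f)) := mul_one _

end Pool.Agent.H951R3.PB
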