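import Pool.Agent.H951R3.PB.Defs

/-!
# Invariants of rational maps and the moduli height: definitions (helper951)
-/

set_option autoImplicit false

namespace Pool.Agent.H951R3.PB

open Real Filter Topology NumberField

universe u

/-- coefficient vector of a pair of binary forms of degree `d`:
`(i, j) ↦` coefficient of `X₀ ^ j X₁ ^ (d - j)` in `f i` -/
noncomputable def cf {L : Type u} [Field L] (d : ℕ) (f : Fin 2 → MvPolynomial (Fin 2) L) :
    Fin 2 × Fin (d + 1) → L :=
  fun p => (f p.1).coeff (Finsupp.single 0 (p.2 : ℕ) + Finsupp.single 1 (d - p.2))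

/-- `P` is homogeneous of degree `2 d k` in the coefficients, and `P / Res ^ k` is invariant under
linear changes of coordinates: a regular function on the moduli space of rational maps of degree
`d`. -/
def IsInv (d k : ℕ) (P : MvPolynomial (Fin 2 × Fin (d + 1)) ℤ) : Prop :=
  P.IsHomogeneous (2 * d * k) ∧ ∀ (L : Type u) [Field L] [IsAlgClosed L] [CharZero L]
    (f g : Fin 2 → MvPolynomial (Fin 2) L), (∀ i, (f i).IsHomogeneous d) →
    (∀ i, (g i).IsHomogeneous d) → rs f d ≠ 0 → rs g d ≠ 0 →
    ∀ (A : Matrix (Fin 2) (Fin 2) L), A.det ≠ 0 →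
      (∀ x : Fin 2 → L, A.mulVec (ev g x) = ev f (A.mulVec x)) →
      MvPolynomial.aeval (cf d g) P / rs g d ^ k = MvPolynomial.aeval (cf d f) P / rs f d ^ k

/-- height (relative to `K`) of the point `[Res^k : P_1 : ... : P_l]` -/
noncomputable def hmod {K : Type u} [Field K] [NumberField K] (d k l : ℕ)
    (P : Fin l → MvPolynomial (Fin 2 × Fin (d + 1)) ℤ) (f : Fin 2 → MvPolynomial (Fin 2) K) : ℝ :=
  Height.logHeight (fun j : Option (Fin l) =>
    j.elim (rs f d ^ k) (fun i => MvPolynomial.aeval (cf d f) (P i)))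

end Pool.Agent.H951R3.PB
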