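import Pool.Agent.H951R3.PB.G1
import Pool.Agent.H951R3.PB.GDefs
import Pool.Agent.H951R3.PB.D3
import Pool.Agent.H951R3.PB.E3
import Pool.Agent.H951R3.PB.E2
import Pool.Agent.H951R3.PB.D2

/-!
# G2: size of an invariant at an arbitrary place (helper885)
-/

set_option autoImplicit false

namespace Pool.Agent.H951R3.PB

open Real Filter Topology NumberField

universe u

namespace G2

theorem natCast_le {L : Type u} [Field L] (w : AbsoluteValue L ℝ) (n : ℕ) :
    w (n : L) ≤ n := by
  induction n with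
  | zero => simp
  | succ n ih =>
    push_cast
    exact (w.add_le _ _).trans (by rw [map_one]; linarith)

theorem intCast_le {L : Type u} [Field L] (w : AbsoluteValue L ℝ) (n : ℤ) :
    w (n : L) ≤ |(n : ℝ)| := by
  obtain ⟨m, rfl | rfl⟩ := n.eq_nat_or_neg
  · have := natCast_le w m
    rw [Int.cast_natCast, Int.cast_natCast, abs_of_nonneg (by positivity)]
    exact this
  · have := natCast_le w m
    rw [Int.cast_neg, Int.cast_neg, Int.cast_natCast, Int.cast_natCast, AbsoluteValue.map_neg,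
      abs_neg, abs_of_nonneg (by positivity)]
    exact this

/-- bound for the value of an integer form -/
theorem aeval_le {σ : Type} [Fintype σ] {L : Type u} [Field L] (w : AbsoluteValue L ℝ) (n : ℕ)
    (P : MvPolynomial σ ℤ) (hP : P.IsHomogeneous n) (x : σ → L) (M : ℝ)
    (hM : ∀ p, w (x p) ≤ M) :
    w (MvPolynomial.aeval x P) ≤ (∑ m ∈ P.support, |((P.coeff m : ℤ) : ℝ)|) * M ^ n := by
  rw [MvPolynomial.aeval_def, MvPolynomial.eval₂_eq', Finset.sum_mul]
  refine (w.sum_le _ _).trans (Finset.sum_le_sum fun m hm => ?_)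
  rw [map_mul, map_prod]
  have h1 : w (algebraMap ℤ L (P.coeff m)) ≤ |((P.coeff m : ℤ) : ℝ)| := by
    rw [eq_intCast]; exact intCast_le w _
  have h2 : ∏ i, w (x i ^ m i) ≤ M ^ n := by
    have h3 : ∏ i, w (x i ^ m i) ≤ ∏ i, M ^ m i := by
      refine Finset.prod_le_prod (fun i _ => w.nonneg _) fun i _ => ?_
      rw [map_pow]
      exact pow_le_pow_left₀ (w.nonneg _) (hM i) _
    refine h3.trans ?_
    rw [Finset.prod_pow_eq_pow_sum]
    have h4 := hP (MvPolynomial.mem_support_iff.mp hm)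
    have h5 : ∑ i, m i = n := by
      rw [← h4, Finsupp.weight_apply, Finsupp.sum_fintype]
      · simp
      · simp
    rw [h5]
  exact mul_le_mul h1 h2 (Finset.prod_nonneg fun i _ => w.nonneg _) (abs_nonneg _)

end G2

/-- G2 -/
theorem inv_le (d : ℕ) (hd : 2 ≤ d) (k : ℕ) (P : MvPolynomial (Fin 2 × Fin (d + 1)) ℤ)
    (hP : IsInv.{u} d k P) : ∃ B : ℝ, 0 ≤ B ∧ ∀ (L : Type u) [Field L] [IsAlgClosed L]
    [CharZero L] (w : AbsoluteValue L ℝ) (f : Fin 2 → MvPolynomial (Fin 2) L),
    (∀ i, (f i).IsHomogeneous d) → rs f d ≠ 0 →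
      w (MvPolynomial.aeval (cf d f) P / rs f d ^ k) ≤
        exp (k * mm w (ev f) d (log (w (rs f d))) + B) := by
  obtain ⟨B₀, hB₀, hcoef⟩ := coef_le.{u} d (by omega)
  set Cp : ℝ := ∑ m ∈ P.support, |((P.coeff m : ℤ) : ℝ)| with hCp
  have hCp0 : 0 ≤ Cp := Finset.sum_nonneg fun _ _ => abs_nonneg _
  refine ⟨k + log (Cp + 1) + 2 * d * k * B₀, ?_, ?_⟩
  · have : 0 ≤ log (Cp + 1) := log_nonneg (by linarith)
    positivity
  intro L _ _ _ w f hf h0
  have hfib := fib_base w (by omega : 1 ≤ d) hf h0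
  obtain ⟨a, b, hab, htt⟩ := exists_mm hd hfib
  obtain ⟨g, hg, hev, hg0⟩ := poly_cj (by omega : 1 ≤ d) hf h0 hab
  have hfibg : Fib w (ev g) d (cr w d (log (w (rs f d))) a b) := by
    rw [hev]; exact fib_cj hfib hab
  have hr := fib_unique w (by omega : 1 ≤ d) hg hfibg
  -- the invariant of `g`
  set A : Matrix (Fin 2) (Fin 2) L := !![a 0, b 0; a 1, b 1] with hA
  have hdet : A.det ≠ 0 := by
    rw [hA, Matrix.det_fin_two_of]
    intro h
    apply hab
    unfold wd
    linear_combination h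
  have hAx : ∀ x : Fin 2 → L, A.mulVec x = emb a b x := by
    intro x
    ext i
    fin_cases i
    · simp only [hA, emb, Matrix.mulVec, dotProduct, Fin.sum_univ_two]
      simp
      ring
    · simp only [hA, emb, Matrix.mulVec, dotProduct, Fin.sum_univ_two]
      simp
      ring
  have hconj : ∀ x : Fin 2 → L, A.mulVec (ev g x) = ev f (A.mulVec x) := by
    intro x
    rw [hAx, hAx, hev, cj, D2.emb_coo hab]
  have hinv := hP.2 L f g hf hg h0 hg0 A hdet hconj
  rw [← hinv]
  have hS := (hcoef L w g hg hg0).1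
  have h1 := G2.aeval_le w (2 * d * k) P hP.1 (cf d g) _ hS
  have hpos : 0 < w (rs g d) := w.pos hg0
  have hwr : w (rs g d) ^ k = exp (k * log (w (rs g d))) := by
    rw [← Real.exp_log hpos, ← Real.exp_nat_mul, Real.log_exp]
  rw [map_div₀, map_pow, hwr, div_le_iff₀ (exp_pos _), ← exp_add]
  refine h1.trans ?_
  rw [← hCp, ← Real.exp_nat_mul]
  have h2 : Cp ≤ exp (log (Cp + 1)) := by
    rw [Real.exp_log (by linarith)]; linarith
  refine (mul_le_mul_of_nonneg_right h2 (exp_pos _).le).trans ?_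
  rw [← exp_add, exp_le_exp]
  have h3 : tt w (cj a b (ev f)) d (cr w d (log (w (rs f d))) a b)
      = -log (w (rs g d)) + 2 * d * Ssup w (ev g) := by
    rw [tt, hr, hev]
  rw [h3] at htt
  have h4 : (0 : ℝ) ≤ k := by positivity
  have h5 := mul_le_mul_of_nonneg_left htt h4
  push_cast
  nlinarith [h5]

end Pool.Agent.H951R3.PB
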