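import Pool.Agent.H951R3.PB.GDefs
import Pool.Agent.H951R3.PB.E1
import Pool.Agent.H951R3.PB.F1
import Pool.Agent.H951R3.PB.F2

/-! G3: invariants are integral at places of potentially good reduction (helper99) -/

set_option autoImplicit false

namespace Pool.Agent.H951R3.PB

open Real Filter Topology NumberField

universe u

namespace G3

theorem aeval_sum {L : Type u} [Field L] {σ : Type} [Fintype σ] (P : MvPolynomial σ ℤ)
    (y : σ → L) : MvPolynomial.aeval y P =
      ∑ m ∈ P.support, ((P.coeff m : ℤ) : L) * ∏ i, y i ^ m i := by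
  rw [MvPolynomial.aeval_def, MvPolynomial.eval₂_eq']
  rfl

theorem aeval_smul {L : Type u} [Field L] {σ : Type} [Fintype σ] (P : MvPolynomial σ ℤ)
    {n : ℕ} (hP : P.IsHomogeneous n) (y : σ → L) (c : L) :
    MvPolynomial.aeval (fun i => c * y i) P = c ^ n * MvPolynomial.aeval y P := by
  rw [aeval_sum, aeval_sum, Finset.mul_sum]
  apply Finset.sum_congr rfl
  intro m hm
  have h1 : m.weight 1 = n := hP (by simpa using hm)
  have h2 : ∑ i, m i = n := by
    rw [← h1]
    simp [Finsupp.weight_apply, Finsupp.sum_fintype]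
  have h3 : ∏ i, (c * y i) ^ m i = c ^ n * ∏ i, y i ^ m i := by
    rw [← h2, ← Finset.prod_pow_eq_pow_sum, ← Finset.prod_mul_distrib]
    apply Finset.prod_congr rfl
    intro i _
    rw [mul_pow]
  rw [h3]
  ring

theorem aeval_le {L : Type u} [Field L] (w : AbsoluteValue L ℝ) (hw : IsNonarchimedean w)
    {σ : Type} [Fintype σ] (P : MvPolynomial σ ℤ) (y : σ → L) (hy : ∀ i, w (y i) ≤ 1) :
    w (MvPolynomial.aeval y P) ≤ 1 := by
  rw [aeval_sum]
  apply F2.sum_le w hw
  intro m _
  rw [map_mul, map_prod]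
  apply mul_le_one₀ (IsNonarchimedean.apply_intCast_le_one hw)
    (Finset.prod_nonneg fun i _ => w.nonneg _)
  apply Finset.prod_le_one (fun i _ => w.nonneg _)
  intro i _
  rw [map_pow]
  exact pow_le_one₀ (w.nonneg _) (hy i)

theorem dh_C_mul {L : Type u} [Field L] (c : L) (p : MvPolynomial (Fin 2) L) :
    dh (MvPolynomial.C c * p) = Polynomial.C c * dh p := by
  simp [dh, Polynomial.algebraMap_eq]

theorem rs_smul {L : Type u} [Field L] (c : L) (f : Fin 2 → MvPolynomial (Fin 2) L) (d : ℕ) :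
    rs (fun i => MvPolynomial.C c * f i) d = c ^ (2 * d) * rs f d := by
  unfold rs
  rw [dh_C_mul, dh_C_mul, Polynomial.resultant_C_mul_left, Polynomial.resultant_C_mul_right]
  ring

/-- the resultant is a unit in the case of good reduction -/
theorem rs_unit {L : Type u} [Field L] [IsAlgClosed L] [CharZero L] (w : AbsoluteValue L ℝ)
    (hw : IsNonarchimedean w) {d : ℕ} (hd : 1 ≤ d) {g : Fin 2 → MvPolynomial (Fin 2) L}
    (hg : ∀ i, (g i).IsHomogeneous d) (h0 : rs g d ≠ 0) (hgood : GoodAt w g) :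
    w (rs g d) = 1 := by
  have hfib := fib_base w hd hg h0
  have hS : Ssup w (ev g) = 0 := by
    have : ∀ v : {v : Fin 2 → L // nrm w v = 1}, log (nrm w (ev g v.1)) = 0 := by
      intro v
      rw [F2.unit_ev w hw hgood v.2, log_one]
    have hne : Nonempty {v : Fin 2 → L // nrm w v = 1} := ⟨⟨![1, 0], by simp [nrm]⟩⟩
    rw [Ssup, iSup_congr this, ciSup_const]
  obtain ⟨C, z, hz⟩ := hfib ![1, 0] (by simp [nrm])
  obtain ⟨C', z', hz'⟩ := hfib ![0, 1] (by simp [nrm])
  have hCpos : 0 < w C := w.pos hz.C_ne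
  have h5 := (fib_bounds_na w hw hd hfib).1 _ C z (by simp [nrm]) hz
  rw [hS] at h5
  have h6 := hz.res
  have h7 : ∀ j, log (nrm w (ev g (z j))) = 0 := by
    intro j
    rw [F2.unit_ev w hw hgood (hz.unit j), log_one]
  simp only [h7, Finset.sum_const_zero, add_zero] at h6
  -- `1 ≤ w C`
  have h8 : 1 ≤ w C := by
    set j0 : Fin d := ⟨0, by omega⟩ with hj0
    obtain ⟨c', hc', hc2⟩ := hz'.img j0
    have h9 := F2.unit_ev w hw hgood (hz'.unit j0)
    rw [hc2, B1_nrm_smul] at h9
    have h10 : nrm w (![0, 1] : Fin 2 → L) = 1 := by simp [nrm]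
    rw [h10, mul_one] at h9
    have h11 := hz.fac (z' j0)
    rw [hc2] at h11
    have h12 : wd (![1, 0] : Fin 2 → L) (c' • ![0, 1]) = c' := by simp [wd]
    rw [h12] at h11
    have h13 : w c' = w C * ∏ j, w (wd (z' j0) (z j)) := by
      rw [h11, map_mul, map_prod]
    have h14 : ∏ j, w (wd (z' j0) (z j)) ≤ 1 := by
      apply Finset.prod_le_one (fun i _ => w.nonneg _)
      intro j _
      have := F2.wd_le w hw (z' j0) (z j)
      rwa [hz'.unit, hz.unit, mul_one] at this
    calc 1 = w c' := h9.symm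
      _ = w C * ∏ j, w (wd (z' j0) (z j)) := h13
      _ ≤ w C * 1 := mul_le_mul_of_nonneg_left h14 hCpos.le
      _ = w C := mul_one _
  have h15 : log (w C) = 0 := le_antisymm h5 (log_nonneg h8)
  rw [h15, mul_zero] at h6
  have h16 : 0 < w (rs g d) := w.pos h0
  exact Real.eq_one_of_pos_of_log_eq_zero h16 h6.symm

theorem aeval_map {K L : Type u} [Field K] [Field L] (τ : K →+* L) {σ : Type} [Fintype σ]
    (P : MvPolynomial σ ℤ) (y : σ → K) :
    MvPolynomial.aeval (fun i => τ (y i)) P = τ (MvPolynomial.aeval y P) := by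
  rw [aeval_sum, aeval_sum, map_sum]
  apply Finset.sum_congr rfl
  intro m _
  rw [map_mul, map_prod, map_intCast]
  simp only [map_pow]

theorem core {K L : Type u} [Field K] [Field L] [IsAlgClosed L] [CharZero L] (τ : K →+* L)
    {d : ℕ} (hd : 2 ≤ d) (k : ℕ)
    (P : MvPolynomial (Fin 2 × Fin (d + 1)) ℤ) (hP : IsInv.{u} d k P)
    {f : Fin 2 → MvPolynomial (Fin 2) K} (hf : ∀ i, (f i).IsHomogeneous d)
    (h0 : rs f d ≠ 0) (w : AbsoluteValue L ℝ) (hw : IsNonarchimedean w)
    (g : Fin 2 → MvPolynomial (Fin 2) L) (hgh : ∀ i, (g i).IsHomogeneous d)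
    (hgood : GoodAt w g) (A : Matrix (Fin 2) (Fin 2) L) (c : L) (hA : A.det ≠ 0) (hc : c ≠ 0)
    (hconj : ∀ x : Fin 2 → L, A.mulVec (ev g x) = c • ev (fun i => (f i).map τ) (A.mulVec x)) :
    w (τ (MvPolynomial.aeval (cf d f) P / rs f d ^ k)) ≤ 1 := by
  set F : Fin 2 → MvPolynomial (Fin 2) L := fun i => (f i).map τ with hF
  have hfL : ∀ i, (F i).IsHomogeneous d := fun i => (hf i).map _
  have hrsL : rs F d = τ (rs f d) := rs_map τ f d
  have h0L : rs F d ≠ 0 := by
    rw [hrsL]
    exact fun h => h0 (τ.injective (by rw [h, map_zero]))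
  set f' : Fin 2 → MvPolynomial (Fin 2) L := fun i => MvPolynomial.C c * F i with hf'
  have hf'h : ∀ i, (f' i).IsHomogeneous d := fun i => (hfL i).C_mul c
  have hev' : ∀ x, ev f' x = c • ev F x := by
    intro x
    funext i
    simp [ev, hf']
  have hrs' : rs f' d = c ^ (2 * d) * rs F d := rs_smul c F d
  have h0' : rs f' d ≠ 0 := by
    rw [hrs']
    exact mul_ne_zero (pow_ne_zero _ hc) h0L
  have hg0 : rs g d ≠ 0 := by
    rw [rs_ne_zero_iff (by omega) hgh]
    intro x hx
    have h1 := hconj x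
    rw [hx, Matrix.mulVec_zero] at h1
    have h2 : ev F (A.mulVec x) = 0 := by
      rcases smul_eq_zero.1 h1.symm with h | h
      · exact absurd h hc
      · exact h
    have h3 := (rs_ne_zero_iff (by omega) hfL).1 h0L _ h2
    exact Matrix.eq_zero_of_mulVec_eq_zero hA h3
  have hinv := hP.2 L f' g hf'h hgh h0' hg0 A hA (fun x => by rw [hconj, hev'])
  have hcf' : cf d f' = fun p => c * cf d F p := by
    funext p
    simp only [cf, hf', MvPolynomial.coeff_C_mul]
  have hcfL : cf d F = fun p => τ (cf d f p) := by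
    funext p
    simp only [cf, hF, MvPolynomial.coeff_map]
  have h1 : MvPolynomial.aeval (cf d F) P = τ (MvPolynomial.aeval (cf d f) P) := by
    rw [hcfL]
    exact aeval_map τ P (cf d f)
  have h2 : τ (MvPolynomial.aeval (cf d f) P / rs f d ^ k) =
      MvPolynomial.aeval (cf d g) P / rs g d ^ k := by
    rw [hinv, hcf', aeval_smul P hP.1, hrs', mul_pow, ← pow_mul, h1, hrsL, map_div₀, map_pow]
    rw [mul_div_mul_left _ _ (pow_ne_zero _ hc)]
  rw [h2, map_div₀, map_pow, rs_unit w hw (by omega) hgh hg0 hgood, one_pow, div_one]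
  exact aeval_le w hw P _ (fun p => hgood.1 _ _)

end G3

/-- G3 -/
theorem inv_le_potgood {K : Type u} [Field K] [NumberField K] {d : ℕ} (hd : 2 ≤ d) (k : ℕ)
    (P : MvPolynomial (Fin 2 × Fin (d + 1)) ℤ) (hP : IsInv.{u} d k P)
    {f : Fin 2 → MvPolynomial (Fin 2) K} (hf : ∀ i, (f i).IsHomogeneous d)
    (h0 : rs f d ≠ 0) (v : FinitePlace K) (h : PotGood v.val d f) :
    v (MvPolynomial.aeval (cf d f) P / rs f d ^ k) ≤ 1 := by
  obtain ⟨w, hext, g, hgh, hgood, A, c, hA, hc, hconj⟩ := h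
  have hw := ext_na v w hext
  have h3 : v (MvPolynomial.aeval (cf d f) P / rs f d ^ k) =
      w (algebraMap K (AlgebraicClosure K)
        (MvPolynomial.aeval (cf d f) P / rs f d ^ k)) := (hext _).symm
  rw [h3]
  exact G3.core (algebraMap K (AlgebraicClosure K)) hd k P hP hf h0 w hw g hgh hgood A c hA hc
    hconj

end Pool.Agent.H951R3.PB
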