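import Pool.Agent.H951R3.PB.Defs
import Pool.Agent.H951R3.PB.E1
import Pool.Agent.H951R3.PB.F1
import Pool.Agent.H951R3.PB.F3
import Pool.Agent.H951R3.PB.G2
import Pool.Agent.H951R3.PB.G3
import Pool.Agent.H951R3.PB.GDefs

/-!
# G4: the moduli height is bounded by the local sizes
-/

set_option autoImplicit false

namespace Pool.Agent.H951R3.PB

open Real Filter Topology NumberField

universe u

namespace G4

theorem cf_fL {K : Type u} [Field K] (d : ℕ) (f : Fin 2 → MvPolynomial (Fin 2) K) :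
    cf d (fL K f) = fun p => algebraMap K (AlgebraicClosure K) (cf d f p) := by
  funext p
  simp [cf, fL, MvPolynomial.coeff_map]

theorem aeval_fL {K : Type u} [Field K] (d : ℕ) (f : Fin 2 → MvPolynomial (Fin 2) K)
    (P : MvPolynomial (Fin 2 × Fin (d + 1)) ℤ) :
    MvPolynomial.aeval (cf d (fL K f)) P =
      algebraMap K (AlgebraicClosure K) (MvPolynomial.aeval (cf d f) P) := by
  rw [MvPolynomial.map_aeval, cf_fL, MvPolynomial.aeval_def, MvPolynomial.coe_eval₂Hom]
  congr 1

theorem rs_fL {K : Type u} [Field K] (d : ℕ) (f : Fin 2 → MvPolynomial (Fin 2) K) :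
    rs (fL K f) d = algebraMap K (AlgebraicClosure K) (rs f d) :=
  rs_map (algebraMap K (AlgebraicClosure K)) f d

theorem ext_inv {K : Type u} [Field K] (d k : ℕ) (f : Fin 2 → MvPolynomial (Fin 2) K)
    (P : MvPolynomial (Fin 2 × Fin (d + 1)) ℤ) {v : AbsoluteValue K ℝ}
    {w : AbsoluteValue (AlgebraicClosure K) ℝ} (h : Ext v w) :
    v (MvPolynomial.aeval (cf d f) P / rs f d ^ k) =
      w (MvPolynomial.aeval (cf d (fL K f)) P / rs (fL K f) d ^ k) := by
  rw [aeval_fL, rs_fL, ← map_pow, ← map_div₀, h]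

/-- G4: the moduli height is bounded by the local sizes -/
theorem hmod_le (d : ℕ) (hd : 2 ≤ d) (D k l : ℕ)
    (P : Fin l → MvPolynomial (Fin 2 × Fin (d + 1)) ℤ) (hP : ∀ j, IsInv.{u} d k (P j)) :
    ∃ C : ℝ, 0 < C ∧ ∀ (K : Type u) [Field K] [NumberField K], Module.finrank ℚ K ≤ D →
    ∀ f : Fin 2 → MvPolynomial (Fin 2) K, (∀ i, (f i).IsHomogeneous d) → rs f d ≠ 0 →
    ∃ μ : ℝ, (μ ≤ 0 ∨ ∃ (v : AbsoluteValue K ℝ) (w : AbsoluteValue (AlgebraicClosure K) ℝ),
      (IsInfinitePlace v ∨ IsFinitePlace v) ∧ Ext v w ∧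
        μ ≤ mm w (ev (fL K f)) d (log (w (rs (fL K f) d)))) ∧
      hmod d k l P f ≤
        C * ({v : FinitePlace K | ¬ PotGood v.val d f}.ncard + 1) * (1 + max μ 0) := by
  classical
  choose Bf hBf0 hBf using fun j => inv_le.{u} d hd k (P j) (hP j)
  set B : ℝ := ∑ j, Bf j with hBdef
  have hB0 : 0 ≤ B := Finset.sum_nonneg fun j _ => hBf0 j
  have hBle : ∀ j, Bf j ≤ B := fun j =>
    Finset.single_le_sum (f := Bf) (fun i _ => hBf0 i) (Finset.mem_univ j)
  refine ⟨(D + 1) * (k + B + 1), by positivity, ?_⟩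
  intro K _ _ hK f hf h0
  choose wi hwi using fun v : InfinitePlace K => exists_ext_inf v
  choose wf hwf using fun v : FinitePlace K => exists_ext_fin v
  have hfin := bad_finite (by omega : 1 ≤ d) hf h0
  set S : Finset (FinitePlace K) := hfin.toFinset with hS
  have hcard : {v : FinitePlace K | ¬ PotGood v.val d f}.ncard = S.card := by
    rw [Set.ncard_eq_toFinset_card _ hfin]
  set mI : InfinitePlace K → ℝ := fun v =>
    mm (wi v) (ev (fL K f)) d (log (wi v (rs (fL K f) d))) with hmI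
  set mF : FinitePlace K → ℝ := fun v =>
    mm (wf v) (ev (fL K f)) d (log (wf v (rs (fL K f) d))) with hmF
  -- the maximum
  obtain ⟨v₀⟩ : Nonempty (InfinitePlace K) := inferInstance
  obtain ⟨μ, hμ, hμI, hμF⟩ : ∃ μ : ℝ,
      (∃ (v : AbsoluteValue K ℝ) (w : AbsoluteValue (AlgebraicClosure K) ℝ),
        (IsInfinitePlace v ∨ IsFinitePlace v) ∧ Ext v w ∧
          μ ≤ mm w (ev (fL K f)) d (log (w (rs (fL K f) d)))) ∧
      (∀ v, mI v ≤ μ) ∧ (∀ v ∈ S, mF v ≤ μ) := by
    obtain ⟨v₁, -, hv₁⟩ := Finset.exists_max_image (Finset.univ : Finset (InfinitePlace K)) mI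
      ⟨v₀, Finset.mem_univ _⟩
    rcases S.eq_empty_or_nonempty with hSe | hSn
    · refine ⟨mI v₁, ⟨v₁.val, wi v₁, Or.inl v₁.isInfinitePlace, hwi v₁, le_rfl⟩,
        fun v => hv₁ v (Finset.mem_univ _), fun v hv => ?_⟩
      rw [hSe] at hv
      exact absurd hv (Finset.notMem_empty _)
    · obtain ⟨v₂, hv₂S, hv₂⟩ := Finset.exists_max_image S mF hSn
      rcases le_total (mI v₁) (mF v₂) with hle | hle
      · exact ⟨mF v₂, ⟨v₂.val, wf v₂, Or.inr v₂.isFinitePlace, hwf v₂, le_rfl⟩,
          fun v => (hv₁ v (Finset.mem_univ _)).trans hle, hv₂⟩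
      · exact ⟨mI v₁, ⟨v₁.val, wi v₁, Or.inl v₁.isInfinitePlace, hwi v₁, le_rfl⟩,
          fun v => hv₁ v (Finset.mem_univ _), fun v hv => (hv₂ v hv).trans hle⟩
  refine ⟨μ, Or.inr hμ, ?_⟩
  set M : ℝ := k * max μ 0 + B with hM
  have hM0 : 0 ≤ M := by positivity
  have h0L : rs (fL K f) d ≠ 0 := by
    rw [rs_fL]
    exact (map_ne_zero _).2 h0
  have hfL : ∀ i, (fL K f i).IsHomogeneous d := fun i => (hf i).map _
  -- the local bound
  have hloc : ∀ (v : AbsoluteValue K ℝ) (w : AbsoluteValue (AlgebraicClosure K) ℝ), Ext v w →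
      mm w (ev (fL K f)) d (log (w (rs (fL K f) d))) ≤ μ → ∀ j,
      v (MvPolynomial.aeval (cf d f) (P j) / rs f d ^ k) ≤ exp M := by
    intro v w hvw hle j
    rw [ext_inv d k f (P j) hvw]
    refine (hBf j (AlgebraicClosure K) w (fL K f) hfL h0L).trans (exp_le_exp.2 ?_)
    have h1 : (k : ℝ) * mm w (ev (fL K f)) d (log (w (rs (fL K f) d))) ≤ k * max μ 0 :=
      mul_le_mul_of_nonneg_left (hle.trans (le_max_left _ _)) (Nat.cast_nonneg k)
    have h2 := hBle j
    rw [hM]
    linarith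
  -- the normalised vector
  set x : Option (Fin l) → K := fun j =>
    j.elim 1 (fun i => MvPolynomial.aeval (cf d f) (P i) / rs f d ^ k) with hx
  have hxnone : x none = 1 := rfl
  have hxsome : ∀ j, x (some j) = MvPolynomial.aeval (cf d f) (P j) / rs f d ^ k :=
    fun j => rfl
  have hx0 : x ≠ 0 := by
    intro h
    have := congrFun h none
    rw [hxnone] at this
    exact one_ne_zero this
  have hrk : rs f d ^ k ≠ 0 := pow_ne_zero _ h0
  have hvec : (fun j : Option (Fin l) =>
      j.elim (rs f d ^ k) (fun i => MvPolynomial.aeval (cf d f) (P i))) = (rs f d ^ k) • x := by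
    funext j
    cases j with
    | none => simp [hxnone]
    | some j =>
      rw [Pi.smul_apply, hxsome, smul_eq_mul, mul_div_cancel₀ _ hrk]
      rfl
  have hh : hmod d k l P f = Height.logHeight x := by
    unfold hmod
    rw [hvec, Height.logHeight_smul_eq_logHeight x hrk]
  rw [hh, hcard]
  -- estimates for the sup
  have hsupI : ∀ v : InfinitePlace K, (⨆ i, v (x i)) ≤ exp M := by
    intro v
    refine ciSup_le fun i => ?_
    cases i with
    | none =>
      rw [hxnone, map_one]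
      exact one_le_exp hM0
    | some j => exact hloc v.val (wi v) (hwi v) (hμI v) j
  have hsupF : ∀ v ∈ S, (⨆ i, v (x i)) ≤ exp M := by
    intro v hv
    refine ciSup_le fun i => ?_
    cases i with
    | none =>
      rw [hxnone, map_one]
      exact one_le_exp hM0
    | some j => exact hloc v.val (wf v) (hwf v) (hμF v hv) j
  have hone : ∀ v : FinitePlace K, 1 ≤ ⨆ i, v (x i) := by
    intro v
    have h1 : v (x none) ≤ ⨆ i, v (x i) :=
      le_ciSup (f := fun i => v (x i)) (Set.finite_range _).bddAbove none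
    rwa [hxnone, map_one] at h1
  have honeI : ∀ v : InfinitePlace K, 0 ≤ ⨆ i, v (x i) := by
    intro v
    have h1 : v (x none) ≤ ⨆ i, v (x i) :=
      le_ciSup (f := fun i => v (x i)) (Set.finite_range _).bddAbove none
    rw [hxnone, map_one] at h1
    linarith
  have hsupp : Function.mulSupport (fun v : FinitePlace K => ⨆ i, v (x i)) ⊆ ↑S := by
    intro v hv
    by_contra hvS
    apply hv
    have hpg : PotGood v.val d f := by
      by_contra hc
      exact hvS (by rw [hS]; exact (Set.Finite.mem_toFinset hfin).2 hc)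
    refine le_antisymm (ciSup_le fun i => ?_) (hone v)
    cases i with
    | none => rw [hxnone, map_one]
    | some j => exact inv_le_potgood hd k (P j) (hP j) hf h0 v hpg
  have hmul : Height.mulHeight x ≤ exp (M * (D + S.card)) := by
    rw [NumberField.mulHeight_eq hx0, finprod_eq_prod_of_mulSupport_subset _ hsupp]
    have h1 : ∏ v : InfinitePlace K, (⨆ i, v (x i)) ^ v.mult ≤ exp (M * D) := by
      calc ∏ v : InfinitePlace K, (⨆ i, v (x i)) ^ v.mult
          ≤ ∏ v : InfinitePlace K, (exp M) ^ v.mult :=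
            Finset.prod_le_prod (fun v _ => pow_nonneg (honeI v) _)
              (fun v _ => pow_le_pow_left₀ (honeI v) (hsupI v) _)
        _ = exp M ^ (∑ v : InfinitePlace K, v.mult) := Finset.prod_pow_eq_pow_sum _ _ _
        _ = exp M ^ (Module.finrank ℚ K) := by rw [InfinitePlace.sum_mult_eq]
        _ ≤ exp M ^ D := pow_le_pow_right₀ (one_le_exp hM0) hK
        _ = exp (M * D) := by rw [← exp_nat_mul, mul_comm]
    have h2 : ∏ v ∈ S, (⨆ i, v (x i)) ≤ exp (M * S.card) := by
      calc ∏ v ∈ S, (⨆ i, v (x i)) ≤ ∏ v ∈ S, exp M :=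
            Finset.prod_le_prod (fun v _ => zero_le_one.trans (hone v)) hsupF
        _ = exp M ^ S.card := by rw [Finset.prod_const]
        _ = exp (M * S.card) := by rw [← exp_nat_mul, mul_comm]
    rw [mul_add, exp_add]
    exact mul_le_mul h1 h2 (Finset.prod_nonneg fun v _ => zero_le_one.trans (hone v))
      (exp_pos _).le
  have hlog : Height.logHeight x ≤ M * (D + S.card) := by
    rw [Height.logHeight_eq_log_mulHeight]
    exact (log_le_iff_le_exp (Height.mulHeight_pos x)).2 hmul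
  refine hlog.trans ?_
  have hμ0 : 0 ≤ max μ 0 := le_max_right _ _
  have hMle : M ≤ (k + B + 1) * (1 + max μ 0) := by
    rw [hM]
    have hk : (0 : ℝ) ≤ k := Nat.cast_nonneg k
    nlinarith [mul_nonneg hB0 hμ0]
  have hDS : (D : ℝ) + S.card ≤ (D + 1) * (S.card + 1) := by
    have h1 : (0 : ℝ) ≤ D := Nat.cast_nonneg D
    have h2 : (0 : ℝ) ≤ S.card := Nat.cast_nonneg _
    nlinarith [mul_nonneg h1 h2]
  calc M * (D + S.card) ≤ ((k + B + 1) * (1 + max μ 0)) * ((D + 1) * (S.card + 1)) :=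
        mul_le_mul hMle hDS (by positivity) (by positivity)
    _ = (D + 1) * (k + B + 1) * (S.card + 1) * (1 + max μ 0) := by ring

end G4

end Pool.Agent.H951R3.PB
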