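import Pool.Agent.H951R3.PB.D1
import Pool.Agent.H951R3.PB.F1
import Pool.Agent.H951R3.PB.F4

/-!
# G5: the canonical height (functional equation, positivity)
-/

set_option autoImplicit false

namespace Pool.Agent.H951R3.PB

open Real Filter Topology NumberField

universe u

/-- the sequence defining the canonical height converges -/
theorem hcan_tendsto {K : Type u} [Field K] [NumberField K] {d : ℕ} (hd : 2 ≤ d)
    {f : Fin 2 → MvPolynomial (Fin 2) K} (hf : ∀ i, (f i).IsHomogeneous d)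
    (h0 : rs f d ≠ 0) {x : Fin 2 → K} (hx : x ≠ 0) :
    Tendsto (fun n : ℕ => Height.logHeight ((ev f)^[n] x) / (d : ℝ) ^ n) atTop
      (𝓝 (hcan d f x)) := by
  classical
  have hd1 : 1 ≤ d := by omega
  choose wi hwi using fun v : InfinitePlace K => exists_ext_inf v
  choose wf hwf using fun v : FinitePlace K => exists_ext_fin v
  -- a large finite set of places
  obtain ⟨S1, hc, hr, hnx⟩ : ∃ S1 : Finset (FinitePlace K),
      (∀ v, v ∉ S1 → ∀ i m, v.val ((f i).coeff m) ≤ 1) ∧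
      (∀ v, v ∉ S1 → v.val (rs f d) = 1) ∧ (∀ v, v ∉ S1 → nrm v.val x = 1) := by
    refine ⟨(F4_finite_coeff f).toFinset ∪ (F4_finite_ne h0).toFinset ∪
      (F4_finite_nrm hx).toFinset, ?_, ?_, ?_⟩
    all_goals
      intro v hv
      simp only [Finset.mem_union, Set.Finite.mem_toFinset, Set.mem_ofPred_eq, not_or,
        not_not] at hv
      tauto
  have w0 : AbsoluteValue (AlgebraicClosure K) ℝ := AbsoluteValue.trivial
  have hit : ∀ n : ℕ, (ev f)^[n] x ≠ 0 := fun n => F4_iter_ne hd1 hf h0 w0 hx n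
  have hone : ∀ (n : ℕ) (v : FinitePlace K), v ∉ S1 → nrm v.val ((ev f)^[n] x) = 1 := by
    intro n v hv
    induction n with
    | zero => exact hnx v hv
    | succ n ih =>
      rw [Function.iterate_succ_apply']
      exact F4_good hd1 hf h0 v (wf v) (hwf v) (hc v hv) (hr v hv) ih
  have hH : ∀ n : ℕ,
      Height.logHeight ((ev f)^[n] x) / (d : ℝ) ^ n =
        ∑ v : InfinitePlace K, (v.mult : ℝ) *
          (log (nrm (wi v) ((ev (fL K f))^[n] (vL K x))) / (d : ℝ) ^ n) +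
        ∑ v ∈ S1, log (nrm (wf v) ((ev (fL K f))^[n] (vL K x))) / (d : ℝ) ^ n := by
    intro n
    rw [F4_logHeight (hit n) S1 (hone n), add_div, Finset.sum_div, Finset.sum_div]
    congr 1
    · refine Finset.sum_congr rfl fun v _ => ?_
      rw [F4_iter, F4_ext_nrm (hwi v), mul_div_assoc]
    · refine Finset.sum_congr rfl fun v _ => ?_
      rw [F4_iter, F4_ext_nrm (hwf v)]
  have hlim : Tendsto (fun n : ℕ => Height.logHeight ((ev f)^[n] x) / (d : ℝ) ^ n) atTop
      (𝓝 (∑ v : InfinitePlace K, (v.mult : ℝ) * Gr (wi v) (ev (fL K f)) d (vL K x) +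
        ∑ v ∈ S1, Gr (wf v) (ev (fL K f)) d (vL K x))) := by
    have h1 : (fun n : ℕ => Height.logHeight ((ev f)^[n] x) / (d : ℝ) ^ n) = fun n : ℕ =>
        ∑ v : InfinitePlace K, (v.mult : ℝ) *
          (log (nrm (wi v) ((ev (fL K f))^[n] (vL K x))) / (d : ℝ) ^ n) +
        ∑ v ∈ S1, log (nrm (wf v) ((ev (fL K f))^[n] (vL K x))) / (d : ℝ) ^ n :=
      funext fun n => hH n
    rw [h1]
    refine Tendsto.add (tendsto_finsetSum _ fun v _ => ?_) (tendsto_finsetSum _ fun v _ => ?_)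
    · exact (gr_tendsto hd (F4_fib hd1 hf h0 (wi v)) (F4_vL_ne hx)).const_mul _
    · exact gr_tendsto hd (F4_fib hd1 hf h0 (wf v)) (F4_vL_ne hx)
  have h2 : hcan d f x = ∑ v : InfinitePlace K, (v.mult : ℝ) * Gr (wi v) (ev (fL K f)) d (vL K x) +
        ∑ v ∈ S1, Gr (wf v) (ev (fL K f)) d (vL K x) := by
    rw [hcan]
    exact hlim.limUnder_eq
  rw [h2]
  exact hlim

/-- G5 -/
theorem hcan_map {K : Type u} [Field K] [NumberField K] {d : ℕ} (hd : 2 ≤ d)
    {f : Fin 2 → MvPolynomial (Fin 2) K} (hf : ∀ i, (f i).IsHomogeneous d)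
    (h0 : rs f d ≠ 0) {x : Fin 2 → K} (hx : x ≠ 0) : hcan d f (ev f x) = d * hcan d f x := by
  classical
  have w0 : AbsoluteValue (AlgebraicClosure K) ℝ := AbsoluteValue.trivial
  have hne : ev f x ≠ 0 := F4_iter_ne (by omega) hf h0 w0 hx 1
  have h2 : (2:ℝ) ≤ d := by exact_mod_cast hd
  have hd0 : (d:ℝ) ≠ 0 := by linarith
  have h1 := hcan_tendsto hd hf h0 hne
  have h3 := ((tendsto_add_atTop_iff_nat 1).mpr (hcan_tendsto hd hf h0 hx)).const_mul (d:ℝ)
  refine tendsto_nhds_unique h1 (h3.congr ?_)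
  intro n
  rw [Function.iterate_succ_apply, pow_succ]
  field_simp

/-- G5 -/
theorem hcan_nonneg {K : Type u} [Field K] [NumberField K] {d : ℕ} (hd : 2 ≤ d)
    {f : Fin 2 → MvPolynomial (Fin 2) K} (hf : ∀ i, (f i).IsHomogeneous d)
    (h0 : rs f d ≠ 0) {x : Fin 2 → K} (hx : x ≠ 0) : 0 ≤ hcan d f x := by
  refine ge_of_tendsto' (hcan_tendsto hd hf h0 hx) fun n => ?_
  refine div_nonneg ?_ (pow_nonneg (Nat.cast_nonneg d) n)
  rw [Height.logHeight_eq_log_mulHeight]
  exact log_nonneg (Height.one_le_mulHeight _)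

end Pool.Agent.H951R3.PB
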