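import Pool.Agent.H951R3.PB.G5
import Pool.Agent.H951R3.PB.GDefs
import Pool.Agent.H951R3.PB.E1

/-!
# Height lower bound for wandering points (task G6)
-/

set_option autoImplicit false

namespace Pool.Agent.H951R3.PB

open Real Filter Topology NumberField

universe u

namespace G6aux

theorem parallel {K : Type u} [Field K] {x y : Fin 2 → K} (hx : x ≠ 0) (hy : y ≠ 0)
    (h : wd x y = 0) : ∃ c : K, c ≠ 0 ∧ y = c • x := by
  unfold wd at h
  have key : ∃ c : K, y = c • x := by
    by_cases h0 : x 0 = 0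
    · have h1 : x 1 ≠ 0 := by
        intro h1
        apply hx
        funext i
        fin_cases i
        · exact h0
        · exact h1
      refine ⟨y 1 / x 1, ?_⟩
      funext i
      fin_cases i
      · have : y 0 = 0 := by
          rw [h0, zero_mul, zero_sub, neg_eq_zero] at h
          exact (mul_eq_zero.mp h).resolve_left h1
        simp [this, h0]
      · simp [h1]
    · refine ⟨y 0 / x 0, ?_⟩
      funext i
      fin_cases i
      · simp [h0]
      · have : y 1 = y 0 / x 0 * x 1 := by
          field_simp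
          linear_combination h
        simpa using this
  obtain ⟨c, hc⟩ := key
  refine ⟨c, ?_, hc⟩
  intro h0
  apply hy
  rw [hc, h0, zero_smul]

theorem ev_ne_zero {K : Type u} [Field K] {d : ℕ} (hd : 1 ≤ d)
    {f : Fin 2 → MvPolynomial (Fin 2) K} (hf : ∀ i, (f i).IsHomogeneous d) (h0 : rs f d ≠ 0)
    {x : Fin 2 → K} (hx : x ≠ 0) : ev f x ≠ 0 := by
  have h1 : rs (fL K f) d ≠ 0 := by
    have : rs (fL K f) d = algebraMap K (AlgebraicClosure K) (rs f d) := rs_map _ f d
    rw [this]
    exact (map_ne_zero _).mpr h0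
  have hfL : ∀ i, (fL K f i).IsHomogeneous d := fun i => (hf i).map _
  rw [rs_ne_zero_iff hd hfL] at h1
  intro h2
  have h3 : ev (fL K f) (vL K x) = 0 := by
    funext i
    have h4 : MvPolynomial.eval x (f i) = 0 := congrFun h2 i
    show MvPolynomial.eval (fun i => algebraMap K (AlgebraicClosure K) (x i))
      ((f i).map (algebraMap K (AlgebraicClosure K))) = 0
    rw [MvPolynomial.eval_map]
    have h5 := MvPolynomial.eval₂_comp_left (algebraMap K (AlgebraicClosure K)) (RingHom.id K) x
      (f i)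
    rw [RingHom.comp_id] at h5
    have h6 : MvPolynomial.eval₂ (RingHom.id K) x (f i) = MvPolynomial.eval x (f i) := rfl
    rw [h6, h4, map_zero] at h5
    exact h5.symm
  have h4 := h1 _ h3
  apply hx
  funext i
  have h5 : algebraMap K (AlgebraicClosure K) (x i) = 0 := congrFun h4 i
  exact (map_eq_zero _).mp h5

end G6aux

open G6aux in
/-- G6: from the number of small points to a lower bound for the height of wandering points -/
theorem wandering (d : ℕ) (hd : 2 ≤ d) (D : ℕ)
    (hsmall : ∃ C c : ℝ, 0 < C ∧ 0 < c ∧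
    ∀ (K : Type u) [Field K] [NumberField K], Module.finrank ℚ K ≤ D →
    ∀ f : Fin 2 → MvPolynomial (Fin 2) K, (∀ i, (f i).IsHomogeneous d) → rs f d ≠ 0 →
    ∀ (μ : ℝ), (μ ≤ 0 ∨ ∃ (v : AbsoluteValue K ℝ) (w : AbsoluteValue (AlgebraicClosure K) ℝ),
      (IsInfinitePlace v ∨ IsFinitePlace v) ∧ Ext v w ∧
        μ ≤ mm w (ev (fL K f)) d (log (w (rs (fL K f) d)))) →
    ∀ X : Finset (Fin 2 → K), (∀ x ∈ X, x ≠ 0) → (∀ x ∈ X, ∀ y ∈ X, x ≠ y → wd x y ≠ 0) →
      (∀ x ∈ X, hcan d f x ≤ c * (1 + max μ 0)) →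
      (X.card : ℝ) ≤ C * ({v : FinitePlace K | ¬ PotGood v.val d f}.ncard + 1) *
        log ({v : FinitePlace K | ¬ PotGood v.val d f}.ncard + 2)) :
    ∃ C : ℝ, 0 < C ∧ ∀ (K : Type u) [Field K] [NumberField K], Module.finrank ℚ K ≤ D →
    ∀ f : Fin 2 → MvPolynomial (Fin 2) K, (∀ i, (f i).IsHomogeneous d) → rs f d ≠ 0 →
    ∀ (μ : ℝ), (μ ≤ 0 ∨ ∃ (v : AbsoluteValue K ℝ) (w : AbsoluteValue (AlgebraicClosure K) ℝ),
      (IsInfinitePlace v ∨ IsFinitePlace v) ∧ Ext v w ∧
        μ ≤ mm w (ev (fL K f)) d (log (w (rs (fL K f) d)))) →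
    ∀ x : Fin 2 → K, x ≠ 0 → ¬ Pre f x →
      exp (-C * ({v : FinitePlace K | ¬ PotGood v.val d f}.ncard + 1) *
        log ({v : FinitePlace K | ¬ PotGood v.val d f}.ncard + 2)) * (1 + max μ 0) ≤
        hcan d f x := by
  classical
  obtain ⟨C, c, hC, hc, hsm⟩ := hsmall
  have hd1 : (1 : ℝ) < d := by exact_mod_cast (by omega : 1 < d)
  have hd0 : (0 : ℝ) < d := by linarith
  have hlogd : 0 < log (d : ℝ) := Real.log_pos hd1
  have hlog2 : 0 < log (2 : ℝ) := Real.log_pos (by norm_num)
  refine ⟨C * log d + max 0 (-log c) / log 2, by positivity, ?_⟩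
  intro K _ _ hK f hf h0 μ hμ x hx hpre
  generalize hs : ({v : FinitePlace K | ¬ PotGood v.val d f}.ncard : ℝ) = s
  have hsm' := hsm K hK f hf h0 μ hμ
  rw [hs] at hsm'
  have hs0 : 0 ≤ s := by rw [← hs]; positivity
  have hL : log 2 ≤ (s + 1) * log (s + 2) := by
    have h1 : log 2 ≤ log (s + 2) := Real.log_le_log (by norm_num) (by linarith)
    have h2 : 0 ≤ log (s + 2) := by linarith
    nlinarith
  set L : ℝ := (s + 1) * log (s + 2) with hLdef
  have hL0 : 0 < L := lt_of_lt_of_le hlog2 hL
  have hμ1 : 0 < 1 + max μ 0 := by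
    have := le_max_right μ 0
    linarith
  by_contra hcon
  push Not at hcon
  -- the orbit
  have hy0 : ∀ j : ℕ, (ev f)^[j] x ≠ 0 := by
    intro j
    induction j with
    | zero => simpa using hx
    | succ j ih =>
      rw [Function.iterate_succ_apply']
      exact ev_ne_zero (by omega) hf h0 ih
  have hyh : ∀ j : ℕ, hcan d f ((ev f)^[j] x) = (d : ℝ) ^ j * hcan d f x := by
    intro j
    induction j with
    | zero => simp
    | succ j ih =>
      rw [Function.iterate_succ_apply', hcan_map hd hf h0 (hy0 j), ih, pow_succ]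
      ring
  have hind : ∀ i j : ℕ, i < j → wd ((ev f)^[i] x) ((ev f)^[j] x) ≠ 0 := by
    intro i j hij h
    obtain ⟨a, ha, hya⟩ := parallel (hy0 i) (hy0 j) h
    exact hpre ⟨i, j, hij, a, ha, hya⟩
  have hx0 : 0 ≤ hcan d f x := hcan_nonneg hd hf h0 hx
  obtain ⟨n, hn⟩ : ∃ n : ℕ, n = ⌊C * L⌋₊ := ⟨_, rfl⟩
  have hnT : (n : ℝ) ≤ C * L := by
    rw [hn]
    exact Nat.floor_le (by positivity)
  have hnT' : C * L < n + 1 := by
    rw [hn]
    exact Nat.lt_floor_add_one _
  have hwd_self : ∀ z : Fin 2 → K, wd z z = 0 := fun z => by unfold wd; ring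
  have hinj : Set.InjOn (fun j => (ev f)^[j] x) (Finset.range (n + 1) : Set ℕ) := by
    intro i _ j _ hij
    simp only at hij
    rcases lt_trichotomy i j with h | h | h
    · exfalso
      apply hind i j h
      rw [hij]
      exact hwd_self _
    · exact h
    · exfalso
      apply hind j i h
      rw [hij]
      exact hwd_self _
  have hbound : (d : ℝ) ^ n * exp (-(C * log d + max 0 (-log c) / log 2) * (s + 1) *
      log (s + 2)) ≤ c := by
    have e1 : (d : ℝ) ^ n = exp (n * log d) := by
      rw [mul_comm, Real.exp_mul, Real.exp_log hd0, Real.rpow_natCast]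
    rw [e1, ← Real.exp_add]
    have e2 : (n : ℝ) * log d + -(C * log d + max 0 (-log c) / log 2) * (s + 1) * log (s + 2) ≤
        log c := by
      have e3 : -(C * log d + max 0 (-log c) / log 2) * (s + 1) * log (s + 2) =
          -(C * L * log d) - max 0 (-log c) / log 2 * L := by
        rw [hLdef]; ring
      rw [e3]
      have e4 : (n : ℝ) * log d ≤ C * L * log d := mul_le_mul_of_nonneg_right hnT hlogd.le
      have e5 : max 0 (-log c) ≤ max 0 (-log c) / log 2 * L := by
        have e6 : max 0 (-log c) / log 2 * log 2 = max 0 (-log c) := by field_simp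
        calc max 0 (-log c) = max 0 (-log c) / log 2 * log 2 := e6.symm
          _ ≤ _ := mul_le_mul_of_nonneg_left hL (by positivity)
      have e7 : -log c ≤ max 0 (-log c) := le_max_right _ _
      linarith
    calc exp _ ≤ exp (log c) := Real.exp_le_exp.mpr e2
      _ = c := Real.exp_log hc
  have hX := hsm' ((Finset.range (n + 1)).image (fun j => (ev f)^[j] x))
    (by
      intro z hz
      obtain ⟨j, _, rfl⟩ := Finset.mem_image.mp hz
      exact hy0 j)
    (by
      intro z hz z' hz' hne
      obtain ⟨i, _, rfl⟩ := Finset.mem_image.mp hz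
      obtain ⟨j, _, rfl⟩ := Finset.mem_image.mp hz'
      rcases lt_trichotomy i j with h | h | h
      · exact hind i j h
      · exact absurd (by rw [h]) hne
      · intro hw
        apply hind j i h
        have : wd ((ev f)^[j] x) ((ev f)^[i] x) = - wd ((ev f)^[i] x) ((ev f)^[j] x) := by
          unfold wd; ring
        rw [this, hw, neg_zero])
    (by
      intro z hz
      obtain ⟨j, hj, rfl⟩ := Finset.mem_image.mp hz
      have hjn : j ≤ n := by
        have := Finset.mem_range.mp hj
        omega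
      show hcan d f ((ev f)^[j] x) ≤ c * (1 + max μ 0)
      rw [hyh j]
      calc (d : ℝ) ^ j * hcan d f x ≤ (d : ℝ) ^ n * hcan d f x :=
            mul_le_mul_of_nonneg_right (pow_le_pow_right₀ hd1.le hjn) hx0
        _ ≤ (d : ℝ) ^ n * (exp (-(C * log d + max 0 (-log c) / log 2) * (s + 1) *
              log (s + 2)) * (1 + max μ 0)) :=
            mul_le_mul_of_nonneg_left hcon.le (by positivity)
        _ = ((d : ℝ) ^ n * exp (-(C * log d + max 0 (-log c) / log 2) * (s + 1) *
              log (s + 2))) * (1 + max μ 0) := by ring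
        _ ≤ c * (1 + max μ 0) := mul_le_mul_of_nonneg_right hbound hμ1.le)
  rw [Finset.card_image_of_injOn hinj, Finset.card_range] at hX
  have hX2 : C * (s + 1) * log (s + 2) = C * L := by rw [hLdef]; ring
  rw [hX2] at hX
  push_cast at hX
  linarith

end Pool.Agent.H951R3.PB
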