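import Pool.Agent.H951R3.PB.F9
import Pool.Agent.H951R3.PB.G4
import Pool.Agent.H951R3.PB.G6

/-!
# Lower bound for the canonical height of wandering points
-/

set_option autoImplicit false

namespace Pool.Agent.H951R3.PB

open Real Filter Topology NumberField

universe u

/-- no common zero implies nonzero resultant -/
theorem rs_ne_of_noZero {K : Type u} [Field K] {d : ℕ} (hd : 1 ≤ d)
    {f : Fin 2 → MvPolynomial (Fin 2) K} (hf : ∀ i, (f i).IsHomogeneous d)
    (hz : ∀ x : Fin 2 → AlgebraicClosure K, (∀ i, MvPolynomial.aeval x (f i) = 0) → x = 0) :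
    rs f d ≠ 0 := by
  have h1 : rs (fL K f) d ≠ 0 := by
    refine (rs_ne_zero_iff (f := fL K f) hd (fun i => (hf i).map _)).2 ?_
    intro x hx
    refine hz x fun i => ?_
    have h2 := congrFun hx i
    simp only [ev, fL, MvPolynomial.eval_map, Pi.zero_apply] at h2
    rwa [MvPolynomial.aeval_def]
  have h2 : rs (fL K f) d = algebraMap K (AlgebraicClosure K) (rs f d) := rs_map _ f d
  rw [h2] at h1
  exact fun h0 => h1 (by rw [h0, map_zero])

theorem lang (d : ℕ) (hd : 2 ≤ d) (D k l : ℕ)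
    (P : Fin l → MvPolynomial (Fin 2 × Fin (d + 1)) ℤ) (hP : ∀ j, IsInv.{u} d k (P j)) :
    ∃ C : ℝ, 0 < C ∧ ∀ (K : Type u) [Field K] [NumberField K], Module.finrank ℚ K ≤ D →
    ∀ f : Fin 2 → MvPolynomial (Fin 2) K, (∀ i, (f i).IsHomogeneous d) →
      (∀ x : Fin 2 → AlgebraicClosure K, (∀ i, MvPolynomial.aeval x (f i) = 0) → x = 0) →
    ∀ x : Fin 2 → K, x ≠ 0 → ¬ Pre f x →
      exp (-C * ({v : FinitePlace K | ¬ PotGood v.val d f}.ncard + 1) *
        log ({v : FinitePlace K | ¬ PotGood v.val d f}.ncard + 2)) * (1 + hmod d k l P f) ≤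
        hcan d f x := by
  obtain ⟨C₁, hC₁, h1⟩ := G4.hmod_le.{u} d hd D k l P hP
  obtain ⟨C₂, hC₂, h2⟩ := wandering.{u} d hd D (small_points.{u} d hd D)
  have hl2 : 0 < log (2 : ℝ) := log_pos (by norm_num)
  have hl1 : 0 < log (1 + C₁) := log_pos (by linarith)
  refine ⟨C₂ + 1 + log (1 + C₁) / log 2, by positivity, ?_⟩
  intro K _ _ hfin f hf hz x hx hpre
  have h0 : rs f d ≠ 0 := rs_ne_of_noZero (by omega) hf hz
  obtain ⟨μ, hμ, hmod'⟩ := h1 K hfin f hf h0
  have h3 := h2 K hfin f hf h0 μ hμ x hx hpre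
  set s : ℝ := ({v : FinitePlace K | ¬ PotGood v.val d f}.ncard : ℝ) with hs
  have hs0 : 0 ≤ s := Nat.cast_nonneg _
  have hls : log 2 ≤ log (s + 2) := log_le_log (by norm_num) (by linarith)
  have hls0 : 0 < log (s + 2) := lt_of_lt_of_le hl2 hls
  have hm0 : 0 ≤ max μ 0 := le_max_right _ _
  refine le_trans ?_ h3
  have h4 : 1 + hmod d k l P f ≤ (1 + C₁) * (s + 1) * (1 + max μ 0) := by
    have h5 : 1 ≤ (s + 1) * (1 + max μ 0) := by nlinarith [mul_nonneg hs0 hm0]
    nlinarith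
  have h5 : (1 + C₁) * (s + 1) ≤ exp ((1 + log (1 + C₁) / log 2) * ((s + 1) * log (s + 2))) := by
    have h6 : log (2 : ℝ) ≤ (s + 1) * log (s + 2) := by nlinarith
    have h7 : log ((1 + C₁) * (s + 1)) ≤
        (1 + log (1 + C₁) / log 2) * ((s + 1) * log (s + 2)) := by
      rw [log_mul (by linarith) (by linarith)]
      have h8 : log (s + 1) ≤ log (s + 2) := log_le_log (by linarith) (by linarith)
      have h9 : log (1 + C₁) ≤ log (1 + C₁) / log 2 * ((s + 1) * log (s + 2)) := by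
        rw [div_mul_eq_mul_div, le_div_iff₀ hl2]
        exact mul_le_mul_of_nonneg_left h6 hl1.le
      have h10 : log (s + 2) ≤ (s + 1) * log (s + 2) := by nlinarith
      linarith
    calc (1 + C₁) * (s + 1) = exp (log ((1 + C₁) * (s + 1))) := by
          rw [exp_log (by positivity)]
      _ ≤ _ := exp_le_exp.2 h7
  have h6 : exp (-(C₂ + 1 + log (1 + C₁) / log 2) * (s + 1) * log (s + 2)) *
      exp ((1 + log (1 + C₁) / log 2) * ((s + 1) * log (s + 2))) =
      exp (-C₂ * (s + 1) * log (s + 2)) := by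
    rw [← exp_add]
    congr 1
    ring
  calc exp (-(C₂ + 1 + log (1 + C₁) / log 2) * (s + 1) * log (s + 2)) *
        (1 + hmod d k l P f) ≤
      exp (-(C₂ + 1 + log (1 + C₁) / log 2) * (s + 1) * log (s + 2)) *
        ((1 + C₁) * (s + 1) * (1 + max μ 0)) :=
        mul_le_mul_of_nonneg_left h4 (exp_pos _).le
    _ ≤ exp (-(C₂ + 1 + log (1 + C₁) / log 2) * (s + 1) * log (s + 2)) *
        (exp ((1 + log (1 + C₁) / log 2) * ((s + 1) * log (s + 2))) * (1 + max μ 0)) := by
        refine mul_le_mul_of_nonneg_left ?_ (exp_pos _).le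
        exact mul_le_mul_of_nonneg_right h5 (by linarith)
    _ = exp (-C₂ * (s + 1) * log (s + 2)) * (1 + max μ 0) := by
        rw [← mul_assoc, h6]

end Pool.Agent.H951R3.PB
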