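import Pool.Agent.H951R3.PB.Lang
import Pool.Agent.H951R3.PB.F5

/-!
# Preperiodic points of rational maps: the bounds
-/

set_option autoImplicit false

namespace Pool.Agent.H951R3.PB

open Real Filter Topology NumberField

universe u

theorem main_pre (d : ℕ) (hd : 2 ≤ d) (D : ℕ) : ∃ C : ℝ, 0 < C ∧
    ∀ (K : Type u) [Field K] [NumberField K], Module.finrank ℚ K ≤ D →
    ∀ f : Fin 2 → MvPolynomial (Fin 2) K, (∀ i, (f i).IsHomogeneous d) →
      (∀ x : Fin 2 → AlgebraicClosure K, (∀ i, MvPolynomial.aeval x (f i) = 0) → x = 0) →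
    ∀ T : Finset (FinitePlace K), (∀ v, v ∉ T → PotGood v.val d f) →
    ∀ R : ℝ, 1 ≤ R →
      ((T.card : ℝ) ≤ R ∨
        ∃ (wi : InfinitePlace K → AbsoluteValue (AlgebraicClosure K) ℝ)
          (wf : FinitePlace K → AbsoluteValue (AlgebraicClosure K) ℝ)
          (j : InfinitePlace K ⊕ T), (∀ v, Ext v.val (wi v)) ∧ (∀ v, Ext v.val (wf v)) ∧
          ∑ v : InfinitePlace K, (1 + max (msz d f (wi v)) 0) +
            ∑ v ∈ T, (1 + max (msz d f (wf v)) 0) ≤
            R * (1 + max (msz d f (Sum.elim wi (fun v : T => wf v.1) j)) 0)) →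
    ∀ X : Finset (Fin 2 → K), (∀ x ∈ X, x ≠ 0) →
      (∀ x ∈ X, ∀ y ∈ X, ∀ c : K, x = c • y → x = y) →
      (∀ x ∈ X, ∃ m n : ℕ, m < n ∧ ∃ c : K, c ≠ 0 ∧
        (fun v : Fin 2 → K => fun i => MvPolynomial.eval v (f i))^[n] x =
          c • (fun v : Fin 2 → K => fun i => MvPolynomial.eval v (f i))^[m] x) →
      (X.card : ℝ) ≤ C * R * log (1 + R) := by
  obtain ⟨C₁, c₁, hC₁, hc₁, h1⟩ := small_points.{u} d hd D
  obtain ⟨C₂, c₂, hC₂, hc₂, h2⟩ := small_points_conc.{u} d hd D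
  refine ⟨max (4 * C₁) C₂, lt_of_lt_of_le hC₂ (le_max_right _ _), ?_⟩
  intro K _ _ hfin f hf hz T hT R hR1 hR X hX0 hXc hpre
  have h0 : rs f d ≠ 0 := rs_ne_of_noZero (by omega) hf hz
  have hX : ∀ x ∈ X, ∀ y ∈ X, x ≠ y → wd x y ≠ 0 := by
    intro x hx y hy hxy hw
    obtain ⟨c, -, hc⟩ := G6aux.parallel (hX0 x hx) (hX0 y hy) hw
    exact hxy (hXc y hy x hx c hc).symm
  have hcan0 : ∀ x ∈ X, hcan d f x = 0 := fun x hx => hcan_pre hd hf h0 (hX0 x hx) (hpre x hx)
  have hlR : 0 ≤ log (1 + R) := log_nonneg (by linarith)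
  rcases hR with hR | ⟨wi, wf, j, hwi, hwf, hR⟩
  · have h3 := h1 K hfin f hf h0 0 (Or.inl le_rfl) X hX0 hX (fun x hx => by
      rw [hcan0 x hx, max_self]
      positivity)
    set s : ℝ := ({v : FinitePlace K | ¬ PotGood v.val d f}.ncard : ℝ) with hs
    have hs0 : 0 ≤ s := Nat.cast_nonneg _
    have hsR : s ≤ R := by
      refine le_trans ?_ hR
      have h4 : {v : FinitePlace K | ¬ PotGood v.val d f}.ncard ≤ T.card := by
        rw [← Set.ncard_coe_finset T]
        refine Set.ncard_le_ncard (fun v hv => ?_) (Finset.finite_toSet T)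
        by_contra hcon
        exact hv (hT v hcon)
      rw [hs]
      exact_mod_cast h4
    have h4 : log (s + 2) ≤ 2 * log (1 + R) := by
      have h5 : log (s + 2) ≤ log ((1 + R) ^ 2) := by
        refine log_le_log (by linarith) ?_
        nlinarith
      rwa [log_pow] at h5
    have h5 : 0 ≤ log (s + 2) := log_nonneg (by linarith)
    calc (X.card : ℝ) ≤ C₁ * (s + 1) * log (s + 2) := h3
      _ ≤ C₁ * (2 * R) * (2 * log (1 + R)) := by
          have h6 : s + 1 ≤ 2 * R := by linarith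
          gcongr
      _ = (4 * C₁) * R * log (1 + R) := by ring
      _ ≤ max (4 * C₁) C₂ * R * log (1 + R) := by
          have := le_max_left (4 * C₁) C₂
          gcongr
  · have h3 := h2 K hfin f hf h0 wi hwi wf hwf T hT R j hR1 hR X hX0 hX (fun x hx => by
      rw [hcan0 x hx]
      positivity)
    refine h3.trans ?_
    have := le_max_right (4 * C₁) C₂
    gcongr

end Pool.Agent.H951R3.PB
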