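import Pool.Agent.H951R3.PB.Defs

set_option autoImplicit false

namespace Pool.Agent.H951R3.PB.Stubs

open Real Filter Topology NumberField

universe u

/-! ## A. general position -/

/-- A1 -/
theorem grid (M : ℕ) : ∃ δ : ℝ, 0 < δ ∧ δ ≤ 1 ∧ ∀ (L : Type u) [Field L] [IsAlgClosed L]
    [CharZero L] (w : AbsoluteValue L ℝ), ∃ s : Fin M → Fin 2 → L, (∀ i, nrm w (s i) = 1) ∧
      ∀ i j, i ≠ j → δ ≤ w (wd (s i) (s j)) := sorry

/-- A1 -/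
theorem grid_na (M : ℕ) {L : Type u} [Field L] [IsAlgClosed L] [CharZero L]
    (w : AbsoluteValue L ℝ) (hw : IsNonarchimedean w) : ∃ s : Fin M → Fin 2 → L,
      (∀ i, nrm w (s i) = 1) ∧ ∀ i j, i ≠ j → w (wd (s i) (s j)) = 1 := sorry

/-- A2 -/
theorem avoid {L : Type u} [Field L] (w : AbsoluteValue L ℝ) {M : ℕ} {δ : ℝ}
    (s : Fin M → Fin 2 → L) (hs : ∀ i, nrm w (s i) = 1)
    (hsep : ∀ i j, i ≠ j → δ ≤ w (wd (s i) (s j))) (hδ : 0 < δ) {ι : Type*} [Fintype ι]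
    (z : ι → Fin 2 → L) (hz : ∀ j, nrm w (z j) = 1) (hc : Fintype.card ι < M) :
    ∃ i, ∀ j, δ / 2 ≤ w (wd (s i) (z j)) := sorry

/-- A2 -/
theorem avoid_na {L : Type u} [Field L] (w : AbsoluteValue L ℝ) (hw : IsNonarchimedean w)
    {M : ℕ} (s : Fin M → Fin 2 → L) (hs : ∀ i, nrm w (s i) = 1)
    (hsep : ∀ i j, i ≠ j → w (wd (s i) (s j)) = 1) {ι : Type*} [Fintype ι]
    (z : ι → Fin 2 → L) (hz : ∀ j, nrm w (z j) = 1) (hc : Fintype.card ι < M) :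
    ∃ i, ∀ j, w (wd (s i) (z j)) = 1 := sorry

/-! ## B. iterates -/

/-- B1 -/
theorem fib_homog {L : Type u} [Field L] {w : AbsoluteValue L ℝ} {F : (Fin 2 → L) → Fin 2 → L}
    {D : ℕ} {r : ℝ} (h : Fib w F D r) (a : L) (x : Fin 2 → L) : F (a • x) = a ^ D • F x := sorry

/-- B1 -/
theorem fib_ne_zero {L : Type u} [Field L] {w : AbsoluteValue L ℝ}
    {F : (Fin 2 → L) → Fin 2 → L} {D : ℕ} {r : ℝ} (h : Fib w F D r) {x : Fin 2 → L}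
    (hx : x ≠ 0) : F x ≠ 0 := sorry

/-- B1 -/
theorem fib_comp {L : Type u} [Field L] {w : AbsoluteValue L ℝ}
    {F H : (Fin 2 → L) → Fin 2 → L} {D D' : ℕ} {r r' : ℝ} (hF : Fib w F D r)
    (hH : Fib w H D' r') : Fib w (F ∘ H) (D * D') (D' * r + (D : ℝ) ^ 2 * r') := sorry

/-- B1 -/
theorem fib_iter {L : Type u} [Field L] {w : AbsoluteValue L ℝ}
    {F : (Fin 2 → L) → Fin 2 → L} {d : ℕ} {r : ℝ} (hF : Fib w F d r) (k : ℕ) :
    Fib w (F^[k]) (d ^ k) (kap d k * r) := sorry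

/-- B2 -/
theorem fib_bounds (D : ℕ) (hD : 1 ≤ D) : ∃ B : ℝ, 0 ≤ B ∧ ∀ (L : Type u) [Field L]
    [IsAlgClosed L] [CharZero L] (w : AbsoluteValue L ℝ) (F : (Fin 2 → L) → Fin 2 → L) (r : ℝ),
    Fib w F D r →
      (∀ x, nrm w x = 1 → log (nrm w (F x)) ≤ Ssup w F) ∧
      (∃ x, nrm w x = 1 ∧ Ssup w F - 1 ≤ log (nrm w (F x))) ∧
      (∀ u C z, nrm w u = 1 → FibAt w F D r u C z → log (w C) ≤ Ssup w F + B) ∧
      (∀ x, nrm w x = 1 → Ssup w F - tt w F D r - B ≤ log (nrm w (F x))) := sorry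

/-- B2: exact version at nonarchimedean absolute values -/
theorem fib_bounds_na {L : Type u} [Field L] [IsAlgClosed L] [CharZero L]
    (w : AbsoluteValue L ℝ) (hw : IsNonarchimedean w) {F : (Fin 2 → L) → Fin 2 → L} {D : ℕ}
    (hD : 1 ≤ D) {r : ℝ} (h : Fib w F D r) :
    (∀ u C z, nrm w u = 1 → FibAt w F D r u C z → log (w C) ≤ Ssup w F) ∧
      (∀ x, nrm w x = 1 → Ssup w F - tt w F D r ≤ log (nrm w (F x))) := sorry

/-- B3 -/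
theorem Ssup_iter {L : Type u} [Field L] [IsAlgClosed L] [CharZero L] {w : AbsoluteValue L ℝ}
    {F : (Fin 2 → L) → Fin 2 → L} {d : ℕ} (hd : 2 ≤ d) {r : ℝ} (hF : Fib w F d r) (k : ℕ) :
    Ssup w (F^[k]) ≤ ((d : ℝ) ^ k - 1) / (d - 1) * Ssup w F := sorry

/-- B3 -/
theorem tt_iter {L : Type u} [Field L] [IsAlgClosed L] [CharZero L] {w : AbsoluteValue L ℝ}
    {F : (Fin 2 → L) → Fin 2 → L} {d : ℕ} (hd : 2 ≤ d) {r : ℝ} (hF : Fib w F d r) (k : ℕ) :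
    tt w (F^[k]) (d ^ k) (kap d k * r) ≤ kap d k * tt w F d r := sorry

/-- B3 -/
theorem tt_ge (d : ℕ) (hd : 2 ≤ d) : ∃ B : ℝ, 0 ≤ B ∧ ∀ (L : Type u) [Field L]
    [IsAlgClosed L] [CharZero L] (w : AbsoluteValue L ℝ) (F : (Fin 2 → L) → Fin 2 → L) (r : ℝ),
    Fib w F d r → -B ≤ tt w F d r := sorry

/-- B4: points in general position -/
theorem generic (d : ℕ) (hd : 2 ≤ d) (k P : ℕ) : ∃ c : ℝ, 0 < c ∧ ∀ (L : Type u) [Field L]
    [IsAlgClosed L] [CharZero L] (w : AbsoluteValue L ℝ) (F : (Fin 2 → L) → Fin 2 → L) (r : ℝ),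
    Fib w F d r → ∃ u : Fin P → Fin 2 → L, (∀ a, nrm w (u a) = 1) ∧
      ∀ a b, a ≠ b → Gen w F k c (u a) (u b) := sorry

/-! ## C. energies -/

/-- C1: Cauchy determinant -/
theorem cauchy_ineq {L : Type u} [Field L] (w : AbsoluteValue L ℝ) {n : ℕ}
    (x y : Fin n → Fin 2 → L) (hx : ∀ i, nrm w (x i) = 1) (hy : ∀ i, nrm w (y i) = 1)
    (hxx : ∀ i j, i ≠ j → wd (x i) (x j) ≠ 0) (hyy : ∀ i j, i ≠ j → wd (y i) (y j) ≠ 0)
    (hxy : ∀ i j, wd (x i) (y j) ≠ 0) (T : ℝ) (hT : ∀ i j, lam w (x i) (y j) ≤ T) :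
    -log (n.factorial) - n * T ≤
      ∑ i, ∑ j ∈ Finset.Ioi i, (lam w (x i) (x j) + lam w (y i) (y j)) -
        ∑ i, ∑ j, lam w (x i) (y j) := sorry

/-- C2 -/
theorem E_est (d : ℕ) (hd : 2 ≤ d) (k : ℕ) (c : ℝ) (hc : 0 < c) : ∃ B : ℝ, 0 ≤ B ∧
    ∀ (L : Type u) [Field L] [IsAlgClosed L] [CharZero L] (w : AbsoluteValue L ℝ)
      (F : (Fin 2 → L) → Fin 2 → L) (r : ℝ), Fib w F d r →
    ∀ u u', nrm w u = 1 → nrm w u' = 1 → Gen w F k c u u' → ∀ i ≤ k, ∀ j ≤ k,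
    ∀ (C : L) (z : Fin (d ^ i) → Fin 2 → L) (C' : L) (z' : Fin (d ^ j) → Fin 2 → L),
      FibAt w (F^[i]) (d ^ i) (kap d i * r) u C z →
      FibAt w (F^[j]) (d ^ j) (kap d j * r) u' C' z' →
      (∀ p q, wd (z p) (z' q) ≠ 0) ∧
      (∀ p q, lam w (z p) (z' q) ≤ kap d k * max (tt w F d r) 0 + B) ∧
      |(∑ p, ∑ q, lam w (z p) (z' q)) / ((d : ℝ) ^ i * (d : ℝ) ^ j) - EE w F d r i j| ≤ B := sorry

/-- C3: the energy of `δ_p + δ_q - δ_{p'} - δ_{q'}` is almost nonnegative -/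
theorem QQ_ge (d : ℕ) (hd : 2 ≤ d) (k N : ℕ) (hN : 1 ≤ N) : ∃ B : ℝ, 0 ≤ B ∧
    ∀ (L : Type u) [Field L] [IsAlgClosed L] [CharZero L] (w : AbsoluteValue L ℝ)
      (F : (Fin 2 → L) → Fin 2 → L) (r : ℝ), Fib w F d r →
    ∀ p q p' q', p ≤ k → q ≤ k → p' ≤ k → q' ≤ k →
      -B - 4 * kap d k * max (tt w F d r) 0 / N ≤ QQ (EE w F d r) p q p' q' := sorry

/-- C4: the capacity inequality -/
theorem capacity (d : ℕ) (hd : 2 ≤ d) : ∃ c B : ℝ, 0 < c ∧ 0 ≤ B ∧ ∀ (L : Type u) [Field L]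
    [IsAlgClosed L] [CharZero L] (w : AbsoluteValue L ℝ) (F : (Fin 2 → L) → Fin 2 → L) (r : ℝ),
    Fib w F d r → ∃ u, nrm w u = 1 ∧ c * tt w F d r - B ≤ 2 * Gr w F d u + ta d r := sorry

/-! ## D. Green functions and coordinates -/

/-- D1 -/
theorem gr_tendsto {L : Type u} [Field L] [IsAlgClosed L] [CharZero L] {w : AbsoluteValue L ℝ}
    {F : (Fin 2 → L) → Fin 2 → L} {d : ℕ} (hd : 2 ≤ d) {r : ℝ} (h : Fib w F d r)
    {x : Fin 2 → L} (hx : x ≠ 0) :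
    Tendsto (fun n : ℕ => log (nrm w (F^[n] x)) / (d : ℝ) ^ n) atTop (𝓝 (Gr w F d x)) := sorry

/-- D1 -/
theorem gr_map {L : Type u} [Field L] [IsAlgClosed L] [CharZero L] {w : AbsoluteValue L ℝ}
    {F : (Fin 2 → L) → Fin 2 → L} {d : ℕ} (hd : 2 ≤ d) {r : ℝ} (h : Fib w F d r)
    {x : Fin 2 → L} (hx : x ≠ 0) : Gr w F d (F x) = d * Gr w F d x := sorry

/-- D1 -/
theorem gr_smul {L : Type u} [Field L] [IsAlgClosed L] [CharZero L] {w : AbsoluteValue L ℝ}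
    {F : (Fin 2 → L) → Fin 2 → L} {d : ℕ} (hd : 2 ≤ d) {r : ℝ} (h : Fib w F d r)
    {x : Fin 2 → L} (hx : x ≠ 0) {a : L} (ha : a ≠ 0) :
    Gr w F d (a • x) = log (w a) + Gr w F d x := sorry

/-- D1 -/
theorem gr_upper {L : Type u} [Field L] [IsAlgClosed L] [CharZero L] {w : AbsoluteValue L ℝ}
    {F : (Fin 2 → L) → Fin 2 → L} {d : ℕ} (hd : 2 ≤ d) {r : ℝ} (h : Fib w F d r)
    {x : Fin 2 → L} (hx : x ≠ 0) (n : ℕ) :
    Gr w F d x ≤ log (nrm w (F^[n] x)) / (d : ℝ) ^ n + Ssup w F / ((d : ℝ) ^ n * (d - 1)) := sorry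

/-- D1 -/
theorem gr_lower (d : ℕ) (hd : 2 ≤ d) : ∃ B : ℝ, 0 ≤ B ∧ ∀ (L : Type u) [Field L]
    [IsAlgClosed L] [CharZero L] (w : AbsoluteValue L ℝ) (F : (Fin 2 → L) → Fin 2 → L) (r : ℝ),
    Fib w F d r → ∀ x, x ≠ 0 → ∀ n : ℕ,
      log (nrm w (F^[n] x)) / (d : ℝ) ^ n -
        (tt w F d r - Ssup w F + B) / ((d : ℝ) ^ n * (d - 1)) ≤ Gr w F d x := sorry

/-- D2 -/
theorem fib_cj {L : Type u} [Field L] {w : AbsoluteValue L ℝ} {F : (Fin 2 → L) → Fin 2 → L}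
    {d : ℕ} {r : ℝ} (h : Fib w F d r) {a b : Fin 2 → L} (hab : wd a b ≠ 0) :
    Fib w (cj a b F) d (cr w d r a b) := sorry

/-- D2 -/
theorem gr_cj {L : Type u} [Field L] [IsAlgClosed L] [CharZero L] {w : AbsoluteValue L ℝ}
    {F : (Fin 2 → L) → Fin 2 → L} {d : ℕ} (hd : 2 ≤ d) {r : ℝ} (h : Fib w F d r)
    {a b : Fin 2 → L} (hab : wd a b ≠ 0) {x : Fin 2 → L} (hx : x ≠ 0) :
    Gr w (cj a b F) d x = Gr w F d (emb a b x) := sorry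

/-- D2 -/
theorem gg_cj {L : Type u} [Field L] [IsAlgClosed L] [CharZero L] {w : AbsoluteValue L ℝ}
    {F : (Fin 2 → L) → Fin 2 → L} {d : ℕ} (hd : 2 ≤ d) {r : ℝ} (h : Fib w F d r)
    {a b : Fin 2 → L} (hab : wd a b ≠ 0) {x y : Fin 2 → L} (hxy : wd x y ≠ 0) :
    gg w (cj a b F) d (cr w d r a b) x y = gg w F d r (emb a b x) (emb a b y) := sorry

/-- D2 -/
theorem gg_scale {L : Type u} [Field L] [IsAlgClosed L] [CharZero L] {w : AbsoluteValue L ℝ}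
    {F : (Fin 2 → L) → Fin 2 → L} {d : ℕ} (hd : 2 ≤ d) {r : ℝ} (h : Fib w F d r)
    {c : L} (hc : c ≠ 0) {x y : Fin 2 → L} (hxy : wd x y ≠ 0) :
    Fib w (fun z => c • F z) d (r + 2 * d * log (w c)) ∧
      gg w (fun z => c • F z) d (r + 2 * d * log (w c)) x y = gg w F d r x y := sorry

/-- D3 -/
theorem mm_le {L : Type u} [Field L] [IsAlgClosed L] [CharZero L] {w : AbsoluteValue L ℝ}
    {F : (Fin 2 → L) → Fin 2 → L} {d : ℕ} (hd : 2 ≤ d) {r : ℝ} (h : Fib w F d r)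
    {a b : Fin 2 → L} (hab : wd a b ≠ 0) :
    mm w F d r ≤ tt w (cj a b F) d (cr w d r a b) := sorry

/-- D3 -/
theorem exists_mm {L : Type u} [Field L] [IsAlgClosed L] [CharZero L] {w : AbsoluteValue L ℝ}
    {F : (Fin 2 → L) → Fin 2 → L} {d : ℕ} (hd : 2 ≤ d) {r : ℝ} (h : Fib w F d r) :
    ∃ a b : Fin 2 → L, wd a b ≠ 0 ∧ tt w (cj a b F) d (cr w d r a b) ≤ mm w F d r + 1 := sorry

/-- D3 -/
theorem mm_ge (d : ℕ) (hd : 2 ≤ d) : ∃ B : ℝ, 0 ≤ B ∧ ∀ (L : Type u) [Field L]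
    [IsAlgClosed L] [CharZero L] (w : AbsoluteValue L ℝ) (F : (Fin 2 → L) → Fin 2 → L) (r : ℝ),
    Fib w F d r → -B ≤ mm w F d r := sorry

/-- D4 -/
theorem cells (d : ℕ) (hd : 2 ≤ d) (η : ℝ) (hη : 0 < η) : ∃ (M : ℕ) (B : ℝ), 0 ≤ B ∧
    ∀ (L : Type u) [Field L] [IsAlgClosed L] [CharZero L] (w : AbsoluteValue L ℝ)
      (F : (Fin 2 → L) → Fin 2 → L) (r : ℝ), Fib w F d r →
    ∃ cell : (Fin 2 → L) → Fin M, ∀ x y, nrm w x = 1 → nrm w y = 1 → cell x = cell y →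
      ∀ α β : L, w α ≤ 1 → w β ≤ 1 → α • x + β • y ≠ 0 →
        Gr w F d (α • x + β • y) ≤ Gr w F d x + η * max (tt w F d r) 0 + B := sorry

/-- D5: points in the same cell repel -/
theorem gain (d : ℕ) (hd : 2 ≤ d) : ∃ (M : ℕ) (c B : ℝ), 0 < c ∧ 0 ≤ B ∧
    ∀ (L : Type u) [Field L] [IsAlgClosed L] [CharZero L] (w : AbsoluteValue L ℝ)
      (F : (Fin 2 → L) → Fin 2 → L) (r : ℝ), Fib w F d r →
    ∃ cell : (Fin 2 → L) → Fin M, ∀ x y, wd x y ≠ 0 → cell x = cell y →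
      c * mm w F d r - B ≤ gg w F d r x y := sorry

/-- D6: the Green pairing is not much below `λ` in good coordinates -/
theorem gg_ge_lam (d : ℕ) (hd : 2 ≤ d) : ∃ B : ℝ, 0 ≤ B ∧
    ∀ (L : Type u) [Field L] [IsAlgClosed L] [CharZero L] (w : AbsoluteValue L ℝ)
      (F : (Fin 2 → L) → Fin 2 → L) (r : ℝ), Fib w F d r →
    ∃ a b : Fin 2 → L, wd a b ≠ 0 ∧ ∀ x y, wd x y ≠ 0 →
      lam w (coo a b x) (coo a b y) - B * (max (mm w F d r) 0 + 1) ≤ gg w F d r x y := sorry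

/-! ## E. forms, resultants, the loss -/

/-- E1 -/
theorem rs_map {K L : Type u} [Field K] [Field L] (σ : K →+* L)
    (f : Fin 2 → MvPolynomial (Fin 2) K) (d : ℕ) :
    rs (fun i => (f i).map σ) d = σ (rs f d) := sorry

/-- E1 -/
theorem rs_ne_zero_iff {L : Type u} [Field L] [IsAlgClosed L] {d : ℕ} (hd : 1 ≤ d)
    {f : Fin 2 → MvPolynomial (Fin 2) L} (hf : ∀ i, (f i).IsHomogeneous d) :
    rs f d ≠ 0 ↔ ∀ x : Fin 2 → L, ev f x = 0 → x = 0 := sorry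

/-- E2 -/
theorem fib_base {L : Type u} [Field L] [IsAlgClosed L] (w : AbsoluteValue L ℝ) {d : ℕ}
    (hd : 1 ≤ d) {f : Fin 2 → MvPolynomial (Fin 2) L} (hf : ∀ i, (f i).IsHomogeneous d)
    (h0 : rs f d ≠ 0) : Fib w (ev f) d (log (w (rs f d))) := sorry

/-- E2 -/
theorem fib_unique {L : Type u} [Field L] [IsAlgClosed L] (w : AbsoluteValue L ℝ) {d : ℕ}
    (hd : 1 ≤ d) {f : Fin 2 → MvPolynomial (Fin 2) L} (hf : ∀ i, (f i).IsHomogeneous d)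
    {r : ℝ} (h : Fib w (ev f) d r) : r = log (w (rs f d)) := sorry

/-- E3 -/
theorem poly_cj {L : Type u} [Field L] [IsAlgClosed L] {d : ℕ}
    (hd : 1 ≤ d) {f : Fin 2 → MvPolynomial (Fin 2) L} (hf : ∀ i, (f i).IsHomogeneous d)
    (h0 : rs f d ≠ 0) {a b : Fin 2 → L} (hab : wd a b ≠ 0) :
    ∃ g : Fin 2 → MvPolynomial (Fin 2) L, (∀ i, (g i).IsHomogeneous d) ∧
      ev g = cj a b (ev f) ∧ rs g d ≠ 0 := sorry

/-- E4: the determinant formula -/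
theorem det_formula {K : Type u} [Field K] {d : ℕ} (hd : 1 ≤ d)
    {f : Fin 2 → MvPolynomial (Fin 2) K} (hf : ∀ i, (f i).IsHomogeneous d) (m : ℕ) :
    ∃ B : Fin (d ^ m) → (Fin 2 → K) → K, ∀ (w : AbsoluteValue K ℝ),
      (∀ α x, w (B α x) ≤ ∏ j ∈ Finset.range m, nrm w ((ev f)^[j] x) ^ (d - 1)) ∧
      ∀ x : Fin (d ^ m) → Fin 2 → K,
        w (Matrix.det (Matrix.of fun i α => B α (x i))) =
          w (rs f d) ^ (ee d m) * ∏ i, ∏ j ∈ Finset.Ioi i, w (wd (x i) (x j)) := sorry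

/-- E5 -/
theorem loss0 (d : ℕ) (hd : 2 ≤ d) : ∃ B : ℝ, 0 ≤ B ∧
    ∀ (L : Type u) [Field L] [IsAlgClosed L] [CharZero L] (w : AbsoluteValue L ℝ)
      (f : Fin 2 → MvPolynomial (Fin 2) L), (∀ i, (f i).IsHomogeneous d) → rs f d ≠ 0 →
    ∀ (m : ℕ) (x : Fin (d ^ m) → Fin 2 → L), (∀ i, x i ≠ 0) →
      (∀ i j, i ≠ j → wd (x i) (x j) ≠ 0) →
      -((d : ℝ) ^ m * (m * (tt w (ev f) d (log (w (rs f d))) + B))) -
          (d : ℝ) ^ m * (m * log d) ≤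
        ∑ i, ∑ j ∈ Finset.Ioi i, gg w (ev f) d (log (w (rs f d))) (x i) (x j) := sorry

/-- E6 -/
theorem loss (d : ℕ) (hd : 2 ≤ d) : ∃ B : ℝ, 0 ≤ B ∧
    ∀ (L : Type u) [Field L] [IsAlgClosed L] [CharZero L] (w : AbsoluteValue L ℝ)
      (f : Fin 2 → MvPolynomial (Fin 2) L), (∀ i, (f i).IsHomogeneous d) → rs f d ≠ 0 →
    ∀ (m : ℕ) (x : Fin (d ^ m) → Fin 2 → L), (∀ i, x i ≠ 0) →
      (∀ i j, i ≠ j → wd (x i) (x j) ≠ 0) →
      -((d : ℝ) ^ m * (m * (mm w (ev f) d (log (w (rs f d))) + B))) ≤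
        ∑ i, ∑ j ∈ Finset.Ioi i, gg w (ev f) d (log (w (rs f d))) (x i) (x j) := sorry

/-! ## F. number fields -/

/-- F1 -/
theorem exists_ext_fin {K : Type u} [Field K] [NumberField K] (v : FinitePlace K) :
    ∃ w : AbsoluteValue (AlgebraicClosure K) ℝ, Ext v.val w := sorry

/-- F1 -/
theorem exists_ext_inf {K : Type u} [Field K] [NumberField K] (v : InfinitePlace K) :
    ∃ w : AbsoluteValue (AlgebraicClosure K) ℝ, Ext v.val w := sorry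

/-- F1 -/
theorem ext_na {K : Type u} [Field K] [NumberField K] (v : FinitePlace K)
    (w : AbsoluteValue (AlgebraicClosure K) ℝ) (h : Ext v.val w) : IsNonarchimedean w := sorry

/-- F2 -/
theorem potgood_gg {K : Type u} [Field K] [NumberField K] {d : ℕ} (hd : 2 ≤ d)
    {f : Fin 2 → MvPolynomial (Fin 2) K} (hf : ∀ i, (f i).IsHomogeneous d)
    (h0 : rs (fL K f) d ≠ 0) (w : AbsoluteValue (AlgebraicClosure K) ℝ)
    (hw : IsNonarchimedean w) (h : PotGoodAt w d f) {x y : Fin 2 → AlgebraicClosure K}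
    (hxy : wd x y ≠ 0) : 0 ≤ gg w (ev (fL K f)) d (log (w (rs (fL K f) d))) x y := sorry

/-- F3 -/
theorem bad_finite {K : Type u} [Field K] [NumberField K] {d : ℕ} (hd : 1 ≤ d)
    {f : Fin 2 → MvPolynomial (Fin 2) K} (hf : ∀ i, (f i).IsHomogeneous d)
    (h0 : rs f d ≠ 0) : {v : FinitePlace K | ¬ PotGood v.val d f}.Finite := sorry

/-- F4: global inequality (product formula) -/
theorem global_le {K : Type u} [Field K] [NumberField K] {d : ℕ} (hd : 2 ≤ d)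
    {f : Fin 2 → MvPolynomial (Fin 2) K} (hf : ∀ i, (f i).IsHomogeneous d)
    (h0 : rs f d ≠ 0) (wi : InfinitePlace K → AbsoluteValue (AlgebraicClosure K) ℝ)
    (hwi : ∀ v, Ext v.val (wi v)) (wf : FinitePlace K → AbsoluteValue (AlgebraicClosure K) ℝ)
    (hwf : ∀ v, Ext v.val (wf v)) {x y : Fin 2 → K} (hxy : wd x y ≠ 0)
    (S : Finset (FinitePlace K))
    (hS : ∀ v, v ∉ S →
      0 ≤ gg (wf v) (ev (fL K f)) d (log (wf v (rs (fL K f) d))) (vL K x) (vL K y)) :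
    ∑ v : InfinitePlace K, (v.mult : ℝ) *
        gg (wi v) (ev (fL K f)) d (log (wi v (rs (fL K f) d))) (vL K x) (vL K y) +
      ∑ v ∈ S, gg (wf v) (ev (fL K f)) d (log (wf v (rs (fL K f) d))) (vL K x) (vL K y) ≤
      hcan d f x + hcan d f y := sorry

/-- F5: preperiodic points have canonical height zero -/
theorem hcan_pre {K : Type u} [Field K] [NumberField K] {d : ℕ} (hd : 2 ≤ d)
    {f : Fin 2 → MvPolynomial (Fin 2) K} (hf : ∀ i, (f i).IsHomogeneous d)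
    (h0 : rs f d ≠ 0) {x : Fin 2 → K} (hx : x ≠ 0) (h : Pre f x) : hcan d f x = 0 := sorry

/-- F6: local nets -/
theorem fin_net (Q : ℕ) (A : ℝ) : ∃ M : ℕ, ∀ (K : Type u) [Field K] [NumberField K]
    (v : FinitePlace K), Ideal.absNorm v.maximalIdeal.asIdeal ≤ Q → ∀ R : ℝ, 0 < R →
    ∃ cell : K → Fin M, ∀ x y, v x ≤ R → v y ≤ R → cell x = cell y →
      v (x - y) ≤ exp (-A) * R := sorry

/-- F7: classes of `K`-rational points at a small place -/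
theorem aux_classes (Q : ℕ) (A : ℝ) : ∃ M : ℕ, ∀ (K : Type u) [Field K] [NumberField K]
    (v : FinitePlace K), Ideal.absNorm v.maximalIdeal.asIdeal ≤ Q →
    ∀ (w : AbsoluteValue (AlgebraicClosure K) ℝ), Ext v.val w → IsNonarchimedean w →
    ∀ (a b : Fin 2 → AlgebraicClosure K), wd a b ≠ 0 →
    ∃ cell : (Fin 2 → K) → Fin M, ∀ x y, wd x y ≠ 0 → cell x = cell y →
      A ≤ lam w (coo a b (vL K x)) (coo a b (vL K y)) := sorry

/-- F8 -/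
theorem aux_gain (d : ℕ) (hd : 2 ≤ d) (Q : ℕ) (A : ℝ) : ∃ M : ℕ, ∀ (K : Type u) [Field K]
    [NumberField K] (v : FinitePlace K), Ideal.absNorm v.maximalIdeal.asIdeal ≤ Q →
    ∀ (w : AbsoluteValue (AlgebraicClosure K) ℝ), Ext v.val w → IsNonarchimedean w →
    ∀ (F : (Fin 2 → AlgebraicClosure K) → Fin 2 → AlgebraicClosure K) (r : ℝ), Fib w F d r →
    ∃ cell : (Fin 2 → K) → Fin M, ∀ x y, wd x y ≠ 0 → cell x = cell y →
      A ≤ gg w F d r (vL K x) (vL K y) := sorry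

/-- F9: the number of points of small canonical height -/
theorem small_points (d : ℕ) (hd : 2 ≤ d) (D : ℕ) : ∃ C c : ℝ, 0 < C ∧ 0 < c ∧
    ∀ (K : Type u) [Field K] [NumberField K], Module.finrank ℚ K ≤ D →
    ∀ f : Fin 2 → MvPolynomial (Fin 2) K, (∀ i, (f i).IsHomogeneous d) → rs f d ≠ 0 →
    ∀ (μ : ℝ), (μ ≤ 0 ∨ ∃ (v : AbsoluteValue K ℝ) (w : AbsoluteValue (AlgebraicClosure K) ℝ),
      (IsInfinitePlace v ∨ IsFinitePlace v) ∧ Ext v w ∧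
        μ ≤ mm w (ev (fL K f)) d (log (w (rs (fL K f) d)))) →
    ∀ X : Finset (Fin 2 → K), (∀ x ∈ X, x ≠ 0) → (∀ x ∈ X, ∀ y ∈ X, x ≠ y → wd x y ≠ 0) →
      (∀ x ∈ X, hcan d f x ≤ c * (1 + max μ 0)) →
      (X.card : ℝ) ≤ C * ({v : FinitePlace K | ¬ PotGood v.val d f}.ncard + 1) *
        log ({v : FinitePlace K | ¬ PotGood v.val d f}.ncard + 2) := sorry

end Pool.Agent.H951R3.PB.Stubs
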