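import Pool.Agent.H951R3.PB.Defs

/-!
# Statements for the height lower bound (MP_4f5c90_nt)
-/

set_option autoImplicit false

namespace Pool.Agent.H951R3.PB

open Real Filter Topology NumberField

universe u

/-- coefficient vector of a pair of binary forms of degree `d`:
`(i, j) ↦` coefficient of `X₀ ^ j X₁ ^ (d - j)` in `f i` -/
noncomputable def cf {L : Type u} [Field L] (d : ℕ) (f : Fin 2 → MvPolynomial (Fin 2) L) :
    Fin 2 × Fin (d + 1) → L :=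
  fun p => (f p.1).coeff (Finsupp.single 0 (p.2 : ℕ) + Finsupp.single 1 (d - p.2))

/-- `P` is homogeneous of degree `2 d k` in the coefficients, and `P / Res ^ k` is invariant under
linear changes of coordinates: a regular function on the moduli space of rational maps of degree
`d`. -/
def IsInv (d k : ℕ) (P : MvPolynomial (Fin 2 × Fin (d + 1)) ℤ) : Prop :=
  P.IsHomogeneous (2 * d * k) ∧ ∀ (L : Type u) [Field L] [IsAlgClosed L] [CharZero L]
    (f g : Fin 2 → MvPolynomial (Fin 2) L), (∀ i, (f i).IsHomogeneous d) →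
    (∀ i, (g i).IsHomogeneous d) → rs f d ≠ 0 → rs g d ≠ 0 →
    ∀ (A : Matrix (Fin 2) (Fin 2) L), A.det ≠ 0 →
      (∀ x : Fin 2 → L, A.mulVec (ev g x) = ev f (A.mulVec x)) →
      MvPolynomial.aeval (cf d g) P / rs g d ^ k = MvPolynomial.aeval (cf d f) P / rs f d ^ k

/-- height (relative to `K`) of the point `[Res^k : P_1 : ... : P_l]` -/
noncomputable def hmod {K : Type u} [Field K] [NumberField K] (d k l : ℕ)
    (P : Fin l → MvPolynomial (Fin 2 × Fin (d + 1)) ℤ) (f : Fin 2 → MvPolynomial (Fin 2) K) : ℝ :=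
  Height.logHeight (fun j : Option (Fin l) =>
    j.elim (rs f d ^ k) (fun i => MvPolynomial.aeval (cf d f) (P i)))

namespace StubsG

/-- G1 -/
theorem coef_le (d : ℕ) (hd : 1 ≤ d) : ∃ B : ℝ, 0 ≤ B ∧ ∀ (L : Type u) [Field L]
    [IsAlgClosed L] [CharZero L] (w : AbsoluteValue L ℝ) (f : Fin 2 → MvPolynomial (Fin 2) L),
    (∀ i, (f i).IsHomogeneous d) → rs f d ≠ 0 →
      (∀ p, w (cf d f p) ≤ exp (Ssup w (ev f) + B)) ∧
      (IsNonarchimedean w → ∀ p, w (cf d f p) ≤ exp (Ssup w (ev f))) := sorry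

/-- G2 -/
theorem inv_le (d : ℕ) (hd : 2 ≤ d) (k : ℕ) (P : MvPolynomial (Fin 2 × Fin (d + 1)) ℤ)
    (hP : IsInv.{u} d k P) : ∃ B : ℝ, 0 ≤ B ∧ ∀ (L : Type u) [Field L] [IsAlgClosed L]
    [CharZero L] (w : AbsoluteValue L ℝ) (f : Fin 2 → MvPolynomial (Fin 2) L),
    (∀ i, (f i).IsHomogeneous d) → rs f d ≠ 0 →
      w (MvPolynomial.aeval (cf d f) P / rs f d ^ k) ≤
        exp (k * mm w (ev f) d (log (w (rs f d))) + B) := sorry

/-- G3 -/
theorem inv_le_potgood {K : Type u} [Field K] [NumberField K] {d : ℕ} (hd : 2 ≤ d) (k : ℕ)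
    (P : MvPolynomial (Fin 2 × Fin (d + 1)) ℤ) (hP : IsInv.{u} d k P)
    {f : Fin 2 → MvPolynomial (Fin 2) K} (hf : ∀ i, (f i).IsHomogeneous d)
    (h0 : rs f d ≠ 0) (v : FinitePlace K) (h : PotGood v.val d f) :
    v (MvPolynomial.aeval (cf d f) P / rs f d ^ k) ≤ 1 := sorry

/-- G4: the moduli height is bounded by the local sizes -/
theorem hmod_le (d : ℕ) (hd : 2 ≤ d) (D k l : ℕ)
    (P : Fin l → MvPolynomial (Fin 2 × Fin (d + 1)) ℤ) (hP : ∀ j, IsInv.{u} d k (P j)) :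
    ∃ C : ℝ, 0 < C ∧ ∀ (K : Type u) [Field K] [NumberField K], Module.finrank ℚ K ≤ D →
    ∀ f : Fin 2 → MvPolynomial (Fin 2) K, (∀ i, (f i).IsHomogeneous d) → rs f d ≠ 0 →
    ∃ μ : ℝ, (μ ≤ 0 ∨ ∃ (v : AbsoluteValue K ℝ) (w : AbsoluteValue (AlgebraicClosure K) ℝ),
      (IsInfinitePlace v ∨ IsFinitePlace v) ∧ Ext v w ∧
        μ ≤ mm w (ev (fL K f)) d (log (w (rs (fL K f) d)))) ∧
      hmod d k l P f ≤
        C * ({v : FinitePlace K | ¬ PotGood v.val d f}.ncard + 1) * (1 + max μ 0) := sorry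

/-- G5 -/
theorem hcan_map {K : Type u} [Field K] [NumberField K] {d : ℕ} (hd : 2 ≤ d)
    {f : Fin 2 → MvPolynomial (Fin 2) K} (hf : ∀ i, (f i).IsHomogeneous d)
    (h0 : rs f d ≠ 0) {x : Fin 2 → K} (hx : x ≠ 0) : hcan d f (ev f x) = d * hcan d f x := sorry

/-- G5 -/
theorem hcan_nonneg {K : Type u} [Field K] [NumberField K] {d : ℕ} (hd : 2 ≤ d)
    {f : Fin 2 → MvPolynomial (Fin 2) K} (hf : ∀ i, (f i).IsHomogeneous d)
    (h0 : rs f d ≠ 0) {x : Fin 2 → K} (hx : x ≠ 0) : 0 ≤ hcan d f x := sorry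

/-- G6: from the number of small points to a lower bound for the height of wandering points -/
theorem wandering (d : ℕ) (hd : 2 ≤ d) (D : ℕ)
    (hsmall : ∃ C c : ℝ, 0 < C ∧ 0 < c ∧
    ∀ (K : Type u) [Field K] [NumberField K], Module.finrank ℚ K ≤ D →
    ∀ f : Fin 2 → MvPolynomial (Fin 2) K, (∀ i, (f i).IsHomogeneous d) → rs f d ≠ 0 →
    ∀ (μ : ℝ), (μ ≤ 0 ∨ ∃ (v : AbsoluteValue K ℝ) (w : AbsoluteValue (AlgebraicClosure K) ℝ),
      (IsInfinitePlace v ∨ IsFinitePlace v) ∧ Ext v w ∧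
        μ ≤ mm w (ev (fL K f)) d (log (w (rs (fL K f) d)))) →
    ∀ X : Finset (Fin 2 → K), (∀ x ∈ X, x ≠ 0) → (∀ x ∈ X, ∀ y ∈ X, x ≠ y → wd x y ≠ 0) →
      (∀ x ∈ X, hcan d f x ≤ c * (1 + max μ 0)) →
      (X.card : ℝ) ≤ C * ({v : FinitePlace K | ¬ PotGood v.val d f}.ncard + 1) *
        log ({v : FinitePlace K | ¬ PotGood v.val d f}.ncard + 2)) :
    ∃ C : ℝ, 0 < C ∧ ∀ (K : Type u) [Field K] [NumberField K], Module.finrank ℚ K ≤ D →
    ∀ f : Fin 2 → MvPolynomial (Fin 2) K, (∀ i, (f i).IsHomogeneous d) → rs f d ≠ 0 →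
    ∀ (μ : ℝ), (μ ≤ 0 ∨ ∃ (v : AbsoluteValue K ℝ) (w : AbsoluteValue (AlgebraicClosure K) ℝ),
      (IsInfinitePlace v ∨ IsFinitePlace v) ∧ Ext v w ∧
        μ ≤ mm w (ev (fL K f)) d (log (w (rs (fL K f) d)))) →
    ∀ x : Fin 2 → K, x ≠ 0 → ¬ Pre f x →
      exp (-C * ({v : FinitePlace K | ¬ PotGood v.val d f}.ncard + 1) *
        log ({v : FinitePlace K | ¬ PotGood v.val d f}.ncard + 2)) * (1 + max μ 0) ≤
        hcan d f x := sorry

end StubsG

end Pool.Agent.H951R3.PB
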